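import Pool.Agent.Work.MP_43c1cf_co.Face2

/-!
# Weyl-Minkowski for finite vector families in face-lattice form
-/

set_option autoImplicit false

namespace Pool.Agent.Work.MP_43c1cf_co

open Module

variable {ι X : Type*} [AddCommGroup X] [Module ℝ X]

variable {u : ι → X} {J T : Finset ι}

/-- A facet containing `T` and avoiding a given `a ∉ T`. -/
lemma exists_facet_avoid (hT : IsFace u J T) {a : ι} (haJ : a ∈ J) (haT : a ∉ T) :
    ∃ F, Cov u J F J ∧ T ⊆ F ∧ a ∉ F := by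
  classical
  have hne : (J.powerset.filter (fun Q => IsFace u J Q ∧ T ⊆ Q ∧ a ∉ Q)).Nonempty :=
    ⟨T, by simp [hT, hT.1, haT]⟩
  obtain ⟨Q, hQ, hmax⟩ := Finset.exists_max_image _ Finset.card hne
  rw [Finset.mem_filter] at hQ
  obtain ⟨-, hQf, hTQ, haQ⟩ := hQ
  have hmax' : ∀ Q', IsFace u J Q' → Q ⊂ Q' → a ∈ Q' := by
    intro Q' hQ' hss
    by_contra haQ'
    have := hmax Q' (by
      rw [Finset.mem_filter, Finset.mem_powerset]
      exact ⟨hQ'.1, hQ', hTQ.trans hss.1, haQ'⟩)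
    exact absurd (Finset.card_lt_card hss) (by omega)
  have hQJ : Q ⊂ J := Finset.ssubset_iff_subset_ne.2 ⟨hQf.1, fun e => haQ (e ▸ haJ)⟩
  obtain ⟨Q1, hQ1, -⟩ := exists_cov_le hQf (isFace_self u J) hQJ
  by_cases hQ1J : Q1 = J
  · exact ⟨Q, hQ1J ▸ hQ1, hTQ, haQ⟩
  · exfalso
    have hQ1ss : Q1 ⊂ J := Finset.ssubset_iff_subset_ne.2 ⟨hQ1.right.1, hQ1J⟩
    obtain ⟨Q2, hQ2, -⟩ := exists_cov_le hQ1.right (isFace_self u J) hQ1ss
    obtain ⟨Q', hne', h1, h2, -⟩ := diamond_exists hQ1 hQ2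
    have hi := inter_cov h1 hQ1 hne'
    exact haQ (hi ▸ Finset.mem_inter.2 ⟨hmax' Q' h1.right h1.ss, hmax' Q1 hQ1.right hQ1.ss⟩)

/-- Membership in the span of a facet. -/
lemma mem_sp_facet {F : Finset ι} (hF : Cov u J F J) {φ : X →ₗ[ℝ] ℝ}
    (hφ : ∀ i ∈ F, φ (u i) = 0) {b : ι} (hb : b ∈ J) (hbF : b ∉ F) (hφb : φ (u b) ≠ 0) {x : X}
    (hx : x ∈ sp u J) (hφx : φ x = 0) : x ∈ sp u F := by
  rw [hF.sp_insert hb hbF, Submodule.mem_sup] at hx
  obtain ⟨y, hy, z, hz, rfl⟩ := hx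
  obtain ⟨t, rfl⟩ := Submodule.mem_span_singleton.1 hz
  rw [map_add, map_smul, vanish_sp hφ hy, zero_add, smul_eq_mul] at hφx
  rcases mul_eq_zero.1 hφx with h | h
  · rw [h, zero_smul, add_zero]; exact hy
  · exact absurd h hφb

lemma cone_cover_aux : ∀ (m : ℕ) (J : Finset ι) (x : X), J.card ≤ m → IsFace u J T → x ∈ sp u J →
    (∀ F, Cov u J F J → T ⊆ F → ∀ φ : X →ₗ[ℝ] ℝ, (∀ i ∈ J, 0 ≤ φ (u i)) →
      (∀ i ∈ F, φ (u i) = 0) → 0 ≤ φ x) →
    ∃ y ∈ sp u T, ∃ c : ι → ℝ, (∀ i, 0 ≤ c i) ∧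
      (∀ i, c i ≠ 0 → i ∈ J ∧ i ∉ T ∧ ∃ R, Cov u J T R ∧ i ∈ R) ∧
      x = y + ∑ i ∈ J, c i • u i := by
  classical
  intro m
  induction m with
  | zero =>
    intro J x hJ hT hx _
    have hJ0 : J = ∅ := by
      rw [← Finset.card_eq_zero]; omega
    subst hJ0
    have hT0 : T = ∅ := Finset.subset_empty.1 hT.1
    subst hT0
    exact ⟨x, hx, fun _ => 0, fun _ => le_rfl, fun i h => absurd rfl h, by simp⟩
  | succ m ih =>
    intro J x hJ hT hx hpos
    by_cases hTJ : T = J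
    · subst hTJ
      exact ⟨x, hx, fun _ => 0, fun _ => le_rfl, fun i h => absurd rfl h, by simp⟩
    have hss : T ⊂ J := Finset.ssubset_iff_subset_ne.2 ⟨hT.1, hTJ⟩
    obtain ⟨R, hR, -⟩ := exists_cov_le hT (isFace_self u J) hss
    obtain ⟨a, haR, haT⟩ := Finset.exists_of_ssubset hR.ss
    have haJ := hR.right.1 haR
    -- functionals of the faces
    have hex : ∀ F, ∃ φ : X →ₗ[ℝ] ℝ, Cov u J F J → (∀ i ∈ J, 0 ≤ φ (u i)) ∧
        (∀ i ∈ F, φ (u i) = 0) ∧ (∀ i ∈ J, i ∉ F → 0 < φ (u i)) := by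
      intro F
      by_cases hF : Cov u J F J
      · obtain ⟨φ, h1, h2, h3, -⟩ := hF.left.exists_pos
        exact ⟨φ, fun _ => ⟨h1, h2, h3⟩⟩
      · exact ⟨0, fun h => absurd h hF⟩
    choose φ hφ using hex
    set S := J.powerset.filter (fun F => Cov u J F J ∧ T ⊆ F ∧ a ∉ F) with hS
    have hSne : S.Nonempty := by
      obtain ⟨F, h1, h2, h3⟩ := exists_facet_avoid hT haJ haT
      exact ⟨F, by rw [hS, Finset.mem_filter, Finset.mem_powerset]; exact ⟨h1.sub, h1, h2, h3⟩⟩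
    obtain ⟨F0, hF0S, hmin⟩ := Finset.exists_min_image S (fun F => φ F x / φ F (u a)) hSne
    rw [hS, Finset.mem_filter] at hF0S
    obtain ⟨-, hF0, hTF0, haF0⟩ := hF0S
    obtain ⟨p1, p2, p3⟩ := hφ F0 hF0
    have hφa := p3 a haJ haF0
    set s := φ F0 x / φ F0 (u a) with hs
    have hs0 : 0 ≤ s := div_nonneg (hpos F0 hF0 hTF0 _ p1 p2) hφa.le
    have hx' : x - s • u a ∈ sp u J := Submodule.sub_mem _ hx (Submodule.smul_mem _ _ (mem_sp haJ))
    have hx'F0 : x - s • u a ∈ sp u F0 := by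
      refine mem_sp_facet hF0 p2 haJ haF0 hφa.ne' hx' ?_
      rw [map_sub, map_smul, smul_eq_mul, hs, div_mul_cancel₀ _ hφa.ne', sub_self]
    have hpos' : ∀ F, Cov u J F J → T ⊆ F → 0 ≤ φ F (x - s • u a) := by
      intro F hF hTF
      obtain ⟨q1, q2, q3⟩ := hφ F hF
      rw [map_sub, map_smul, smul_eq_mul]
      by_cases haF : a ∈ F
      · rw [q2 a haF, mul_zero, sub_zero]
        exact hpos F hF hTF _ q1 q2
      · have h1 := hmin F (by
          rw [hS, Finset.mem_filter, Finset.mem_powerset]; exact ⟨hF.sub, hF, hTF, haF⟩)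
        have h2 := q3 a haJ haF
        rw [le_div_iff₀ h2] at h1
        linarith
    have hcard : F0.card ≤ m := by
      have := Finset.card_lt_card hF0.ss
      omega
    have hTF0' : IsFace u F0 T := hT.restrict hF0.sub hTF0
    obtain ⟨y, hy, c, hc0, hcs, hxy⟩ := ih F0 (x - s • u a) hcard hTF0' hx'F0 (by
      intro R' hR' hTR' η hη hη0
      have hR'J : Cov u J R' F0 := hR'.extend hF0.left
      obtain ⟨G, hGne, hG1, hG2, -⟩ := diamond_exists hR'J hF0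
      obtain ⟨q1, q2, q3⟩ := hφ G hG2
      have hi := inter_cov hG1 hR'J hGne
      obtain ⟨b, hb, hbR'⟩ := Finset.exists_of_ssubset hR'.ss
      have hbG : b ∉ G := fun h => hbR' (hi ▸ Finset.mem_inter.2 ⟨h, hb⟩)
      have hφb := q3 b (hF0.sub hb) hbG
      have hsp := hx'F0
      rw [hR'J.sp_insert hb hbR', Submodule.mem_sup] at hsp
      obtain ⟨w, hw, z, hz, hwz⟩ := hsp
      obtain ⟨t, rfl⟩ := Submodule.mem_span_singleton.1 hz
      have h1 := hpos' G hG2 (hTR'.trans hG1.sub)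
      rw [← hwz, map_add, map_smul, smul_eq_mul,
        vanish_sp (fun i hi' => q2 i (hG1.sub hi')) hw, zero_add] at h1
      have ht : 0 ≤ t := nonneg_of_mul_nonneg_left h1 hφb
      rw [← hwz, map_add, map_smul, smul_eq_mul, vanish_sp hη0 hw, zero_add]
      exact mul_nonneg ht (hη b hb))
    refine ⟨y, hy, fun i => c i + if i = a then s else 0, ?_, ?_, ?_⟩
    · intro i
      refine add_nonneg (hc0 i) ?_
      split_ifs
      · exact hs0
      · exact le_rfl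
    · intro i hi
      by_cases hia : i = a
      · subst hia
        exact ⟨haJ, haT, R, hR, haR⟩
      · simp only [if_neg hia, add_zero] at hi
        obtain ⟨h1, h2, R1, h3, h4⟩ := hcs i hi
        exact ⟨hF0.sub h1, h2, R1, h3.extend hF0.left, h4⟩
    · have h1 : ∑ i ∈ F0, c i • u i = ∑ i ∈ J, c i • u i := by
        refine Finset.sum_subset hF0.sub (fun i _ hi => ?_)
        have : c i = 0 := by
          by_contra h
          exact hi (hcs i h).1
        rw [this, zero_smul]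
      have h2 : ∑ i ∈ J, (c i + if i = a then s else 0) • u i
          = ∑ i ∈ J, c i • u i + s • u a := by
        simp only [add_smul, Finset.sum_add_distrib]
        congr 1
        rw [Finset.sum_eq_single a]
        · rw [if_pos rfl]
        · intro b _ hb; rw [if_neg hb, zero_smul]
        · intro h; exact absurd haJ h
      show x = y + ∑ i ∈ J, (c i + if i = a then s else 0) • u i
      rw [h2, ← h1, ← add_assoc, ← hxy, sub_add_cancel]

open Classical in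
theorem cone_cover (hT : IsFace u J T) {x : X} (hx : x ∈ sp u J)
    (hpos : ∀ F, Cov u J F J → T ⊆ F → ∀ φ : X →ₗ[ℝ] ℝ, (∀ i ∈ J, 0 ≤ φ (u i)) →
      (∀ i ∈ F, φ (u i) = 0) → 0 ≤ φ x) :
    ∃ y ∈ sp u T, ∃ c : ι → ℝ, (∀ i, 0 ≤ c i) ∧
      x = y + ∑ i ∈ J.filter (fun i => i ∉ T ∧ ∃ R, Cov u J T R ∧ i ∈ R), c i • u i := by
  obtain ⟨y, hy, c, hc0, hcs, hxy⟩ := cone_cover_aux J.card J x le_rfl hT hx hpos
  refine ⟨y, hy, c, hc0, ?_⟩
  rw [hxy]
  congr 1
  symm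
  refine Finset.sum_subset (Finset.filter_subset _ _) (fun i hiJ hi => ?_)
  have : c i = 0 := by
    by_contra h
    exact hi (Finset.mem_filter.2 ⟨hiJ, (hcs i h).2⟩)
  rw [this, zero_smul]

open Classical in
lemma functional_decomp_aux (φ : Finset ι → (X →ₗ[ℝ] ℝ))
    (hφ : ∀ F, Cov u J F J → (∀ i ∈ J, 0 ≤ φ F (u i)) ∧ ∀ i ∈ J, (φ F (u i) = 0 ↔ i ∈ F)) :
    ∀ (m : ℕ) (ψ : X →ₗ[ℝ] ℝ), (∀ i ∈ J, 0 ≤ ψ (u i)) →
      (J.filter (fun i => ψ (u i) ≠ 0)).card ≤ m →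
    ∃ c : Finset ι → ℝ, (∀ F, 0 ≤ c F) ∧
      (∀ F, c F ≠ 0 → Cov u J F J ∧ ∀ j ∈ J, ψ (u j) = 0 → j ∈ F) ∧
      ∀ i ∈ J, ψ (u i) = ∑ F ∈ J.powerset, c F * φ F (u i) := by
  intro m
  induction m with
  | zero =>
    intro ψ hψ hm
    refine ⟨fun _ => 0, fun _ => le_rfl, fun i h => absurd rfl h, fun i hi => ?_⟩
    have h0 : J.filter (fun i => ψ (u i) ≠ 0) = ∅ := by
      rw [← Finset.card_eq_zero]; omega
    have : ψ (u i) = 0 := by
      by_contra h
      have : i ∈ J.filter (fun i => ψ (u i) ≠ 0) := Finset.mem_filter.2 ⟨hi, h⟩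
      rw [h0] at this
      exact Finset.notMem_empty _ this
    simp [this]
  | succ m ih =>
    intro ψ hψ hm
    set Z := J.filter (fun i => ψ (u i) = 0) with hZ
    have hZf : IsFace u J Z := ⟨Finset.filter_subset _ _, ψ, hψ, fun i hi => by
      rw [hZ, Finset.mem_filter]; simp [hi]⟩
    by_cases hZJ : Z = J
    · refine ⟨fun _ => 0, fun _ => le_rfl, fun i h => absurd rfl h, fun i hi => ?_⟩
      have : i ∈ Z := by rw [hZJ]; exact hi
      have : ψ (u i) = 0 := (Finset.mem_filter.1 this).2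
      simp [this]
    have hss : Z ⊂ J := Finset.ssubset_iff_subset_ne.2 ⟨hZf.1, hZJ⟩
    obtain ⟨F0, hF0, hZF0⟩ := exists_le_cov hZf (isFace_self u J) hss
    obtain ⟨p1, p2⟩ := hφ F0 hF0
    have p3 : ∀ i ∈ J \ F0, 0 < φ F0 (u i) := by
      intro i hi
      rw [Finset.mem_sdiff] at hi
      exact lt_of_le_of_ne (p1 i hi.1) (fun h => hi.2 ((p2 i hi.1).1 h.symm))
    have hne : (J \ F0).Nonempty := by
      rw [Finset.sdiff_nonempty]
      exact fun h => hF0.ss.2 h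
    obtain ⟨i0, hi0, hmin⟩ := Finset.exists_min_image (J \ F0) (fun i => ψ (u i) / φ F0 (u i)) hne
    have hi0' := Finset.mem_sdiff.1 hi0
    set s := ψ (u i0) / φ F0 (u i0) with hs
    have hs0 : 0 ≤ s := div_nonneg (hψ i0 hi0'.1) (p3 i0 hi0).le
    have hψ' : ∀ i ∈ J, 0 ≤ (ψ - s • φ F0) (u i) := by
      intro i hi
      rw [LinearMap.sub_apply, LinearMap.smul_apply, smul_eq_mul]
      by_cases hiF : i ∈ F0
      · rw [(p2 i hi).2 hiF, mul_zero, sub_zero]; exact hψ i hi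
      · have h1 := hmin i (Finset.mem_sdiff.2 ⟨hi, hiF⟩)
        have h2 := p3 i (Finset.mem_sdiff.2 ⟨hi, hiF⟩)
        rw [le_div_iff₀ h2] at h1
        linarith
    have hzero : ∀ j ∈ J, ψ (u j) = 0 → (ψ - s • φ F0) (u j) = 0 := by
      intro j hj hj0
      have : j ∈ F0 := hZF0 (by rw [hZ, Finset.mem_filter]; exact ⟨hj, hj0⟩)
      rw [LinearMap.sub_apply, LinearMap.smul_apply, smul_eq_mul, (p2 j hj).2 this, hj0]
      simp
    have hi0z : (ψ - s • φ F0) (u i0) = 0 := by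
      rw [LinearMap.sub_apply, LinearMap.smul_apply, smul_eq_mul, hs,
        div_mul_cancel₀ _ (p3 i0 hi0).ne', sub_self]
    have hi0n : ψ (u i0) ≠ 0 := by
      intro h
      exact hi0'.2 (hZF0 (by rw [hZ, Finset.mem_filter]; exact ⟨hi0'.1, h⟩))
    have hcard : (J.filter (fun i => (ψ - s • φ F0) (u i) ≠ 0)).card ≤ m := by
      have : J.filter (fun i => (ψ - s • φ F0) (u i) ≠ 0) ⊂ J.filter (fun i => ψ (u i) ≠ 0) := by
        rw [Finset.ssubset_iff_of_subset]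
        · exact ⟨i0, Finset.mem_filter.2 ⟨hi0'.1, hi0n⟩, fun h => (Finset.mem_filter.1 h).2 hi0z⟩
        · intro i hi
          rw [Finset.mem_filter] at hi ⊢
          exact ⟨hi.1, fun h => hi.2 (hzero i hi.1 h)⟩
      have := Finset.card_lt_card this
      omega
    obtain ⟨c, hc0, hcs, hc⟩ := ih (ψ - s • φ F0) hψ' hcard
    refine ⟨fun F => c F + if F = F0 then s else 0, ?_, ?_, ?_⟩
    · intro F
      refine add_nonneg (hc0 F) ?_
      split_ifs
      · exact hs0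
      · exact le_rfl
    · intro F hF
      by_cases hFF : F = F0
      · subst hFF
        exact ⟨hF0, fun j hj hj0 => hZF0 (by rw [hZ, Finset.mem_filter]; exact ⟨hj, hj0⟩)⟩
      · simp only [if_neg hFF, add_zero] at hF
        obtain ⟨h1, h2⟩ := hcs F hF
        exact ⟨h1, fun j hj hj0 => h2 j hj (hzero j hj hj0)⟩
    · intro i hi
      have h1 := hc i hi
      rw [LinearMap.sub_apply, LinearMap.smul_apply, smul_eq_mul] at h1
      simp only [add_mul, Finset.sum_add_distrib]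
      rw [← h1]
      have h2 : ∑ F ∈ J.powerset, (if F = F0 then s else 0) * φ F (u i) = s * φ F0 (u i) := by
        rw [Finset.sum_eq_single F0]
        · rw [if_pos rfl]
        · intro b _ hb; rw [if_neg hb, zero_mul]
        · intro h; exact absurd (Finset.mem_powerset.2 hF0.sub) h
      rw [h2]; ring

open Classical in
theorem functional_decomp {ψ : X →ₗ[ℝ] ℝ} (hψ : ∀ i ∈ J, 0 ≤ ψ (u i)) (φ : Finset ι → (X →ₗ[ℝ] ℝ))
    (hφ : ∀ F, Cov u J F J → (∀ i ∈ J, 0 ≤ φ F (u i)) ∧ ∀ i ∈ J, (φ F (u i) = 0 ↔ i ∈ F)) :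
    ∃ c : Finset ι → ℝ, (∀ F, 0 ≤ c F) ∧
      ∀ i ∈ J, ψ (u i) = ∑ F ∈ J.powerset.filter (fun F => Cov u J F J ∧ ∀ j ∈ J, ψ (u j) = 0 → j ∈ F),
        c F * φ F (u i) := by
  obtain ⟨c, hc0, hcs, hc⟩ := functional_decomp_aux φ hφ _ ψ hψ le_rfl
  refine ⟨c, hc0, fun i hi => ?_⟩
  rw [hc i hi]
  symm
  refine Finset.sum_subset (Finset.filter_subset _ _) (fun F hF hF' => ?_)
  have : c F = 0 := by
    by_contra h
    exact hF' (Finset.mem_filter.2 ⟨hF, hcs F h⟩)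
  rw [this, zero_mul]

end Pool.Agent.Work.MP_43c1cf_co
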