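import Pool.Agent.Work.MP_43c1cf_co.LorAlg

/-!
# Equality of Gram matrices from scaled edge functions
-/

set_option autoImplicit false

namespace Pool.Agent.Work.MP_43c1cf_co

open Module

section one

variable {ι X : Type*} [AddCommGroup X] [Module ℝ X] {B : X →ₗ[ℝ] X →ₗ[ℝ] ℝ} {o : X}
  {u : ι → X} {J : Finset ι}

lemma Scribed.face_empty (h : Scribed B o u J) : IsFace u J (∅ : Finset ι) := by
  refine ⟨Finset.empty_subset _, -(B o), fun i hi => ?_, fun i hi => ?_⟩
  · have := h.fut i hi
    simp only [LinearMap.neg_apply]; linarith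
  · have := h.fut i hi
    simp only [LinearMap.neg_apply, Finset.notMem_empty, iff_false]
    intro h0; linarith

lemma edge_null (h : Scribed B o u J) {E : Finset ι} (hE : IsFace u J E) (hc : E.card = 2) :
    B (∑ i ∈ E, u i) (∑ i ∈ E, u i) = 0 := by
  classical
  obtain ⟨a, b, hab, rfl⟩ := Finset.card_eq_two.1 hc
  have ha : a ∈ J := hE.1 (by simp)
  have hb : b ∈ J := hE.1 (by simp)
  rw [Finset.sum_pair hab]
  have e1 := h.edge _ hE hc a (by simp) b (by simp) hab
  have e2 := h.unit a ha
  have e3 := h.unit b hb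
  have e4 := h.lor.symm (u b) (u a)
  simp only [map_add, LinearMap.add_apply]
  linarith

lemma edge_fut (h : Scribed B o u J) {E : Finset ι} (hE : IsFace u J E) (hc : E.card = 2) :
    B o (∑ i ∈ E, u i) < 0 := by
  rw [map_sum]
  exact Finset.sum_neg (fun i hi => h.fut i (hE.1 hi)) (Finset.card_pos.1 (by omega))

lemma edge_neg (h : Scribed B o u J) {E F : Finset ι} (hE : IsFace u J E) (hc : E.card = 2)
    (hF : IsFace u J F) (hcF : F.card = 2) (hne : E ≠ F) :
    B (∑ i ∈ E, u i) (∑ i ∈ F, u i) < 0 := by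
  refine h.lor.neg_of_not_prop (edge_null h hE hc).le (edge_null h hF hcF).le (edge_fut h hE hc)
    (edge_fut h hF hcF) ?_
  intro t ht
  obtain ⟨φ, hφ, hφE, hφpos, -⟩ := hE.exists_pos
  have e := congrArg φ ht
  rw [map_smul, map_sum, map_sum, Finset.sum_eq_zero hφE, smul_zero] at e
  have hex : ∃ i ∈ F, i ∉ E := by
    by_contra hcon
    push Not at hcon
    exact hne (Finset.eq_of_subset_of_card_le hcon (by omega)).symm
  obtain ⟨i, hiF, hiE⟩ := hex
  have h1 : 0 < ∑ i ∈ F, φ (u i) :=
    Finset.sum_pos' (fun i hi => hφ i (hF.1 hi)) ⟨i, hiF, hφpos i (hF.1 hiF) hiE⟩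
  linarith

/-- Faces covering a vertex are edges. -/
lemma card_of_cov (h : Scribed B o u J) {v : ι} {R : Finset ι} (hv : v ∈ J)
    (hR : Cov u J {v} R) : R.card = 2 := by
  classical
  have h1 : Cov u J ∅ {v} := by
    refine ⟨h.face_empty, h.vert v hv, ?_, ?_⟩
    · rw [Finset.ssubset_iff_subset_ne]
      exact ⟨Finset.empty_subset _, (Finset.singleton_ne_empty v).symm⟩
    · intro Q _ hQ hQv
      rcases Finset.subset_singleton_iff.1 hQv with h0 | h0
      · subst h0; exact absurd hQ (ssubset_irrefl _)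
      · exact h0
  obtain ⟨R', -, -, -, hQ⟩ := diamond_exists h1 hR
  have hvR : v ∈ R := hR.sub (by simp)
  have key : ∀ w ∈ R, w ≠ v → R' = {w} := by
    intro w hw hwv
    have hwJ := hR.right.1 hw
    rcases hQ {w} (h.vert w hwJ)
      (Finset.ssubset_iff_subset_ne.2 ⟨Finset.empty_subset _, (Finset.singleton_ne_empty w).symm⟩)
      (Finset.ssubset_iff_subset_ne.2 ⟨Finset.singleton_subset_iff.2 hw, by
        rintro rfl
        exact hwv (Finset.mem_singleton.1 hvR).symm⟩) with h0 | h0
    · exact absurd (Finset.singleton_inj.1 h0) hwv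
    · exact h0.symm
  obtain ⟨w, hw, hwv⟩ := Finset.exists_of_ssubset hR.ss
  rw [Finset.mem_singleton] at hwv
  have hRe : R = {v, w} := by
    ext z
    simp only [Finset.mem_insert, Finset.mem_singleton]
    constructor
    · intro hz
      by_cases hzv : z = v
      · exact Or.inl hzv
      · right
        have e1 := key z hz hzv
        have e2 := key w hw hwv
        rw [e1] at e2
        exact Finset.singleton_inj.1 e2
    · rintro (rfl | rfl)
      · exact hvR
      · exact hw
  rw [hRe, Finset.card_pair (Ne.symm hwv)]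

/-- The edge vectors span. -/
lemma edge_span (h : Scribed B o u J) (hn : 2 ≤ finrank ℝ X) :
    Submodule.span ℝ (Set.range (fun E : {E : Finset ι // IsFace u J E ∧ E.card = 2} =>
      ∑ i ∈ E.1, u i)) = ⊤ := by
  classical
  by_contra hlt
  obtain ⟨ψ, hψ0, hψ⟩ := Submodule.exists_le_ker_of_lt_top _ (lt_top_iff_ne_top.2 hlt)
  apply hψ0
  have hE : ∀ E : Finset ι, IsFace u J E → E.card = 2 → ∑ i ∈ E, ψ (u i) = 0 := by
    intro E hE hc
    have := hψ (Submodule.subset_span ⟨⟨E, hE, hc⟩, rfl⟩)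
    simpa using this
  have htop : ∀ x : X, x ∈ sp u J := fun x => by rw [h.span]; trivial
  have step : ∀ v ∈ J, ∀ x, ψ x = ψ (u v) * B (u v) x := by
    intro v hv
    have hT : ∀ i ∈ ({v} : Finset ι), (ψ - ψ (u v) • B (u v)) (u i) = 0 := by
      intro i hi
      rw [Finset.mem_singleton] at hi
      subst hi
      simp [h.unit i hv]
    have hR : ∀ R, Cov u J {v} R → ∃ a ∈ R, a ∉ ({v} : Finset ι) ∧
        (ψ - ψ (u v) • B (u v)) (u a) = 0 := by
      intro R hR
      have hc := card_of_cov h hv hR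
      have hvR : v ∈ R := hR.sub (by simp)
      obtain ⟨w, hw, hwv⟩ := Finset.exists_of_ssubset hR.ss
      refine ⟨w, hw, hwv, ?_⟩
      rw [Finset.mem_singleton] at hwv
      have e1 := h.edge R hR.right hc v hvR w hw (Ne.symm hwv)
      have e2 := hE R hR.right hc
      have hRe : R = {v, w} := by
        symm
        refine Finset.eq_of_subset_of_card_le ?_ ?_
        · intro z hz
          simp only [Finset.mem_insert, Finset.mem_singleton] at hz
          rcases hz with rfl | rfl
          · exact hvR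
          · exact hw
        · rw [hc, Finset.card_pair (Ne.symm hwv)]
      rw [hRe, Finset.sum_pair (Ne.symm hwv)] at e2
      simp only [LinearMap.sub_apply, LinearMap.smul_apply, smul_eq_mul, e1]
      linarith
    have p1 := local_global (h.vert v hv) hT (fun R hR' => by
      obtain ⟨a, h1, h2, h3⟩ := hR R hR'
      exact ⟨a, h1, h2, h3.ge⟩)
    have p2 := local_global (ψ := -(ψ - ψ (u v) • B (u v))) (h.vert v hv)
      (fun i hi => by rw [LinearMap.neg_apply, hT i hi, neg_zero]) (fun R hR' => by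
      obtain ⟨a, h1, h2, h3⟩ := hR R hR'
      exact ⟨a, h1, h2, by rw [LinearMap.neg_apply, h3, neg_zero]⟩)
    have p3 : ∀ i ∈ J, (ψ - ψ (u v) • B (u v)) (u i) = 0 := by
      intro i hi
      have a := p1 i hi
      have b := p2 i hi
      rw [LinearMap.neg_apply] at b
      linarith
    intro x
    have := vanish_sp p3 (htop x)
    simp only [LinearMap.sub_apply, LinearMap.smul_apply, smul_eq_mul] at this
    linarith
  by_cases hz : ∀ v ∈ J, ψ (u v) = 0
  · ext x
    exact vanish_sp hz (htop x)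
  · exfalso
    push Not at hz
    obtain ⟨v, hv, hv0⟩ := hz
    have hle : sp u J ≤ Submodule.span ℝ {u v} := by
      refine sp_le (fun w hw => ?_)
      have hw0 : ψ (u w) ≠ 0 := by
        intro h0
        have := step w hw (u v)
        rw [h0, zero_mul] at this
        exact hv0 this
      have e : ψ (u w) • u w - ψ (u v) • u v = 0 := by
        refine h.lor.nondeg (fun x => ?_)
        simp only [map_sub, map_smul, LinearMap.sub_apply, LinearMap.smul_apply, smul_eq_mul]
        rw [← step w hw x, ← step v hv x, sub_self]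
      rw [sub_eq_zero] at e
      rw [Submodule.mem_span_singleton]
      refine ⟨(ψ (u w))⁻¹ * ψ (u v), ?_⟩
      rw [mul_smul, ← e, smul_smul, inv_mul_cancel₀ hw0, one_smul]
    rw [h.span] at hle
    have h1 : finrank ℝ (⊤ : Submodule ℝ X) ≤ finrank ℝ (Submodule.span ℝ {u v}) :=
      Submodule.finrank_mono hle
    rw [finrank_top] at h1
    have h2 : finrank ℝ (Submodule.span ℝ ({u v} : Set X)) ≤ 1 := by
      have := finrank_span_le_card (R := ℝ) ({u v} : Set X)
      simpa using this
    omega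

end one

theorem gram_of_edges {ι X X' : Type*} [AddCommGroup X] [Module ℝ X] [AddCommGroup X'] [Module ℝ X']
    {B : X →ₗ[ℝ] X →ₗ[ℝ] ℝ} {B' : X' →ₗ[ℝ] X' →ₗ[ℝ] ℝ} {o : X} {o' : X'}
    {u : ι → X} {u' : ι → X'} {J : Finset ι} (h : Scribed B o u J) (h' : Scribed B' o' u' J)
    (hf : ∀ T, IsFace u J T ↔ IsFace u' J T) (hn : 3 ≤ finrank ℝ X)
    (hE : ∀ E, IsFace u J E → E.card = 2 → ∃ c : ℝ, 0 < c ∧
      ∀ v ∈ J, B' (∑ i ∈ E, u' i) (u' v) = c * B (∑ i ∈ E, u i) (u v)) :
    ∀ i ∈ J, ∀ j ∈ J, B (u i) (u j) = B' (u' i) (u' j) := by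
  classical
  have hn' : 2 ≤ finrank ℝ X' := by
    have e1 : rk u J = rk u' J := rk_transport hf h.face_empty J (isFace_self u J)
    have e2 : rk u J = finrank ℝ X := by unfold rk; rw [h.span, finrank_top]
    have e3 : rk u' J = finrank ℝ X' := by unfold rk; rw [h'.span, finrank_top]
    omega
  -- the edge vectors span
  have sX := edge_span h (by omega)
  have sX'0 := edge_span h' hn'
  set κ := {E : Finset ι // IsFace u J E ∧ E.card = 2} with hκ
  set x : κ → X := fun E => ∑ i ∈ E.1, u i with hx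
  set y : κ → X' := fun E => ∑ i ∈ E.1, u' i with hy
  have sX' : Submodule.span ℝ (Set.range y) = ⊤ := by
    rw [eq_top_iff, ← sX'0]
    refine Submodule.span_mono ?_
    rintro _ ⟨E, rfl⟩
    exact ⟨⟨E.1, (hf E.1).2 E.2.1, E.2.2⟩, rfl⟩
  have hE' : ∀ E : κ, ∃ c : ℝ, 0 < c ∧ ∀ v ∈ J, B' (y E) (u' v) = c * B (x E) (u v) :=
    fun E => hE E.1 E.2.1 E.2.2
  choose c hc0 hc using hE'
  have hgram1 : ∀ E F : κ, B' (y E) (y F) = c E * B (x E) (x F) := by
    intro E F
    have e1 : B' (y E) (y F) = ∑ v ∈ F.1, B' (y E) (u' v) := by rw [hy, map_sum]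
    have e2 : B (x E) (x F) = ∑ v ∈ F.1, B (x E) (u v) := by rw [hx, map_sum]
    rw [e1, e2, Finset.mul_sum]
    exact Finset.sum_congr rfl (fun v hv => hc E v (F.2.1.1 hv))
  have hceq : ∀ E F : κ, c E = c F := by
    intro E F
    by_cases hEF : E = F
    · rw [hEF]
    have hne : E.1 ≠ F.1 := fun e => hEF (Subtype.ext e)
    have hneg : B (x E) (x F) < 0 := edge_neg h E.2.1 E.2.2 F.2.1 F.2.2 hne
    have e1 := hgram1 E F
    have e2 := hgram1 F E
    rw [h'.lor.symm, h.lor.symm (x F) (x E)] at e2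
    have e3 : c E * B (x E) (x F) = c F * B (x E) (x F) := by rw [← e1, ← e2]
    exact mul_right_cancel₀ hneg.ne e3
  obtain ⟨c0, hc0'⟩ : ∃ c0 : ℝ, ∀ E, c E = c0 := by
    rcases isEmpty_or_nonempty κ with hem | ⟨⟨E0⟩⟩
    · exact ⟨0, fun E => (hem.false E).elim⟩
    · exact ⟨c E0, fun E => hceq E E0⟩
  obtain ⟨A, hA, hAB⟩ := exists_isom (B := B) (B' := B') x y sX sX'
    (fun z hz => h'.lor.nondeg hz) c0 (fun k l => by rw [hgram1, hc0'])
  have hAu : ∀ v ∈ J, u' v = A (u v) := by
    intro v hv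
    have hz : ∀ w, B' (u' v - A (u v)) w = 0 := by
      intro w
      have hw : w ∈ Submodule.span ℝ (Set.range y) := by rw [sX']; trivial
      induction hw using Submodule.span_induction with
      | mem w hw =>
        obtain ⟨E, rfl⟩ := hw
        rw [h'.lor.symm, map_sub, hc E v hv, hc0' E]
        have := hAB (x E) (u v)
        rw [hA] at this
        rw [this, sub_self]
      | zero => simp
      | add a b _ _ ha hb => rw [map_add, ha, hb, add_zero]
      | smul r a _ ha => rw [map_smul, ha, smul_zero]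
    exact sub_eq_zero.1 (h'.lor.nondeg hz)
  intro i hi j hj
  have h1 : c0 = 1 := by
    have e1 := h'.unit i hi
    rw [hAu i hi, hAB, h.unit i hi] at e1
    linarith
  rw [hAu i hi, hAu j hj, hAB, h1, one_mul]

end Pool.Agent.Work.MP_43c1cf_co
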