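import Mathlib

/-! Arcs partitioning the circle have total length `2 π`. -/

open MeasureTheory Set

namespace Pool.Agent.Work.MP_43c1cf_co

namespace ArcAux

/-- indicator of an arc -/
noncomputable def fA (c t : ℝ) : ℝ := if c < Real.cos t then 1 else 0

lemma fA_per (c : ℝ) : Function.Periodic (fA c) (2 * Real.pi) := by
  intro t
  unfold fA
  rw [Real.cos_add_two_pi]

lemma fA_meas (c : ℝ) : Measurable (fA c) :=
  Measurable.ite (measurableSet_lt measurable_const Real.measurable_cos) measurable_const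
    measurable_const

lemma fA_int (c a b : ℝ) : IntervalIntegrable (fA c) volume a b := by
  have h1 : IntegrableOn (fA c) (uIoc a b) volume := by
    apply Measure.integrableOn_of_bounded (M := 1)
    · exact measure_Ioc_lt_top.ne
    · exact (fA_meas c).aestronglyMeasurable
    · refine Filter.Eventually.of_forall fun t => ?_
      unfold fA
      split_ifs <;> simp
  exact intervalIntegrable_iff.2 h1

lemma fA_shift_int (c d a b : ℝ) : IntervalIntegrable (fun θ => fA c (θ - d)) volume a b := by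
  have := (fA_int c (a - d) (b - d)).comp_sub_right d
  simpa using this

lemma fA_val (c : ℝ) (hc0 : 0 ≤ c) (hc1 : c < 1) :
    ∫ t in (-Real.pi)..Real.pi, fA c t = 2 * Real.arccos c := by
  set a := Real.arccos c with ha
  have ha0 : 0 < a := Real.arccos_pos.2 hc1
  have hapi : a < Real.pi := by
    have : a ≤ Real.pi / 2 := Real.arccos_le_pi_div_two.2 hc0
    linarith [Real.pi_pos]
  have hcos : Real.cos a = c := Real.cos_arccos (by linarith) hc1.le
  have key : ∀ t ∈ Ioc (-Real.pi) Real.pi,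
      fA c t = (Ioo (-a) a).indicator (fun _ => (1:ℝ)) t := by
    intro t ht
    have h1 : c < Real.cos t ↔ t ∈ Ioo (-a) a := by
      have h2 : |t| ∈ Icc 0 Real.pi := ⟨abs_nonneg t, abs_le.2 ⟨ht.1.le, ht.2⟩⟩
      have h3 : a ∈ Icc 0 Real.pi := ⟨ha0.le, hapi.le⟩
      rw [← Real.cos_abs t]
      nth_rewrite 1 [← hcos]
      rw [Real.strictAntiOn_cos.lt_iff_gt h3 h2, mem_Ioo, abs_lt]
    unfold fA
    by_cases h : c < Real.cos t
    · rw [if_pos h, indicator_of_mem (h1.1 h)]
    · rw [if_neg h, indicator_of_notMem (fun h' => h (h1.2 h'))]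
  rw [intervalIntegral.integral_of_le (by linarith [Real.pi_pos]),
    setIntegral_congr_fun measurableSet_Ioc key, setIntegral_indicator measurableSet_Ioo,
    setIntegral_const]
  have h4 : Ioc (-Real.pi) Real.pi ∩ Ioo (-a) a = Ioo (-a) a := by
    apply inter_eq_right.2
    intro t ht
    exact ⟨by linarith [ht.1], by linarith [ht.2]⟩
  rw [h4, smul_eq_mul, mul_one, Measure.real, Real.volume_Ioo, ENNReal.toReal_ofReal (by linarith)]
  ring

lemma fA_shift_val (c d : ℝ) (hc0 : 0 ≤ c) (hc1 : c < 1) :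
    ∫ θ in (0:ℝ)..(2 * Real.pi), fA c (θ - d) = 2 * Real.arccos c := by
  rw [intervalIntegral.integral_comp_sub_right (fun t => fA c t) d, ← fA_val c hc0 hc1]
  have h1 := (fA_per c).intervalIntegral_add_eq (0 - d) (-Real.pi)
  have e1 : 0 - d + 2 * Real.pi = 2 * Real.pi - d := by ring
  have e2 : -Real.pi + 2 * Real.pi = Real.pi := by ring
  rw [e1, e2] at h1
  exact h1

lemma exists_angle {x y R : ℝ} (hR : 0 < R) (h : x ^ 2 + y ^ 2 = R ^ 2) :
    ∃ d, x = R * Real.cos d ∧ y = R * Real.sin d := by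
  set z : ℂ := ⟨x, y⟩ with hz
  have hn : ‖z‖ = R := by
    rw [Complex.norm_def, Complex.normSq_mk]
    have : x * x + y * y = R ^ 2 := by rw [← h]; ring
    rw [this, Real.sqrt_sq hR.le]
  refine ⟨z.arg, ?_, ?_⟩
  · rw [← hn, Complex.norm_mul_cos_arg]
  · rw [← hn, Complex.norm_mul_sin_arg]

end ArcAux

open ArcAux in
theorem arc_sum {K : Type*} [Fintype K] (α x y : K → ℝ) (hα : ∀ k, 0 ≤ α k)
    (hxy : ∀ k, x k ^ 2 + y k ^ 2 = 1 + α k ^ 2)
    (hdisj : ∀ k l, k ≠ l → ∀ θ : ℝ, ¬ (α k < x k * Real.cos θ + y k * Real.sin θ ∧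
      α l < x l * Real.cos θ + y l * Real.sin θ))
    (hcov : {θ : ℝ | θ ∈ Set.Ioc 0 (2 * Real.pi) ∧
      ∀ k, x k * Real.cos θ + y k * Real.sin θ ≤ α k}.Finite) :
    ∑ k, Real.arccos (α k / Real.sqrt (1 + α k ^ 2)) = Real.pi := by
  classical
  have hR : ∀ k, 0 < Real.sqrt (1 + α k ^ 2) := fun k => Real.sqrt_pos.2 (by positivity)
  have hR2 : ∀ k, Real.sqrt (1 + α k ^ 2) ^ 2 = 1 + α k ^ 2 := fun k =>
    Real.sq_sqrt (by positivity)
  choose d hdx hdy using fun k => exists_angle (hR k) ((hxy k).trans (hR2 k).symm)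
  set c : K → ℝ := fun k => α k / Real.sqrt (1 + α k ^ 2) with hc
  have hc0 : ∀ k, 0 ≤ c k := fun k => div_nonneg (hα k) (hR k).le
  have hc1 : ∀ k, c k < 1 := by
    intro k
    rw [hc]
    simp only
    rw [div_lt_one (hR k)]
    apply Real.lt_sqrt_of_sq_lt
    linarith
  have hiff : ∀ k θ, c k < Real.cos (θ - d k) ↔ α k < x k * Real.cos θ + y k * Real.sin θ := by
    intro k θ
    rw [hc]
    simp only
    rw [div_lt_iff₀ (hR k), Real.cos_sub]
    have : x k * Real.cos θ + y k * Real.sin θ =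
        (Real.cos θ * Real.cos (d k) + Real.sin θ * Real.sin (d k)) *
          Real.sqrt (1 + α k ^ 2) := by
      nth_rewrite 1 [hdx k]
      nth_rewrite 1 [hdy k]
      ring
    rw [this]
  have hsum : ∫ θ in (0:ℝ)..(2 * Real.pi), ∑ k, fA (c k) (θ - d k) = 2 * Real.pi := by
    have h1 : ∫ θ in (0:ℝ)..(2 * Real.pi), ∑ k, fA (c k) (θ - d k) =
        ∫ θ in (0:ℝ)..(2 * Real.pi), (1:ℝ) := by
      apply intervalIntegral.integral_congr_ae
      have h2 : ∀ᵐ θ ∂(volume : Measure ℝ), θ ∉ {θ : ℝ | θ ∈ Set.Ioc 0 (2 * Real.pi) ∧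
          ∀ k, x k * Real.cos θ + y k * Real.sin θ ≤ α k} := by
        rw [ae_iff]
        simp only [not_not]
        exact hcov.measure_zero volume
      filter_upwards [h2] with θ hθ hθI
      rw [uIoc_of_le (by linarith [Real.pi_pos])] at hθI
      have h3 : ∃ k, α k < x k * Real.cos θ + y k * Real.sin θ := by
        by_contra hcon
        push Not at hcon
        exact hθ ⟨hθI, hcon⟩
      obtain ⟨k, hk⟩ := h3
      rw [Finset.sum_eq_single k]
      · unfold fA
        rw [if_pos ((hiff k θ).2 hk)]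
      · intro l _ hl
        unfold fA
        rw [if_neg]
        intro h4
        exact hdisj k l (Ne.symm hl) θ ⟨hk, (hiff l θ).1 h4⟩
      · intro h; exact absurd (Finset.mem_univ k) h
    rw [h1, intervalIntegral.integral_const, smul_eq_mul, mul_one, sub_zero]
  rw [intervalIntegral.integral_finsetSum (fun k _ => fA_shift_int _ _ _ _)] at hsum
  have h5 : ∑ k, 2 * Real.arccos (c k) = 2 * Real.pi := by
    rw [← hsum]
    exact Finset.sum_congr rfl fun k _ => (fA_shift_val _ _ (hc0 k) (hc1 k)).symm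
  rw [← Finset.mul_sum] at h5
  linarith

end Pool.Agent.Work.MP_43c1cf_co
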