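import Pool.Agent.Work.MP_43c1cf_co.LorAlg
import Pool.Agent.Work.MP_43c1cf_co.Arc

/-!
# Lorentz circle sum
-/

set_option autoImplicit false

namespace Pool.Agent.Work.MP_43c1cf_co

open Module

namespace NodeAux

/-- In dimension four there is a nonzero vector orthogonal to three given ones. -/
lemma exists_orth {X : Type*} [AddCommGroup X] [Module ℝ X] (B : X →ₗ[ℝ] X →ₗ[ℝ] ℝ)
    (hX : finrank ℝ X = 4) (a b c : X) : ∃ z : X, z ≠ 0 ∧ B a z = 0 ∧ B b z = 0 ∧ B c z = 0 := by
  have hfd : FiniteDimensional ℝ X := FiniteDimensional.of_finrank_pos (by omega)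
  let L : X →ₗ[ℝ] (Fin 3 → ℝ) := LinearMap.pi ![B a, B b, B c]
  have hker : ∃ z ∈ LinearMap.ker L, z ≠ 0 := by
    apply Submodule.exists_mem_ne_zero_of_ne_bot
    intro hbot
    have := LinearMap.finrank_range_add_finrank_ker L
    rw [hbot, finrank_bot, add_zero, hX] at this
    have h2 : finrank ℝ (LinearMap.range L) ≤ 3 := by
      have := Submodule.finrank_le (LinearMap.range L)
      simpa using this
    omega
  obtain ⟨z, hz, hz0⟩ := hker
  rw [LinearMap.mem_ker] at hz
  have h0 := congrFun hz 0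
  have h1 := congrFun hz 1
  have h2 := congrFun hz 2
  exact ⟨z, hz0, h0, h1, h2⟩

lemma angle_inj {θ θ' : ℝ} (h : θ ∈ Set.Ioc 0 (2 * Real.pi)) (h' : θ' ∈ Set.Ioc 0 (2 * Real.pi))
    (hc : Real.cos θ = Real.cos θ') (hs : Real.sin θ = Real.sin θ') : θ = θ' := by
  have h1 : (θ : Real.Angle) = (θ' : Real.Angle) := Real.Angle.cos_sin_inj hc hs
  rw [Real.Angle.angle_eq_iff_two_pi_dvd_sub] at h1
  obtain ⟨n, hn⟩ := h1
  have hpi := Real.pi_pos
  obtain ⟨a1, a2⟩ := h
  obtain ⟨b1, b2⟩ := h'
  have hn0 : n = 0 := by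
    have h3 : (-1 : ℝ) < n := by
      by_contra hcon
      push Not at hcon
      nlinarith
    have h4 : (n : ℝ) < 1 := by
      by_contra hcon
      push Not at hcon
      nlinarith
    have h3' : (-1 : ℤ) < n := by exact_mod_cast h3
    have h4' : n < (1 : ℤ) := by exact_mod_cast h4
    omega
  rw [hn0] at hn
  simp at hn
  linarith

end NodeAux

open NodeAux in
theorem node_sum {X K : Type*} [AddCommGroup X] [Module ℝ X] [Fintype K]
    {B : X →ₗ[ℝ] X →ₗ[ℝ] ℝ} {o : X} (h : Lor B o) (hX : finrank ℝ X = 4) {x p : X}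
    (hx : B x x = 1) (hp : B p p = 0) (hop : B o p < 0) (hpx : B p x < 0)
    (y : K → X) (hy : ∀ k, B (y k) (y k) = 1) (hxy : ∀ k, B x (y k) = 0) (hpy : ∀ k, B p (y k) ≤ 0)
    (hdisj : ∀ k l, k ≠ l → B (y k) (y l) ≤ -1)
    (E : Set X) (hE : E.Finite)
    (hcov : ∀ q, B q q = 0 → B o q < 0 → B q x = 0 → (∀ k, B q (y k) ≤ 0) → ∃ e ∈ E, ∃ t : ℝ, q = t • e) :
    ∑ k, Real.arccos ((B p (y k) / B p x) / Real.sqrt (1 + (B p (y k) / B p x) ^ 2)) = Real.pi := by
  classical
  have hfd : FiniteDimensional ℝ X := FiniteDimensional.of_finrank_pos (by omega)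
  have hκ : B p x ≠ 0 := hpx.ne
  have hxp : B x p = B p x := h.symm x p
  -- the time vector orthogonal to `x`
  set w : X := (-(B p x)⁻¹) • p + x with hw
  have hwx : B w x = 0 := by
    rw [hw]
    simp only [map_add, map_smul, LinearMap.add_apply, LinearMap.smul_apply, smul_eq_mul, hx]
    field_simp
    ring
  have hxw : B x w = 0 := by rw [h.symm]; exact hwx
  have hpw : B p w = B p x := by
    rw [hw]
    simp only [map_add, map_smul, smul_eq_mul, hp]
    ring
  have hwp : B w p = B p x := by rw [h.symm]; exact hpw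
  have hww : B w w = -1 := by
    have h1 : B w w = (-(B p x)⁻¹) * B w p + B w x := by
      have h2 : B w w = B w ((-(B p x)⁻¹) • p + x) := congrArg (B w) hw
      rw [h2, map_add, map_smul, smul_eq_mul]
    rw [h1, hwp, hwx]
    field_simp
    ring
  have how : B o w < 0 := by
    rcases lt_trichotomy (B o w) 0 with h1 | h1 | h1
    · exact h1
    · have h2 := h.eq_zero h1 (by rw [hww]; norm_num)
      exfalso
      apply hκ
      rw [← hpw, h2, map_zero]
    · have h2 := h.neg_of_future (x := -w) (y := p) (by simp [hww]) hp.le (by simpa using h1) hop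
      simp only [map_neg, LinearMap.neg_apply] at h2
      linarith
  have hL : Lor B w := h.change (by rw [hww]; norm_num)
  -- orthonormal vectors orthogonal to `x` and `w`
  obtain ⟨z1, hz1, hz1x, hz1w, -⟩ := exists_orth B hX x w x
  have hz1p : 0 < B z1 z1 := hL.pos z1 hz1w hz1
  set e1 : X := (Real.sqrt (B z1 z1))⁻¹ • z1 with he1
  have hs1 : Real.sqrt (B z1 z1) ≠ 0 := (Real.sqrt_pos.2 hz1p).ne'
  have e1x : B x e1 = 0 := by rw [he1]; simp [hz1x]
  have e1w : B w e1 = 0 := by rw [he1]; simp [hz1w]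
  have e11 : B e1 e1 = 1 := by
    rw [he1]
    simp only [map_smul, LinearMap.smul_apply, smul_eq_mul]
    have := Real.mul_self_sqrt hz1p.le
    field_simp
    rw [sq, this]
  obtain ⟨z2, hz2, hz2x, hz2w, hz2e⟩ := exists_orth B hX x w e1
  have hz2p : 0 < B z2 z2 := hL.pos z2 hz2w hz2
  set e2 : X := (Real.sqrt (B z2 z2))⁻¹ • z2 with he2
  have hs2 : Real.sqrt (B z2 z2) ≠ 0 := (Real.sqrt_pos.2 hz2p).ne'
  have e2x : B x e2 = 0 := by rw [he2]; simp [hz2x]
  have e2w : B w e2 = 0 := by rw [he2]; simp [hz2w]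
  have e12 : B e1 e2 = 0 := by rw [he2]; simp [hz2e]
  have e22 : B e2 e2 = 1 := by
    rw [he2]
    simp only [map_smul, LinearMap.smul_apply, smul_eq_mul]
    have := Real.mul_self_sqrt hz2p.le
    field_simp
    rw [sq, this]
  have e1x' : B e1 x = 0 := by rw [h.symm]; exact e1x
  have e1w' : B e1 w = 0 := by rw [h.symm]; exact e1w
  have e2x' : B e2 x = 0 := by rw [h.symm]; exact e2x
  have e2w' : B e2 w = 0 := by rw [h.symm]; exact e2w
  have e21 : B e2 e1 = 0 := by rw [h.symm]; exact e12
  -- coordinates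
  have hcoord : ∀ z : X, z = B x z • x - B w z • w + B e1 z • e1 + B e2 z • e2 := by
    let L : X →ₗ[ℝ] (Fin 4 → ℝ) := LinearMap.pi ![B x, B w, B e1, B e2]
    have hsurj : Function.Surjective L := by
      intro t
      refine ⟨t 0 • x - t 1 • w + t 2 • e1 + t 3 • e2, ?_⟩
      funext i
      fin_cases i
      · change B x _ = t 0
        simp [hx, hxw, e1x, e2x]
      · change B w _ = t 1
        simp [hwx, hww, e1w, e2w]
      · change B e1 _ = t 2
        simp [e1x', e1w', e11, e12]
      · change B e2 _ = t 3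
        simp [e2x', e2w', e21, e22]
    have hinj : Function.Injective L :=
      (LinearMap.injective_iff_surjective_of_finrank_eq_finrank (by rw [hX]; simp)).2 hsurj
    intro z
    apply hinj
    funext i
    fin_cases i
    · change B x z = B x _
      simp [hx, hxw, e1x, e2x]
    · change B w z = B w _
      simp [hwx, hww, e1w, e2w]
    · change B e1 z = B e1 _
      simp [e1x', e1w', e11, e12]
    · change B e2 z = B e2 _
      simp [e2x', e2w', e21, e22]
  have hwy : ∀ k, B w (y k) = -(B p (y k) / B p x) := by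
    intro k
    rw [hw]
    simp only [map_add, map_smul, LinearMap.add_apply, LinearMap.smul_apply, smul_eq_mul, hxy k]
    field_simp
    ring
  set α : K → ℝ := fun k => B p (y k) / B p x with hα
  have hα0 : ∀ k, 0 ≤ α k := fun k => div_nonneg_of_nonpos (hpy k) hpx.le
  -- the null vectors
  set q : ℝ → X := fun θ => w + Real.cos θ • e1 + Real.sin θ • e2 with hq
  have hqq : ∀ θ, B (q θ) (q θ) = 0 := by
    intro θ
    rw [hq]
    simp only [map_add, map_smul, LinearMap.add_apply, LinearMap.smul_apply, smul_eq_mul, hww, e1w,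
      e2w, e1w', e2w', e11, e12, e21, e22]
    have := Real.sin_sq_add_cos_sq θ
    nlinarith
  have hwq : ∀ θ, B w (q θ) = -1 := by
    intro θ
    rw [hq]
    simp [hww, e1w, e2w]
  have hqx : ∀ θ, B (q θ) x = 0 := by
    intro θ
    rw [hq]
    simp [hwx, e1x', e2x']
  have hqy : ∀ θ k, B (q θ) (y k) =
      B e1 (y k) * Real.cos θ + B e2 (y k) * Real.sin θ - α k := by
    intro θ k
    rw [hq]
    simp only [map_add, map_smul, LinearMap.add_apply, LinearMap.smul_apply, smul_eq_mul, hwy k]
    ring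
  have hoq : ∀ θ, B o (q θ) < 0 := fun θ =>
    h.causal_sign (x := w) (by rw [hww]; norm_num) how (hqq θ).le (by rw [hwq]; norm_num)
  apply arc_sum α (fun k => B e1 (y k)) (fun k => B e2 (y k)) hα0
  · intro k
    have h1 := hy k
    have h2 := hcoord (y k)
    rw [hxy k, hwy k] at h2
    have h3 : B (y k) (y k) = -(B w (y k)) ^ 2 + (B e1 (y k)) ^ 2 + (B e2 (y k)) ^ 2 := by
      conv_lhs => rw [h2]
      simp only [map_add, map_smul, map_sub, LinearMap.add_apply, LinearMap.smul_apply,
        LinearMap.sub_apply, smul_eq_mul, zero_smul, zero_sub, map_neg, LinearMap.neg_apply, hww,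
        e1w, e2w, e1w', e2w', e11, e12, e21, e22]
      rw [hwy k]
      ring
    rw [h1, hwy k] at h3
    simp only [hα]
    nlinarith
  · rintro k l hkl θ ⟨h1, h2⟩
    have hk : 0 < B (q θ) (y k) := by rw [hqy]; linarith
    have hl : 0 < B (q θ) (y l) := by rw [hqy]; linarith
    have hzz : B (y k + y l) (y k + y l) ≤ 0 := by
      simp only [map_add, LinearMap.add_apply]
      rw [hy k, hy l, h.symm (y l) (y k)]
      have := hdisj k l hkl
      linarith
    have hwz : B w (y k + y l) = -(α k) - α l := by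
      rw [map_add, hwy, hwy]; simp only [hα]; ring
    have hqz : 0 < B (q θ) (y k + y l) := by rw [map_add]; linarith
    rcases lt_or_ge (B w (y k + y l)) 0 with h3 | h3
    · have := hL.nonpos_of_future (x := q θ) (y := y k + y l) (hqq θ).le hzz
        (by rw [hwq]; norm_num) h3
      linarith
    · have h4 : B w (y k + y l) = 0 := by
        apply le_antisymm _ h3
        rw [hwz]
        have := hα0 k
        have := hα0 l
        linarith
      have := hL.eq_zero h4 hzz
      rw [this] at hqz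
      simp at hqz
  · have hfin : (E.image (fun e => (-(B w e)⁻¹) • e)).Finite := hE.image _
    have hsub : ∀ θ ∈ {θ : ℝ | θ ∈ Set.Ioc 0 (2 * Real.pi) ∧
        ∀ k, B e1 (y k) * Real.cos θ + B e2 (y k) * Real.sin θ ≤ α k},
        q θ ∈ E.image (fun e => (-(B w e)⁻¹) • e) := by
      rintro θ ⟨hθ, hk⟩
      obtain ⟨e, he, t, ht⟩ := hcov (q θ) (hqq θ) (hoq θ) (hqx θ) (fun k => by
        rw [hqy]; have := hk k; linarith)
      refine ⟨e, he, ?_⟩
      have h1 := hwq θ
      rw [ht, map_smul, smul_eq_mul] at h1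
      have h2 : B w e ≠ 0 := by
        intro h0
        rw [h0] at h1
        norm_num at h1
      simp only
      rw [ht]
      congr 1
      field_simp
      linarith
    refine Set.Finite.of_finite_image (f := q) (hfin.subset ?_) ?_
    · rintro _ ⟨θ, hθ, rfl⟩
      exact hsub θ hθ
    · rintro θ ⟨hθ, -⟩ θ' ⟨hθ', -⟩ heq
      have h1 := congrArg (B e1) heq
      have h2 := congrArg (B e2) heq
      simp only [hq, map_add, map_smul, smul_eq_mul, e1w', e2w', e11, e12, e21, e22] at h1 h2
      exact angle_inj hθ hθ' (by linarith) (by linarith)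

end Pool.Agent.Work.MP_43c1cf_co
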