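import Pool.Agent.Work.MP_43c1cf_co.Scr
import Pool.Agent.Work.MP_43c1cf_co.Node
import Pool.Agent.Work.MP_43c1cf_co.Cone
import Pool.Agent.Work.MP_43c1cf_co.GramEdges

/-!
# Rigidity of scribed configurations in dimension four (Koebe uniqueness)
-/

set_option autoImplicit false

namespace Pool.Agent.Work.MP_43c1cf_co

open Module

/-- the angle function of the node identities -/
noncomputable def ga (t : ℝ) : ℝ := Real.arccos (t / Real.sqrt (1 + t ^ 2))

lemma ga_lt {s t : ℝ} (hs : 0 ≤ s) (hst : s < t) : ga t < ga s := by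
  have h1 : 0 < Real.sqrt (1 + s ^ 2) := Real.sqrt_pos.2 (by positivity)
  have h2 : 0 < Real.sqrt (1 + t ^ 2) := Real.sqrt_pos.2 (by positivity)
  have ht : 0 < t := by linarith
  have key : s / Real.sqrt (1 + s ^ 2) < t / Real.sqrt (1 + t ^ 2) := by
    rw [div_lt_div_iff₀ h1 h2]
    apply lt_of_pow_lt_pow_left₀ 2 (by positivity)
    rw [mul_pow, mul_pow, Real.sq_sqrt (by positivity), Real.sq_sqrt (by positivity)]
    nlinarith
  have hb : ∀ r : ℝ, 0 ≤ r → r / Real.sqrt (1 + r ^ 2) ∈ Set.Icc (-1 : ℝ) 1 := by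
    intro r hr
    have h3 : 0 < Real.sqrt (1 + r ^ 2) := Real.sqrt_pos.2 (by positivity)
    constructor
    · have : 0 ≤ r / Real.sqrt (1 + r ^ 2) := by positivity
      linarith
    · rw [div_le_one h3]
      exact Real.le_sqrt_of_sq_le (by linarith)
  exact Real.strictAntiOn_arccos (hb s hs) (hb t ht.le) key

/-- numerical core of the maximum principle -/
lemma ga_max {K : Type*} (S : Finset K) (a a' : K → ℝ) {x x' R : ℝ} (hx : 0 < x) (hR : 0 < R)
    (hx' : x' = R * x) (ha' : ∀ k ∈ S, 0 ≤ a' k) (hle : ∀ k ∈ S, a' k ≤ R * a k)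
    (hsum : ∑ k ∈ S, ga (a k / x) = ∑ k ∈ S, ga (a' k / x')) : ∀ k ∈ S, a' k = R * a k := by
  have hx0 : 0 < x' := by rw [hx']; positivity
  have h1 : ∀ k ∈ S, a' k / x' ≤ a k / x := by
    intro k hk
    rw [div_le_div_iff₀ hx0 hx, hx']
    nlinarith [hle k hk]
  have h2 : ∀ k ∈ S, ga (a k / x) ≤ ga (a' k / x') := by
    intro k hk
    rcases (h1 k hk).lt_or_eq with h | h
    · exact (ga_lt (div_nonneg (ha' k hk) hx0.le) h).le
    · rw [h]
  have h3 := (Finset.sum_eq_sum_iff_of_le h2).1 hsum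
  intro k hk
  rcases (h1 k hk).lt_or_eq with h | h
  · have := ga_lt (div_nonneg (ha' k hk) hx0.le) h
    have := h3 k hk
    linarith
  · rw [div_eq_div_iff hx0.ne' hx.ne', hx'] at h
    have : (a' k - R * a k) * x = 0 := by linarith
    rcases mul_eq_zero.1 this with h4 | h4
    · linarith
    · exact absurd h4 hx.ne'

section lor

variable {X κ : Type*} [AddCommGroup X] [Module ℝ X] {B : X →ₗ[ℝ] X →ₗ[ℝ] ℝ} {o : X}

lemma Lor.null_comb (h : Lor B o) (S : Finset κ) (p : κ → X)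
    (hp : ∀ k ∈ S, B (p k) (p k) = 0 ∧ B o (p k) < 0) (c : κ → ℝ) (hc : ∀ k ∈ S, 0 ≤ c k) {q : X}
    (hq : q = ∑ k ∈ S, c k • p k) (hqq : B q q = 0) (hoq : B o q < 0) :
    ∃ k ∈ S, ∃ t : ℝ, q = t • p k := by
  have e : ∑ k ∈ S, c k * B q (p k) = 0 := by
    have : B q (∑ k ∈ S, c k • p k) = 0 := by rw [← hq]; exact hqq
    simpa [map_sum] using this
  have hle : ∀ k ∈ S, c k * B q (p k) ≤ 0 := fun k hk =>
    mul_nonpos_of_nonneg_of_nonpos (hc k hk)
      (h.nonpos_of_future hqq.le (hp k hk).1.le hoq (hp k hk).2)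
  have hz := (Finset.sum_eq_zero_iff_of_nonpos hle).1 e
  by_contra hcon
  push Not at hcon
  have h0 : q = 0 := by
    rw [hq]
    apply Finset.sum_eq_zero
    intro k hk
    rcases mul_eq_zero.1 (hz k hk) with h2 | h2
    · rw [h2, zero_smul]
    · exfalso
      have := h.prop_of_orth (x := p k) (y := q) (hp k hk).1.le hqq.le (hp k hk).2 hoq
        (by rw [h.symm, h2])
      exact hcon k hk _ this
  rw [h0] at hoq; simp at hoq

lemma Lor.comb_nonpos (h : Lor B o) (S : Finset κ) (p : κ → X)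
    (hp : ∀ k ∈ S, B (p k) (p k) = 0 ∧ B o (p k) < 0) (c : κ → ℝ) (hc : ∀ k ∈ S, 0 ≤ c k) :
    B (∑ k ∈ S, c k • p k) (∑ k ∈ S, c k • p k) ≤ 0 := by
  have key : ∀ q : X, (∀ k ∈ S, B q (p k) ≤ 0) → B q (∑ k ∈ S, c k • p k) ≤ 0 := by
    intro q hq
    rw [map_sum]
    apply Finset.sum_nonpos
    intro k hk
    rw [map_smul, smul_eq_mul]
    exact mul_nonpos_of_nonneg_of_nonpos (hc k hk) (hq k hk)
  apply key
  intro k hk
  rw [h.symm]
  apply key
  intro l hl
  exact h.nonpos_of_future (hp k hk).1.le (hp l hl).1.le (hp k hk).2 (hp l hl).2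

end lor

variable {ι X : Type*} [AddCommGroup X] [Module ℝ X] {B : X →ₗ[ℝ] X →ₗ[ℝ] ℝ} {o : X}
  {u : ι → X} {J T R F G E : Finset ι}

open Classical in
/-- neighbours of a vertex -/
noncomputable def nbr (u : ι → X) (J : Finset ι) (v : ι) : Finset ι :=
  J.filter (fun k => k ∉ ({v} : Finset ι) ∧ ∃ R, Cov u J {v} R ∧ k ∈ R)

lemma mem_nbr {v k : ι} :
    k ∈ nbr u J v ↔ k ∈ J ∧ k ≠ v ∧ ∃ R, Cov u J {v} R ∧ k ∈ R := by
  simp [nbr]

lemma Scribed.nbr_edge (h : Scribed B o u J) {v k : ι} (hk : k ∈ nbr u J v) :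
    B (u v) (u k) = -1 := by
  obtain ⟨hkJ, hkv, R, hR, hkR⟩ := mem_nbr.1 hk
  obtain ⟨j, hj, hjJ, hjR, hB⟩ := h.cov_vertex_edge hR
  rcases (hjR k).1 hkR with h1 | h1
  · exact absurd h1 hkv
  · rw [h1, hB]

lemma Scribed.nbr_null (h : Scribed B o u J) {v k : ι} (hv : v ∈ J) (hk : k ∈ nbr u J v) :
    B (u v + u k) (u v + u k) = 0 ∧ B o (u v + u k) < 0 :=
  h.null hv (mem_nbr.1 hk).1 (h.nbr_edge hk)

lemma Scribed.vertex_repr (h : Scribed B o u J) {v : ι} (hv : v ∈ J) {x : X}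
    (hpos : ∀ F, Cov u J F J → v ∈ F → ∀ φ : X →ₗ[ℝ] ℝ, (∀ i ∈ J, 0 ≤ φ (u i)) →
      (∀ i ∈ F, φ (u i) = 0) → 0 ≤ φ x) :
    ∃ c : ι → ℝ, (∀ i, 0 ≤ c i) ∧
      x = B (u v) x • u v + ∑ k ∈ nbr u J v, c k • (u v + u k) := by
  obtain ⟨y, hy, c, hc, hx⟩ := cone_cover (h.vert v hv) (x := x) (by rw [h.span]; trivial)
    (fun F hF hT => hpos F hF (hT (Finset.mem_singleton_self v)))
  have : ∃ a : ℝ, y = a • u v := by
    unfold sp at hy
    rw [Finset.coe_singleton, Set.image_singleton, Submodule.mem_span_singleton] at hy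
    obtain ⟨a, ha⟩ := hy
    exact ⟨a, ha.symm⟩
  obtain ⟨a, rfl⟩ := this
  refine ⟨c, hc, ?_⟩
  change x = a • u v + ∑ i ∈ nbr u J v, c i • u i at hx
  have hx2 : x = (a - ∑ k ∈ nbr u J v, c k) • u v + ∑ k ∈ nbr u J v, c k • (u v + u k) := by
    rw [hx]
    simp only [smul_add, Finset.sum_add_distrib, sub_smul, ← Finset.sum_smul]
    abel
  have hb : B (u v) x = a - ∑ k ∈ nbr u J v, c k := by
    have e := congrArg (B (u v)) hx2
    have h0 : B (u v) (∑ k ∈ nbr u J v, c k • (u v + u k)) = 0 := by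
      rw [map_sum]
      apply Finset.sum_eq_zero
      intro k hk
      rw [map_smul, map_add, h.unit v hv, h.nbr_edge hk]
      simp
    rw [map_add, map_smul, h.unit v hv, h0] at e
    simpa using e
  rw [hb]
  exact hx2

/-- Vertices are hyperideal points: different ones have product at most `-1`. -/
lemma Scribed.le_neg_one (h : Scribed B o u J) {i j : ι} (hi : i ∈ J) (hj : j ∈ J)
    (hij : i ≠ j) : B (u i) (u j) ≤ -1 := by
  obtain ⟨c, hc, hx⟩ := h.vertex_repr hi (x := u j) (fun F hF hiF φ hφ _ => hφ j hj)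
  have hnull : ∀ k ∈ nbr u J i, B (u i + u k) (u i + u k) = 0 ∧ B o (u i + u k) < 0 :=
    fun k hk => h.nbr_null hi hk
  have hqq := h.lor.comb_nonpos (nbr u J i) (fun k => u i + u k) hnull c (fun k _ => hc k)
  have hq0 : B (u i) (∑ k ∈ nbr u J i, c k • (u i + u k)) = 0 := by
    rw [map_sum]
    apply Finset.sum_eq_zero
    intro k hk
    rw [map_smul, map_add, h.unit i hi, h.nbr_edge hk]
    simp
  obtain ⟨ψ, hψ, hψ0, hψpos, -⟩ := (h.vert j hj).exists_pos
  have hψj : ψ (u j) = 0 := hψ0 j (Finset.mem_singleton_self j)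
  have hψi : 0 < ψ (u i) := hψpos i hi (by simpa using hij)
  have hψq : 0 ≤ ψ (∑ k ∈ nbr u J i, c k • (u i + u k)) := by
    rw [map_sum]
    apply Finset.sum_nonneg
    intro k hk
    rw [map_smul, map_add, smul_eq_mul]
    have := hψ k (mem_nbr.1 hk).1
    exact mul_nonneg (hc k) (by linarith)
  generalize (∑ k ∈ nbr u J i, c k • (u i + u k)) = q at hx hqq hq0 hψq
  generalize B (u i) (u j) = a at hx ⊢
  have e1 : B (u j) (u j) = a * a + B q q := by
    rw [hx]
    simp only [map_add, map_smul, LinearMap.add_apply, LinearMap.smul_apply, smul_eq_mul,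
      h.unit i hi, hq0, h.lor.symm q (u i)]
    ring
  rw [h.unit j hj] at e1
  have e2 : ψ (u j) = a * ψ (u i) + ψ q := by
    rw [hx]; simp
  rw [hψj] at e2
  have ha : a < 0 := by
    by_contra hcon
    push Not at hcon
    have h1 : 1 ≤ a := by nlinarith
    nlinarith
  nlinarith

/-- unit normal of a facet -/
def Nrm (B : X →ₗ[ℝ] X →ₗ[ℝ] ℝ) (u : ι → X) (J F : Finset ι) (m : X) : Prop :=
  B m m = 1 ∧ (∀ i ∈ F, B m (u i) = 0) ∧ (∀ i ∈ J, i ∉ F → B m (u i) < 0)

lemma Nrm.nonpos {m : X} (hm : Nrm B u J F m) {i : ι} (hi : i ∈ J) : B m (u i) ≤ 0 := by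
  by_cases hF : i ∈ F
  · exact (hm.2.1 i hF).le
  · exact (hm.2.2 i hi hF).le

/-- Facet normals at a common vertex have product at most `-1`. -/
lemma Scribed.normal_le [FiniteDimensional ℝ X] (h : Scribed B o u J) (hn : finrank ℝ X = 4)
    (hF : Cov u J F J) (hG : Cov u J G J) (hFG : F ≠ G) {v : ι} (hvF : v ∈ F) (hvG : v ∈ G)
    {m m' : X} (hm : Nrm B u J F m) (hm' : Nrm B u J G m') : B m m' ≤ -1 := by
  classical
  have hvJ : v ∈ J := hF.left.1 hvF
  have hrkF : rk u F = 3 := by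
    have := hF.rk_eq; rw [h.rk_J, hn] at this; omega
  obtain ⟨R, R', hne, hR, hRF, hR', hRF', -⟩ := diamond (h.vert v hvJ) hF.left
    (Finset.singleton_subset_iff.2 hvF) (by rw [h.rk_single hvJ, hrkF])
  obtain ⟨j, hjv, hjJ, hjR, hvj⟩ := h.cov_vertex_edge hR
  obtain ⟨k, hkv, hkJ, hkR, hvk⟩ := h.cov_vertex_edge hR'
  have hkR0 : k ∉ R := by
    intro hk
    rcases (hjR k).1 hk with h1 | h1
    · exact hkv h1
    · subst h1
      apply hne
      ext l; rw [hjR, hkR]
  have hvR : v ∈ R := (hjR v).2 (Or.inl rfl)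
  have hjR1 : j ∈ R := (hjR j).2 (Or.inr rfl)
  have hvR' : v ∈ R' := (hkR v).2 (Or.inl rfl)
  have hkR1 : k ∈ R' := (hkR k).2 (Or.inr rfl)
  have hjF : j ∈ F := hRF.sub hjR1
  have hkF : k ∈ F := hRF'.sub hkR1
  obtain ⟨n1, n2⟩ := h.null hvJ hjJ hvj
  obtain ⟨n3, n4⟩ := h.null hvJ hkJ hvk
  have hpp := h.null_neg hvJ hjJ hkJ hvj hvk hR.right hvR hjR1 hkR0
  set p := u v + u j with hp
  set p' := u v + u k with hp'
  set d := B p p' with hd
  have hd' : B p' p = d := h.lor.symm p' p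
  have hpv : B p (u v) = 0 := by
    rw [hp, map_add, LinearMap.add_apply, h.unit v hvJ, h.lor.symm (u j), hvj]; norm_num
  have hp'v : B p' (u v) = 0 := by
    rw [hp', map_add, LinearMap.add_apply, h.unit v hvJ, h.lor.symm (u k), hvk]; norm_num
  have hmp : B m p = 0 := by rw [hp, map_add, hm.2.1 v hvF, hm.2.1 j hjF, add_zero]
  have hmp' : B m p' = 0 := by rw [hp', map_add, hm.2.1 v hvF, hm.2.1 k hkF, add_zero]
  have hpm : B p m = 0 := by rw [h.lor.symm]; exact hmp
  have hp'm : B p' m = 0 := by rw [h.lor.symm]; exact hmp'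
  set a := B m m' with ha
  have ha' : B m' m = a := h.lor.symm m' m
  set s := B m' p / d with hs
  set t := B m' p' / d with ht
  have hs0 : 0 ≤ s := by
    rw [hs]; apply div_nonneg_of_nonpos _ hpp.le
    rw [hp, map_add]
    have := hm'.nonpos hvJ
    have := hm'.nonpos hjJ
    linarith
  have ht0 : 0 ≤ t := by
    rw [ht]; apply div_nonneg_of_nonpos _ hpp.le
    rw [hp', map_add]
    have := hm'.nonpos hvJ
    have := hm'.nonpos hkJ
    linarith
  have hsd : s * d = B m' p := div_mul_cancel₀ _ hpp.ne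
  have htd : t * d = B m' p' := div_mul_cancel₀ _ hpp.ne
  have hy : m' - (a • m + t • p + s • p') = 0 := by
    set y := m' - (a • m + t • p + s • p') with hy
    have yv : B y (u v) = 0 := by
      rw [hy]
      simp only [map_sub, map_add, map_smul, LinearMap.sub_apply, LinearMap.add_apply,
        LinearMap.smul_apply, smul_eq_mul, hpv, hp'v, hm.2.1 v hvF, hm'.2.1 v hvG]
      ring
    have yp : B y p = 0 := by
      rw [hy]
      simp only [map_sub, map_add, map_smul, LinearMap.sub_apply, LinearMap.add_apply,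
        LinearMap.smul_apply, smul_eq_mul, hmp, n1, hd']
      linarith
    have yp' : B y p' = 0 := by
      rw [hy]
      simp only [map_sub, map_add, map_smul, LinearMap.sub_apply, LinearMap.add_apply,
        LinearMap.smul_apply, smul_eq_mul, hmp', n3]
      linarith
    have ym : B y m = 0 := by
      rw [hy]
      simp only [map_sub, map_add, map_smul, LinearMap.sub_apply, LinearMap.add_apply,
        LinearMap.smul_apply, smul_eq_mul, hm.1, hpm, hp'm, ha']
      ring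
    have yj : B y (u j) = 0 := by
      rw [hp, map_add, yv, zero_add] at yp; exact yp
    have yk : B y (u k) = 0 := by
      rw [hp', map_add, yv, zero_add] at yp'; exact yp'
    have s1 := hR.sp_insert hjR1 (by simpa using hjv)
    have s2 := hRF.sp_insert hkF hkR0
    have s0 : sp u {v} = Submodule.span ℝ {u v} := by
      unfold sp
      rw [Finset.coe_singleton, Set.image_singleton]
    have s3 := span_facet_normal h.span hF hm.1 hm.2.1
    have hker : (⊤ : Submodule ℝ X) ≤ LinearMap.ker (B y) := by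
      rw [← s3, s2, s1, s0]
      simp only [sup_le_iff, Submodule.span_singleton_le_iff_mem, LinearMap.mem_ker]
      exact ⟨⟨⟨yv, yj⟩, yk⟩, ym⟩
    apply h.lor.nondeg
    intro w
    have := hker (Submodule.mem_top : w ∈ ⊤)
    simpa using this
  have hm'eq : m' = a • m + t • p + s • p' := by
    rw [sub_eq_zero] at hy; exact hy
  have e1 : B m' m' = a * a + 2 * (t * s) * d := by
    have : B m' m' = B m' (a • m + t • p + s • p') := by rw [← hm'eq]
    rw [this]
    simp only [map_add, map_smul, smul_eq_mul, ha']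
    rw [← hsd, ← htd]; ring
  rw [hm'.1] at e1
  have haa : 1 ≤ a * a := by
    have := mul_nonneg ht0 hs0
    nlinarith
  -- a vertex of G outside F
  have hGF : ¬ G ⊆ F := by
    intro hsub
    apply hFG
    have := hG.2.2.2 F hF.left (by
      rw [Finset.ssubset_iff_subset_ne]; exact ⟨hsub, fun e => hFG e.symm⟩) hF.left.1
    exact absurd hF.ss (by rw [this]; simp)
  obtain ⟨w, hwG, hwF⟩ := Finset.not_subset.1 hGF
  have hwJ := hG.left.1 hwG
  have hwR : w ∉ R := fun h1 => hwF (hRF.sub h1)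
  have hwR' : w ∉ R' := fun h1 => hwF (hRF'.sub h1)
  have w1 := h.edge_neg hR hjR hjv hwJ hwR
  have w2 := h.edge_neg hR' hkR hkv hwJ hwR'
  have w3 := hm.2.2 w hwJ hwF
  have e2 : B m' (u w) = a * B m (u w) + t * B p (u w) + s * B p' (u w) := by
    have : B m' (u w) = B (a • m + t • p + s • p') (u w) := by rw [← hm'eq]
    rw [this]
    simp only [map_add, map_smul, LinearMap.add_apply, LinearMap.smul_apply, smul_eq_mul]
  rw [hm'.2.1 w hwG] at e2
  have ha0 : a < 0 := by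
    by_contra hcon
    push Not at hcon
    have h1 : 1 ≤ a := by nlinarith
    have h2 : a * B m (u w) < 0 := mul_neg_of_pos_of_neg (by linarith) w3
    have h3 : t * B p (u w) ≤ 0 := mul_nonpos_of_nonneg_of_nonpos ht0 w1.le
    have h4 : s * B p' (u w) ≤ 0 := mul_nonpos_of_nonneg_of_nonpos hs0 w2.le
    linarith
  nlinarith

/-- functionals attached to a facet -/
lemma Scribed.facet_fun (h : Scribed B o u J) (hF : Cov u J F J) {m : X} (hm : Nrm B u J F m)
    {φ : X →ₗ[ℝ] ℝ} (hφ : ∀ i ∈ J, 0 ≤ φ (u i)) (hφF : ∀ i ∈ F, φ (u i) = 0) {x : X}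
    (hx : B m x ≤ 0) : 0 ≤ φ x := by
  obtain ⟨b, hb, hbF⟩ := Finset.exists_of_ssubset hF.ss
  have h1 := hm.2.2 b hb hbF
  have key : ∀ a ∈ J, ((-(B m (u b))) • φ + φ (u b) • B m) (u a) = 0 := by
    intro a ha
    have := hF.prop (φ := B m) (ψ := φ) hm.2.1 hφF ha hb
    simp only [LinearMap.add_apply, LinearMap.smul_apply, smul_eq_mul]
    linarith
  have h2 := vanish_sp key (x := x) (by rw [h.span]; trivial)
  simp only [LinearMap.add_apply, LinearMap.smul_apply, smul_eq_mul] at h2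
  have h3 := hφ b hb
  have h4 : φ (u b) * B m x ≤ 0 := mul_nonpos_of_nonneg_of_nonpos h3 hx
  by_contra hcon
  push Not at hcon
  have : 0 < B m (u b) * φ x := mul_pos_of_neg_of_neg h1 hcon
  linarith

lemma Scribed.edge_data (h : Scribed B o u J) (hE : IsFace u J E) (hrk : rk u E = 2) :
    B (∑ i ∈ E, u i) (∑ i ∈ E, u i) = 0 ∧ B o (∑ i ∈ E, u i) < 0 ∧
      (∀ k ∈ E, B (∑ i ∈ E, u i) (u k) = 0) ∧
      ∀ k ∈ J, k ∉ E → B (∑ i ∈ E, u i) (u k) < 0 := by
  classical
  have hne : E.Nonempty := by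
    rw [Finset.nonempty_iff_ne_empty]; rintro rfl; rw [rk_empty] at hrk; omega
  obtain ⟨v, hv⟩ := hne
  have hvJ := hE.1 hv
  have hc : Cov u J {v} E :=
    (cov_iff_rk (h.vert v hvJ) hE (Finset.singleton_subset_iff.2 hv)).2
      (by rw [h.rk_single hvJ, hrk])
  obtain ⟨j, hjv, hjJ, hj, hB⟩ := h.cov_vertex_edge hc
  have hEeq : E = {v, j} := by ext k; simp [hj]
  have hsum : ∑ i ∈ E, u i = u v + u j := by rw [hEeq, Finset.sum_pair hjv.symm]
  rw [hsum]
  obtain ⟨n1, n2⟩ := h.null hvJ hjJ hB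
  refine ⟨n1, n2, ?_, fun k hk hkE => h.edge_neg hc hj hjv hk hkE⟩
  intro k hk
  rcases (hj k).1 hk with rfl | rfl
  · simp [h.unit _ hvJ, h.lor.symm (u j), hB]
  · simp [h.unit _ hjJ, hB]

lemma Scribed.rk_of_card (h : Scribed B o u J) (hE : IsFace u J E) (hc : E.card = 2) :
    rk u E = 2 := by
  classical
  obtain ⟨a, b, hab, rfl⟩ := Finset.card_eq_two.1 hc
  have ha : a ∈ J := hE.1 (by simp)
  have hss : ({a} : Finset ι) ⊂ {a, b} := by
    rw [Finset.ssubset_iff_of_subset (by simp)]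
    exact ⟨b, by simp, by simpa using hab.symm⟩
  obtain ⟨R, hR, hRE⟩ := exists_cov_le (h.vert a ha) hE hss
  have h1 : R = {a, b} := Finset.eq_of_subset_of_card_le hRE (by
    have := Finset.card_lt_card hR.ss
    rw [Finset.card_singleton] at this
    omega)
  rw [← h1, hR.rk_eq, h.rk_single ha]

open Classical in
/-- facets at a vertex -/
noncomputable def fcs (u : ι → X) (J : Finset ι) (v : ι) : Finset (Finset ι) :=
  J.powerset.filter (fun F => Cov u J F J ∧ v ∈ F)

lemma mem_fcs {v : ι} : F ∈ fcs u J v ↔ Cov u J F J ∧ v ∈ F := by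
  simp only [fcs, Finset.mem_filter, Finset.mem_powerset, and_iff_right_iff_imp]
  exact fun h => h.1.left.1

lemma Scribed.node_vertex [FiniteDimensional ℝ X] (h : Scribed B o u J) (hn : finrank ℝ X = 4)
    {p : X} (hp : B p p = 0) (hop : B o p < 0) {v : ι} (hv : v ∈ J) (hpv : B p (u v) < 0)
    (m : Finset ι → X) (hm : ∀ F, Cov u J F J → Nrm B u J F (m F))
    (hpm : ∀ F, Cov u J F J → B p (m F) ≤ 0) :
    ∑ F ∈ fcs u J v, ga (B p (m F) / B p (u v)) = Real.pi := by
  rw [← Finset.sum_coe_sort]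
  refine node_sum h.lor hn (h.unit v hv) hp hop hpv (fun k : fcs u J v => m k) ?_ ?_ ?_ ?_
    ((fun k => u v + u k) '' (nbr u J v : Set ι)) ((Finset.finite_toSet _).image _) ?_
  · exact fun k => (hm k (mem_fcs.1 k.2).1).1
  · intro k
    rw [h.lor.symm]
    exact (hm k (mem_fcs.1 k.2).1).2.1 v (mem_fcs.1 k.2).2
  · exact fun k => hpm k (mem_fcs.1 k.2).1
  · intro k l hkl
    exact h.normal_le hn (mem_fcs.1 k.2).1 (mem_fcs.1 l.2).1 (fun e => hkl (Subtype.ext e))
      (mem_fcs.1 k.2).2 (mem_fcs.1 l.2).2 (hm k (mem_fcs.1 k.2).1) (hm l (mem_fcs.1 l.2).1)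
  · intro q hqq hoq hqx hqm
    obtain ⟨c, hc, hx⟩ := h.vertex_repr hv (x := q) (fun F hF hvF φ hφ hφF =>
      h.facet_fun hF (hm F hF) hφ hφF
        (by rw [h.lor.symm]; exact hqm ⟨F, mem_fcs.2 ⟨hF, hvF⟩⟩))
    rw [h.lor.symm (u v) q, hqx, zero_smul, zero_add] at hx
    obtain ⟨k, hk, t, ht⟩ := h.lor.null_comb _ (fun k => u v + u k)
      (fun k hk => h.nbr_null hv hk) c (fun k _ => hc k) hx hqq hoq
    exact ⟨_, ⟨k, hk, rfl⟩, t, ht⟩

lemma Scribed.node_facet [FiniteDimensional ℝ X] (h : Scribed B o u J) (hn : finrank ℝ X = 4)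
    {p : X} (hp : B p p = 0) (hop : B o p < 0) (hF : Cov u J F J) {m : X}
    (hm : Nrm B u J F m) (hpm : B p m < 0) (hpu : ∀ i ∈ F, B p (u i) ≤ 0) :
    ∑ i ∈ F, ga (B p (u i) / B p m) = Real.pi := by
  classical
  have hrkF : rk u F = 3 := by
    have := hF.rk_eq; rw [h.rk_J, hn] at this; omega
  rw [← Finset.sum_coe_sort]
  refine node_sum h.lor hn hm.1 hp hop hpm (fun k : F => u k) (fun k => h.unit k (hF.left.1 k.2))
    (fun k => hm.2.1 k k.2) (fun k => hpu k k.2)
    (fun k l hkl => h.le_neg_one (hF.left.1 k.2) (hF.left.1 l.2) (fun e => hkl (Subtype.ext e)))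
    ((fun e : Finset ι => ∑ i ∈ e, u i) '' (F.powerset : Set (Finset ι)))
    ((Finset.finite_toSet _).image _) ?_
  intro q hqq hoq hqm hqu
  have hed : ∀ e, Cov u F e F → B (∑ i ∈ e, u i) (∑ i ∈ e, u i) = 0 ∧ B o (∑ i ∈ e, u i) < 0 ∧
      (∀ k ∈ e, B (∑ i ∈ e, u i) (u k) = 0) ∧
      ∀ k ∈ J, k ∉ e → B (∑ i ∈ e, u i) (u k) < 0 := by
    intro e he
    have hc := he.extend hF.left
    exact h.edge_data hc.left (by have := hc.rk_eq; omega)
  obtain ⟨c, hc, hdec⟩ := functional_decomp (u := u) (J := F) (ψ := -(B q))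
    (fun i hi => by rw [LinearMap.neg_apply]; have := hqu ⟨i, hi⟩; linarith)
    (fun e => -(B (∑ i ∈ e, u i)))
    (fun e he => by
      obtain ⟨h1, h2, h3, h4⟩ := hed e he
      constructor
      · intro i hi
        rw [LinearMap.neg_apply]
        by_cases hie : i ∈ e
        · rw [h3 i hie, neg_zero]
        · have := h4 i (hF.left.1 hi) hie; linarith
      · intro i hi
        rw [LinearMap.neg_apply, neg_eq_zero]
        constructor
        · intro h5
          by_contra hie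
          have := h4 i (hF.left.1 hi) hie
          linarith
        · exact h3 i)
  set S := F.powerset.filter (fun e => Cov u F e F ∧ ∀ j ∈ F, (-(B q)) (u j) = 0 → j ∈ e) with hS
  have hS1 : ∀ e ∈ S, Cov u F e F := fun e he => (Finset.mem_filter.1 he).2.1
  have hy : q - ∑ e ∈ S, c e • ∑ i ∈ e, u i = 0 := by
    set y := q - ∑ e ∈ S, c e • ∑ i ∈ e, u i with hy
    have yu : ∀ k ∈ F, B y (u k) = 0 := by
      intro k hk
      have e1 := hdec k hk
      simp only [LinearMap.neg_apply] at e1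
      rw [hy, map_sub, LinearMap.sub_apply, map_sum, LinearMap.sum_apply]
      simp only [map_smul, LinearMap.smul_apply, smul_eq_mul]
      simp only [mul_neg, Finset.sum_neg_distrib, neg_inj] at e1
      rw [e1, sub_self]
    have ym : B y m = 0 := by
      rw [hy, map_sub, LinearMap.sub_apply, hqm, map_sum, LinearMap.sum_apply]
      rw [zero_sub, neg_eq_zero]
      apply Finset.sum_eq_zero
      intro e he
      rw [map_smul, LinearMap.smul_apply, map_sum, LinearMap.sum_apply]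
      rw [Finset.sum_eq_zero, smul_zero]
      intro i hi
      rw [h.lor.symm]
      exact hm.2.1 i ((hS1 e he).sub hi)
    have hker : (⊤ : Submodule ℝ X) ≤ LinearMap.ker (B y) := by
      rw [← span_facet_normal h.span hF hm.1 hm.2.1]
      refine sup_le (sp_le (fun i hi => by simpa using yu i hi)) ?_
      simpa [Submodule.span_singleton_le_iff_mem] using ym
    apply h.lor.nondeg
    intro w
    have := hker (Submodule.mem_top : w ∈ ⊤)
    simpa using this
  obtain ⟨e, he, t, ht⟩ := h.lor.null_comb S (fun e => ∑ i ∈ e, u i)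
    (fun e he => ⟨(hed e (hS1 e he)).1, (hed e (hS1 e he)).2.1⟩) c (fun e _ => hc e)
    (sub_eq_zero.1 hy) hqq hoq
  exact ⟨_, ⟨e, by simpa using (hS1 e he).sub, rfl⟩, t, ht⟩

lemma Nrm.edge {m : X} (hL : Lor B o) (hm : Nrm B u J F m) (he : E ⊆ J) :
    B (∑ i ∈ E, u i) m ≤ 0 ∧ (E ⊆ F → B (∑ i ∈ E, u i) m = 0) ∧
      (¬ E ⊆ F → B (∑ i ∈ E, u i) m < 0) := by
  have e0 : B (∑ i ∈ E, u i) m = ∑ i ∈ E, B m (u i) := by
    rw [hL.symm, map_sum]
  rw [e0]
  have h0 : ∀ i ∈ E, B m (u i) ≤ 0 := fun i hi => hm.nonpos (he hi)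
  refine ⟨Finset.sum_nonpos h0, fun h => Finset.sum_eq_zero (fun i hi => hm.2.1 i (h hi)), ?_⟩
  intro h
  obtain ⟨i, hi, hiF⟩ := Finset.not_subset.1 h
  calc ∑ i ∈ E, B m (u i) < ∑ i ∈ E, (0 : ℝ) :=
        Finset.sum_lt_sum h0 ⟨i, hi, hm.2.2 i (he hi) hiF⟩
    _ = 0 := by simp

/-- The maximum principle: the edge functions of two realisations are proportional. -/
theorem edge_scaling {X' : Type*} [AddCommGroup X'] [Module ℝ X'] [FiniteDimensional ℝ X]
    [FiniteDimensional ℝ X'] {B' : X' →ₗ[ℝ] X' →ₗ[ℝ] ℝ} {o' : X'} {u' : ι → X'}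
    (h : Scribed B o u J) (h' : Scribed B' o' u' J) (hf : ∀ T, IsFace u J T ↔ IsFace u' J T)
    (hn : finrank ℝ X = 4) (hn' : finrank ℝ X' = 4) {e : Finset ι} (he : IsFace u J e)
    (hcard : e.card = 2) :
    ∃ c : ℝ, 0 < c ∧ ∀ v ∈ J, B' (∑ i ∈ e, u' i) (u' v) = c * B (∑ i ∈ e, u i) (u v) := by
  classical
  have hcov : ∀ S T, Cov u J S T ↔ Cov u' J S T := fun S T => cov_transport hf
  have hrk := h.rk_of_card he hcard
  have he' := (hf e).1 he
  have hrk' := h'.rk_of_card he' hcard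
  obtain ⟨p1, p2, p3, p4⟩ := h.edge_data he hrk
  obtain ⟨q1, q2, q3, q4⟩ := h'.edge_data he' hrk'
  have hnor : ∀ F, ∃ m, Cov u J F J → Nrm B u J F m := by
    intro F
    by_cases hF : Cov u J F J
    · obtain ⟨m, a, b, c⟩ := h.normal hn.ge hF
      exact ⟨m, fun _ => ⟨a, b, c⟩⟩
    · exact ⟨0, fun h => absurd h hF⟩
  have hnor' : ∀ F, ∃ m, Cov u J F J → Nrm B' u' J F m := by
    intro F
    by_cases hF : Cov u J F J
    · obtain ⟨m, a, b, c⟩ := h'.normal hn'.ge ((hcov _ _).1 hF)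
      exact ⟨m, fun _ => ⟨a, b, c⟩⟩
    · exact ⟨0, fun h => absurd h hF⟩
  choose m hm using hnor
  choose m' hm' using hnor'
  have mk := fun F (hF : Cov u J F J) => (hm F hF).edge h.lor he.1
  have mk' := fun F (hF : Cov u J F J) => (hm' F hF).edge h'.lor he.1
  set p := ∑ i ∈ e, u i with hp
  set p' := ∑ i ∈ e, u' i with hp'
  set V := J \ e with hV
  set Fs := J.powerset.filter (fun F => Cov u J F J ∧ ¬ e ⊆ F) with hFs
  have memV : ∀ v, v ∈ V ↔ v ∈ J ∧ v ∉ e := fun v => by rw [hV, Finset.mem_sdiff]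
  have memF : ∀ F, F ∈ Fs ↔ Cov u J F J ∧ ¬ e ⊆ F := by
    intro F
    rw [hFs, Finset.mem_filter, Finset.mem_powerset, and_iff_right_iff_imp]
    exact fun h => h.1.left.1
  have hVne : V.Nonempty := by
    rw [hV, Finset.sdiff_nonempty]
    intro hsub
    have := rk_mono (u := u) hsub
    rw [h.rk_J, hn, hrk] at this
    omega
  obtain ⟨v0, hv0⟩ := hVne
  -- ratios
  let f : ι ⊕ Finset ι → ℝ :=
    Sum.elim (fun v => B' p' (u' v) / B p (u v)) (fun F => B' p' (m' F) / B p (m F))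
  obtain ⟨x0, hx0, hmax⟩ := Finset.exists_max_image (V.disjSum Fs) f
    ⟨Sum.inl v0, Finset.inl_mem_disjSum.2 hv0⟩
  set R := f x0 with hR
  have cV : ∀ v ∈ J, R * B p (u v) ≤ B' p' (u' v) := by
    intro v hv
    by_cases hve : v ∈ e
    · rw [p3 v hve, q3 v hve, mul_zero]
    · have h1 := hmax (Sum.inl v) (Finset.inl_mem_disjSum.2 ((memV v).2 ⟨hv, hve⟩))
      have h2 : B' p' (u' v) / B p (u v) ≤ R := h1
      rwa [div_le_iff_of_neg (p4 v hv hve)] at h2
  have cF : ∀ F, Cov u J F J → R * B p (m F) ≤ B' p' (m' F) := by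
    intro F hF
    by_cases hFe : e ⊆ F
    · rw [(mk F hF).2.1 hFe, (mk' F hF).2.1 hFe, mul_zero]
    · have h1 := hmax (Sum.inr F) (Finset.inr_mem_disjSum.2 ((memF F).2 ⟨hF, hFe⟩))
      have h2 : B' p' (m' F) / B p (m F) ≤ R := h1
      rwa [div_le_iff_of_neg ((mk F hF).2.2 hFe)] at h2
  have hRpos : 0 < R := by
    have h1 : 0 < B' p' (u' v0) / B p (u v0) :=
      div_pos_of_neg_of_neg (q4 v0 ((memV v0).1 hv0).1 ((memV v0).1 hv0).2)
        (p4 v0 ((memV v0).1 hv0).1 ((memV v0).1 hv0).2)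
    have h2 := hmax (Sum.inl v0) (Finset.inl_mem_disjSum.2 hv0)
    exact lt_of_lt_of_le h1 h2
  have ple : ∀ v ∈ J, B p (u v) ≤ 0 := by
    intro v hv
    by_cases hve : v ∈ e
    · exact (p3 v hve).le
    · exact (p4 v hv hve).le
  have qle : ∀ v ∈ J, B' p' (u' v) ≤ 0 := by
    intro v hv
    by_cases hve : v ∈ e
    · exact (q3 v hve).le
    · exact (q4 v hv hve).le
  have stepV : ∀ v ∈ J, v ∉ e → B' p' (u' v) = R * B p (u v) →
      ∀ F, Cov u J F J → v ∈ F → B' p' (m' F) = R * B p (m F) := by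
    intro v hv hve hev F hF hvF
    have s1 := h.node_vertex hn p1 p2 hv (p4 v hv hve) m hm (fun F hF => (mk F hF).1)
    have s2 := h'.node_vertex hn' q1 q2 hv (q4 v hv hve) m' (fun F hF => hm' F ((hcov _ _).2 hF))
      (fun F hF => (mk' F ((hcov _ _).2 hF)).1)
    have e1 : fcs u' J v = fcs u J v := by
      ext G; rw [mem_fcs, mem_fcs, hcov]
    rw [e1] at s2
    have := ga_max (fcs u J v) (fun F => -B p (m F)) (fun F => -B' p' (m' F))
      (x := -B p (u v)) (x' := -B' p' (u' v)) (R := R)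
      (by have := p4 v hv hve; linarith) hRpos (by rw [hev]; ring)
      (fun G hG => by have := (mk' G (mem_fcs.1 hG).1).1; linarith)
      (fun G hG => by have := cF G (mem_fcs.1 hG).1; linarith)
      (by simp only [neg_div_neg_eq]; rw [s1, s2]) F (mem_fcs.2 ⟨hF, hvF⟩)
    linarith
  have stepF : ∀ F, Cov u J F J → ¬ e ⊆ F → B' p' (m' F) = R * B p (m F) →
      ∀ v ∈ F, B' p' (u' v) = R * B p (u v) := by
    intro F hF hFe hev v hvF
    have s1 := h.node_facet hn p1 p2 hF (hm F hF) ((mk F hF).2.2 hFe)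
      (fun i hi => ple i (hF.left.1 hi))
    have s2 := h'.node_facet hn' q1 q2 ((hcov _ _).1 hF) (hm' F hF) ((mk' F hF).2.2 hFe)
      (fun i hi => qle i (hF.left.1 hi))
    have := ga_max F (fun i => -B p (u i)) (fun i => -B' p' (u' i))
      (x := -B p (m F)) (x' := -B' p' (m' F)) (R := R)
      (by have := (mk F hF).2.2 hFe; linarith) hRpos (by rw [hev]; ring)
      (fun i hi => by have := qle i (hF.left.1 hi); linarith)
      (fun i hi => by have := cV i (hF.left.1 hi); linarith)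
      (by simp only [neg_div_neg_eq]; rw [s1, s2]) v hvF
    linarith
  have hrkF : ∀ F, Cov u J F J → rk u F = 3 := by
    intro F hF
    have := hF.rk_eq; rw [h.rk_J, hn] at this; omega
  -- initial vertex
  obtain ⟨v1, hv1J, hv1e, hv1⟩ : ∃ v ∈ J, v ∉ e ∧ B' p' (u' v) = R * B p (u v) := by
    rcases Finset.mem_disjSum.1 hx0 with ⟨v, hv, hvx⟩ | ⟨F, hF, hFx⟩
    · obtain ⟨hvJ, hve⟩ := (memV v).1 hv
      refine ⟨v, hvJ, hve, ?_⟩
      have : R = B' p' (u' v) / B p (u v) := by rw [hR, ← hvx]; rfl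
      rw [this, div_mul_cancel₀ _ (p4 v hvJ hve).ne]
    · obtain ⟨hFc, hFe⟩ := (memF F).1 hF
      have e1 : R = B' p' (m' F) / B p (m F) := by rw [hR, ← hFx]; rfl
      have e2 : B' p' (m' F) = R * B p (m F) := by
        rw [e1, div_mul_cancel₀ _ ((mk F hFc).2.2 hFe).ne]
      have : ¬ F ⊆ e := by
        intro hsub
        have h1 := rk_mono (u := u) hsub
        rw [hrkF F hFc, hrk] at h1
        omega
      obtain ⟨v, hvF, hve⟩ := Finset.not_subset.1 this
      exact ⟨v, hFc.left.1 hvF, hve, stepF F hFc hFe e2 v hvF⟩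
  have hatom : ∀ S, Cov u J ∅ S → ∃ v ∈ J, S = {v} := by
    intro S hS
    obtain ⟨v, hvS, -⟩ := Finset.exists_of_ssubset hS.ss
    have hvJ := hS.right.1 hvS
    refine ⟨v, hvJ, ?_⟩
    exact (hS.2.2.2 {v} (h.vert v hvJ) (by
      rw [Finset.ssubset_iff_subset_ne]
      exact ⟨Finset.empty_subset _, (Finset.singleton_ne_empty v).symm⟩)
      (Finset.singleton_subset_iff.2 hvS)).symm
  refine ⟨R, hRpos, ?_⟩
  intro w hw
  by_cases hwe : w ∈ e
  · rw [p3 w hwe, q3 w hwe, mul_zero]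
  refine connected h.empty (h := B p) (fun i hi => absurd hi (Finset.notMem_empty i))
    (h.cov_single hv1J) (h.cov_single hw) ?_ ?_
    (fun S => ∀ i ∈ S, B' p' (u' i) = R * B p (u i)) ?_ ?_ w (Finset.mem_singleton_self w)
  · intro i hi _
    rw [Finset.mem_singleton] at hi
    subst hi
    exact p4 i hv1J hv1e
  · intro i hi _
    rw [Finset.mem_singleton] at hi
    subst hi
    exact p4 i hw hwe
  · intro i hi
    rw [Finset.mem_singleton] at hi
    subst hi
    exact hv1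
  · intro S S' G hPS hS hS' hSG hS'G hnS hnS'
    obtain ⟨a, haJ, rfl⟩ := hatom S hS
    obtain ⟨b, hbJ, rfl⟩ := hatom S' hS'
    intro i hi
    rw [Finset.mem_singleton] at hi
    subst hi
    have ha1 := hPS a (Finset.mem_singleton_self a)
    have ha2 := hnS a (Finset.mem_singleton_self a) (Finset.notMem_empty a)
    have hae : a ∉ e := by
      intro hae
      rw [p3 a hae] at ha2
      exact lt_irrefl _ ha2
    have haG : a ∈ G := hSG.sub (Finset.mem_singleton_self a)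
    have hbG : i ∈ G := hS'G.sub (Finset.mem_singleton_self i)
    have hrkG : rk u G = 2 := by rw [hSG.rk_eq, h.rk_single haJ]
    obtain ⟨F1, F2, hne, hGF1, hF1, hGF2, hF2, -⟩ := diamond hSG.right (isFace_self u J)
      hSG.right.1 (by rw [h.rk_J, hn, hrkG])
    have : ∃ F, Cov u J F J ∧ G ⊆ F ∧ ¬ e ⊆ F := by
      by_cases h1 : e ⊆ F1
      · by_cases h2 : e ⊆ F2
        · exfalso
          have h3 := inter_cov hGF1 hGF2 hne
          have h4 : e ⊆ G := by rw [← h3]; exact Finset.subset_inter h1 h2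
          have h5 := he.eq_of_rk hSG.right.1 h4 (by rw [hrk, hrkG])
          exact hae (h5 ▸ haG)
        · exact ⟨F2, hF2, hGF2.sub, h2⟩
      · exact ⟨F1, hF1, hGF1.sub, h1⟩
    obtain ⟨F, hF, hGF, hFe⟩ := this
    exact stepF F hF hFe (stepV a haJ hae ha1 F hF (hGF haG)) i (hGF hbG)

/-- Rigidity in dimension four: uniqueness of edge-scribed polyhedra. -/
theorem rigid_four : Rigid 4 := by
  intro ι X X' _ _ _ _ _ _ B B' o o' u u' J hn hn' h h' hf
  exact gram_of_edges h h' hf (by omega)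
    (fun E hE hc => edge_scaling h h' hf hn hn' hE hc)

end Pool.Agent.Work.MP_43c1cf_co
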