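import Mathlib

/-!
# Lemma C: the abstract Cauchy counting lemma
-/

set_option autoImplicit false

namespace Pool.Agent.Work.MP_43c1cf_co.Counting

open Finset

/-! ### next nonzero index of a sequence of signs -/

/-- the next index at which `g` is nonzero -/
noncomputable def nx (g : ℕ → SignType) (n : ℕ) : ℕ := sInf {m | n < m ∧ g m ≠ 0}

lemma nx_spec {g : ℕ → SignType} {n : ℕ} (h : ∃ m, n < m ∧ g m ≠ 0) :
    n < nx g n ∧ g (nx g n) ≠ 0 := Nat.sInf_mem h

lemma nx_le {g : ℕ → SignType} {n m : ℕ} (h1 : n < m) (h2 : g m ≠ 0) : nx g n ≤ m :=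
  Nat.sInf_le ⟨h1, h2⟩

lemma nx_zero {g : ℕ → SignType} {n m : ℕ} (h1 : n < m) (h2 : m < nx g n) : g m = 0 := by
  by_contra h
  exact absurd (nx_le h1 h) (not_le.2 h2)

lemma exists_change {g : ℕ → SignType} {x y : ℕ} (hxy : x < y) (hy : g y ≠ 0) (hx : g x ≠ 0)
    (hne : g x ≠ g y) : ∃ i, x ≤ i ∧ i < y ∧ g i ≠ 0 ∧ g (nx g i) ≠ g i := by
  classical
  set S := (Finset.Ico x y).filter (fun i => g i = g x) with hS
  have hxS : x ∈ S := by simp [hS, hxy]
  obtain ⟨i, hi, hmax⟩ := S.exists_max_image id ⟨x, hxS⟩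
  simp only [hS, Finset.mem_filter, Finset.mem_Ico, id_eq] at hi hmax
  obtain ⟨⟨h1, h2⟩, h3⟩ := hi
  refine ⟨i, h1, h2, h3 ▸ hx, fun hc => ?_⟩
  obtain ⟨h4, -⟩ := nx_spec (g := g) ⟨y, h2, hy⟩
  have h5 := nx_le h2 hy
  have h6 : nx g i ≠ y := by
    intro h
    rw [h] at hc
    exact hne (h3.symm.trans hc.symm)
  have := hmax (nx g i) ⟨⟨by omega, by omega⟩, hc.trans h3⟩
  omega

lemma nx_add {g : ℕ → SignType} {k : ℕ} (hper : ∀ n, g (n + k) = g n) {n : ℕ}
    (h : ∃ m, n < m ∧ g m ≠ 0) : nx g (n + k) = nx g n + k := by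
  obtain ⟨h1, h2⟩ := nx_spec h
  apply le_antisymm
  · exact nx_le (by omega) (by rw [hper]; exact h2)
  · obtain ⟨h3, h4⟩ := nx_spec (g := g) (n := n + k)
      ⟨nx g n + k, by omega, by rw [hper]; exact h2⟩
    obtain ⟨M, hM⟩ : ∃ M, nx g (n + k) = M + k := ⟨nx g (n + k) - k, by omega⟩
    rw [hM] at h3 h4 ⊢
    rw [hper] at h4
    have := nx_le (g := g) (n := n) (m := M) (by omega) h4
    omega

lemma g_nx_add_mul {g : ℕ → SignType} {k : ℕ} (hk : 0 < k) (hper : ∀ n, g (n + k) = g n) {n : ℕ}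
    (hn : g n ≠ 0) (m : ℕ) : g (nx g (n + k * m)) = g (nx g n) ∧ g (n + k * m) = g n := by
  induction m with
  | zero => simp
  | succ m ih =>
    have e : n + k * (m + 1) = (n + k * m) + k := by ring
    rw [e, hper, nx_add hper ⟨n + k * m + k, by omega, by rw [hper, ih.2]; exact hn⟩, hper]
    exact ih

/-- linear algebra over `𝔽₂`: an Euler type inequality -/
lemma linalg {A V R : Type*} [Fintype A] [Fintype V] [Fintype R] [Nonempty V] [Nonempty R]
    (M : A → V → ZMod 2) (N : R → A → ZMod 2) (hM : ∀ e, ∑ v, M e v = 0)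
    (hN : ∀ e, ∑ q, N q e = 0)
    (hker : ∀ z : A → ZMod 2, (∀ v, ∑ e, M e v * z e = 0) →
      ∃ c : R → ZMod 2, ∀ e, z e = ∑ q, N q e * c q) :
    Fintype.card A + 2 ≤ Fintype.card V + Fintype.card R := by
  classical
  have : Fact (Nat.Prime 2) := ⟨Nat.prime_two⟩
  let f : (A → ZMod 2) →ₗ[ZMod 2] (V → ZMod 2) :=
    Matrix.mulVecLin (Matrix.of (fun v e => M e v))
  let g : (R → ZMod 2) →ₗ[ZMod 2] (A → ZMod 2) :=
    Matrix.mulVecLin (Matrix.of (fun e q => N q e))
  have hf : ∀ z v, f z v = ∑ e, M e v * z e := by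
    intro z v
    simp [f, Matrix.mulVec, dotProduct]
  have hg : ∀ c e, g c e = ∑ q, N q e * c q := by
    intro z v
    simp [g, Matrix.mulVec, dotProduct]
  have h1 := f.finrank_range_add_finrank_ker
  have h2 := g.finrank_range_add_finrank_ker
  rw [Module.finrank_fintype_fun_eq_card] at h1 h2
  have h3 : Module.finrank (ZMod 2) (LinearMap.ker f) ≤
      Module.finrank (ZMod 2) (LinearMap.range g) := by
    apply Submodule.finrank_mono
    intro z hz
    obtain ⟨c, hc⟩ := hker z (fun v => by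
      rw [← hf]
      rw [LinearMap.mem_ker] at hz
      rw [hz]; rfl)
    exact ⟨c, funext fun e => by rw [hg, hc e]⟩
  have h4 : 1 ≤ Module.finrank (ZMod 2) (LinearMap.ker g) := by
    rw [Nat.one_le_iff_ne_zero]
    intro h0
    have h5 := Submodule.finrank_eq_zero.1 h0
    have h6 : (fun _ => 1 : R → ZMod 2) ∈ LinearMap.ker g := by
      rw [LinearMap.mem_ker]
      funext e
      rw [hg]
      simpa using hN e
    rw [h5, Submodule.mem_bot] at h6
    obtain ⟨r⟩ := ‹Nonempty R›
    have := congrFun h6 r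
    simp at this
  have h5 : Module.finrank (ZMod 2) (LinearMap.range f) < Fintype.card V := by
    rw [← Module.finrank_fintype_fun_eq_card (ZMod 2) (η := V)]
    apply Submodule.finrank_lt
    intro htop
    obtain ⟨v⟩ := ‹Nonempty V›
    have h6 : (Pi.single v 1 : V → ZMod 2) ∈ LinearMap.range f := by rw [htop]; trivial
    obtain ⟨z, hz⟩ := h6
    have h7 : ∑ u, f z u = 0 := by
      simp_rw [hf]
      rw [Finset.sum_comm]
      refine Finset.sum_eq_zero (fun e _ => ?_)
      rw [← Finset.sum_mul, hM e, zero_mul]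
    rw [hz] at h7
    simp at h7
  omega

section main

variable {Vt Ed Fc : Type*} {inc : Vt → Ed → Prop} {bd : Ed → Fc → Prop}
  {k : Vt → ℕ} {ev : ∀ v, Fin (k v) → Ed} {Fv : ∀ v, Fin (k v) → Fc} {s : Ed → SignType}

/-- crossing an edge with label zero -/
def rel (bd : Ed → Fc → Prop) (s : Ed → SignType) (F G : Fc) : Prop :=
  ∃ e, s e = 0 ∧ bd e F ∧ bd e G

/-- index modulo `k v` -/
def idx {k : Vt → ℕ} (hk : ∀ v, 3 ≤ k v) (v : Vt) (n : ℕ) : Fin (k v) :=
  ⟨n % k v, Nat.mod_lt _ (by have := hk v; omega)⟩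

lemma idx_self (hk : ∀ v, 3 ≤ k v) (v : Vt) (i : Fin (k v)) : idx hk v i = i := by
  apply Fin.ext
  exact Nat.mod_eq_of_lt i.2

lemma idx_add (hk : ∀ v, 3 ≤ k v) (v : Vt) (n : ℕ) : idx hk v (n + k v) = idx hk v n := by
  apply Fin.ext
  simp [idx]

/-- the labels around `v` as a periodic sequence -/
def gg (ev : ∀ v, Fin (k v) → Ed) (s : Ed → SignType) (hk : ∀ v, 3 ≤ k v) (v : Vt) (n : ℕ) :
    SignType := s (ev v (idx hk v n))

/-- the next corner -/
noncomputable def nxt (ev : ∀ v, Fin (k v) → Ed) (s : Ed → SignType) (hk : ∀ v, 3 ≤ k v)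
    (p : (v : Vt) × Fin (k v)) : (v : Vt) × Fin (k v) :=
  ⟨p.1, idx hk p.1 (nx (gg ev s hk p.1) p.2)⟩

lemma gg_self (hk : ∀ v, 3 ≤ k v) (p : (v : Vt) × Fin (k v)) :
    gg ev s hk p.1 p.2 = s (ev p.1 p.2) := by
  rw [gg, idx_self]

lemma gg_add (hk : ∀ v, 3 ≤ k v) (v : Vt) (n : ℕ) :
    gg ev s hk v (n + k v) = gg ev s hk v n := by
  rw [gg, idx_add, gg]

lemma nx_ok (hk : ∀ v, 3 ≤ k v) {p : (v : Vt) × Fin (k v)} (hp : s (ev p.1 p.2) ≠ 0) :
    (p.2 : ℕ) < nx (gg ev s hk p.1) p.2 ∧ nx (gg ev s hk p.1) p.2 ≤ p.2 + k p.1 ∧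
      gg ev s hk p.1 (nx (gg ev s hk p.1) p.2) ≠ 0 := by
  have h1 : gg ev s hk p.1 (p.2 + k p.1) ≠ 0 := by
    rw [gg_add, gg_self]; exact hp
  have hlt : (p.2 : ℕ) < p.2 + k p.1 := by have := hk p.1; omega
  obtain ⟨h2, h3⟩ := nx_spec (g := gg ev s hk p.1) ⟨_, hlt, h1⟩
  exact ⟨h2, nx_le hlt h1, h3⟩

lemma nxt_ne (hk : ∀ v, 3 ≤ k v) {p : (v : Vt) × Fin (k v)} (hp : s (ev p.1 p.2) ≠ 0) :
    s (ev (nxt ev s hk p).1 (nxt ev s hk p).2) ≠ 0 := (nx_ok hk hp).2.2

lemma nxt_inj (hk : ∀ v, 3 ≤ k v) {p q : (v : Vt) × Fin (k v)} (hp : s (ev p.1 p.2) ≠ 0)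
    (hq : s (ev q.1 q.2) ≠ 0) (h : nxt ev s hk p = nxt ev s hk q) : p = q := by
  obtain ⟨v, i⟩ := p
  obtain ⟨w, j⟩ := q
  have hvw : v = w := congrArg Sigma.fst h
  subst hvw
  have h1 : idx hk v (nx (gg ev s hk v) i) = idx hk v (nx (gg ev s hk v) j) := by
    simpa [nxt] using h
  have h2 : nx (gg ev s hk v) i % k v = nx (gg ev s hk v) j % k v := congrArg Fin.val h1
  obtain ⟨a1, a2, a3⟩ := nx_ok hk hp
  obtain ⟨b1, b2, b3⟩ := nx_ok hk hq
  simp only at a1 a2 a3 b1 b2 b3 hp hq
  have key : ∀ i j : Fin (k v), s (ev v i) ≠ 0 → s (ev v j) ≠ 0 →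
      nx (gg ev s hk v) i % k v = nx (gg ev s hk v) j % k v → ¬ i < j := by
    intro i j hi hj hmod hij
    obtain ⟨a1, a2, a3⟩ := nx_ok (p := ⟨v, i⟩) hk hi
    obtain ⟨b1, b2, b3⟩ := nx_ok (p := ⟨v, j⟩) hk hj
    simp only at a1 a2 a3 b1 b2 b3
    have c1 : nx (gg ev s hk v) i ≤ j := nx_le hij (by rw [gg, idx_self]; exact hj)
    have c2 : nx (gg ev s hk v) j ≤ i + k v := by
      refine nx_le ?_ (by rw [gg_add, gg, idx_self]; exact hi)
      have := j.2
      omega
    have hlt : nx (gg ev s hk v) i < nx (gg ev s hk v) j := by omega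
    have hdvd := (Nat.modEq_iff_dvd' hlt.le).1 hmod
    have := Nat.le_of_dvd (by omega) hdvd
    omega
  rcases lt_trichotomy i j with hlt | heq | hlt
  · exact absurd hlt (key i j hp hq h2)
  · rw [heq]
  · exact absurd hlt (key j i hq hp h2.symm)

end main

/-- **Lemma C (abstract Cauchy counting).** -/
theorem counting {Vt Ed Fc : Type*} [Fintype Vt] [Fintype Ed] [Fintype Fc]
    (inc : Vt → Ed → Prop) (bd : Ed → Fc → Prop)
    [∀ v, DecidablePred (inc v)] [∀ e, DecidablePred (bd e)]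
    (hV : ∀ e, ∃ v w, v ≠ w ∧ ∀ u, inc u e ↔ u = v ∨ u = w)
    (hsimple : ∀ e e', (∀ u, inc u e ↔ inc u e') → e = e')
    (hF : ∀ e, ∃ F G, F ≠ G ∧ ∀ X, bd e X ↔ X = F ∨ X = G)
    (k : Vt → ℕ) (hk : ∀ v, 3 ≤ k v)
    (ev : ∀ v, Fin (k v) → Ed) (hinj : ∀ v, Function.Injective (ev v))
    (hrange : ∀ v e, inc v e ↔ ∃ i, ev v i = e)
    (Fv : ∀ v, Fin (k v) → Fc) (hFinj : ∀ v, Function.Injective (Fv v))
    (hbd : ∀ v (i : Fin (k v)), ∀ e, inc v e → (bd e (Fv v i) ↔
      e = ev v i ∨ ∃ j : Fin (k v), (j : ℕ) = (i + 1) % k v ∧ e = ev v j))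
    (H : ∀ z : Ed → ZMod 2, (∀ v, ∑ e with inc v e, z e = 0) →
      ∃ c : Fc → ZMod 2, ∀ e, z e = ∑ F with bd e F, c F)
    (s : Ed → SignType)
    (hs : ∀ v, (∀ e, inc v e → s e = 0) ∨ ∃ a b c d : Fin (k v), a < b ∧ b < c ∧ c < d ∧
      ((s (ev v a) = 1 ∧ s (ev v b) = -1 ∧ s (ev v c) = 1 ∧ s (ev v d) = -1) ∨
        (s (ev v a) = -1 ∧ s (ev v b) = 1 ∧ s (ev v c) = -1 ∧ s (ev v d) = 1))) :
    ∀ e, s e = 0 := by
  classical
  by_contra hcon
  push Not at hcon
  obtain ⟨e₀, he₀⟩ := hcon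
  -- basic facts
  have hinc : ∀ v i, inc v (ev v i) := fun v i => (hrange v _).2 ⟨i, rfl⟩
  have hbd1 : ∀ v n, bd (ev v (idx hk v n)) (Fv v (idx hk v n)) := fun v n =>
    (hbd v _ _ (hinc v _)).2 (Or.inl rfl)
  have hbd2 : ∀ v n, bd (ev v (idx hk v (n + 1))) (Fv v (idx hk v n)) := fun v n =>
    (hbd v _ _ (hinc v _)).2 (Or.inr ⟨idx hk v (n + 1), by simp [idx], rfl⟩)
  -- darts
  let D := (v : Vt) × Fin (k v)
  let ed : D → Ed := fun p => ev p.1 p.2
  let nxD : D → D := nxt ev s hk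
  let mk : Fc → Quot (rel bd s) := Quot.mk _
  let pre : D → Fc := fun p => Fv p.1 (idx hk p.1 (p.2 + k p.1 - 1))
  let Φ : Finset D := univ.filter (fun p => s (ed p) ≠ 0)
  have hΦ : ∀ p, p ∈ Φ ↔ s (ed p) ≠ 0 := by simp [Φ]
  have hnxΦ : ∀ p ∈ Φ, nxD p ∈ Φ := fun p hp => (hΦ _).2 (nxt_ne hk ((hΦ p).1 hp))
  have hsumnx : ∀ h : D → ℕ, ∑ p ∈ Φ, h (nxD p) = ∑ p ∈ Φ, h p := by
    intro h
    have hinjOn : Set.InjOn nxD Φ := fun p hp q hq hpq =>
      nxt_inj hk ((hΦ p).1 hp) ((hΦ q).1 hq) hpq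
    have himg : Φ.image nxD = Φ := by
      apply Finset.eq_of_subset_of_card_le
      · intro q hq
        obtain ⟨p, hp, rfl⟩ := Finset.mem_image.1 hq
        exact hnxΦ p hp
      · rw [Finset.card_image_of_injOn hinjOn]
    conv_rhs => rw [← himg]
    rw [Finset.sum_image hinjOn]
  -- facets of an edge seen from a dart
  have hbdpre : ∀ p : D, bd (ed p) (pre p) := by
    intro p
    have := hbd2 p.1 (p.2 + k p.1 - 1)
    have e1 : (p.2 : ℕ) + k p.1 - 1 + 1 = p.2 + k p.1 := by have := hk p.1; omega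
    rw [e1, idx_add, idx_self] at this
    exact this
  have hbdself : ∀ p : D, bd (ed p) (Fv p.1 p.2) := by
    intro p
    have := hbd1 p.1 p.2
    rwa [idx_self] at this
  have hprene : ∀ p : D, Fv p.1 p.2 ≠ pre p := by
    intro p h
    have h1 := hFinj p.1 h
    have h2 : (p.2 : ℕ) = (p.2 + k p.1 - 1) % k p.1 := congrArg Fin.val h1
    have h3 := p.2.2
    have h4 := hk p.1
    rcases Nat.eq_zero_or_pos (p.2 : ℕ) with h0 | h0
    · rw [h0, Nat.zero_add, Nat.mod_eq_of_lt (by omega)] at h2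
      omega
    · have e1 : (p.2 : ℕ) + k p.1 - 1 = (p.2 - 1) + k p.1 := by omega
      rw [e1, Nat.add_mod_right, Nat.mod_eq_of_lt (by omega)] at h2
      omega
  have hfac : ∀ p : D, ∀ X, bd (ed p) X ↔ X = Fv p.1 p.2 ∨ X = pre p := by
    intro p X
    obtain ⟨F, G, hFG, h⟩ := hF (ed p)
    have h1 := (h _).1 (hbdself p)
    have h2 := (h _).1 (hbdpre p)
    have h3 := hprene p
    rw [h]
    rcases h1 with h1 | h1 <;> rcases h2 with h2 | h2
    · exact absurd (h1.trans h2.symm) h3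
    · rw [h1, h2]
    · rw [h1, h2]; exact or_comm
    · exact absurd (h1.trans h2.symm) h3
  have hfilt : ∀ p : D, (univ.filter (bd (ed p))) = {Fv p.1 p.2, pre p} := by
    intro p
    ext X
    simp [hfac p X]
  -- the region before the next corner
  have hreg : ∀ p ∈ Φ, mk (pre (nxD p)) = mk (Fv p.1 p.2) := by
    intro p hp
    obtain ⟨h1, h2, h3⟩ := nx_ok hk ((hΦ p).1 hp)
    have key : ∀ n, (p.2 : ℕ) ≤ n → n < nx (gg ev s hk p.1) p.2 →
        mk (Fv p.1 (idx hk p.1 n)) = mk (Fv p.1 p.2) := by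
      intro n hn
      induction n, hn using Nat.le_induction with
      | base => intro _; rw [idx_self]
      | succ n hn ih =>
        intro hlt
        rw [← ih (by omega)]
        symm
        apply Quot.sound
        refine ⟨ev p.1 (idx hk p.1 (n + 1)), ?_, hbd2 p.1 n, hbd1 p.1 (n + 1)⟩
        exact nx_zero (g := gg ev s hk p.1) (by omega) hlt
    have e1 : pre (nxD p) = Fv p.1 (idx hk p.1 (nx (gg ev s hk p.1) p.2 - 1)) := by
      show Fv p.1 (idx hk p.1 (_ + k p.1 - 1)) = _
      congr 1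
      apply Fin.ext
      show ((nx (gg ev s hk p.1) p.2 % k p.1) + k p.1 - 1) % k p.1 =
        (nx (gg ev s hk p.1) p.2 - 1) % k p.1
      have hk3 := hk p.1
      set N := nx (gg ev s hk p.1) p.2 with hN
      have hN1 : 1 ≤ N := by omega
      obtain ⟨m, hm⟩ : ∃ m, N = N % k p.1 + k p.1 * m := ⟨N / k p.1, (Nat.mod_add_div N _).symm⟩
      rcases Nat.eq_zero_or_pos (N % k p.1) with h0 | h0
      · rw [h0] at hm ⊢
        have hm1 : 1 ≤ m := by
          rcases Nat.eq_zero_or_pos m with h | h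
          · subst h; omega
          · exact h
        obtain ⟨m', rfl⟩ : ∃ m', m = m' + 1 := ⟨m - 1, by omega⟩
        have : N - 1 = (k p.1 - 1) + k p.1 * m' := by
          rw [hm, Nat.mul_succ]; omega
        rw [this, Nat.add_mul_mod_self_left, Nat.zero_add]
      · have e2 : N - 1 = (N % k p.1 - 1) + k p.1 * m := by omega
        have e3 : N % k p.1 + k p.1 - 1 = (N % k p.1 - 1) + k p.1 := by omega
        rw [e2, e3, Nat.add_mod_right, Nat.add_mul_mod_self_left]
    rw [e1]
    exact key _ (by omega) (by omega)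
  -- double counting over the two ends of an edge
  have hends : ∀ h : Ed → ℕ, ∑ p : D, h (ed p) = 2 * ∑ e, h e := by
    intro h
    have h1 : ∑ p : D, h (ed p) = ∑ v, ∑ e with inc v e, h e := by
      rw [Fintype.sum_sigma]
      refine Finset.sum_congr rfl (fun v _ => ?_)
      have : (univ.filter (inc v)) = univ.image (ev v) := by
        ext e
        simp [hrange v e]
      rw [this, Finset.sum_image (fun i _ j _ hij => hinj v hij)]
    rw [h1]
    simp_rw [Finset.sum_filter]
    rw [Finset.sum_comm, Finset.mul_sum]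
    refine Finset.sum_congr rfl (fun e _ => ?_)
    obtain ⟨v, w, hvw, hu⟩ := hV e
    rw [← Finset.sum_filter]
    have : (univ.filter (fun u => inc u e)) = {v, w} := by
      ext u; simp [hu u]
    rw [this, Finset.sum_pair hvw]
    ring
  have hendsΦ : ∀ h : Ed → ℕ, ∑ p ∈ Φ, h (ed p) = 2 * ∑ e with s e ≠ 0, h e := by
    intro h
    have := hends (fun e => if s e ≠ 0 then h e else 0)
    rw [Finset.sum_filter, Finset.sum_filter]
    exact this
  -- numbers attached to a region
  let b : Quot (rel bd s) → ℕ := fun q => ∑ p ∈ Φ, if mk (Fv p.1 p.2) = q then 1 else 0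
  let cnt : Quot (rel bd s) → Ed → ℕ := fun q e => ∑ F with bd e F, if mk F = q then 1 else 0
  have hcnt : ∀ q (p : D), cnt q (ed p) =
      (if mk (Fv p.1 p.2) = q then 1 else 0) + (if mk (pre p) = q then 1 else 0) := by
    intro q p
    show ∑ F with bd (ed p) F, _ = _
    rw [hfilt p, Finset.sum_pair (hprene p)]
  have hshift : ∀ q (h : D → ℕ), ∑ p ∈ Φ, (if mk (pre p) = q then h p else 0) =
      ∑ p ∈ Φ, (if mk (Fv p.1 p.2) = q then h (nxD p) else 0) := by
    intro q h
    rw [← hsumnx]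
    refine Finset.sum_congr rfl (fun p hp => ?_)
    rw [hreg p hp]
  have hb : ∀ q, b q = ∑ e with s e ≠ 0, cnt q e := by
    intro q
    have h1 := hendsΦ (cnt q)
    have h2 : ∑ p ∈ Φ, cnt q (ed p) = b q + b q := by
      rw [Finset.sum_congr rfl (fun p _ => hcnt q p), Finset.sum_add_distrib]
      congr 1
      have := hshift q (fun _ => 1)
      exact this
    omega
  let ch : D → ℕ := fun p => if s (ed (nxD p)) ≠ s (ed p) then 1 else 0
  let c : Quot (rel bd s) → ℕ := fun q => ∑ p ∈ Φ, if mk (Fv p.1 p.2) = q then ch p else 0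
  have hcb : ∀ q, c q ≤ b q := by
    intro q
    refine Finset.sum_le_sum (fun p _ => ?_)
    split_ifs
    · show (if _ then 1 else 0) ≤ 1
      split_ifs <;> omega
    · exact le_rfl
  have hceven : ∀ q, Even (c q) := by
    intro q
    let δ : Ed → ℕ := fun e => if s e = 1 then 1 else 0
    have hid : ∀ p ∈ Φ, ch p + 2 * (δ (ed p) * δ (ed (nxD p))) =
        δ (ed p) + δ (ed (nxD p)) := by
      intro p hp
      have h1 := (hΦ p).1 hp
      have h2 := (hΦ _).1 (hnxΦ p hp)
      show (if s (ed (nxD p)) ≠ s (ed p) then 1 else 0) +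
        2 * ((if s (ed p) = 1 then 1 else 0) * (if s (ed (nxD p)) = 1 then 1 else 0)) =
        (if s (ed p) = 1 then 1 else 0) + (if s (ed (nxD p)) = 1 then 1 else 0)
      revert h1 h2
      generalize s (ed p) = x
      generalize s (ed (nxD p)) = y
      revert x y
      decide
    have h1 : c q + 2 * ∑ p ∈ Φ, (if mk (Fv p.1 p.2) = q then
        δ (ed p) * δ (ed (nxD p)) else 0) =
        ∑ p ∈ Φ, (if mk (Fv p.1 p.2) = q then δ (ed p) else 0) +
        ∑ p ∈ Φ, (if mk (Fv p.1 p.2) = q then δ (ed (nxD p)) else 0) := by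
      show ∑ p ∈ Φ, _ + _ = _
      rw [Finset.mul_sum, ← Finset.sum_add_distrib, ← Finset.sum_add_distrib]
      refine Finset.sum_congr rfl (fun p hp => ?_)
      have := hid p hp
      split_ifs
      · exact this
      · rfl
    have h2 := hshift q (fun p => δ (ed p))
    rw [← h2] at h1
    have h3 : ∑ p ∈ Φ, (if mk (Fv p.1 p.2) = q then δ (ed p) else 0) +
        ∑ p ∈ Φ, (if mk (pre p) = q then δ (ed p) else 0) =
        ∑ p ∈ Φ, (fun e => cnt q e * δ e) (ed p) := by
      rw [← Finset.sum_add_distrib]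
      refine Finset.sum_congr rfl (fun p _ => ?_)
      show _ = cnt q (ed p) * δ (ed p)
      rw [hcnt q p]
      split_ifs <;> ring
    have h4 := hendsΦ (fun e => cnt q e * δ e)
    have h5 := h3.trans h4
    rw [h5] at h1
    rw [Nat.even_iff]
    omega
  -- surjectivity of the next corner map
  have hsurj : ∀ q ∈ Φ, ∃ p ∈ Φ, nxD p = q := by
    intro q hq
    have hinjOn : Set.InjOn nxD Φ := fun p hp q hq hpq =>
      nxt_inj hk ((hΦ p).1 hp) ((hΦ q).1 hq) hpq
    have himg : Φ.image nxD = Φ := by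
      apply Finset.eq_of_subset_of_card_le
      · intro q hq
        obtain ⟨p, hp, rfl⟩ := Finset.mem_image.1 hq
        exact hnxΦ p hp
      · rw [Finset.card_image_of_injOn hinjOn]
    rw [← himg] at hq
    obtain ⟨p, hp, h⟩ := Finset.mem_image.1 hq
    exact ⟨p, hp, h⟩
  -- the next edge is different
  have hnxne : ∀ p ∈ Φ, ed (nxD p) ≠ ed p := by
    intro p hp heq
    have hp' := (hΦ p).1 hp
    obtain ⟨h1, h2, h3⟩ := nx_ok hk hp'
    have hj : ∃ j : Fin (k p.1), j ≠ p.2 ∧ s (ev p.1 j) ≠ 0 := by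
      rcases hs p.1 with h | ⟨a, b, c, d, hab, hbc, hcd, h⟩
      · exact absurd (h _ (hinc p.1 p.2)) hp'
      · have ha : s (ev p.1 a) ≠ 0 := by
          rcases h with h | h <;> rw [h.1] <;> decide
        have hb' : s (ev p.1 b) ≠ 0 := by
          rcases h with h | h <;> rw [h.2.1] <;> decide
        by_cases h4 : a = p.2
        · exact ⟨b, by rw [← h4]; exact hab.ne', hb'⟩
        · exact ⟨a, h4, ha⟩
    obtain ⟨j, hj1, hj2⟩ := hj
    have hj3 : (j : ℕ) ≠ p.2 := fun h => hj1 (Fin.ext h)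
    have hjlt := j.2
    have hplt := p.2.2
    have h4 : nx (gg ev s hk p.1) p.2 < p.2 + k p.1 := by
      rcases lt_or_gt_of_ne hj3 with h | h
      · have : nx (gg ev s hk p.1) p.2 ≤ j + k p.1 :=
          nx_le (by omega) (by rw [gg_add, gg, idx_self]; exact hj2)
        omega
      · have : nx (gg ev s hk p.1) p.2 ≤ j :=
          nx_le h (by rw [gg, idx_self]; exact hj2)
        omega
    have h5 : idx hk p.1 (nx (gg ev s hk p.1) p.2) = p.2 := hinj p.1 heq
    have h6 : nx (gg ev s hk p.1) p.2 % k p.1 = p.2 := congrArg Fin.val h5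
    rcases Nat.lt_or_ge (nx (gg ev s hk p.1) p.2) (k p.1) with h7 | h7
    · rw [Nat.mod_eq_of_lt h7] at h6
      omega
    · rw [Nat.mod_eq_sub_mod h7, Nat.mod_eq_of_lt (by omega)] at h6
      omega
  -- each end of an edge of the region has another edge of the region
  have hK : ∀ q e u, s e ≠ 0 → 1 ≤ cnt q e → inc u e →
      ∃ e', e' ≠ e ∧ s e' ≠ 0 ∧ 1 ≤ cnt q e' ∧ inc u e' := by
    intro q e u he hq hu
    obtain ⟨i, hi⟩ := (hrange u e).1 hu
    let x : D := ⟨u, i⟩
    have hx : ed x = e := hi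
    have hxΦ : x ∈ Φ := (hΦ x).2 (by rw [hx]; exact he)
    have h1 := hcnt q x
    rw [hx] at h1
    by_cases h2 : mk (Fv x.1 x.2) = q
    · refine ⟨ed (nxD x), ?_, (hΦ _).1 (hnxΦ x hxΦ), ?_, hinc u _⟩
      · rw [← hx]; exact hnxne x hxΦ
      · rw [hcnt q (nxD x), hreg x hxΦ, h2]
        simp
    · have h3 : mk (pre x) = q := by
        by_contra h3
        rw [if_neg h2, if_neg h3] at h1
        omega
      obtain ⟨y, hy, hyx⟩ := hsurj x hxΦ
      have hy1 : y.1 = u := congrArg Sigma.fst hyx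
      refine ⟨ed y, ?_, (hΦ y).1 hy, ?_, ?_⟩
      · rw [← hx, ← hyx]; exact (hnxne y hy).symm
      · rw [hcnt q y, ← hreg y hy, hyx, h3]
        simp
      · rw [← hy1]; exact hinc _ _
  have hb3 : ∀ q, 0 < b q → 3 ≤ b q := by
    intro q hq
    rw [hb q] at hq ⊢
    obtain ⟨e1, he1, hc1⟩ : ∃ e, s e ≠ 0 ∧ 1 ≤ cnt q e := by
      by_contra hno
      push Not at hno
      have : ∑ e with s e ≠ 0, cnt q e = 0 := by
        refine Finset.sum_eq_zero (fun e he => ?_)
        have := hno e (Finset.mem_filter.1 he).2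
        omega
      omega
    obtain ⟨v, w, hvw, hu⟩ := hV e1
    obtain ⟨e2, h21, h22, h23, h24⟩ := hK q e1 v he1 hc1 ((hu v).2 (Or.inl rfl))
    obtain ⟨e3, h31, h32, h33, h34⟩ := hK q e1 w he1 hc1 ((hu w).2 (Or.inr rfl))
    have h23' : e2 ≠ e3 := by
      intro h
      subst h
      apply h21
      apply hsimple
      intro u
      rw [hu u]
      obtain ⟨v', w', hvw', hu'⟩ := hV e2
      rw [hu' u]
      have a1 := (hu' v).1 h24
      have a2 := (hu' w).1 h34
      rcases a1 with a1 | a1 <;> rcases a2 with a2 | a2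
      · exact absurd (a1.trans a2.symm) hvw
      · rw [a1, a2]
      · rw [a1, a2]; exact or_comm
      · exact absurd (a1.trans a2.symm) hvw
    have hsub : ({e1, e2, e3} : Finset Ed) ⊆ univ.filter (fun e => s e ≠ 0) := by
      intro e he
      simp only [Finset.mem_insert, Finset.mem_singleton] at he
      rw [Finset.mem_filter]
      refine ⟨Finset.mem_univ _, ?_⟩
      rcases he with rfl | rfl | rfl <;> assumption
    calc 3 = ∑ e ∈ ({e1, e2, e3} : Finset Ed), 1 := by
          rw [Finset.sum_const, Finset.card_eq_three.2 ⟨e1, e2, e3, h21.symm, h31.symm, h23', rfl⟩]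
          rfl
      _ ≤ ∑ e ∈ ({e1, e2, e3} : Finset Ed), cnt q e := by
          refine Finset.sum_le_sum (fun e he => ?_)
          simp only [Finset.mem_insert, Finset.mem_singleton] at he
          rcases he with rfl | rfl | rfl <;> assumption
      _ ≤ _ := Finset.sum_le_sum_of_subset hsub
  have hc4 : ∀ q, c q + (if 0 < b q then 4 else 0) ≤ 2 * b q := by
    intro q
    have h1 := hcb q
    have h2 := hceven q
    have h3 := hb3 q
    rw [Nat.even_iff] at h2
    split_ifs with h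
    · have := h3 h
      omega
    · omega
  -- vertices of the subgraph
  let VA : Finset Vt := univ.filter (fun v => ∃ e, inc v e ∧ s e ≠ 0)
  have hch4 : ∀ v ∈ VA, 4 ≤ ∑ i, if s (ev v i) ≠ 0 then ch ⟨v, i⟩ else 0 := by
    intro v hv
    obtain ⟨e, hve, hse⟩ := (Finset.mem_filter.1 hv).2
    rcases hs v with h | ⟨a, b, c, d, hab, hbc, hcd, h⟩
    · exact absurd (h e hve) hse
    have hk3 := hk v
    set g := gg ev s hk v with hg
    have hper : ∀ n, g (n + k v) = g n := gg_add hk v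
    have hga : g a = s (ev v a) := by rw [hg, gg, idx_self]
    have hgb : g b = s (ev v b) := by rw [hg, gg, idx_self]
    have hgc : g c = s (ev v c) := by rw [hg, gg, idx_self]
    have hgd : g d = s (ev v d) := by rw [hg, gg, idx_self]
    have hgk : g (a + k v) = s (ev v a) := by rw [hper, hga]
    have hab' : (a : ℕ) < b := hab
    have hbc' : (b : ℕ) < c := hbc
    have hcd' : (c : ℕ) < d := hcd
    have hd' := d.2
    have na : s (ev v a) ≠ 0 := by rcases h with h | h <;> rw [h.1] <;> decide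
    have nb : s (ev v b) ≠ 0 := by rcases h with h | h <;> rw [h.2.1] <;> decide
    have nc : s (ev v c) ≠ 0 := by rcases h with h | h <;> rw [h.2.2.1] <;> decide
    have nd : s (ev v d) ≠ 0 := by rcases h with h | h <;> rw [h.2.2.2] <;> decide
    obtain ⟨i1, i1a, i1b, i1c, i1d⟩ := exists_change (g := g) hab'
      (by rw [hgb]; exact nb) (by rw [hga]; exact na)
      (by rw [hga, hgb]; rcases h with h | h <;> rw [h.1, h.2.1] <;> decide)
    obtain ⟨i2, i2a, i2b, i2c, i2d⟩ := exists_change (g := g) hbc'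
      (by rw [hgc]; exact nc) (by rw [hgb]; exact nb)
      (by rw [hgb, hgc]; rcases h with h | h <;> rw [h.2.1, h.2.2.1] <;> decide)
    obtain ⟨i3, i3a, i3b, i3c, i3d⟩ := exists_change (g := g) hcd'
      (by rw [hgd]; exact nd) (by rw [hgc]; exact nc)
      (by rw [hgc, hgd]; rcases h with h | h <;> rw [h.2.2.1, h.2.2.2] <;> decide)
    obtain ⟨i4, i4a, i4b, i4c, i4d⟩ := exists_change (g := g) (x := d) (y := a + k v)
      (by omega)
      (by rw [hgk]; exact na) (by rw [hgd]; exact nd)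
      (by rw [hgd, hgk]; rcases h with h | h <;> rw [h.2.2.2, h.1] <;> decide)
    -- each of them gives a change
    have hone : ∀ i, g i ≠ 0 → g (nx g i) ≠ g i →
        (if s (ev v (idx hk v i)) ≠ 0 then ch ⟨v, idx hk v i⟩ else 0) = 1 := by
      intro i hi1 hi2
      have e0 : s (ev v (idx hk v i)) = g i := rfl
      rw [e0, if_pos hi1]
      show (if g (nx g (i % k v)) ≠ g i then 1 else 0) = 1
      have hmd : i % k v + k v * (i / k v) = i := Nat.mod_add_div i _
      have hmod : g (i % k v) = g i := by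
        show s (ev v (idx hk v (i % k v))) = s (ev v (idx hk v i))
        congr 2
        apply Fin.ext
        exact Nat.mod_mod _ _
      have h8 := (g_nx_add_mul (g := g) (k := k v) (by omega) hper (n := i % k v)
        (by rw [hmod]; exact hi1) (i / k v)).1
      rw [hmd] at h8
      rw [← h8, if_pos hi2]
    have hidx : ∀ i j, (a : ℕ) ≤ i → i < j → j < a + k v → idx hk v i ≠ idx hk v j := by
      intro i j h1 h2 h3 h4
      have h5 : i % k v = j % k v := congrArg Fin.val h4
      have hdvd := (Nat.modEq_iff_dvd' h2.le).1 h5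
      have := Nat.le_of_dvd (by omega) hdvd
      omega
    have hcard : ({idx hk v i1, idx hk v i2, idx hk v i3, idx hk v i4} :
        Finset (Fin (k v))).card = 4 := by
      have n12 := hidx i1 i2 (by omega) (by omega) (by omega)
      have n13 := hidx i1 i3 (by omega) (by omega) (by omega)
      have n14 := hidx i1 i4 (by omega) (by omega) (by omega)
      have n23 := hidx i2 i3 (by omega) (by omega) (by omega)
      have n24 := hidx i2 i4 (by omega) (by omega) (by omega)
      have n34 := hidx i3 i4 (by omega) (by omega) (by omega)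
      rw [Finset.card_insert_of_notMem, Finset.card_insert_of_notMem,
        Finset.card_insert_of_notMem, Finset.card_singleton]
      · simpa using n34
      · simp [n23, n24]
      · simp [n12, n13, n14]
    calc 4 = ∑ i ∈ ({idx hk v i1, idx hk v i2, idx hk v i3, idx hk v i4} :
          Finset (Fin (k v))), 1 := by rw [Finset.sum_const, hcard]; rfl
      _ ≤ ∑ i ∈ ({idx hk v i1, idx hk v i2, idx hk v i3, idx hk v i4} :
          Finset (Fin (k v))), (if s (ev v i) ≠ 0 then ch ⟨v, i⟩ else 0) := by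
          refine Finset.sum_le_sum (fun i hi => ?_)
          simp only [Finset.mem_insert, Finset.mem_singleton] at hi
          rcases hi with rfl | rfl | rfl | rfl
          · exact (hone i1 i1c i1d).ge
          · exact (hone i2 i2c i2d).ge
          · exact (hone i3 i3c i3d).ge
          · exact (hone i4 i4c i4d).ge
      _ ≤ _ := Finset.sum_le_sum_of_subset (Finset.subset_univ _)
  -- the total number of changes
  have hsumch : 4 * VA.card ≤ ∑ p ∈ Φ, ch p := by
    have h1 : ∑ p ∈ Φ, ch p = ∑ v, ∑ i, if s (ev v i) ≠ 0 then ch ⟨v, i⟩ else 0 := by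
      rw [Finset.sum_filter, Fintype.sum_sigma]
    rw [h1]
    calc 4 * VA.card = ∑ v ∈ VA, 4 := by rw [Finset.sum_const, smul_eq_mul, mul_comm]
      _ ≤ ∑ v ∈ VA, ∑ i, (if s (ev v i) ≠ 0 then ch ⟨v, i⟩ else 0) := Finset.sum_le_sum hch4
      _ ≤ _ := Finset.sum_le_sum_of_subset (Finset.subset_univ _)
  have hfinq : Fintype (Quot (rel bd s)) := Fintype.ofFinite _
  have hsumc : ∑ q, c q = ∑ p ∈ Φ, ch p := by
    show ∑ q, ∑ p ∈ Φ, _ = _
    rw [Finset.sum_comm]
    refine Finset.sum_congr rfl (fun p _ => ?_)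
    simp
  have hsumb : ∑ q, b q = 2 * (univ.filter (fun e => s e ≠ 0)).card := by
    show ∑ q, ∑ p ∈ Φ, _ = _
    rw [Finset.sum_comm]
    have h1 := hendsΦ (fun _ => 1)
    rw [Finset.card_eq_sum_ones, ← h1]
    refine Finset.sum_congr rfl (fun p _ => ?_)
    simp
  have hsum4 : ∑ q, c q + 4 * (univ.filter (fun q => 0 < b q)).card ≤ 2 * ∑ q, b q := by
    have h1 : 4 * (univ.filter (fun q => 0 < b q)).card = ∑ q, if 0 < b q then 4 else 0 := by
      rw [← Finset.sum_filter, Finset.sum_const, smul_eq_mul, mul_comm]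
    rw [h1, ← Finset.sum_add_distrib, Finset.mul_sum]
    exact Finset.sum_le_sum (fun q _ => hc4 q)
  -- the Euler type inequality
  have hcnt0 : ∀ q e, s e ≠ 0 → ¬ 0 < b q → cnt q e = 0 := by
    intro q e he hq
    have h1 : b q = 0 := by omega
    rw [hb q, Finset.sum_eq_zero_iff] at h1
    exact h1 e (by simp [he])
  have hcnt2 : ∀ (e : Ed) (f : Quot (rel bd s) → ZMod 2),
      ∑ F with bd e F, f (mk F) = ∑ q, (cnt q e : ZMod 2) * f q := by
    intro e f
    have h1 : ∀ q, (cnt q e : ZMod 2) * f q =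
        ∑ F with bd e F, if mk F = q then f q else 0 := by
      intro q
      show ((∑ F with bd e F, (if mk F = q then 1 else 0) : ℕ) : ZMod 2) * f q = _
      rw [Nat.cast_sum, Finset.sum_mul]
      refine Finset.sum_congr rfl (fun F _ => ?_)
      split_ifs <;> simp
    simp_rw [h1]
    rw [Finset.sum_comm]
    refine Finset.sum_congr rfl (fun F _ => ?_)
    simp
  have hcnt3 : ∀ (e : Ed), s e ≠ 0 → ∀ (f : Quot (rel bd s) → ZMod 2),
      ∑ F with bd e F, f (mk F) = ∑ q : {q // 0 < b q}, (cnt q e : ZMod 2) * f q := by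
    intro e he f
    rw [hcnt2 e f, ← Finset.sum_filter_add_sum_filter_not univ (fun q => 0 < b q)]
    rw [Finset.sum_eq_zero (s := univ.filter (fun q => ¬ 0 < b q)), add_zero]
    · rw [Finset.sum_subtype]
      intro q
      simp
    · intro q hq
      rw [hcnt0 q e he (Finset.mem_filter.1 hq).2]
      simp
  have hev : ∀ e v, s e ≠ 0 → inc v e → v ∈ VA := fun e v he hv => by
    simp only [VA, Finset.mem_filter, Finset.mem_univ, true_and]
    exact ⟨e, hv, he⟩
  have hVAne : Nonempty {v // v ∈ VA} := by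
    obtain ⟨v, w, hvw, hu⟩ := hV e₀
    exact ⟨⟨v, hev e₀ v he₀ ((hu v).2 (Or.inl rfl))⟩⟩
  have hRne : Nonempty {q // 0 < b q} := by
    obtain ⟨F, G, hFG, hFG'⟩ := hF e₀
    refine ⟨⟨mk F, ?_⟩⟩
    by_contra hno
    have h1 := hcnt0 (mk F) e₀ he₀ hno
    have h2 : cnt (mk F) e₀ = ∑ X with bd e₀ X, (if mk X = mk F then 1 else 0) := rfl
    rw [h2, Finset.sum_eq_zero_iff] at h1
    have := h1 F (by simp [hFG' F])
    simp at this
  have hlin := linalg (A := {e // s e ≠ 0}) (V := {v // v ∈ VA}) (R := {q // 0 < b q})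
    (fun e v => if inc v e then 1 else 0) (fun q e => (cnt q e : ZMod 2)) ?_ ?_ ?_
  · have hA : Fintype.card {e // s e ≠ 0} = (univ.filter (fun e => s e ≠ 0)).card :=
      Fintype.card_subtype _
    have hVA : Fintype.card {v // v ∈ VA} = VA.card := by
      rw [Fintype.card_coe]
    have hR : Fintype.card {q // 0 < b q} = (univ.filter (fun q => 0 < b q)).card :=
      Fintype.card_subtype _
    rw [hA, hVA, hR] at hlin
    omega
  · rintro ⟨e, he⟩
    simp only
    have h1 : ∑ v : {v // v ∈ VA}, (if inc (v : Vt) e then (1 : ZMod 2) else 0) =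
        ∑ v ∈ VA, if inc v e then (1 : ZMod 2) else 0 := by
      rw [Finset.sum_coe_sort VA (fun v => if inc v e then (1 : ZMod 2) else 0)]
    rw [h1]
    obtain ⟨v, w, hvw, hu⟩ := hV e
    have h2 : VA.filter (fun v => inc v e) = {v, w} := by
      ext u
      rw [Finset.mem_filter, hu u]
      simp only [Finset.mem_insert, Finset.mem_singleton]
      constructor
      · exact fun h => h.2
      · exact fun h => ⟨hev e u he ((hu u).2 h), h⟩
    rw [← Finset.sum_filter, h2, Finset.sum_pair hvw]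
    decide
  · rintro ⟨e, he⟩
    simp only
    have h1 := hcnt3 e he (fun _ => 1)
    simp only [mul_one] at h1
    rw [← h1]
    obtain ⟨F, G, hFG, hFG'⟩ := hF e
    have h2 : univ.filter (fun X => bd e X) = {F, G} := by
      ext X
      simp [hFG' X]
    rw [h2, Finset.sum_pair hFG]
    decide
  · intro z hz
    let z' : Ed → ZMod 2 := fun e => if h : s e ≠ 0 then z ⟨e, h⟩ else 0
    have hz' : ∀ v, ∑ e with inc v e, z' e = 0 := by
      intro v
      by_cases hv : v ∈ VA
      · have h1 := hz ⟨v, hv⟩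
        simp only at h1
        have h2 : ∑ e with inc v e, z' e = ∑ e with s e ≠ 0, (if inc v e then 1 else 0) * z' e := by
          rw [Finset.sum_filter, Finset.sum_filter]
          refine Finset.sum_congr rfl (fun e _ => ?_)
          by_cases he : s e ≠ 0
          · simp [he]
          · have : z' e = 0 := dif_neg he
            simp [this]
        rw [h2, Finset.sum_subtype (p := fun e => s e ≠ 0) _ (by simp)]
        refine Eq.trans (Finset.sum_congr rfl (fun e _ => ?_)) h1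
        have : z' e = z e := dif_pos e.2
        rw [this]
      · refine Finset.sum_eq_zero (fun e he => ?_)
        refine dif_neg (fun hse => hv (hev e v hse (Finset.mem_filter.1 he).2))
    obtain ⟨cc, hcc⟩ := H z' hz'
    have hlift : ∀ F G, rel bd s F G → cc F = cc G := by
      rintro F G ⟨e, he, hF1, hG1⟩
      by_cases hFG : F = G
      · rw [hFG]
      obtain ⟨F', G', hFG', h'⟩ := hF e
      have h2 : univ.filter (fun X => bd e X) = {F, G} := by
        ext X
        simp only [Finset.mem_filter, Finset.mem_univ, true_and, Finset.mem_insert,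
          Finset.mem_singleton]
        rw [h' X]
        rcases (h' F).1 hF1 with a1 | a1 <;> rcases (h' G).1 hG1 with a2 | a2
        · exact absurd (a1.trans a2.symm) hFG
        · rw [a1, a2]
        · rw [a1, a2]; exact or_comm
        · exact absurd (a1.trans a2.symm) hFG
      have h3 := hcc e
      have h4 : z' e = 0 := dif_neg (not_not.2 he)
      rw [h4, h2, Finset.sum_pair hFG] at h3
      have h5 : cc F = - cc G := eq_neg_of_add_eq_zero_left h3.symm
      rw [h5]
      have : ∀ x : ZMod 2, -x = x := by decide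
      exact this _
    let c' : Quot (rel bd s) → ZMod 2 := Quot.lift cc hlift
    refine ⟨fun q => c' q, ?_⟩
    rintro ⟨e, he⟩
    simp only
    have h1 := hcnt3 e he c'
    rw [← h1]
    have h2 : z' e = z ⟨e, he⟩ := dif_pos he
    rw [← h2, hcc e]

end Pool.Agent.Work.MP_43c1cf_co.Counting
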