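import Mathlib

/-! A connected 2-regular incidence structure is a cycle. (helper92, MP_43c1cf_co) -/

set_option autoImplicit false

namespace Pool.Agent.Work.MP_43c1cf_co

theorem cyc {A B : Type*} [Finite A] [Finite B] [Nonempty A] (r : A → B → Prop)
    (h1 : ∀ b, ∃ a a', a ≠ a' ∧ ∀ x, r x b ↔ x = a ∨ x = a')
    (h2 : ∀ a, ∃ b b', b ≠ b' ∧ ∀ y, r a y ↔ y = b ∨ y = b')
    (h3 : ∀ b b', (∀ x, r x b ↔ r x b') → b = b')
    (hconn : ∀ S : Set A, S.Nonempty →
      (∀ a b a', a ∈ S → r a b → r a' b → a' ∈ S) → ∀ a, a ∈ S) :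
    ∃ (k : ℕ) (_ : 3 ≤ k) (e : Fin k → A) (f : Fin k → B),
      Function.Bijective e ∧ Function.Bijective f ∧
      ∀ (i : Fin k) (x : A), r x (f i) ↔ x = e i ∨ ∃ j : Fin k, (j : ℕ) = (i + 1) % k ∧ x = e j := by
  classical
  have hA : ∀ p : {p : A × B // r p.1 p.2}, ∃ a' : A, a' ≠ p.1.1 ∧ r a' p.1.2 ∧
      ∀ x, r x p.1.2 ↔ x = p.1.1 ∨ x = a' := by
    rintro ⟨⟨a, b⟩, hab⟩
    obtain ⟨u, u', hne, hu⟩ := h1 b
    rcases (hu a).1 hab with h | h
    · subst h
      exact ⟨u', hne.symm, (hu u').2 (Or.inr rfl), hu⟩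
    · subst h
      exact ⟨u, hne, (hu u).2 (Or.inl rfl), fun x => (hu x).trans or_comm⟩
  have hB : ∀ p : {p : A × B // r p.1 p.2}, ∃ b' : B, b' ≠ p.1.2 ∧ r p.1.1 b' ∧
      ∀ y, r p.1.1 y ↔ y = p.1.2 ∨ y = b' := by
    rintro ⟨⟨a, b⟩, hab⟩
    obtain ⟨u, u', hne, hu⟩ := h2 a
    rcases (hu b).1 hab with h | h
    · subst h
      exact ⟨u', hne.symm, (hu u').2 (Or.inr rfl), hu⟩
    · subst h
      exact ⟨u, hne, (hu u).2 (Or.inl rfl), fun x => (hu x).trans or_comm⟩
  choose oA oA1 oA2 oA3 using hA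
  choose oB oB1 oB2 oB3 using hB
  let F := {p : A × B // r p.1 p.2}
  let i1 : F → F := fun p => ⟨(oA p, p.1.2), oA2 p⟩
  let i2 : F → F := fun p => ⟨(p.1.1, oB p), oB2 p⟩
  have i11 : ∀ p, i1 (i1 p) = p := by
    intro p
    have h := (oA3 (i1 p) p.1.1).1 p.2
    apply Subtype.ext
    refine Prod.ext ?_ rfl
    rcases h with h | h
    · exact absurd h.symm (oA1 p)
    · exact h.symm
  have i22 : ∀ p, i2 (i2 p) = p := by
    intro p
    have h := (oB3 (i2 p) p.1.2).1 p.2
    apply Subtype.ext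
    refine Prod.ext rfl ?_
    rcases h with h | h
    · exact absurd h.symm (oB1 p)
    · exact h.symm
  have i1ne : ∀ p, i1 p ≠ p := fun p h => oA1 p (congrArg (fun q : F => q.1.1) h)
  have i2ne : ∀ p, i2 p ≠ p := fun p h => oB1 p (congrArg (fun q : F => q.1.2) h)
  let Φ : F → F := fun p => i2 (i1 p)
  have hΦ : Function.Injective Φ := by
    intro p q h
    have h' := congrArg i2 h
    simp only [Φ, i22] at h'
    have h'' := congrArg i1 h'
    simpa only [i11] using h''
  obtain ⟨a0⟩ := ‹Nonempty A›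
  obtain ⟨b0, b0', _, hb0⟩ := h2 a0
  let x0 : F := ⟨(a0, b0), (hb0 b0).2 (Or.inl rfl)⟩
  have hfin : Finite F := inferInstance
  have hper : x0 ∈ Function.periodicPts Φ := hΦ.mem_periodicPts x0
  set k := Function.minimalPeriod Φ x0 with hk
  have hkpos : 0 < k := Function.minimalPeriod_pos_of_mem_periodicPts hper
  let x : ℕ → F := fun n => Φ^[n] x0
  have hxs : ∀ n, x (n + 1) = Φ (x n) := fun n => Function.iterate_succ_apply' Φ n x0
  have hxk : ∀ n, x (n % k) = x n := fun n => Function.iterate_mod_minimalPeriod_eq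
  have hxinj : ∀ i j, i < k → j < k → x i = x j → i = j := fun i j hi hj h =>
    (Function.iterate_eq_iterate_iff_of_lt_minimalPeriod hi hj).1 h
  -- a point is never the reflection of another
  have refl2 : ∀ d i, x (i + d) ≠ i2 (x i) := by
    intro d
    induction d using Nat.strong_induction_on with
    | _ d ih =>
      intro i h
      match d, ih, h with
      | 0, _, h => exact i2ne _ h.symm
      | 1, _, h =>
        rw [hxs] at h
        have h' := congrArg i2 h
        simp only [Φ, i22] at h'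
        exact i1ne _ h'
      | d + 2, ih, h =>
        refine ih d (by omega) (i + 1) ?_
        have e1 : i + (d + 2) = (i + 1 + d) + 1 := by ring
        rw [e1, hxs] at h
        have h' := congrArg i2 h
        simp only [Φ, i22] at h'
        have h'' := congrArg i1 h'
        simp only [i11] at h''
        rw [h'', hxs]
        simp only [Φ, i22]
  have a_inj : ∀ i j, i < k → j < k → (x i).1.1 = (x j).1.1 → i = j := by
    have main : ∀ i j, i ≤ j → j < k → (x i).1.1 = (x j).1.1 → i = j := by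
      intro i j hij hj h
      have hr : r (x i).1.1 (x j).1.2 := by rw [h]; exact (x j).2
      rcases (oB3 (x i) _).1 hr with h' | h'
      · exact hxinj i j (by omega) hj (Subtype.ext (Prod.ext h h'.symm))
      · exfalso
        refine refl2 (j - i) i ?_
        rw [show i + (j - i) = j by omega]
        exact Subtype.ext (Prod.ext h.symm h')
    intro i j hi hj h
    rcases le_total i j with hij | hij
    · exact main i j hij hj h
    · exact (main j i hij hi h.symm).symm
  have hb : ∀ n y, r y (x n).1.2 ↔ y = (x n).1.1 ∨ y = (x (n + 1)).1.1 := by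
    intro n y
    rw [hxs]
    exact oA3 (x n) y
  have ha : ∀ n y, r (x (n + 1)).1.1 y ↔ y = (x n).1.2 ∨ y = (x (n + 1)).1.2 := by
    intro n y
    rw [hxs]
    exact oB3 (i1 (x n)) y
  have ane : ∀ n, (x (n + 1)).1.1 ≠ (x n).1.1 := by
    intro n
    rw [hxs]
    exact oA1 (x n)
  have bne : ∀ n, (x (n + 1)).1.2 ≠ (x n).1.2 := by
    intro n
    rw [hxs]
    exact oB1 (i1 (x n))
  have xk0 : x k = x 0 := by
    have := hxk k
    rw [Nat.mod_self] at this
    exact this.symm
  have hk3 : 3 ≤ k := by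
    by_contra hlt
    have : k = 1 ∨ k = 2 := by omega
    rcases this with h | h
    · apply ane 0
      rw [h] at xk0
      rw [zero_add, xk0]
    · have e2 : x 2 = x 0 := by rw [← h]; exact xk0
      apply bne 0
      refine h3 _ _ fun y => ?_
      rw [hb, hb, zero_add, show 1 + 1 = 2 from rfl, e2]
      exact or_comm
  have b_inj : ∀ i j, i < k → j < k → (x i).1.2 = (x j).1.2 → i = j := by
    have main : ∀ i j, i ≤ j → j < k → (x i).1.2 = (x j).1.2 → i = j := by
      intro i j hij hj h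
      rcases hij.eq_or_lt with h' | h'
      · exact h'
      have hr : r (x j).1.1 (x i).1.2 := by rw [h]; exact (x j).2
      rcases (hb i _).1 hr with h4 | h4
      · exact (a_inj j i hj (by omega) h4).symm
      · have := a_inj j (i + 1) hj (by omega) h4
        subst this
        exact absurd h.symm (bne i)
    intro i j hi hj h
    rcases le_total i j with hij | hij
    · exact main i j hij hj h
    · exact (main j i hij hi h.symm).symm
  have ha' : ∀ n y, r (x n).1.1 y → ∃ m, y = (x m).1.2 := by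
    intro n y hy
    rcases n with _ | n
    · obtain ⟨k', hk'⟩ : ∃ k', k = k' + 1 := ⟨k - 1, by omega⟩
      rw [← xk0, hk'] at hy
      rcases (ha k' y).1 hy with h | h
      · exact ⟨_, h⟩
      · exact ⟨_, h⟩
    · rcases (ha n y).1 hy with h | h
      · exact ⟨_, h⟩
      · exact ⟨_, h⟩
  have a_surj : ∀ a, ∃ n, (x n).1.1 = a := by
    refine hconn {a | ∃ n, (x n).1.1 = a} ⟨a0, 0, rfl⟩ ?_
    rintro a b a' ⟨n, rfl⟩ hab ha'b
    obtain ⟨m, rfl⟩ := ha' n b hab
    rcases (hb m a').1 ha'b with h | h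
    · exact ⟨m, h.symm⟩
    · exact ⟨m + 1, h.symm⟩
  have b_surj : ∀ b, ∃ n, (x n).1.2 = b := by
    intro b
    obtain ⟨a, _, _, h⟩ := h1 b
    obtain ⟨n, hn⟩ := a_surj a
    obtain ⟨m, hm⟩ := ha' n b (by rw [hn]; exact (h a).2 (Or.inl rfl))
    exact ⟨m, hm.symm⟩
  refine ⟨k, hk3, fun i => (x i).1.1, fun i => (x i).1.2, ⟨?_, ?_⟩, ⟨?_, ?_⟩, ?_⟩
  · intro i j h
    exact Fin.ext (a_inj i j i.2 j.2 h)
  · intro a
    obtain ⟨n, hn⟩ := a_surj a
    refine ⟨⟨n % k, Nat.mod_lt _ hkpos⟩, ?_⟩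
    show (x (n % k)).1.1 = a
    rw [hxk, hn]
  · intro i j h
    exact Fin.ext (b_inj i j i.2 j.2 h)
  · intro b
    obtain ⟨n, hn⟩ := b_surj b
    refine ⟨⟨n % k, Nat.mod_lt _ hkpos⟩, ?_⟩
    show (x (n % k)).1.2 = b
    rw [hxk, hn]
  · intro i y
    rw [hb]
    constructor
    · rintro (h | h)
      · exact Or.inl h
      · refine Or.inr ⟨⟨(i + 1) % k, Nat.mod_lt _ hkpos⟩, rfl, ?_⟩
        show y = (x ((i + 1) % k)).1.1
        rw [hxk, h]
    · rintro (h | ⟨j, hj, h⟩)
      · exact Or.inl h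
      · refine Or.inr ?_
        rw [h]
        show (x j).1.1 = _
        rw [hj, hxk]

end Pool.Agent.Work.MP_43c1cf_co
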