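import Mathlib

/-!
# `F_2`-cycles are sums of facet boundaries (height induction). (helper41)
-/

set_option linter.unusedSectionVars false

namespace Pool.Agent.Work.MP_43c1cf_co

namespace Hom

variable {Vt Ed Fc : Type*} [Fintype Vt] [Fintype Ed] [Fintype Fc]
  (inc : Vt → Ed → Prop) (bd : Ed → Fc → Prop) [∀ v, DecidablePred (inc v)]
  [∀ e, DecidablePred (bd e)]

/-- boundary of a chain of facets -/
def bdry (c : Fc → ZMod 2) (e : Ed) : ZMod 2 := ∑ F with bd e F, c F

theorem bdry_add (c c' : Fc → ZMod 2) (e : Ed) :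
    bdry bd (c + c') e = bdry bd c e + bdry bd c' e := by
  simp [bdry, Finset.sum_add_distrib]

theorem bdry_smul_sum {ι : Type*} (s : Finset ι) (a : ι → ZMod 2) (c : ι → Fc → ZMod 2) (e : Ed) :
    bdry bd (fun F => ∑ i ∈ s, a i * c i F) e = ∑ i ∈ s, a i * bdry bd (c i) e := by
  unfold bdry
  rw [Finset.sum_comm]
  exact Finset.sum_congr rfl fun i _ => by rw [Finset.mul_sum]

theorem bdry_single [DecidableEq Fc] (F : Fc) (e : Ed) :
    bdry bd (fun F' => if F' = F then 1 else 0) e = if bd e F then 1 else 0 := by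
  unfold bdry
  rw [Finset.sum_ite_eq']
  simp

theorem bdry_cycle
    (hFv : ∀ F v e, inc v e → bd e F → ∃ e', e' ≠ e ∧ ∀ x, (inc v x ∧ bd x F) ↔ x = e ∨ x = e')
    (c : Fc → ZMod 2) (v : Vt) : ∑ e with inc v e, bdry bd c e = 0 := by
  classical
  unfold bdry
  have h1 : ∑ e with inc v e, ∑ F with bd e F, c F =
      ∑ F, ∑ e with (inc v e ∧ bd e F), c F := by
    simp_rw [Finset.sum_filter]
    rw [← Finset.sum_comm]
    refine Finset.sum_congr rfl fun e _ => ?_
    by_cases h : inc v e
    · simp [h]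
    · simp [h]
  rw [h1]
  refine Finset.sum_eq_zero fun F _ => ?_
  by_cases hF : ∃ e, inc v e ∧ bd e F
  · obtain ⟨e, he1, he2⟩ := hF
    obtain ⟨e', hne, h2⟩ := hFv F v e he1 he2
    have h3 : (Finset.univ.filter fun x => inc v x ∧ bd x F) = {e, e'} := by
      ext x
      simp only [Finset.mem_filter, Finset.mem_univ, true_and, Finset.mem_insert,
        Finset.mem_singleton]
      exact h2 x
    rw [h3, Finset.sum_pair hne.symm]
    exact CharTwo.add_self_eq_zero _
  · push Not at hF
    rw [Finset.filter_false_of_mem]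
    · simp
    · intro e _ h
      exact hF e h.1 h.2

/-- all edges of the support have vertices of height at most `t` -/
def Low (h : Vt → ℝ) (t : ℝ) (F : Fc) : Prop := ∀ x w, bd x F → inc w x → h w ≤ t

theorem step (h : Vt → ℝ)
    (hFv : ∀ F v e, inc v e → bd e F → ∃ e', e' ≠ e ∧ ∀ x, (inc v x ∧ bd x F) ↔ x = e ∨ x = e')
    (v : Vt)
    (hconn : ∀ S : Set Ed, (∃ e ∈ S, inc v e ∧ ∀ w, inc w e → h w ≤ h v) →
      (∀ e ∈ S, ∀ e' F, inc v e → inc v e' → bd e F → bd e' F →
        (∀ x w, bd x F → inc w x → h w ≤ h v) → e' ∈ S) →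
      ∀ e, inc v e → (∀ w, inc w e → h w ≤ h v) → e ∈ S)
    (z : Ed → ZMod 2) (hz : ∑ e with inc v e, z e = 0)
    (hlow : ∀ e, z e ≠ 0 → ∀ w, inc w e → h w ≤ h v) :
    ∃ c : Fc → ZMod 2, (∀ F, c F ≠ 0 → Low inc bd h (h v) F) ∧
      ∀ x, inc v x → bdry bd c x = z x := by
  classical
  by_cases hex : ∃ e0, inc v e0 ∧ z e0 ≠ 0
  swap
  · push Not at hex
    exact ⟨0, fun F hF => absurd rfl hF, fun x hx => by rw [hex x hx]; simp [bdry]⟩
  obtain ⟨e0, he0, hze0⟩ := hex
  have hS := hconn {e | ∃ c : Fc → ZMod 2, (∀ F, c F ≠ 0 → Low inc bd h (h v) F) ∧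
      ∀ x, inc v x → bdry bd c x = (if x = e0 then 1 else 0) + (if x = e then 1 else 0)}
    ⟨e0, ⟨0, fun F hF => absurd rfl hF, fun x _ => by
      rw [CharTwo.add_self_eq_zero]; simp [bdry]⟩, he0, hlow e0 hze0⟩
    (by
      rintro e ⟨c, hc1, hc2⟩ e' F hve hve' hbe hbe' hF
      by_cases hee : e' = e
      · rw [hee]; exact ⟨c, hc1, hc2⟩
      · obtain ⟨e'', hne, h2⟩ := hFv F v e hve hbe
        have h3 : e' = e'' := by
          rcases (h2 e').1 ⟨hve', hbe'⟩ with h | h
          · exact absurd h hee
          · exact h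
        subst h3
        refine ⟨c + fun F' => if F' = F then 1 else 0, ?_, ?_⟩
        · intro F' hF'
          by_cases hFF : F' = F
          · rw [hFF]; exact hF
          · apply hc1
            intro h0
            apply hF'
            simp [h0, hFF]
        · intro x hx
          rw [bdry_add, hc2 x hx, bdry_single]
          have h4 := h2 x
          have h5 : (if bd x F then (1 : ZMod 2) else 0) =
              (if x = e then 1 else 0) + (if x = e' then 1 else 0) := by
            by_cases hxe : x = e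
            · have : ¬ x = e' := by rw [hxe]; exact fun h => hee h.symm
              rw [if_pos ((h4.2 (Or.inl hxe)).2), if_pos hxe, if_neg this, add_zero]
            · by_cases hxe' : x = e'
              · rw [if_pos ((h4.2 (Or.inr hxe')).2), if_neg hxe, if_pos hxe', zero_add]
              · rw [if_neg (fun hb => by
                  rcases h4.1 ⟨hx, hb⟩ with h | h
                  · exact hxe h
                  · exact hxe' h), if_neg hxe, if_neg hxe', add_zero]
          rw [h5]
          have h6 : (if x = e then (1 : ZMod 2) else 0) + (if x = e then 1 else 0) = 0 :=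
            CharTwo.add_self_eq_zero _
          calc _ = (if x = e0 then (1 : ZMod 2) else 0) + (if x = e' then 1 else 0) +
                ((if x = e then (1 : ZMod 2) else 0) + (if x = e then 1 else 0)) := by ring
            _ = _ := by rw [h6, add_zero])
  have hall : ∀ e : Ed, ∃ c : Fc → ZMod 2, (inc v e → z e ≠ 0 →
      (∀ F, c F ≠ 0 → Low inc bd h (h v) F) ∧
      ∀ x, inc v x → bdry bd c x = (if x = e0 then 1 else 0) + (if x = e then 1 else 0)) := by
    intro e
    by_cases he : inc v e ∧ z e ≠ 0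
    · obtain ⟨c, hc⟩ := hS e he.1 (hlow e he.2)
      exact ⟨c, fun _ _ => hc⟩
    · exact ⟨0, fun h1 h2 => absurd ⟨h1, h2⟩ he⟩
  choose c hc using hall
  refine ⟨fun F => ∑ e with inc v e, z e * c e F, ?_, ?_⟩
  · intro F hF
    obtain ⟨e, he, hne⟩ := Finset.exists_ne_zero_of_sum_ne_zero hF
    have h1 : z e ≠ 0 := left_ne_zero_of_mul hne
    have h2 : c e F ≠ 0 := right_ne_zero_of_mul hne
    exact (hc e (Finset.mem_filter.1 he).2 h1).1 F h2
  · intro x hx
    rw [bdry_smul_sum]
    have h1 : ∀ e ∈ Finset.univ.filter (fun e => inc v e), z e * bdry bd (c e) x =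
        z e * (if x = e0 then 1 else 0) + z e * (if x = e then 1 else 0) := by
      intro e he
      by_cases hze : z e = 0
      · simp [hze]
      · rw [(hc e (Finset.mem_filter.1 he).2 hze).2 x hx, mul_add]
    rw [Finset.sum_congr rfl h1, Finset.sum_add_distrib, ← Finset.sum_mul, hz, zero_mul, zero_add]
    simp only [mul_ite, mul_one, mul_zero]
    rw [Finset.sum_ite_eq]
    simp [hx]

end Hom

open Hom

theorem homology {Vt Ed Fc : Type*} [Fintype Vt] [Fintype Ed] [Fintype Fc]
    (inc : Vt → Ed → Prop) (bd : Ed → Fc → Prop) [∀ v, DecidablePred (inc v)]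
    [∀ e, DecidablePred (bd e)]
    (h : Vt → ℝ) (hinj : Function.Injective h)
    (hV : ∀ e, ∃ v w, v ≠ w ∧ ∀ u, inc u e ↔ u = v ∨ u = w)
    (hFv : ∀ F v e, inc v e → bd e F → ∃ e', e' ≠ e ∧ ∀ x, (inc v x ∧ bd x F) ↔ x = e ∨ x = e')
    (hconn : ∀ v, ∀ S : Set Ed, (∃ e ∈ S, inc v e ∧ ∀ w, inc w e → h w ≤ h v) →
      (∀ e ∈ S, ∀ e' F, inc v e → inc v e' → bd e F → bd e' F →
        (∀ x w, bd x F → inc w x → h w ≤ h v) → e' ∈ S) →
      ∀ e, inc v e → (∀ w, inc w e → h w ≤ h v) → e ∈ S) :
    ∀ z : Ed → ZMod 2, (∀ v, ∑ e with inc v e, z e = 0) →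
      ∃ c : Fc → ZMod 2, ∀ e, z e = ∑ F with bd e F, c F := by
  classical
  have key : ∀ n : ℕ, ∀ t : ℝ, (Finset.univ.filter (fun u => h u < t)).card ≤ n →
      ∀ z : Ed → ZMod 2, (∀ v, ∑ e with inc v e, z e = 0) →
      (∀ e, z e ≠ 0 → ∀ w, inc w e → h w < t) → ∃ c : Fc → ZMod 2, ∀ e, z e = bdry bd c e := by
    intro n
    induction n with
    | zero =>
      intro t ht z _ hz
      refine ⟨0, fun e => ?_⟩
      have : z e = 0 := by
        by_contra hne
        obtain ⟨v, w, -, hvw⟩ := hV e
        have h1 := hz e hne v ((hvw v).2 (Or.inl rfl))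
        have h2 : v ∈ Finset.univ.filter (fun u => h u < t) :=
          Finset.mem_filter.2 ⟨Finset.mem_univ _, h1⟩
        rw [Nat.le_zero, Finset.card_eq_zero] at ht
        rw [ht] at h2
        exact absurd h2 (Finset.notMem_empty _)
      rw [this]; simp [bdry]
    | succ n ih =>
      intro t ht z hz1 hz2
      rcases (Finset.univ.filter (fun u => h u < t)).eq_empty_or_nonempty with hemp | hne
      · refine ⟨0, fun e => ?_⟩
        have : z e = 0 := by
          by_contra hne
          obtain ⟨v, w, -, hvw⟩ := hV e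
          have h1 := hz2 e hne v ((hvw v).2 (Or.inl rfl))
          have h2 : v ∈ Finset.univ.filter (fun u => h u < t) :=
            Finset.mem_filter.2 ⟨Finset.mem_univ _, h1⟩
          rw [hemp] at h2
          exact absurd h2 (Finset.notMem_empty _)
        rw [this]; simp [bdry]
      · obtain ⟨v, hv, hmax⟩ := Finset.exists_max_image _ h hne
        have hvt : h v < t := (Finset.mem_filter.1 hv).2
        have hlow : ∀ e, z e ≠ 0 → ∀ w, inc w e → h w ≤ h v := fun e he w hw =>
          hmax w (Finset.mem_filter.2 ⟨Finset.mem_univ _, hz2 e he w hw⟩)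
        obtain ⟨c, hc1, hc2⟩ := step inc bd h hFv v (hconn v) z (hz1 v) hlow
        have hz' : ∀ u, ∑ e with inc u e, (z e + bdry bd c e) = 0 := by
          intro u
          rw [Finset.sum_add_distrib, hz1, bdry_cycle inc bd hFv, add_zero]
        have hlow' : ∀ e, z e + bdry bd c e ≠ 0 → ∀ w, inc w e → h w < h v := by
          intro e he w hw
          have h1 : h w ≤ h v := by
            by_cases hze : z e = 0
            · rw [hze, zero_add] at he
              obtain ⟨F, hF, hne⟩ := Finset.exists_ne_zero_of_sum_ne_zero he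
              exact hc1 F hne e w (Finset.mem_filter.1 hF).2 hw
            · exact hlow e hze w hw
          refine lt_of_le_of_ne h1 fun heq => ?_
          have hwv : w = v := hinj heq
          rw [hwv] at hw
          apply he
          rw [hc2 e hw]
          exact CharTwo.add_self_eq_zero _
        have hcard : (Finset.univ.filter (fun u => h u < h v)).card ≤ n := by
          have h1 : (Finset.univ.filter (fun u => h u < h v)) ⊂
              (Finset.univ.filter (fun u => h u < t)) := by
            rw [Finset.ssubset_iff_of_subset]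
            · exact ⟨v, hv, fun hvv => lt_irrefl _ (Finset.mem_filter.1 hvv).2⟩
            · intro u hu
              exact Finset.mem_filter.2 ⟨Finset.mem_univ _, (Finset.mem_filter.1 hu).2.trans hvt⟩
          have := Finset.card_lt_card h1
          omega
        obtain ⟨c', hc'⟩ := ih (h v) hcard _ hz' hlow'
        refine ⟨c' + c, fun e => ?_⟩
        rw [bdry_add, ← hc' e, add_assoc, CharTwo.add_self_eq_zero, add_zero]
  intro z hz
  obtain ⟨t, ht⟩ : ∃ t : ℝ, ∀ v, h v < t := by
    obtain ⟨b, hb⟩ := (Set.finite_range h).bddAbove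
    exact ⟨b + 1, fun v => lt_of_le_of_lt (hb ⟨v, rfl⟩) (lt_add_one b)⟩
  obtain ⟨c, hc⟩ := key _ t le_rfl z hz (fun e _ w _ => ht w)
  exact ⟨c, fun e => hc e⟩

end Pool.Agent.Work.MP_43c1cf_co
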