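import Pool.Agent.Work.MP_43c1cf_co.Local
import Pool.Agent.Work.MP_43c1cf_co.Cyc
import Pool.Agent.Work.MP_43c1cf_co.Homology
import Pool.Agent.Work.MP_43c1cf_co.Counting

/-!
# Application of the counting lemma at codimension four faces
-/

set_option autoImplicit false

namespace Pool.Agent.Work.MP_43c1cf_co

open Module

variable {ι X : Type*} [AddCommGroup X] [Module ℝ X] {u : ι → X} {J T L R F G : Finset ι}

lemma finite_sub (J : Finset ι) (P : Finset ι → Prop) (hP : ∀ T, P T → T ⊆ J) :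
    Finite {T // P T} :=
  Set.Finite.subset (J.powerset.finite_toSet) (fun T hT => by
    rw [Finset.mem_coe, Finset.mem_powerset]; exact hP T hT)

/-- Cyclic enumeration at a codimension three face. -/
lemma exists_cyc3 (hT : IsFace u J T) (hrk : rk u T + 3 = rk u J) :
    ∃ (k : ℕ) (_ : NeZero k) (e f : Fin k → Finset ι), 3 ≤ k ∧ Cyc3 u J T e f ∧
      Function.Injective e ∧ (∀ R, Cov u J T R → ∃ i, e i = R) ∧ Function.Injective f ∧
      (∀ F, Cov u J F J → T ⊆ F → ∃ i, f i = F) := by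
  classical
  have hTJ : T ⊂ J := Finset.ssubset_iff_subset_ne.2 ⟨hT.1, by rintro rfl; omega⟩
  let A := {R // Cov u J T R}
  let Bt := {F // Cov u J F J ∧ T ⊆ F}
  have : Finite A := finite_sub J _ (fun R hR => hR.right.1)
  have : Finite Bt := finite_sub J _ (fun F hF => hF.1.left.1)
  have : Nonempty A := by
    obtain ⟨R, hR, -⟩ := exists_cov_le hT (isFace_self u J) hTJ
    exact ⟨⟨R, hR⟩⟩
  have hrkF : ∀ F : Bt, rk u F.1 = rk u T + 2 := fun F => by
    have := F.2.1.rk_eq; omega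
  have hrkR : ∀ R : A, rk u R.1 = rk u T + 1 := fun R => R.2.rk_eq
  have h1 : ∀ b : Bt, ∃ a a' : A, a ≠ a' ∧ ∀ x : A, x.1 ⊆ b.1 ↔ x = a ∨ x = a' := by
    rintro ⟨F, hF, hTF⟩
    obtain ⟨R, R', hne, c1, c2, c3, c4, c5⟩ := diamond hT hF.left hTF (hrkF ⟨F, hF, hTF⟩)
    refine ⟨⟨R, c1⟩, ⟨R', c3⟩, fun e => hne (congrArg Subtype.val e), ?_⟩
    rintro ⟨Q, hQ⟩
    constructor
    · intro hsub
      have hQF : Q ⊂ F := Finset.ssubset_iff_subset_ne.2 ⟨hsub, by
        rintro rfl
        have a1 := hQ.rk_eq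
        have a2 := hF.rk_eq
        omega⟩
      rcases c5 Q hQ.right hQ.ss hQF with h | h
      · left; exact Subtype.ext h
      · right; exact Subtype.ext h
    · rintro (h | h)
      · rw [Subtype.mk.injEq] at h; subst h; exact c2.sub
      · rw [Subtype.mk.injEq] at h; subst h; exact c4.sub
  have h2 : ∀ a : A, ∃ b b' : Bt, b ≠ b' ∧ ∀ y : Bt, a.1 ⊆ y.1 ↔ y = b ∨ y = b' := by
    rintro ⟨R, hR⟩
    have a1 := hR.rk_eq
    obtain ⟨F, F', hne, c1, c2, c3, c4, c5⟩ := diamond hR.right (isFace_self u J) hR.right.1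
      (by omega)
    refine ⟨⟨F, c2, hR.sub.trans c1.sub⟩, ⟨F', c4, hR.sub.trans c3.sub⟩,
      fun e => hne (congrArg Subtype.val e), ?_⟩
    rintro ⟨Q, hQ, hTQ⟩
    constructor
    · intro hsub
      have hRQ : R ⊂ Q := Finset.ssubset_iff_subset_ne.2 ⟨hsub, by
        rintro rfl
        have a2 := hQ.rk_eq
        omega⟩
      rcases c5 Q hQ.left hRQ hQ.ss with h | h
      · left; exact Subtype.ext h
      · right; exact Subtype.ext h
    · rintro (h | h)
      · rw [Subtype.mk.injEq] at h; subst h; exact c1.sub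
      · rw [Subtype.mk.injEq] at h; subst h; exact c3.sub
  have h3 : ∀ b b' : Bt, (∀ x : A, x.1 ⊆ b.1 ↔ x.1 ⊆ b'.1) → b = b' := by
    intro b b' hbb
    obtain ⟨a, a', hne, ha⟩ := h1 b
    have ha1 := (ha a).2 (Or.inl rfl)
    have ha2 := (ha a').2 (Or.inr rfl)
    have hb1 := (hbb a).1 ha1
    have hb2 := (hbb a').1 ha2
    have hint := b.2.1.left.inter b'.2.1.left
    have s1 : a.1 ⊂ b.1 ∩ b'.1 := by
      rw [Finset.ssubset_iff_subset_ne]
      refine ⟨Finset.subset_inter ha1 hb1, ?_⟩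
      intro e
      have : a'.1 ⊆ a.1 := by rw [e]; exact Finset.subset_inter ha2 hb2
      have := a'.2.right.eq_of_rk a.2.right.1 this (by rw [hrkR, hrkR])
      exact hne (Subtype.ext this.symm)
    have s2 := a.2.right.rk_lt hint.1 s1
    have e1 := hint.eq_of_rk b.2.1.left.1 Finset.inter_subset_left (by
      rw [hrkF b]; have := hrkR a; omega)
    have e2 := hint.eq_of_rk b'.2.1.left.1 Finset.inter_subset_right (by
      rw [hrkF b']; have := hrkR a; omega)
    exact Subtype.ext (e1.symm.trans e2)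
  have hconn : ∀ S : Set A, S.Nonempty → (∀ (a : A) (b : Bt) (a' : A), a ∈ S → a.1 ⊆ b.1 →
      a'.1 ⊆ b.1 → a' ∈ S) → ∀ a, a ∈ S := by
    rintro S ⟨a0, ha0⟩ hS a
    have := connected' hT a0.2 a.2 (fun R => ∀ hR : Cov u J T R, (⟨R, hR⟩ : A) ∈ S)
      (fun _ => ha0) (by
        intro R R' G hPR hR hR' hRG hR'G hR''
        have hG : Cov u J G J := (cov_iff_rk hRG.right (isFace_self u J) hRG.right.1).2 (by
          have := hRG.rk_eq; have := hR.rk_eq; omega)
        exact hS ⟨R, hR⟩ ⟨G, hG, hR.sub.trans hRG.sub⟩ ⟨R', hR'⟩ (hPR hR) hRG.sub hR'G.sub)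
    exact this a.2
  obtain ⟨k, hk, e, f, he, hf, hef⟩ := cyc (fun (a : A) (b : Bt) => a.1 ⊆ b.1) h1 h2 h3 hconn
  have : NeZero k := ⟨by omega⟩
  refine ⟨k, inferInstance, fun i => (e i).1, fun i => (f i).1, hk,
    ⟨fun i => (e i).2, fun i => (f i).2.1, fun i => (f i).2.2, ?_⟩, ?_, ?_, ?_, ?_⟩
  · intro i j
    rw [hef i (e j)]
    constructor
    · rintro (h | ⟨l, hl, h⟩)
      · left; exact he.1 h
      · right
        have := he.1 h
        subst this
        apply Fin.ext
        rw [hl, Fin.val_add, Fin.val_one', Nat.mod_eq_of_lt (show 1 < k by omega)]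
    · rintro (h | h)
      · left; rw [h]
      · right
        refine ⟨j, ?_, rfl⟩
        rw [h, Fin.val_add, Fin.val_one', Nat.mod_eq_of_lt (show 1 < k by omega)]
  · intro i j hij
    exact he.1 (Subtype.ext hij)
  · intro R hR
    obtain ⟨i, hi⟩ := he.2 ⟨R, hR⟩
    exact ⟨i, congrArg Subtype.val hi⟩
  · intro i j hij
    exact hf.1 (Subtype.ext hij)
  · intro F hF hTF
    obtain ⟨i, hi⟩ := hf.2 ⟨F, hF, hTF⟩
    exact ⟨i, congrArg Subtype.val hi⟩

/-- A generic height function on the covers of a face. -/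
lemma exists_height [FiniteDimensional ℝ X] (hL : IsFace u J L) :
    ∃ (φ ψ : X →ₗ[ℝ] ℝ) (h : Finset ι → ℝ), (∀ i ∈ L, φ (u i) = 0) ∧ (∀ i ∈ L, ψ (u i) = 0) ∧
      (∀ i ∈ J, i ∉ L → 0 < φ (u i)) ∧ (∀ T, Cov u J L T → ∀ i ∈ T, ψ (u i) = h T * φ (u i)) ∧
      (∀ T T', Cov u J L T → Cov u J L T' → h T = h T' → T = T') := by
  classical
  obtain ⟨φ, hφ, hφL, hφpos, hφ0⟩ := hL.exists_pos
  let A := {T // Cov u J L T}
  have : Finite A := finite_sub J _ (fun R hR => hR.right.1)
  choose a ha haL using fun T : A => Finset.exists_of_ssubset T.2.ss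
  have haJ : ∀ T : A, a T ∈ J := fun T => T.2.right.1 (ha T)
  let P := {p : A × A // p.1 ≠ p.2}
  obtain ⟨f, hf⟩ := Module.exists_dual_forall_apply_ne_zero (K := ℝ) (M := X ⧸ sp u L)
    (fun p : P => (sp u L).mkQ (φ (u (a p.1.2)) • u (a p.1.1) - φ (u (a p.1.1)) • u (a p.1.2)))
    (by
      rintro ⟨⟨T, T'⟩, hne⟩ hcon
      simp only at hcon hne
      rw [Submodule.mkQ_apply, Submodule.Quotient.mk_eq_zero] at hcon
      have h1 : φ (u (a T')) • u (a T) ∈ sp u T'.1 := by
        have e : φ (u (a T')) • u (a T) = (φ (u (a T')) • u (a T) - φ (u (a T)) • u (a T')) +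
          φ (u (a T)) • u (a T') := by abel
        rw [e]
        exact Submodule.add_mem _ (sp_mono T'.2.sub hcon)
          (Submodule.smul_mem _ _ (mem_sp (ha T')))
      have h2 := (Submodule.smul_mem_iff _ (hφpos _ (haJ T') (haL T')).ne').1 h1
      have h3 := T'.2.right.mem_of_sp (haJ T) h2
      have h4 := inter_cov T.2 T'.2 (fun e => hne (Subtype.ext e))
      exact haL T (h4 ▸ Finset.mem_inter.2 ⟨ha T, h3⟩))
  set ψ : X →ₗ[ℝ] ℝ := f ∘ₗ (sp u L).mkQ with hψ
  have hψL : ∀ i ∈ L, ψ (u i) = 0 := by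
    intro i hi
    rw [hψ, LinearMap.comp_apply, Submodule.mkQ_apply,
      (Submodule.Quotient.mk_eq_zero _).2 (mem_sp hi), map_zero]
  refine ⟨φ, ψ, fun T => if hT : Cov u J L T then ψ (u (a ⟨T, hT⟩)) / φ (u (a ⟨T, hT⟩)) else 0,
    hφL, hψL, hφpos, ?_, ?_⟩
  · intro T hT i hi
    simp only [dif_pos hT]
    have h1 := hT.prop hφL hψL (ha ⟨T, hT⟩) hi
    have h2 := (hφpos _ (haJ ⟨T, hT⟩) (haL ⟨T, hT⟩)).ne'
    field_simp
    linarith
  · intro T T' hT hT' hh
    by_contra hne
    simp only [dif_pos hT, dif_pos hT'] at hh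
    have h1 := (hφpos _ (haJ ⟨T, hT⟩) (haL ⟨T, hT⟩)).ne'
    have h2 := (hφpos _ (haJ ⟨T', hT'⟩) (haL ⟨T', hT'⟩)).ne'
    have h3 := hf ⟨(⟨T, hT⟩, ⟨T', hT'⟩), fun e => hne (congrArg Subtype.val e)⟩
    apply h3
    have h4 : f ((sp u L).mkQ (φ (u (a ⟨T', hT'⟩)) • u (a ⟨T, hT⟩) -
        φ (u (a ⟨T, hT⟩)) • u (a ⟨T', hT'⟩))) =
        φ (u (a ⟨T', hT'⟩)) * ψ (u (a ⟨T, hT⟩)) - φ (u (a ⟨T, hT⟩)) * ψ (u (a ⟨T', hT'⟩)) := by
      rw [hψ]; simp
    rw [h4]
    rw [div_eq_div_iff h1 h2] at hh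
    linarith

/-- The counting lemma at a codimension four face. -/
theorem count_app [FiniteDimensional ℝ X] (lab : Finset ι → SignType)
    (hL : IsFace u J L) (hrk : rk u L + 4 = rk u J)
    (hloc : ∀ T, Cov u J L T → ∀ (k : ℕ) (_ : NeZero k) (e f : Fin k → Finset ι), 3 ≤ k →
      Cyc3 u J T e f → ¬ Alt (fun i => lab (e i)) → ∀ i, lab (e i) = 0) :
    ∀ R, IsFace u J R → L ⊆ R → rk u R = rk u L + 2 → lab R = 0 := by
  classical
  obtain ⟨φ, ψ, h, hφL, hψL, hφpos, hh, hinj⟩ := exists_height hL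
  let Vt := {T // Cov u J L T}
  let Ed := {R // IsFace u J R ∧ L ⊆ R ∧ rk u R = rk u L + 2}
  let Fc := {F // Cov u J F J ∧ L ⊆ F}
  have : Finite Vt := finite_sub J _ (fun R hR => hR.right.1)
  have : Finite Ed := finite_sub J _ (fun R hR => hR.1.1)
  have : Finite Fc := finite_sub J _ (fun F hF => hF.1.left.1)
  haveI : Fintype Vt := Fintype.ofFinite _
  haveI : Fintype Ed := Fintype.ofFinite _
  haveI : Fintype Fc := Fintype.ofFinite _
  let inc : Vt → Ed → Prop := fun v e => v.1 ⊆ e.1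
  let bd : Ed → Fc → Prop := fun e F => e.1 ⊆ F.1
  have rkV : ∀ v : Vt, rk u v.1 = rk u L + 1 := fun v => v.2.rk_eq
  have rkE : ∀ e : Ed, rk u e.1 = rk u L + 2 := fun e => e.2.2.2
  have rkF : ∀ F : Fc, rk u F.1 = rk u L + 3 := fun F => by have := F.2.1.rk_eq; omega
  have cVE : ∀ (v : Vt) (e : Ed), inc v e → Cov u J v.1 e.1 := fun v e hve =>
    (cov_iff_rk v.2.right e.2.1 hve).2 (by rw [rkE, rkV])
  have cEF : ∀ (e : Ed) (F : Fc), bd e F → Cov u J e.1 F.1 := fun e F heF =>
    (cov_iff_rk e.2.1 F.2.1.left heF).2 (by rw [rkE, rkF])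
  have hV : ∀ e : Ed, ∃ v w : Vt, v ≠ w ∧ ∀ x, inc x e ↔ x = v ∨ x = w := by
    intro e
    obtain ⟨R, R', hne, c1, c2, c3, c4, c5⟩ := diamond hL e.2.1 e.2.2.1 e.2.2.2
    refine ⟨⟨R, c1⟩, ⟨R', c3⟩, fun e => hne (congrArg Subtype.val e), ?_⟩
    rintro ⟨Q, hQ⟩
    constructor
    · intro hsub
      have hsub' : Q ⊆ e.1 := hsub
      have hQF : Q ⊂ e.1 := Finset.ssubset_iff_subset_ne.2 ⟨hsub', by
        intro hQe
        have a1 := hQ.rk_eq
        have a2 := rkE e
        rw [← hQe] at a2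
        omega⟩
      rcases c5 Q hQ.right hQ.ss hQF with h | h
      · left; exact Subtype.ext h
      · right; exact Subtype.ext h
    · rintro (h | h)
      · rw [Subtype.mk.injEq] at h; subst h; exact c2.sub
      · rw [Subtype.mk.injEq] at h; subst h; exact c4.sub
  have hsimple : ∀ e e' : Ed, (∀ x, inc x e ↔ inc x e') → e = e' := by
    intro e e' hee
    obtain ⟨v, w, hne, hvw⟩ := hV e
    have hv := (hvw v).2 (Or.inl rfl)
    have hw := (hvw w).2 (Or.inr rfl)
    have hv' := (hee v).1 hv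
    have hw' := (hee w).1 hw
    have hint := e.2.1.inter e'.2.1
    have s1 : v.1 ⊂ e.1 ∩ e'.1 := by
      rw [Finset.ssubset_iff_subset_ne]
      refine ⟨Finset.subset_inter hv hv', ?_⟩
      intro e1
      have h1 : w.1 ⊆ v.1 := by rw [e1]; exact Finset.subset_inter hw hw'
      have := w.2.right.eq_of_rk v.2.right.1 h1 (by rw [rkV, rkV])
      exact hne (Subtype.ext this.symm)
    have s2 := v.2.right.rk_lt hint.1 s1
    have e1 := hint.eq_of_rk e.2.1.1 Finset.inter_subset_left (by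
      rw [rkE e]; have := rkV v; omega)
    have e2 := hint.eq_of_rk e'.2.1.1 Finset.inter_subset_right (by
      rw [rkE e']; have := rkV v; omega)
    exact Subtype.ext (e1.symm.trans e2)
  have hF : ∀ e : Ed, ∃ F G : Fc, F ≠ G ∧ ∀ x, bd e x ↔ x = F ∨ x = G := by
    intro e
    obtain ⟨F, F', hne, c1, c2, c3, c4, c5⟩ := diamond e.2.1 (isFace_self u J) e.2.1.1
      (by rw [rkE]; omega)
    refine ⟨⟨F, c2, e.2.2.1.trans c1.sub⟩, ⟨F', c4, e.2.2.1.trans c3.sub⟩,
      fun e => hne (congrArg Subtype.val e), ?_⟩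
    rintro ⟨Q, hQ, hTQ⟩
    constructor
    · intro hsub
      have hsub' : e.1 ⊆ Q := hsub
      have hRQ : e.1 ⊂ Q := Finset.ssubset_iff_subset_ne.2 ⟨hsub', by
        intro heQ
        have a2 := hQ.rk_eq
        have a1 := rkE e
        rw [heQ] at a1
        omega⟩
      rcases c5 Q hQ.left hRQ hQ.ss with h | h
      · left; exact Subtype.ext h
      · right; exact Subtype.ext h
    · rintro (h | h)
      · rw [Subtype.mk.injEq] at h; subst h; exact c1.sub
      · rw [Subtype.mk.injEq] at h; subst h; exact c3.sub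
  -- cyclic data
  have hcyc : ∀ v : Vt, ∃ (k : ℕ) (_ : NeZero k) (e f : Fin k → Finset ι), 3 ≤ k ∧
      Cyc3 u J v.1 e f ∧ Function.Injective e ∧ (∀ R, Cov u J v.1 R → ∃ i, e i = R) ∧
      Function.Injective f ∧ (∀ F, Cov u J F J → v.1 ⊆ F → ∃ i, f i = F) :=
    fun v => exists_cyc3 v.2.right (by rw [rkV]; omega)
  choose k hk0 e f hk hc hei hes hfi hfs using hcyc
  have heEd : ∀ v i, IsFace u J (e v i) ∧ L ⊆ e v i ∧ rk u (e v i) = rk u L + 2 := by
    intro v i
    refine ⟨((hc v).cov i).right, v.2.sub.trans ((hc v).cov i).sub, ?_⟩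
    rw [((hc v).cov i).rk_eq, rkV]
  have hfFc : ∀ v i, Cov u J (f v i) J ∧ L ⊆ f v i := fun v i =>
    ⟨(hc v).fac i, v.2.sub.trans ((hc v).sub i)⟩
  have key := Counting.counting (Vt := Vt) (Ed := Ed) (Fc := Fc) inc bd hV hsimple hF k hk
    (fun v i => ⟨e v i, heEd v i⟩) ?_ ?_ (fun v i => ⟨f v i, hfFc v i⟩) ?_ ?_ ?_
    (fun e => lab e.1) ?_
  · intro R hR1 hR2 hR3
    exact key ⟨R, hR1, hR2, hR3⟩
  · intro v i j hij
    exact hei v (congrArg Subtype.val hij)
  · intro v ed
    constructor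
    · intro hve
      obtain ⟨i, hi⟩ := hes v ed.1 (cVE v ed hve)
      exact ⟨i, Subtype.ext hi⟩
    · rintro ⟨i, rfl⟩
      exact ((hc v).cov i).sub
  · intro v i j hij
    exact hfi v (congrArg Subtype.val hij)
  · intro v i ed hve
    obtain ⟨j, hj⟩ := hes v ed.1 (cVE v ed hve)
    have h1 : bd ed ⟨f v i, hfFc v i⟩ ↔ e v j ⊆ f v i := by
      show ed.1 ⊆ f v i ↔ _
      rw [hj]
    rw [h1, (hc v).inc i j]
    have hed : ∀ l, ed = ⟨e v l, heEd v l⟩ ↔ j = l := by
      intro l
      constructor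
      · intro h
        exact hei v (hj.trans (congrArg Subtype.val h))
      · rintro rfl
        exact Subtype.ext hj.symm
    haveI := hk0 v
    constructor
    · rintro (h | h)
      · left; exact (hed i).2 h
      · right
        refine ⟨i + 1, ?_, (hed (i+1)).2 h⟩
        have := hk v
        rw [Fin.val_add, Fin.val_one', Nat.mod_eq_of_lt (show 1 < k v by omega)]
    · rintro (h | ⟨l, hl, h⟩)
      · left; exact (hed i).1 h
      · right
        have h2 := (hed l).1 h
        rw [h2]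
        apply Fin.ext
        have := hk v
        rw [hl, Fin.val_add, Fin.val_one', Nat.mod_eq_of_lt (show 1 < k v by omega)]
  · -- homology
    refine homology inc bd (fun v => h v.1) ?_ hV ?_ ?_
    · intro v w hvw
      exact Subtype.ext (hinj _ _ v.2 w.2 hvw)
    · intro F v ed hve heF
      obtain ⟨R', hne, c1, c2, c3⟩ := diamond_exists (cVE v ed hve) (cEF ed F heF)
      have hR' : IsFace u J R' ∧ L ⊆ R' ∧ rk u R' = rk u L + 2 :=
        ⟨c1.right, v.2.sub.trans c1.sub, by rw [c1.rk_eq, rkV]⟩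
      refine ⟨⟨R', hR'⟩, fun h => hne (congrArg Subtype.val h), ?_⟩
      intro x
      constructor
      · rintro ⟨hvx, hxF⟩
        rcases c3 x.1 x.2.1 (cVE v x hvx).ss (cEF x F hxF).ss with h | h
        · left; exact Subtype.ext h
        · right; exact Subtype.ext h
      · rintro (h | h)
        · subst h; exact ⟨hve, heF⟩
        · subst h; exact ⟨c1.sub, c2.sub⟩
    · intro v S hS1 hS2 ed hved hdown
      -- the functional
      set η : X →ₗ[ℝ] ℝ := ψ - (h v.1) • φ with hη
      have hηv : ∀ i ∈ v.1, η (u i) = 0 := by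
        intro i hi
        simp only [hη, LinearMap.sub_apply, LinearMap.smul_apply, smul_eq_mul]
        rw [hh v.1 v.2 i hi]; ring
      have hηT : ∀ w : Vt, ∀ i ∈ w.1, η (u i) = (h w.1 - h v.1) * φ (u i) := by
        intro w i hi
        simp only [hη, LinearMap.sub_apply, LinearMap.smul_apply, smul_eq_mul]
        rw [hh w.1 w.2 i hi]; ring
      have hD : ∀ x : Ed, inc v x →
          ((∀ w, inc w x → h w.1 ≤ h v.1) ↔ ∀ i ∈ x.1, i ∉ v.1 → η (u i) < 0) := by
        intro x hvx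
        constructor
        · intro hall i hi hiv
          obtain ⟨T1, hne, c1, c2, -⟩ := diamond_exists v.2 (cVE v x hvx)
          obtain ⟨b, hb, hbL⟩ := Finset.exists_of_ssubset c1.ss
          have hbv : b ∉ v.1 := by
            intro hbv
            have := inter_cov c1 v.2 hne
            exact hbL (this ▸ Finset.mem_inter.2 ⟨hb, hbv⟩)
          have h1 : h T1 ≤ h v.1 := hall ⟨T1, c1⟩ c2.sub
          have h2 : h T1 ≠ h v.1 := fun e => hne (hinj _ _ c1 v.2 e)
          have h3 : η (u b) < 0 := by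
            rw [hηT ⟨T1, c1⟩ b hb]
            exact mul_neg_of_neg_of_pos (by have := lt_of_le_of_ne h1 h2; linarith)
              (hφpos b (c1.right.1 hb) hbL)
          exact (cVE v x hvx).neg_iff hηv (c2.sub hb) hbv hi hiv h3
        · intro hall w hw
          by_cases hwv : w = v
          · rw [hwv]
          obtain ⟨b, hb, hbL⟩ := Finset.exists_of_ssubset w.2.ss
          have hbv : b ∉ v.1 := by
            intro hbv
            have := inter_cov w.2 v.2 (fun e => hwv (Subtype.ext e))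
            exact hbL (this ▸ Finset.mem_inter.2 ⟨hb, hbv⟩)
          have h1 := hall b (hw hb) hbv
          rw [hηT w b hb] at h1
          have h2 := hφpos b (w.2.right.1 hb) hbL
          by_contra hcon
          push Not at hcon
          have := mul_pos (sub_pos.2 hcon) h2
          linarith
      obtain ⟨e0, he0S, hve0, he0d⟩ := hS1
      have := connected v.2.right (h := η) hηv (cVE v e0 hve0) (cVE v ed hved)
        ((hD e0 hve0).1 he0d) ((hD ed hved).1 hdown)
        (fun R => ∀ hR : IsFace u J R ∧ L ⊆ R ∧ rk u R = rk u L + 2, (⟨R, hR⟩ : Ed) ∈ S)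
        (fun _ => he0S) ?_
      · exact this ed.2
      intro R R' G hPR cR cR' cRG cR'G hn hn' hR'
      by_cases hRR : R = R'
      · subst hRR; exact hPR hR'
      have hR : IsFace u J R ∧ L ⊆ R ∧ rk u R = rk u L + 2 :=
        ⟨cR.right, v.2.sub.trans cR.sub, by rw [cR.rk_eq, rkV]⟩
      have hG : Cov u J G J := (cov_iff_rk cRG.right (isFace_self u J) cRG.right.1).2 (by
          have := cRG.rk_eq; have := hR.2.2; omega)
      have hvG : v.1 ⊆ G := cR.sub.trans cRG.sub
      refine hS2 ⟨R, hR⟩ (hPR hR) ⟨R', hR'⟩ ⟨G, hG, v.2.sub.trans hvG⟩ cR.sub cR'.sub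
        cRG.sub cR'G.sub ?_
      intro x w hxG hwx
      have hwG : w.1 ⊆ G := Finset.Subset.trans hwx hxG
      by_cases hwv : w = v
      · rw [hwv]
      obtain ⟨b, hb, hbL⟩ := Finset.exists_of_ssubset w.2.ss
      have hbv : b ∉ v.1 := by
        intro hbv
        have := inter_cov w.2 v.2 (fun e => hwv (Subtype.ext e))
        exact hbL (this ▸ Finset.mem_inter.2 ⟨hb, hbv⟩)
      -- local to global inside G
      have hneg : 0 < (-η) (u b) := by
        refine local_global_pos (J := G) (v.2.right.restrict hG.left.1 hvG) (ψ := -η)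
            (fun i hi => by rw [LinearMap.neg_apply, hηv i hi, neg_zero]) ?_ b (hwG hb) hbv
        intro Q hQ
        obtain ⟨R2, hne2, c1, c2, c3⟩ := diamond_exists cR cRG
        have hQ' := hQ.extend hG.left
        have hQG : Q ⊂ G := Finset.ssubset_iff_subset_ne.2 ⟨hQ.right.1, by
          rintro rfl
          have a1 := hQ'.rk_eq
          have a2 := cR.rk_eq
          have a3 := cRG.rk_eq
          omega⟩
        have hR2 : R' = R2 := by
          rcases c3 R' cR'.right cR'.ss cR'G.ss with h | h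
          · exact absurd h.symm hRR
          · exact h
        obtain ⟨q, hq, hqv⟩ := Finset.exists_of_ssubset hQ'.ss
        refine ⟨q, hq, hqv, ?_⟩
        rw [LinearMap.neg_apply, neg_pos]
        rcases c3 Q hQ'.right hQ'.ss hQG with h | h
        · subst h; exact hn q hq hqv
        · rw [← hR2] at h; subst h; exact hn' q hq hqv
      rw [LinearMap.neg_apply, neg_pos, hηT w b hb] at hneg
      have h2 := hφpos b (w.2.right.1 hb) hbL
      by_contra hcon
      push Not at hcon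
      have := mul_pos (sub_pos.2 hcon) h2
      linarith
  · -- local sign condition
    intro v
    by_cases halt : Alt (fun i => lab (e v i))
    · right; exact halt
    · left
      intro ed hved
      obtain ⟨i, hi⟩ := hes v ed.1 (cVE v ed hved)
      have := hloc v.1 v.2 (k v) (hk0 v) (e v) (f v) (hk v) (hc v) halt i
      rw [hi] at this
      exact this

end Pool.Agent.Work.MP_43c1cf_co
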