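import Pool.Agent.Work.MP_43c1cf_co.Scr

/-!
# Facet isometries with equal dihedral angles glue to a global isometry
-/

set_option autoImplicit false

namespace Pool.Agent.Work.MP_43c1cf_co

open Module

/-- An isometry matching a facet and its normal matches the normals of adjacent facets. -/
lemma normal_match {ι X X' : Type*}
    [AddCommGroup X] [Module ℝ X] [AddCommGroup X'] [Module ℝ X']
    [FiniteDimensional ℝ X] [FiniteDimensional ℝ X']
    {B : X →ₗ[ℝ] X →ₗ[ℝ] ℝ} {B' : X' →ₗ[ℝ] X' →ₗ[ℝ] ℝ} {o : X} {o' : X'}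
    {u : ι → X} {u' : ι → X'} {J R F G : Finset ι}
    (hX' : 5 ≤ finrank ℝ X') (h : Scribed B o u J) (h' : Scribed B' o' u' J)
    {mF mG : X} {mF' mG' : X'} (nF : IsNormal B u J F mF) (nG : IsNormal B u J G mG)
    (nF' : IsNormal B' u' J F mF') (nG' : IsNormal B' u' J G mG')
    (hF : Cov u' J F J) (hRF : Cov u' J R F) (hRG : R ⊆ G)
    (hFG : ∀ i ∈ F, i ∉ R → i ∉ G) (hθ : B mF mG = B' mF' mG')
    {A : X →ₗ[ℝ] X'} (hA : ∀ z w, B' (A z) (A w) = B z w) (hAF : ∀ i ∈ F, A (u i) = u' i)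
    (hAm : A mF = mF') : A mG = mG' := by
  obtain ⟨i, hiF, hiR⟩ := Finset.exists_of_ssubset hRF.ss
  have hiG := hFG i hiF hiR
  have hiJ := hF.sub hiF
  set c := B mF mG with hc
  set x := A mG with hx
  have sy := h'.lor.symm
  -- products with x
  have x1 : B' x mF' = c := by rw [hx, ← hAm, hA, h.lor.symm]
  have x2 : ∀ r ∈ R, B' x (u' r) = 0 := by
    intro r hr
    rw [hx, ← hAF r (hRF.sub hr), hA]
    exact nG.2.1 r (hRG hr)
  have x3 : B' x (u' i) < 0 := by
    rw [hx, ← hAF i hiF, hA]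
    exact nG.2.2 i hiJ hiG
  have x4 : B' x x = 1 := by rw [hx, hA]; exact nG.1
  -- products with mG'
  have g1 : B' mG' mF' = c := by rw [sy, hθ]
  have g2 : ∀ r ∈ R, B' mG' (u' r) = 0 := fun r hr => nG'.2.1 r (hRG hr)
  have g3 : B' mG' (u' i) < 0 := nG'.2.2 i hiJ hiG
  have g4 : B' mG' mG' = 1 := nG'.1
  have f0 : B' mF' mF' = 1 := nF'.1
  have f1 : ∀ r ∈ F, B' mF' (u' r) = 0 := nF'.2.1
  set d := mG' - c • mF' with hd
  set dx := x - c • mF' with hdx
  have d1 : B' d mF' = 0 := by simp [hd, g1, f0]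
  have dx1 : B' dx mF' = 0 := by simp [hdx, x1, f0]
  have d2 : ∀ r ∈ R, B' d (u' r) = 0 := fun r hr => by
    simp [hd, g2 r hr, f1 r (hRF.sub hr)]
  have dx2 : ∀ r ∈ R, B' dx (u' r) = 0 := fun r hr => by
    simp [hdx, x2 r hr, f1 r (hRF.sub hr)]
  have d3 : B' d (u' i) = B' mG' (u' i) := by simp [hd, f1 i hiF]
  have dx3 : B' dx (u' i) = B' x (u' i) := by simp [hdx, f1 i hiF]
  have d4 : B' d d = 1 - c ^ 2 := by
    simp only [hd, map_sub, map_smul, LinearMap.sub_apply, LinearMap.smul_apply, smul_eq_mul, g4,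
      f0, g1, sy mF' mG']
    ring
  have dx4 : B' dx dx = 1 - c ^ 2 := by
    simp only [hdx, map_sub, map_smul, LinearMap.sub_apply, LinearMap.smul_apply, smul_eq_mul, x4,
      f0, x1, sy mF' x]
    ring
  set α := B' mG' (u' i) with hα
  set β := B' x (u' i) with hβ
  -- the combination vanishes
  have hz : β • d - α • dx = 0 := by
    refine h'.lor.nondeg (fun y => ?_)
    set ψ := B' (β • d - α • dx) with hψ
    have hψF : ∀ r ∈ F, ψ (u' r) = 0 := by
      intro r hr
      have hsp := mem_sp (u := u') hr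
      rw [hRF.sp_insert hiF hiR, Submodule.mem_sup] at hsp
      obtain ⟨y1, hy1, y2, hy2, hyy⟩ := hsp
      obtain ⟨t, rfl⟩ := Submodule.mem_span_singleton.1 hy2
      have e1 : ψ y1 = 0 := vanish_sp (u := u') (T := R) (fun r hr => by
        simp [hψ, d2 r hr, dx2 r hr]) hy1
      have e2 : ψ (u' i) = 0 := by
        simp only [hψ, map_sub, map_smul, LinearMap.sub_apply, LinearMap.smul_apply, smul_eq_mul,
          d3, dx3]
        ring
      rw [← hyy, map_add, map_smul, e1, e2]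
      simp
    have hψm : ψ mF' = 0 := by
      simp [hψ, d1, dx1]
    have htop := span_facet_normal h'.span hF nF'.1 nF'.2.1
    have hy : y ∈ sp u' F ⊔ Submodule.span ℝ {mF'} := by rw [htop]; trivial
    obtain ⟨y1, hy1, y2, hy2, rfl⟩ := Submodule.mem_sup.1 hy
    obtain ⟨t, rfl⟩ := Submodule.mem_span_singleton.1 hy2
    rw [map_add, map_smul, vanish_sp hψF hy1, hψm]
    simp
  -- a timelike vector orthogonal to d
  have hrkR : 3 ≤ rk u' R := by
    have e1 := hRF.rk_eq
    have e2 := hF.rk_eq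
    rw [h'.rk_J] at e2
    omega
  obtain ⟨τ, hτ, hττ, -⟩ := h'.timelike hRF.left hrkR
  have hd0 : d ≠ 0 := by
    intro e
    rw [e] at d3
    simp at d3
    linarith
  have hdd : 0 < B' d d := by
    refine h'.lor.pos_of_orth hττ ?_ hd0
    rw [sy]
    exact vanish_sp (u := u') (T := R) d2 hτ
  -- comparison of the factors
  have hαβ : β ^ 2 = α ^ 2 := by
    have e1 : β • d = α • dx := sub_eq_zero.1 hz
    have e2 : B' (β • d) (β • d) = B' (α • dx) (α • dx) := by rw [e1]
    simp only [map_smul, LinearMap.smul_apply, smul_eq_mul] at e2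
    rw [d4, dx4] at e2
    rw [d4] at hdd
    have e3 : (β ^ 2 - α ^ 2) * (1 - c ^ 2) = 0 := by linear_combination e2
    rcases mul_eq_zero.1 e3 with h1 | h1
    · linarith
    · linarith
  have hab : β = α := by
    have e1 : (β - α) * (β + α) = 0 := by linear_combination hαβ
    rcases mul_eq_zero.1 e1 with h1 | h1
    · linarith
    · linarith
  have e5 : d = dx := by
    rw [hab, ← smul_sub] at hz
    rcases smul_eq_zero.1 hz with h1 | h1
    · linarith
    · exact sub_eq_zero.1 h1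
  have e6 : mG' = x := by
    have := congrArg (fun z => z + c • mF') e5
    simpa [hd, hdx] using this
  exact e6.symm

/-- A linear map is determined by a ridge and the two normals. -/
lemma eq_of_ridge {ι X X' : Type*}
    [AddCommGroup X] [Module ℝ X] [AddCommGroup X'] [Module ℝ X'] [FiniteDimensional ℝ X]
    {B : X →ₗ[ℝ] X →ₗ[ℝ] ℝ} {o : X} {u : ι → X} {J R F G : Finset ι}
    (hX : 5 ≤ finrank ℝ X) (h : Scribed B o u J)
    {mF mG : X} (nF : IsNormal B u J F mF) (nG : IsNormal B u J G mG)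
    (hF : Cov u J F J) (hRF : Cov u J R F) (hRG : R ⊆ G)
    (hFG : ∀ i ∈ F, i ∉ R → i ∉ G) {A C : X →ₗ[ℝ] X'} (hR : ∀ i ∈ R, A (u i) = C (u i))
    (h1 : A mF = C mF) (h2 : A mG = C mG) : A = C := by
  have sy := h.lor.symm
  obtain ⟨i, hiF, hiR⟩ := Finset.exists_of_ssubset hRF.ss
  have hiG := hFG i hiF hiR
  have hiJ := hF.sub hiF
  have e1 := hRF.rk_eq
  have e2 := hF.rk_eq
  rw [h.rk_J] at e2
  obtain ⟨τ, hτ, hττ, -⟩ := h.timelike hRF.left (by omega)
  have fR : ∀ r ∈ R, B mF (u r) = 0 := fun r hr => nF.2.1 r (hRF.sub hr)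
  have gR : ∀ r ∈ R, B mG (u r) = 0 := fun r hr => nG.2.1 r (hRG hr)
  have hm1 : mF ∉ sp u R := by
    intro hmem
    have := vanish_sp (ψ := B mF) fR hmem
    linarith [nF.1]
  have hm2 : mG ∉ sp u R ⊔ Submodule.span ℝ {mF} := by
    intro hmem
    obtain ⟨r, hr, y, hy, hry⟩ := Submodule.mem_sup.1 hmem
    obtain ⟨t, rfl⟩ := Submodule.mem_span_singleton.1 hy
    have hr1 : r = mG - t • mF := by rw [← hry]; simp
    have hψ : ∀ k ∈ R, B r (u k) = 0 := by
      intro k hk
      rw [hr1]; simp [fR k hk, gR k hk]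
    have hrr : B r r = 0 := vanish_sp hψ hr
    have hrτ : B τ r = 0 := by rw [sy]; exact vanish_sp hψ hτ
    have hr0 : r = 0 := by
      by_contra hne
      have := h.lor.pos_of_orth hττ hrτ hne
      linarith
    rw [hr0, zero_add] at hry
    have e3 := nG.2.2 i hiJ hiG
    rw [← hry] at e3
    simp [nF.2.1 i hiF] at e3
  have l1 : sp u R < sp u R ⊔ Submodule.span ℝ {mF} := by
    refine lt_of_le_of_ne le_sup_left (fun e => ?_)
    exact hm1 (e ▸ Submodule.mem_sup_right (Submodule.mem_span_singleton_self mF))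
  have l2 : sp u R ⊔ Submodule.span ℝ {mF} <
      sp u R ⊔ Submodule.span ℝ {mF} ⊔ Submodule.span ℝ {mG} := by
    refine lt_of_le_of_ne le_sup_left (fun e => ?_)
    exact hm2 (e ▸ Submodule.mem_sup_right (Submodule.mem_span_singleton_self mG))
  have f1 := Submodule.finrank_lt_finrank_of_lt l1
  have f2 := Submodule.finrank_lt_finrank_of_lt l2
  have htop : sp u R ⊔ Submodule.span ℝ {mF} ⊔ Submodule.span ℝ {mG} = ⊤ := by
    refine Submodule.eq_top_of_finrank_eq (le_antisymm (Submodule.finrank_le _) ?_)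
    have : rk u R = finrank ℝ (sp u R) := rfl
    omega
  have hle : sp u R ⊔ Submodule.span ℝ {mF} ⊔ Submodule.span ℝ {mG} ≤ LinearMap.eqLocus A C := by
    refine sup_le (sup_le (sp_le ?_) ?_) ?_
    · intro r hr; exact hR r hr
    · rw [Submodule.span_singleton_le_iff_mem]; exact h1
    · rw [Submodule.span_singleton_le_iff_mem]; exact h2
  rw [htop] at hle
  exact LinearMap.ext fun x => hle (Submodule.mem_top (x := x))

theorem glue {ι X X' : Type*}
    [AddCommGroup X] [Module ℝ X] [AddCommGroup X'] [Module ℝ X']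
    [FiniteDimensional ℝ X] [FiniteDimensional ℝ X']
    {B : X →ₗ[ℝ] X →ₗ[ℝ] ℝ} {B' : X' →ₗ[ℝ] X' →ₗ[ℝ] ℝ} {o : X} {o' : X'}
    {u : ι → X} {u' : ι → X'} {J : Finset ι}
    (hX : 5 ≤ finrank ℝ X) (hX' : finrank ℝ X' = finrank ℝ X)
    (h : Scribed B o u J) (h' : Scribed B' o' u' J) (hf : ∀ T, IsFace u J T ↔ IsFace u' J T)
    (m : Finset ι → X) (m' : Finset ι → X')
    (hm : ∀ F, Cov u J F J → IsNormal B u J F (m F))
    (hm' : ∀ F, Cov u J F J → IsNormal B' u' J F (m' F))
    (hG : ∀ F, Cov u J F J → ∀ i ∈ F, ∀ j ∈ F, B (u i) (u j) = B' (u' i) (u' j))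
    (hθ : ∀ R F G, Cov u J R F → Cov u J R G → Cov u J F J → Cov u J G J → F ≠ G →
      B (m F) (m G) = B' (m' F) (m' G)) :
    ∀ i ∈ J, ∀ j ∈ J, B (u i) (u j) = B' (u' i) (u' j) := by
  classical
  have tr : ∀ {S T : Finset ι}, Cov u J S T → Cov u' J S T := fun hc => (cov_transport hf).1 hc
  -- isometries attached to facets
  have iso : ∀ F, Cov u J F J → ∃ M : X →ₗ[ℝ] X', (∀ i ∈ F, M (u i) = u' i) ∧ M (m F) = m' F ∧
      ∀ z w, B' (M z) (M w) = B z w := fun F hF =>
    facet_isom h h' hF (tr hF) (hG F hF) (hm F hF).1 (hm F hF).2.1 (hm' F hF).1 (hm' F hF).2.1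
  -- the step across a ridge
  have step : ∀ (A : X →ₗ[ℝ] X'), (∀ z w, B' (A z) (A w) = B z w) → ∀ R F G, Cov u J R F →
      Cov u J R G → Cov u J F J → Cov u J G J → F ≠ G →
      ((∀ i ∈ F, A (u i) = u' i) ∧ A (m F) = m' F) →
      ((∀ i ∈ G, A (u i) = u' i) ∧ A (m G) = m' G) := by
    intro A hA R F G hRF hRG hF hG' hne ⟨a1, a2⟩
    have hint := inter_cov hRF hRG hne
    have hFG : ∀ i ∈ F, i ∉ R → i ∉ G := by
      intro i hi hiR hiG
      exact hiR (hint ▸ Finset.mem_inter.2 ⟨hi, hiG⟩)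
    have hGF : ∀ i ∈ G, i ∉ R → i ∉ F := by
      intro i hi hiR hiF
      exact hiR (hint ▸ Finset.mem_inter.2 ⟨hiF, hi⟩)
    obtain ⟨C, c1, c2, c3⟩ := iso G hG'
    have b1 : A (m G) = m' G := normal_match (by omega) h h' (hm F hF) (hm G hG') (hm' F hF)
      (hm' G hG') (tr hF) (tr hRF) hRG.sub hFG (hθ R F G hRF hRG hF hG' hne) hA a1 a2
    have b2 : C (m F) = m' F := normal_match (by omega) h h' (hm G hG') (hm F hF) (hm' G hG')
      (hm' F hF) (tr hG') (tr hRG) hRF.sub hGF
      (hθ R G F hRG hRF hG' hF hne.symm) c3 c1 c2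
    have hAC : A = C := eq_of_ridge hX h (hm F hF) (hm G hG') hF hRF hRG.sub hFG
      (fun i hi => by rw [a1 i (hRF.sub hi), c1 i (hRG.sub hi)]) (by rw [a2, b2]) (by rw [b1, c2])
    rw [hAC]
    exact ⟨c1, c2⟩
  -- a first facet
  have hJ : IsFace u J J := isFace_self u J
  have hne : (∅ : Finset ι) ⊂ J := by
    rw [Finset.ssubset_iff_subset_ne]
    refine ⟨Finset.empty_subset _, fun e => ?_⟩
    have := h.rk_J
    rw [← e, rk_empty] at this
    omega
  obtain ⟨F0, hF0, -⟩ := exists_le_cov h.empty hJ hne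
  obtain ⟨A, a1, a2, a3⟩ := iso F0 hF0
  -- connectivity
  have conn : ∀ k : ℕ, ∀ T, IsFace u J T → finrank ℝ X ≤ rk u T + k → ∀ F G, T ⊆ F → T ⊆ G →
      Cov u J F J → Cov u J G J → ((∀ i ∈ F, A (u i) = u' i) ∧ A (m F) = m' F) →
      ((∀ i ∈ G, A (u i) = u' i) ∧ A (m G) = m' G) := by
    intro k
    induction k with
    | zero =>
      intro T hT hk F G hTF hTG hF hG' _
      exfalso
      have e1 := hF.rk_eq
      rw [h.rk_J] at e1
      have := rk_mono (u := u) hTF
      omega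
    | succ k ih =>
      intro T hT hk F G hTF hTG hF hG' hgood
      have eF := hF.rk_eq
      have eG := hG'.rk_eq
      rw [h.rk_J] at eF eG
      by_cases hFG : F = G
      · rw [← hFG]; exact hgood
      have hTF' : T ≠ F := by
        rintro rfl
        exact hFG (hF.left.eq_of_rk hG'.left.1 hTG (by omega))
      have hTG' : T ≠ G := by
        rintro rfl
        exact hFG (hG'.left.eq_of_rk hF.left.1 hTF (by omega)).symm
      have sF : T ⊂ F := Finset.ssubset_iff_subset_ne.2 ⟨hTF, hTF'⟩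
      have sG : T ⊂ G := Finset.ssubset_iff_subset_ne.2 ⟨hTG, hTG'⟩
      have lt1 := hT.rk_lt hF.left.1 sF
      by_cases hcor : rk u T + 2 = finrank ℝ X
      · exact step A a3 T F G ((cov_iff_rk hT hF.left hTF).2 (by omega))
          ((cov_iff_rk hT hG'.left hTG).2 (by omega)) hF hG' hFG hgood
      · obtain ⟨R1, hR1, hR1F⟩ := exists_cov_le hT hF.left sF
        obtain ⟨R2, hR2, hR2G⟩ := exists_cov_le hT hG'.left sG
        have q1 := hR1.rk_eq
        have q2 := hR2.rk_eq
        have key := connected' hT hR1 hR2 (fun R => ∀ H, R ⊆ H → Cov u J H J →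
          ((∀ i ∈ H, A (u i) = u' i) ∧ A (m H) = m' H))
          (fun H hH hHc => ih R1 hR1.right (by omega) F H hR1F hH hF hHc hgood) (by
            intro R R' G0 hP hR hR' hRG0 hR'G0 H hH hHc
            have q3 := hR'.rk_eq
            have q4 := hR'G0.rk_eq
            have sG0 : G0 ⊂ J := by
              rw [Finset.ssubset_iff_subset_ne]
              refine ⟨hR'G0.right.1, ?_⟩
              rintro rfl
              rw [h.rk_J] at q4
              omega
            obtain ⟨H0, hH0, hG0H0⟩ := exists_le_cov hR'G0.right hJ sG0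
            exact ih R' hR'.right (by omega) H0 H (hR'G0.sub.trans hG0H0) hH hH0 hHc
              (hP H0 (hRG0.sub.trans hG0H0) hH0))
        exact key G hR2G hG'
  have all : ∀ G, Cov u J G J → ∀ i ∈ G, A (u i) = u' i := fun G hG' =>
    (conn (finrank ℝ X) ∅ h.empty (by omega) F0 G (Finset.empty_subset _) (Finset.empty_subset _)
      hF0 hG' ⟨a1, a2⟩).1
  have allJ : ∀ i ∈ J, A (u i) = u' i := by
    intro i hi
    have hs : ({i} : Finset ι) ⊂ J := by
      rw [Finset.ssubset_iff_subset_ne]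
      refine ⟨Finset.singleton_subset_iff.2 hi, fun e => ?_⟩
      have e1 := h.rk_J
      rw [← e, h.rk_single hi] at e1
      omega
    obtain ⟨G, hG', hiG⟩ := exists_le_cov (h.vert i hi) hJ hs
    exact all G hG' i (hiG (Finset.mem_singleton_self i))
  intro i hi j hj
  rw [← allJ i hi, ← allJ j hj, a3]

end Pool.Agent.Work.MP_43c1cf_co
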