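import Pool.Agent.Work.MP_43c1cf_co.Local

/-!
# Local sign lemma at edges in dimension five
-/

set_option autoImplicit false

namespace Pool.Agent.Work.MP_43c1cf_co

open Module Matrix

variable {ι X X' : Type*} [AddCommGroup X] [Module ℝ X] [AddCommGroup X'] [Module ℝ X']
  [FiniteDimensional ℝ X] [FiniteDimensional ℝ X']
  {B : X →ₗ[ℝ] X →ₗ[ℝ] ℝ} {B' : X' →ₗ[ℝ] X' →ₗ[ℝ] ℝ} {o : X} {o' : X'}
  {u : ι → X} {u' : ι → X'} {J T : Finset ι}

theorem local_edge (h : Scribed B o u J) (h' : Scribed B' o' u' J)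
    (hf : ∀ T, IsFace u J T ↔ IsFace u' J T)
    (hN : finrank ℝ X = 5) (hX' : finrank ℝ X' = finrank ℝ X)
    {i0 j0 : ι} (hi0 : i0 ∈ J) (hTc : Cov u J {i0} T)
    (hj0 : ∀ k, k ∈ T ↔ k = i0 ∨ k = j0) (hji : j0 ≠ i0)
    {m : Finset ι → X} {m' : Finset ι → X'}
    (hm : ∀ F, Cov u J F J → IsNormal B u J F (m F))
    (hm' : ∀ F, Cov u J F J → IsNormal B' u' J F (m' F))
    {M : Finset ι → (X →ₗ[ℝ] X')}
    (hM : ∀ F, Cov u J F J → (∀ i ∈ F, M F (u i) = u' i) ∧ ∀ z w, B' (M F z) (M F w) = B z w)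
    {k : ℕ} [NeZero k] (hk : 3 ≤ k) {e f : Fin k → Finset ι} (hc : Cyc3 u J T e f)
    {s : Fin k → SignType}
    (hs : ∀ i, s i = SignType.sign (B' (m' (f (i-1))) (m' (f i)) - B (m (f (i-1))) (m (f i))))
    (halt : ¬ Alt s) : ∀ i, s i = 0 := by
  classical
  have hT := hTc.right
  have hT' := (hf T).1 hT
  have hTc' := (cov_transport hf).1 hTc
  have hc' := hc.transport hf
  obtain ⟨E, hE, hEm, hEd⟩ := h.adapted_edge hN hi0 hTc hj0 hji
  obtain ⟨E', hE', hEm', hEd'⟩ := h'.adapted_edge (hX'.trans hN) hi0 hTc' hj0 hji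
  set p := u i0 + u j0 with hp
  set p' := u' i0 + u' j0 with hp'
  have hi0T : i0 ∈ T := (hj0 i0).2 (Or.inl rfl)
  have hj0T : j0 ∈ T := (hj0 j0).2 (Or.inr rfl)
  choose a ha haT using fun i => Finset.exists_of_ssubset (hc.cov i).ss
  have haJ : ∀ i, a i ∈ J := fun i => (hc.cov i).right.1 (ha i)
  have hmem := hc.mem_iff ha haT
  have hneg : ∀ i, B p (u (a i)) < 0 := fun i => h.edge_neg hTc hj0 hji (haJ i) (haT i)
  have hneg' : ∀ i, B' p' (u' (a i)) < 0 := fun i => h'.edge_neg hTc' hj0 hji (haJ i) (haT i)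
  have hMp : ∀ i, M (f i) p = p' := by
    intro i
    rw [hp, map_add, (hM _ (hc.fac i)).1 _ (hc.sub i hi0T), (hM _ (hc.fac i)).1 _ (hc.sub i hj0T)]
  set c : Fin k → ℝ := fun i => (-(B p (u (a i))))⁻¹ with hcdef
  set c' : Fin k → ℝ := fun i => (-(B' p' (u' (a i))))⁻¹ with hcdef'
  have hc0 : ∀ i, 0 < c i := fun i => inv_pos.2 (by have := hneg i; linarith)
  have hc0' : ∀ i, 0 < c' i := fun i => inv_pos.2 (by have := hneg' i; linarith)
  have hc1 : ∀ i, c i * B p (u (a i)) = -1 := by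
    intro i; simp only [hcdef]; have := (hneg i).ne; field_simp
  have hc1' : ∀ i, c' i * B' p' (u' (a i)) = -1 := by
    intro i; simp only [hcdef']; have := (hneg' i).ne; field_simp
  have hcc : ∀ i, c' i = c i := by
    intro i
    simp only [hcdef, hcdef']
    have hai : a i ∈ f i := (hmem i i).2 (Or.inl rfl)
    rw [← hMp i, ← (hM _ (hc.fac i)).1 _ hai, (hM _ (hc.fac i)).2]
  have hmT : ∀ i, ∀ s ∈ T, B (m (f i)) (u s) = 0 := fun i s hs =>
    (hm _ (hc.fac i)).2.1 s (hc.sub i hs)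
  have hmT' : ∀ i, ∀ s ∈ T, B' (m' (f i)) (u' s) = 0 := fun i s hs =>
    (hm' _ (hc.fac i)).2.1 s (hc.sub i hs)
  choose α hα using fun i => hEm (m (f i)) (hmT i)
  choose α' hα' using fun i => hEm' (m' (f i)) (hmT' i)
  refine polygon_support_sign hk (fun i => c i • co B E (u (a i)))
    (fun i => c' i • co B' E' (u' (a i))) (fun i => co B E (m (f i)))
    (fun i => co B' E' (m' (f i))) α α' ?_ ?_ ?_ ?_ ?_ ?_ ?_ ?_ ?_ s ?_ halt
  · intro i
    rw [← hE.comp _ _ (hmT i) (hmT i)]; exact (hm _ (hc.fac i)).1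
  · intro i
    rw [← hE'.comp _ _ (hmT' i) (hmT' i)]; exact (hm' _ (hc.fac i)).1
  · intro i
    have e1 := hα i (u (a i))
    rw [(hm _ (hc.fac i)).2.1 _ ((hmem i i).2 (Or.inl rfl))] at e1
    have e2 := hc1 i
    simp only [dotProduct_smul, smul_eq_mul]
    linear_combination (-(c i)) * e1 - α i * e2
  · intro i
    have e1 := hα' i (u' (a i))
    rw [(hm' _ (hc.fac i)).2.1 _ ((hmem i i).2 (Or.inl rfl))] at e1
    have e2 := hc1' i
    simp only [dotProduct_smul, smul_eq_mul]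
    linear_combination (-(c' i)) * e1 - α' i * e2
  · intro i
    have e1 := hα i (u (a (i+1)))
    rw [(hm _ (hc.fac i)).2.1 _ ((hmem i (i+1)).2 (Or.inr rfl))] at e1
    have e2 := hc1 (i+1)
    simp only [dotProduct_smul, smul_eq_mul]
    linear_combination (-(c (i+1))) * e1 - α i * e2
  · intro i
    have e1 := hα' i (u' (a (i+1)))
    rw [(hm' _ (hc.fac i)).2.1 _ ((hmem i (i+1)).2 (Or.inr rfl))] at e1
    have e2 := hc1' (i+1)
    simp only [dotProduct_smul, smul_eq_mul]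
    linear_combination (-(c' (i+1))) * e1 - α' i * e2
  · intro i j h1 h2
    have e1 := hα i (u (a j))
    have e3 := (hm _ (hc.fac i)).2.2 _ (haJ j) (by rw [hmem]; tauto)
    have e2 := hc1 j
    simp only [dotProduct_smul, smul_eq_mul]
    have e4 : c j * (α i * B p (u (a j)) + co B E (m (f i)) ⬝ᵥ co B E (u (a j))) < 0 := by
      rw [← e1]; exact mul_neg_of_pos_of_neg (hc0 j) e3
    have e5 : c j * (α i * B p (u (a j))) = - α i := by linear_combination (α i) * e2
    linarith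
  · intro i j h1 h2
    have e1 := hα' i (u' (a j))
    have e3 := (hm' _ (hc.fac i)).2.2 _ (haJ j) (by rw [hmem]; tauto)
    have e2 := hc1' j
    simp only [dotProduct_smul, smul_eq_mul]
    have e4 : c' j * (α' i * B' p' (u' (a j)) + co B' E' (m' (f i)) ⬝ᵥ co B' E' (u' (a j))) < 0 := by
      rw [← e1]; exact mul_neg_of_pos_of_neg (hc0' j) e3
    have e5 : c' j * (α' i * B' p' (u' (a j))) = - α' i := by linear_combination (α' i) * e2
    linarith
  · intro i
    simp only [hcc]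
    set z := c (i+1) • u (a (i+1)) - c i • u (a i) with hz
    have hBz : B p z = 0 := by
      rw [hz, map_sub, map_smul, map_smul, smul_eq_mul, smul_eq_mul, hc1, hc1]; ring
    obtain ⟨sx, tx, hx, hsx, htx⟩ := hEd z hBz
    have hMf := hM _ (hc.fac i)
    have key := hE.isom hE' (M := M (f i)) (fun s hs => hMf.1 s (hc.sub i hs)) hMf.2 hx hx
      hsx hsx htx htx
    have hMz : M (f i) z = c (i+1) • u' (a (i+1)) - c i • u' (a i) := by
      rw [hz, map_sub, map_smul, map_smul, hMf.1 _ ((hmem i i).2 (Or.inl rfl)),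
        hMf.1 _ ((hmem i (i+1)).2 (Or.inr rfl))]
    rw [hMz, hz] at key
    simp only [co_sub, co_smul] at key
    exact key.symm
  · intro i
    rw [hs i, hE.comp _ _ (hmT _) (hmT _), hE'.comp _ _ (hmT' _) (hmT' _)]

end Pool.Agent.Work.MP_43c1cf_co
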