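import Pool.Agent.Work.MP_43c1cf_co.Sub
import Pool.Agent.Work.MP_43c1cf_co.Glue
import Pool.Agent.Work.MP_43c1cf_co.CountApp
import Pool.Agent.Work.MP_43c1cf_co.LocalEdge

/-!
# The induction step
-/

set_option autoImplicit false

namespace Pool.Agent.Work.MP_43c1cf_co

open Module

section

variable {ι X : Type*} [AddCommGroup X] [Module ℝ X] {u : ι → X} {J R F G : Finset ι}

open Classical in
/-- sum of `θ` over ordered pairs of distinct facets containing `R` -/
noncomputable def labSum (u : ι → X) (J : Finset ι) (θ : Finset ι → Finset ι → ℝ)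
    (R : Finset ι) : ℝ :=
  ∑ F ∈ J.powerset.filter (fun F => Cov u J F J ∧ R ⊆ F),
    ∑ G ∈ J.powerset.filter (fun F => Cov u J F J ∧ R ⊆ F), if F = G then 0 else θ F G

/-- the label of a ridge -/
noncomputable def lab (u : ι → X) (J : Finset ι) (θ : Finset ι → Finset ι → ℝ)
    (R : Finset ι) : SignType := SignType.sign (labSum u J θ R)

lemma lab_eq (θ : Finset ι → Finset ι → ℝ) (hθ : ∀ F G, θ F G = θ G F)
    (hR : IsFace u J R) (hrk : rk u R + 2 = rk u J) (hF : Cov u J F J) (hG : Cov u J G J)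
    (hRF : R ⊆ F) (hRG : R ⊆ G) (hne : F ≠ G) : lab u J θ R = SignType.sign (θ F G) := by
  classical
  obtain ⟨F0, G0, hne0, c1, c2, c3, c4, c5⟩ := diamond hR (isFace_self u J) hR.1 hrk.symm
  have hall : ∀ Q, Cov u J Q J → R ⊆ Q → Q = F0 ∨ Q = G0 := by
    intro Q hQ hRQ
    refine c5 Q hQ.left (Finset.ssubset_iff_subset_ne.2 ⟨hRQ, ?_⟩) hQ.ss
    rintro rfl
    have := hQ.rk_eq
    omega
  have hset : J.powerset.filter (fun Q => Cov u J Q J ∧ R ⊆ Q) = {F, G} := by
    ext Q
    rw [Finset.mem_filter, Finset.mem_powerset, Finset.mem_insert, Finset.mem_singleton]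
    constructor
    · rintro ⟨-, hQ, hRQ⟩
      rcases hall Q hQ hRQ with h1 | h1 <;> rcases hall F hF hRF with h2 | h2 <;>
        rcases hall G hG hRG with h3 | h3
      · left; rw [h1, h2]
      · left; rw [h1, h2]
      · right; rw [h1, h3]
      · exact absurd (h2.trans h3.symm) hne
      · exact absurd (h2.trans h3.symm) hne
      · right; rw [h1, h3]
      · left; rw [h1, h2]
      · left; rw [h1, h2]
    · rintro (rfl | rfl)
      · exact ⟨hF.left.1, hF, hRF⟩
      · exact ⟨hG.left.1, hG, hRG⟩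
  have hsum : labSum u J θ R = 2 * θ F G := by
    unfold labSum
    rw [hset, Finset.sum_pair hne, Finset.sum_pair hne, Finset.sum_pair hne]
    rw [if_pos rfl, if_neg hne, if_neg hne.symm, if_pos rfl, hθ G F]
    ring
  rw [lab, hsum]
  rcases lt_trichotomy (θ F G) 0 with h | h | h
  · rw [sign_neg h, sign_neg (by linarith)]
  · rw [h]; simp
  · rw [sign_pos h, sign_pos (by linarith)]

end

theorem rigid_succ {n : ℕ} (hn : 4 ≤ n) (hR : Rigid n) : Rigid (n + 1) := by
  classical
  intro ι X X' _ _ _ _ _ _ B B' o o' u u' J hX hX' h h' hf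
  have hXX : finrank ℝ X' = finrank ℝ X := by rw [hX, hX']
  have hJ : rk u J = n + 1 := by rw [h.rk_J, hX]
  have hG : ∀ F, Cov u J F J → ∀ i ∈ F, ∀ j ∈ F, B (u i) (u j) = B' (u' i) (u' j) :=
    fun F hF => facet_gram hn hR hX hX' h h' hf hF
  -- normals
  have hm0 : ∀ F, ∃ m : X, Cov u J F J → IsNormal B u J F m := by
    intro F
    by_cases hF : Cov u J F J
    · obtain ⟨m, hm⟩ := h.normal (by omega) hF
      exact ⟨m, fun _ => hm⟩
    · exact ⟨0, fun h => absurd h hF⟩
  choose m hm using hm0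
  have hm0' : ∀ F, ∃ m : X', Cov u J F J → IsNormal B' u' J F m := by
    intro F
    by_cases hF : Cov u J F J
    · obtain ⟨m, hm⟩ := h'.normal (by omega) ((cov_transport hf).1 hF)
      exact ⟨m, fun _ => hm⟩
    · exact ⟨0, fun h => absurd h hF⟩
  choose m' hm' using hm0'
  have hM0 : ∀ F, ∃ M : X →ₗ[ℝ] X', Cov u J F J → (∀ i ∈ F, M (u i) = u' i) ∧
      ∀ z w, B' (M z) (M w) = B z w := by
    intro F
    by_cases hF : Cov u J F J
    · obtain ⟨M, hM1, -, hM2⟩ := facet_isom h h' hF ((cov_transport hf).1 hF) (hG F hF)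
        (hm F hF).1 (hm F hF).2.1 (hm' F hF).1 (hm' F hF).2.1
      exact ⟨M, fun _ => ⟨hM1, hM2⟩⟩
    · exact ⟨0, fun h => absurd h hF⟩
  choose M hM using hM0
  set θ : Finset ι → Finset ι → ℝ := fun F G => B' (m' F) (m' G) - B (m F) (m G) with hθdef
  have hθs : ∀ F G, θ F G = θ G F := by
    intro F G
    simp only [hθdef]
    rw [h'.lor.symm, h.lor.symm]
  -- local
  have hlab : ∀ T, IsFace u J T → rk u T + 3 = rk u J → ∀ (k : ℕ) (_ : NeZero k)
      (e f : Fin k → Finset ι), 3 ≤ k → Cyc3 u J T e f →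
      ∀ i, lab u J θ (e i) = SignType.sign (B' (m' (f (i-1))) (m' (f i)) -
        B (m (f (i-1))) (m (f i))) := by
    intro T hT hrk k _ e f hk hc i
    have h1 : e i ⊆ f (i - 1) := (hc.inc (i-1) i).2 (Or.inr (by rw [sub_add_cancel]))
    have h2 : e i ⊆ f i := (hc.inc i i).2 (Or.inl rfl)
    have h3 : f (i - 1) ≠ f i := by
      intro heq
      have h4 : e (i + 1) ⊆ f i := (hc.inc i (i+1)).2 (Or.inr rfl)
      rw [← heq, hc.inc] at h4
      rcases h4 with h4 | h4
      · exact fin_ne3 hk i h4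
      · rw [sub_add_cancel] at h4
        exact fin_ne1 hk i h4.symm
    exact lab_eq θ hθs (hc.cov i).right (by rw [(hc.cov i).rk_eq]; omega) (hc.fac _) (hc.fac _)
      h1 h2 h3
  have hθ0 : ∀ R F G, Cov u J R F → Cov u J R G → Cov u J F J → Cov u J G J → F ≠ G →
      B (m F) (m G) = B' (m' F) (m' G) := by
    intro R F G hRF hRG hF hG' hne
    have rkR : rk u R + 2 = n + 1 := by
      have := hRF.rk_eq; have := hF.rk_eq; omega
    have n0 : (∅ : Finset ι) ⊂ R := Finset.ssubset_iff_subset_ne.2 ⟨Finset.empty_subset _, by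
      rintro rfl; rw [rk_empty] at rkR; omega⟩
    obtain ⟨T, hT, -⟩ := exists_le_cov h.empty hRF.left n0
    have rkT := hT.rk_eq
    have n1 : (∅ : Finset ι) ⊂ T := Finset.ssubset_iff_subset_ne.2 ⟨Finset.empty_subset _, by
      rintro rfl; rw [rk_empty] at rkT; omega⟩
    obtain ⟨L, hL, -⟩ := exists_le_cov h.empty hT.left n1
    have rkL := hL.rk_eq
    have key := count_app (lab u J θ) hL.left (by omega) ?_ R hRF.left (hL.sub.trans hT.sub)
      (by omega)
    · rw [lab_eq θ hθs hRF.left (by omega) hF hG' hRF.sub hRG.sub hne, sign_eq_zero_iff] at key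
      simp only [hθdef] at key
      linarith
    · intro T hT k _ e f hk hc halt i
      have rkT := hT.rk_eq
      have hTJ : rk u T + 3 = rk u J := by omega
      have hl := hlab T hT.right hTJ k inferInstance e f hk hc
      by_cases h5 : n = 4
      · -- edge case
        subst h5
        have rkL1 : rk u L = 1 := by omega
        have hne : L.Nonempty := by
          rw [Finset.nonempty_iff_ne_empty]
          rintro rfl; rw [rk_empty] at rkL1; omega
        obtain ⟨i0, hi0⟩ := hne
        have hi0J := hL.left.1 hi0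
        have hLi : {i0} = L := (h.vert i0 hi0J).eq_of_rk hL.left.1
          (Finset.singleton_subset_iff.2 hi0) (by rw [h.rk_single hi0J]; omega)
        subst hLi
        obtain ⟨j0, hj0, -, hj⟩ := h.cov_vertex hT
        exact local_edge h h' hf hX hXX hi0J hT hj hj0 hm hm' hM hk hc hl halt i
      · exact local_sphere h h' hf hT.right (by omega) (by rw [hTJ, h.rk_J]) hXX hm hm' hM hk hc
          hl halt i
  exact glue (by omega) hXX h h' hf m m' hm hm' hG hθ0

theorem rigid_of_four (h4 : Rigid 4) : ∀ n, 4 ≤ n → Rigid n := by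
  intro n hn
  induction n, hn using Nat.le_induction with
  | base => exact h4
  | succ n hn ih => exact rigid_succ hn ih

end Pool.Agent.Work.MP_43c1cf_co
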