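import Pool.Agent.Work.MP_43c1cf_co.Defs

/-!
# From the abstract rigidity statement to the frozen statement
-/

set_option autoImplicit false

namespace Pool.Agent.Work.MP_43c1cf_co

open Module Matrix

section trans

variable {n : ℕ}

/-- homogeneous lift -/
def lft (x : Fin n → ℝ) : Option (Fin n) → ℝ := fun i => Option.elim i (1 : ℝ) x

lemma lft_none (x : Fin n → ℝ) : lft x none = 1 := rfl
lemma lft_some (x : Fin n → ℝ) (i : Fin n) : lft x (some i) = x i := rfl

lemma lft_sum {κ : Type*} (s : Finset κ) (w : κ → ℝ) (z : κ → Fin n → ℝ) (h : ∑ i ∈ s, w i = 1) :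
    lft (∑ i ∈ s, w i • z i) = ∑ i ∈ s, w i • lft (z i) := by
  funext j
  rcases j with _ | j
  · rw [lft_none, Finset.sum_apply]
    simp only [Pi.smul_apply, lft_none, smul_eq_mul, mul_one, h]
  · rw [lft_some, Finset.sum_apply, Finset.sum_apply]
    simp only [Pi.smul_apply, lft_some]

/-- linear embedding of the affine directions -/
def emb : (Fin n → ℝ) →ₗ[ℝ] (Option (Fin n) → ℝ) where
  toFun x := fun i => Option.elim i (0 : ℝ) x
  map_add' x y := by
    funext i; rcases i with _ | i <;> simp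
  map_smul' c x := by
    funext i; rcases i with _ | i <;> simp

/-- the vertical unit vector -/
def e0 : Option (Fin n) → ℝ := fun i => Option.elim i (1 : ℝ) (fun _ => 0)

lemma lft_eq (x : Fin n → ℝ) : lft x = emb x + e0 := by
  funext i; rcases i with _ | i <;> simp [lft, emb, e0]

lemma map_lft (φ : (Option (Fin n) → ℝ) →ₗ[ℝ] ℝ) (x : Fin n → ℝ) :
    φ (lft x) = φ (emb x) + φ e0 := by rw [lft_eq, map_add]

/-- functional with prescribed restriction -/
def mkf (m : ℝ) (l : (Fin n → ℝ) →ₗ[ℝ] ℝ) : (Option (Fin n) → ℝ) →ₗ[ℝ] ℝ :=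
  m • (LinearMap.proj none) - l ∘ₗ (LinearMap.funLeft ℝ ℝ some)

lemma mkf_lft (m : ℝ) (l : (Fin n → ℝ) →ₗ[ℝ] ℝ) (x : Fin n → ℝ) : mkf m l (lft x) = m - l x := by
  have : (fun i => lft x (some i)) = x := rfl
  simp only [mkf, LinearMap.sub_apply, LinearMap.smul_apply, LinearMap.proj_apply, lft_none,
    smul_eq_mul, mul_one, LinearMap.comp_apply]
  rfl

lemma phi_sum (φ : (Option (Fin n) → ℝ) →ₗ[ℝ] ℝ) (J : Finset (Fin n → ℝ)) (w : (Fin n → ℝ) → ℝ)
    (h : ∑ i ∈ J, w i = 1) : φ (lft (∑ i ∈ J, w i • i)) = ∑ i ∈ J, w i * φ (lft i) := by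
  rw [lft_sum J w (fun i => i) h, map_sum]
  exact Finset.sum_congr rfl (fun i _ => by rw [map_smul, smul_eq_mul])

lemma phi_nonneg {φ : (Option (Fin n) → ℝ) →ₗ[ℝ] ℝ} {J : Finset (Fin n → ℝ)}
    (h : ∀ i ∈ J, 0 ≤ φ (lft i)) {x : Fin n → ℝ} (hx : x ∈ convexHull ℝ (J : Set (Fin n → ℝ))) :
    0 ≤ φ (lft x) := by
  obtain ⟨w, hw0, hw1, rfl⟩ := Finset.mem_convexHull'.1 hx
  rw [phi_sum φ J w hw1]
  exact Finset.sum_nonneg (fun i hi => mul_nonneg (hw0 i hi) (h i hi))

lemma phi_zero {φ : (Option (Fin n) → ℝ) →ₗ[ℝ] ℝ} {J : Finset (Fin n → ℝ)}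
    (h : ∀ i ∈ J, φ (lft i) = 0) {x : Fin n → ℝ} (hx : x ∈ convexHull ℝ (J : Set (Fin n → ℝ))) :
    φ (lft x) = 0 := by
  obtain ⟨w, hw0, hw1, rfl⟩ := Finset.mem_convexHull'.1 hx
  rw [phi_sum φ J w hw1]
  exact Finset.sum_eq_zero (fun i hi => by rw [h i hi, mul_zero])

lemma phi_eq_zero_iff {φ : (Option (Fin n) → ℝ) →ₗ[ℝ] ℝ} {J S : Finset (Fin n → ℝ)} (hS : S ⊆ J)
    (h : ∀ i ∈ J, 0 ≤ φ (lft i)) (h0 : ∀ i ∈ J, (φ (lft i) = 0 ↔ i ∈ S)) {x : Fin n → ℝ}
    (hx : x ∈ convexHull ℝ (J : Set (Fin n → ℝ))) :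
    φ (lft x) = 0 ↔ x ∈ convexHull ℝ (S : Set (Fin n → ℝ)) := by
  constructor
  · intro hx0
    obtain ⟨w, hw0, hw1, rfl⟩ := Finset.mem_convexHull'.1 hx
    rw [phi_sum φ J w hw1] at hx0
    have hz := (Finset.sum_eq_zero_iff_of_nonneg
      (fun i hi => mul_nonneg (hw0 i hi) (h i hi))).1 hx0
    have hw : ∀ i ∈ J, i ∉ S → w i = 0 := by
      intro i hi hiS
      rcases mul_eq_zero.1 (hz i hi) with h1 | h1
      · exact h1
      · exact absurd ((h0 i hi).1 h1) hiS
    refine Finset.mem_convexHull'.2 ⟨w, fun i hi => hw0 i (hS hi), ?_, ?_⟩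
    · rw [← hw1]
      exact Finset.sum_subset hS hw
    · exact Finset.sum_subset hS (fun i hi hiS => by rw [hw i hi hiS, zero_smul])
  · intro hxS
    exact phi_zero (fun i hi => (h0 i (hS hi)).2 hi) hxS

lemma isFace_iff_isExposed {J S : Finset (Fin n → ℝ)}
    (hJ : (J : Set (Fin n → ℝ)) ⊆ Set.extremePoints ℝ (convexHull ℝ (J : Set (Fin n → ℝ))))
    (hS : S ⊆ J) : IsFace lft J S ↔
      IsExposed ℝ (convexHull ℝ (J : Set (Fin n → ℝ))) (convexHull ℝ (S : Set (Fin n → ℝ))) := by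
  constructor
  · rintro ⟨-, φ, hφ, hφ0⟩ hne
    rw [convexHull_nonempty_iff] at hne
    obtain ⟨s, hs⟩ := hne
    have hs' : s ∈ S := hs
    have hs0 : φ (lft s) = 0 := (hφ0 s (hS hs')).2 hs'
    refine ⟨-(LinearMap.toContinuousLinearMap (φ ∘ₗ emb)), ?_⟩
    have key : ∀ x : Fin n → ℝ, (-(LinearMap.toContinuousLinearMap (φ ∘ₗ emb))) x
        = φ e0 - φ (lft x) := by
      intro x
      rw [map_lft]
      simp
    ext x
    constructor
    · intro hx
      have hxJ : x ∈ convexHull ℝ (J : Set (Fin n → ℝ)) :=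
        convexHull_mono (by exact_mod_cast hS) hx
      refine ⟨hxJ, fun y hy => ?_⟩
      rw [key, key, (phi_eq_zero_iff hS hφ hφ0 hxJ).2 hx]
      have := phi_nonneg hφ hy
      linarith
    · rintro ⟨hxJ, hx⟩
      have h1 := hx s (subset_convexHull ℝ _ (hS hs'))
      rw [key, key, hs0] at h1
      have h2 := phi_nonneg hφ hxJ
      exact (phi_eq_zero_iff hS hφ hφ0 hxJ).1 (by linarith)
  · intro hexp
    refine ⟨hS, ?_⟩
    rcases S.eq_empty_or_nonempty with hS0 | ⟨s, hs⟩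
    · subst hS0
      refine ⟨LinearMap.proj none, fun i _ => ?_, fun i _ => ?_⟩
      · simp [lft_none]
      · simp [lft_none]
    · obtain ⟨l, hl⟩ := hexp ⟨s, subset_convexHull ℝ _ hs⟩
      have hsm : s ∈ convexHull ℝ (S : Set (Fin n → ℝ)) := subset_convexHull ℝ _ hs
      have hsm' := hsm
      rw [hl] at hsm'
      refine ⟨mkf (l s) l.toLinearMap, fun i hi => ?_, fun i hi => ?_⟩
      · rw [mkf_lft]
        have := hsm'.2 i (subset_convexHull ℝ _ hi)
        simpa using this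
      · rw [mkf_lft]
        constructor
        · intro h0
          have hiS : i ∈ convexHull ℝ (S : Set (Fin n → ℝ)) := by
            rw [hl]
            refine ⟨subset_convexHull ℝ _ hi, fun y hy => ?_⟩
            have h1 := hsm'.2 y hy
            have h2 : l s - l i = 0 := h0
            linarith
          have h3 := inter_extremePoints_subset_extremePoints_of_subset
            (𝕜 := ℝ) (convexHull_mono (𝕜 := ℝ) (show (S : Set (Fin n → ℝ)) ⊆ J by exact_mod_cast hS))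
            ⟨hiS, hJ hi⟩
          have h4 := extremePoints_convexHull_subset h3
          exact_mod_cast h4
        · intro hiS
          have hiS' : i ∈ convexHull ℝ (S : Set (Fin n → ℝ)) := subset_convexHull ℝ _ hiS
          rw [hl] at hiS'
          have h1 := hiS'.2 s hsm'.1
          have h2 := hsm'.2 i hiS'.1
          have : l s - l i = 0 := by linarith
          exact this

/-- The extreme points of a polytope as a finset. -/
noncomputable def ext (V : Finset (Fin n → ℝ)) : Finset (Fin n → ℝ) :=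
  (V.finite_toSet.subset (extremePoints_convexHull_subset (𝕜 := ℝ) (A := (V : Set (Fin n → ℝ))))).toFinset

lemma coe_ext (V : Finset (Fin n → ℝ)) :
    (ext V : Set (Fin n → ℝ)) = Set.extremePoints ℝ (convexHull ℝ (V : Set (Fin n → ℝ))) := by
  simp [ext]

lemma ext_subset (V : Finset (Fin n → ℝ)) : ext V ⊆ V := by
  have h := extremePoints_convexHull_subset (𝕜 := ℝ) (A := (V : Set (Fin n → ℝ)))
  rw [← coe_ext] at h
  exact_mod_cast h

lemma hull_ext (V : Finset (Fin n → ℝ)) :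
    convexHull ℝ (ext V : Set (Fin n → ℝ)) = convexHull ℝ (V : Set (Fin n → ℝ)) := by
  have hc : IsCompact (convexHull ℝ (V : Set (Fin n → ℝ))) := V.finite_toSet.isCompact_convexHull ℝ
  have h := closure_convexHull_extremePoints hc (convex_convexHull ℝ _)
  rw [← coe_ext] at h
  rwa [((ext V).finite_toSet.isClosed_convexHull ℝ).closure_eq] at h

lemma ext_extreme (V : Finset (Fin n → ℝ)) :
    (ext V : Set (Fin n → ℝ)) ⊆ Set.extremePoints ℝ (convexHull ℝ (ext V : Set (Fin n → ℝ))) := by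
  rw [hull_ext, ← coe_ext]

lemma face_singleton {J : Finset (Fin n → ℝ)}
    (hJ : (J : Set (Fin n → ℝ)) ⊆ Set.extremePoints ℝ (convexHull ℝ (J : Set (Fin n → ℝ))))
    {a : Fin n → ℝ} (ha : a ∈ J) : IsFace lft J {a} := by
  classical
  refine ⟨Finset.singleton_subset_iff.2 ha, ?_⟩
  have hnot : a ∉ convexHull ℝ ((J.erase a : Finset (Fin n → ℝ)) : Set (Fin n → ℝ)) := by
    intro h
    have h3 := inter_extremePoints_subset_extremePoints_of_subset
      (𝕜 := ℝ) (convexHull_mono (𝕜 := ℝ) (show ((J.erase a : Finset (Fin n → ℝ)) : Set (Fin n → ℝ)) ⊆ J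
        by exact_mod_cast Finset.erase_subset a J)) ⟨h, hJ ha⟩
    have h4 := extremePoints_convexHull_subset h3
    have h5 : a ∈ J.erase a := by exact_mod_cast h4
    exact Finset.notMem_erase a J h5
  obtain ⟨f, u, hfu, hf⟩ := geometric_hahn_banach_point_closed (convex_convexHull ℝ _)
    ((J.erase a).finite_toSet.isClosed_convexHull ℝ) hnot
  have key : ∀ i, mkf (-(f a)) (-(f.toLinearMap)) (lft i) = f i - f a := by
    intro i
    rw [mkf_lft]
    simp only [LinearMap.neg_apply]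
    show -f a - -(f i) = f i - f a
    ring
  refine ⟨mkf (-(f a)) (-(f.toLinearMap)), fun i hi => ?_, fun i hi => ?_⟩
  · rw [key]
    by_cases hia : i = a
    · rw [hia]; simp
    · have := hf i (subset_convexHull ℝ _ (by
        show i ∈ ((J.erase a : Finset (Fin n → ℝ)) : Set (Fin n → ℝ))
        exact_mod_cast Finset.mem_erase.2 ⟨hia, hi⟩))
      linarith
  · rw [key, Finset.mem_singleton]
    constructor
    · intro h0
      by_contra hia
      have := hf i (subset_convexHull ℝ _ (by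
        show i ∈ ((J.erase a : Finset (Fin n → ℝ)) : Set (Fin n → ℝ))
        exact_mod_cast Finset.mem_erase.2 ⟨hia, hi⟩))
      linarith
    · intro h; rw [h]; ring

/-- A functional vanishing on a full-dimensional polytope is zero. -/
lemma phi_eq_zero {J : Finset (Fin n → ℝ)}
    (hint : (interior (convexHull ℝ (J : Set (Fin n → ℝ)))).Nonempty)
    {φ : (Option (Fin n) → ℝ) →ₗ[ℝ] ℝ} (h : ∀ i ∈ J, φ (lft i) = 0) : φ = 0 := by
  obtain ⟨x, hx⟩ := hint
  rw [mem_interior_iff_mem_nhds, Metric.mem_nhds_iff] at hx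
  obtain ⟨ε, hε, hball⟩ := hx
  have h1 : ∀ y ∈ Metric.ball x ε, φ (lft y) = 0 := fun y hy => phi_zero h (hball hy)
  have hx0 := h1 x (Metric.mem_ball_self hε)
  have h2 : ∀ v : Fin n → ℝ, φ (emb v) = 0 := by
    intro v
    by_cases hv : v = 0
    · rw [hv, map_zero, map_zero]
    have hv' : 0 < ‖v‖ := norm_pos_iff.2 hv
    have hmem : x + (ε / (2 * ‖v‖)) • v ∈ Metric.ball x ε := by
      rw [Metric.mem_ball, dist_eq_norm, add_sub_cancel_left, norm_smul, Real.norm_eq_abs,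
        abs_of_pos (by positivity)]
      have : ε / (2 * ‖v‖) * ‖v‖ = ε / 2 := by field_simp
      rw [this]; linarith
    have h3 := h1 _ hmem
    rw [map_lft, map_add, map_smul, map_add, map_smul, smul_eq_mul] at h3
    rw [map_lft] at hx0
    have h4 : ε / (2 * ‖v‖) * φ (emb v) = 0 := by linarith
    rcases mul_eq_zero.1 h4 with h5 | h5
    · exfalso; have : 0 < ε / (2 * ‖v‖) := by positivity
      linarith
    · exact h5
  have h5 : φ e0 = 0 := by
    rw [map_lft, h2, zero_add] at hx0; exact hx0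
  refine LinearMap.ext (fun z => ?_)
  have hz : z = emb (fun i => z (some i)) + (z none) • e0 := by
    funext i; rcases i with _ | i <;> simp [emb, e0]
  rw [hz, map_add, map_smul, h2, h5]
  simp

lemma sp_top {J : Finset (Fin n → ℝ)}
    (hint : (interior (convexHull ℝ (J : Set (Fin n → ℝ)))).Nonempty) :
    sp lft J = ⊤ := by
  by_contra hne
  obtain ⟨z, hz⟩ : ∃ z, z ∉ sp lft J := by
    by_contra h; push Not at h
    exact hne (eq_top_iff.2 (fun z _ => h z))
  obtain ⟨ψ, hψz, hψ⟩ := Submodule.exists_le_ker_of_notMem hz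
  have : ψ = 0 := phi_eq_zero hint (fun i hi => by
    have := hψ (mem_sp hi); simpa using this)
  rw [this] at hψz
  exact hψz rfl

/-- A cover of a vertex is an edge. -/
lemma cov_vertex {J R : Finset (Fin n → ℝ)}
    (hJ : (J : Set (Fin n → ℝ)) ⊆ Set.extremePoints ℝ (convexHull ℝ (J : Set (Fin n → ℝ))))
    {a : Fin n → ℝ} (h : Cov lft J {a} R) : ∃ b, b ≠ a ∧ a ∈ R ∧ b ∈ R ∧
      (R : Set (Fin n → ℝ)) = {a, b} := by
  classical
  obtain ⟨b, hb, hba⟩ := Finset.exists_of_ssubset h.ss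
  have haR : a ∈ R := h.sub (Finset.mem_singleton_self a)
  have hba' : b ≠ a := fun h' => hba (by rw [h']; exact Finset.mem_singleton_self a)
  refine ⟨b, hba', haR, hb, ?_⟩
  have haJ := h.right.1 haR
  have hbJ := h.right.1 hb
  have hspan := h.sp_insert hb hba
  ext c
  simp only [Finset.mem_coe, Set.mem_insert_iff, Set.mem_singleton_iff]
  constructor
  · intro hc
    by_contra hcon
    push Not at hcon
    obtain ⟨hca, hcb⟩ := hcon
    have hcJ := h.right.1 hc
    have h1 : lft c ∈ sp lft R := mem_sp hc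
    have hsa : sp lft ({a} : Finset (Fin n → ℝ)) = Submodule.span ℝ {lft a} := by
      unfold sp; rw [Finset.coe_singleton, Set.image_singleton]
    rw [hspan, hsa, Submodule.mem_sup] at h1
    obtain ⟨y, hy, z, hz, hyz⟩ := h1
    obtain ⟨α, rfl⟩ := Submodule.mem_span_singleton.1 hy
    obtain ⟨β, rfl⟩ := Submodule.mem_span_singleton.1 hz
    -- use the three vertex functionals
    obtain ⟨-, fa, hfa, hfa0⟩ := face_singleton hJ haJ
    obtain ⟨-, fb, hfb, hfb0⟩ := face_singleton hJ hbJ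
    obtain ⟨-, fc, hfc, hfc0⟩ := face_singleton hJ hcJ
    have pos : ∀ (f : (Option (Fin n) → ℝ) →ₗ[ℝ] ℝ) (v : Fin n → ℝ), (∀ i ∈ J, 0 ≤ f (lft i)) →
        (∀ i ∈ J, (f (lft i) = 0 ↔ i ∈ ({v} : Finset (Fin n → ℝ)))) → ∀ i ∈ J, i ≠ v →
        0 < f (lft i) := by
      intro f v hf hf0 i hi hiv
      refine lt_of_le_of_ne (hf i hi) (fun h' => hiv ?_)
      have := (hf0 i hi).1 h'.symm
      exact Finset.mem_singleton.1 this
    have ea := congrArg fa hyz
    have eb := congrArg fb hyz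
    have ec := congrArg fc hyz
    rw [map_add, map_smul, map_smul, smul_eq_mul, smul_eq_mul] at ea eb ec
    have a0 : fa (lft a) = 0 := (hfa0 a haJ).2 (Finset.mem_singleton_self a)
    have b0 : fb (lft b) = 0 := (hfb0 b hbJ).2 (Finset.mem_singleton_self b)
    have c0 : fc (lft c) = 0 := (hfc0 c hcJ).2 (Finset.mem_singleton_self c)
    have ab := pos fa a hfa hfa0 b hbJ hba'
    have ac := pos fa a hfa hfa0 c hcJ hca
    have ba := pos fb b hfb hfb0 a haJ hba'.symm
    have bc := pos fb b hfb hfb0 c hcJ hcb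
    have ca := pos fc c hfc hfc0 a haJ (Ne.symm hca)
    have cb := pos fc c hfc hfc0 b hbJ (Ne.symm hcb)
    rw [a0] at ea
    rw [b0] at eb
    rw [c0] at ec
    have hβ : 0 < β := by
      have : 0 < β * fa (lft b) := by linarith
      exact (pos_iff_pos_of_mul_pos this).2 ab
    have hα : 0 < α := by
      have : 0 < α * fb (lft a) := by linarith
      exact (pos_iff_pos_of_mul_pos this).2 ba
    have := mul_pos hα ca
    have := mul_pos hβ cb
    linarith
  · rintro (rfl | rfl)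
    · exact haR
    · exact hb

/-- standard inner product -/
def qq (a b : Fin n → ℝ) : ℝ := ∑ i, a i * b i

lemma qq_comm (a b : Fin n → ℝ) : qq a b = qq b a := by
  unfold qq; exact Finset.sum_congr rfl (fun i _ => mul_comm _ _)

lemma sum_sq_eq (a b : Fin n → ℝ) (t : ℝ) :
    ∑ i, (a i + t * (b i - a i)) ^ 2 = qq a a * (1 - t) ^ 2 + 2 * qq a b * t * (1 - t)
      + qq b b * t ^ 2 := by
  unfold qq
  rw [Finset.sum_mul, Finset.mul_sum, Finset.sum_mul, Finset.sum_mul, Finset.sum_mul,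
    ← Finset.sum_add_distrib, ← Finset.sum_add_distrib]
  exact Finset.sum_congr rfl (fun i _ => by ring)

/-- all edges are tangent to the unit sphere -/
def Tang (J : Finset (Fin n → ℝ)) : Prop :=
  ∀ a ∈ J, ∀ b ∈ J, a ≠ b →
      IsExposed ℝ (convexHull ℝ (J : Set (Fin n → ℝ))) (segment ℝ a b) →
      ∃ p ∈ segment ℝ a b, ∑ i, p i ^ 2 = 1 ∧
        ∀ t : ℝ, 1 ≤ ∑ i, (a i + t * (b i - a i)) ^ 2

lemma lin_zero {m k : ℝ} (h : ∀ x : ℝ, 0 ≤ x * m + x ^ 2 * k) : m = 0 := by
  by_contra hm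
  have h1 := h (-m / (|k| + 1))
  have hk : 0 < |k| + 1 := by positivity
  have h2 : -m / (|k| + 1) * m + (-m / (|k| + 1)) ^ 2 * k
      = m ^ 2 / (|k| + 1) ^ 2 * (k - |k| - 1) := by
    field_simp
    ring
  rw [h2] at h1
  have h3 : 0 < m ^ 2 / (|k| + 1) ^ 2 := by positivity
  have h4 : k - |k| - 1 < 0 := by have := le_abs_self k; linarith
  have := mul_neg_of_pos_of_neg h3 h4
  linarith

lemma quad_alg {A C D t0 : ℝ} (h : ∀ t : ℝ, 0 ≤ A * (1 - t) ^ 2 + 2 * D * t * (1 - t) + C * t ^ 2)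
    (h0 : A * (1 - t0) ^ 2 + 2 * D * t0 * (1 - t0) + C * t0 ^ 2 = 0) :
    A * (1 - t0) + D * t0 = 0 ∧ D * (1 - t0) + C * t0 = 0 := by
  have hm : -2 * A * (1 - t0) + 2 * D * (1 - t0 - t0) + 2 * C * t0 = 0 := by
    refine lin_zero (k := A - 2 * D + C) (fun x => ?_)
    have := h (t0 + x)
    have e : A * (1 - (t0 + x)) ^ 2 + 2 * D * (t0 + x) * (1 - (t0 + x)) + C * (t0 + x) ^ 2
        = (A * (1 - t0) ^ 2 + 2 * D * t0 * (1 - t0) + C * t0 ^ 2)
          + (x * (-2 * A * (1 - t0) + 2 * D * (1 - t0 - t0) + 2 * C * t0)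
            + x ^ 2 * (A - 2 * D + C)) := by ring
    rw [e, h0, zero_add] at this
    exact this
  constructor <;> nlinarith

lemma tang_alg {J : Finset (Fin n → ℝ)} (hT : Tang J) {a b : Fin n → ℝ} (ha : a ∈ J) (hb : b ∈ J)
    (hab : a ≠ b) (hE : IsExposed ℝ (convexHull ℝ (J : Set (Fin n → ℝ))) (segment ℝ a b)) :
    ∃ t0 : ℝ, 0 ≤ t0 ∧ t0 ≤ 1 ∧
      (∀ t : ℝ, 0 ≤ (qq a a - 1) * (1 - t) ^ 2 + 2 * (qq a b - 1) * t * (1 - t)
        + (qq b b - 1) * t ^ 2) ∧
      (qq a a - 1) * (1 - t0) + (qq a b - 1) * t0 = 0 ∧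
      (qq a b - 1) * (1 - t0) + (qq b b - 1) * t0 = 0 := by
  obtain ⟨p, hp, hp1, hall⟩ := hT a ha b hb hab hE
  rw [segment_eq_image'] at hp
  obtain ⟨t0, ht0, rfl⟩ := hp
  have hall' : ∀ t : ℝ, 0 ≤ (qq a a - 1) * (1 - t) ^ 2 + 2 * (qq a b - 1) * t * (1 - t)
        + (qq b b - 1) * t ^ 2 := by
    intro t
    have := hall t
    rw [sum_sq_eq] at this
    linarith [this, show (qq a a - 1) * (1 - t) ^ 2 + 2 * (qq a b - 1) * t * (1 - t)
        + (qq b b - 1) * t ^ 2 = (qq a a * (1 - t) ^ 2 + 2 * qq a b * t * (1 - t)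
      + qq b b * t ^ 2) - 1 by ring]
  have h0 : (qq a a - 1) * (1 - t0) ^ 2 + 2 * (qq a b - 1) * t0 * (1 - t0)
        + (qq b b - 1) * t0 ^ 2 = 0 := by
    have e : ∑ i, (a + t0 • (b - a)) i ^ 2 = ∑ i, (a i + t0 * (b i - a i)) ^ 2 :=
      Finset.sum_congr rfl (fun i _ => by simp)
    have e1 : ∑ i, (a i + t0 * (b i - a i)) ^ 2 = 1 := by rw [← e]; exact hp1
    rw [sum_sq_eq] at e1
    linarith [e1, show (qq a a - 1) * (1 - t0) ^ 2 + 2 * (qq a b - 1) * t0 * (1 - t0)
        + (qq b b - 1) * t0 ^ 2 = (qq a a * (1 - t0) ^ 2 + 2 * qq a b * t0 * (1 - t0)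
      + qq b b * t0 ^ 2) - 1 by ring]
  have h2 := quad_alg hall' h0
  exact ⟨t0, ht0.1, ht0.2, hall', h2.1, h2.2⟩

lemma edge_gram {J : Finset (Fin n → ℝ)} (hT : Tang J) {a b : Fin n → ℝ} (ha : a ∈ J) (hb : b ∈ J)
    (hab : a ≠ b) (hE : IsExposed ℝ (convexHull ℝ (J : Set (Fin n → ℝ))) (segment ℝ a b))
    (hA : 0 < qq a a - 1) (hC : 0 < qq b b - 1) :
    qq a b - 1 < 0 ∧ (qq a b - 1) ^ 2 = (qq a a - 1) * (qq b b - 1) := by
  obtain ⟨t0, h0, h1, -, e1, e2⟩ := tang_alg hT ha hb hab hE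
  generalize qq a a - 1 = A at *
  generalize qq b b - 1 = C at *
  generalize qq a b - 1 = D at *
  have ht0 : t0 ≠ 0 := by
    rintro rfl
    simp at e1
    exact hA.ne' e1
  have ht1 : 1 - t0 ≠ 0 := by
    intro h
    rw [h] at e2
    have : t0 = 1 := by linarith
    rw [this] at e2
    simp at e2
    exact hC.ne' e2
  have p0 : 0 < t0 := lt_of_le_of_ne h0 (Ne.symm ht0)
  have p1 : 0 < 1 - t0 := lt_of_le_of_ne (by linarith) (Ne.symm ht1)
  refine ⟨?_, ?_⟩
  · by_contra hD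
    push Not at hD
    have := mul_pos hA p1
    have := mul_nonneg hD p0.le
    linarith
  · have : (D ^ 2 - A * C) * (t0 * (1 - t0)) = 0 := by
      have h3 : A * (1 - t0) = -(D * t0) := by linarith
      have h4 : C * t0 = -(D * (1 - t0)) := by linarith
      have : A * C * (t0 * (1 - t0)) = (A * (1 - t0)) * (C * t0) := by ring
      rw [sub_mul, this, h3, h4]
      ring
    rcases mul_eq_zero.1 this with h | h
    · linarith
    · exact absurd h (mul_ne_zero ht0 ht1)

lemma ne_singleton (hn : 0 < n) {J : Finset (Fin n → ℝ)}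
    (hint : (interior (convexHull ℝ (J : Set (Fin n → ℝ)))).Nonempty) (a : Fin n → ℝ) :
    J ≠ {a} := by
  rintro rfl
  have i0 : Fin n := ⟨0, hn⟩
  have h := phi_eq_zero hint (φ := mkf (a i0) (LinearMap.proj i0)) (by
    intro i hi
    rw [Finset.mem_singleton] at hi
    rw [hi, mkf_lft]
    simp)
  have h1 := LinearMap.congr_fun h (lft (Function.update a i0 (a i0 + 1)))
  rw [mkf_lft] at h1
  simp at h1

lemma cov_segment {J R : Finset (Fin n → ℝ)}
    (hJ : (J : Set (Fin n → ℝ)) ⊆ Set.extremePoints ℝ (convexHull ℝ (J : Set (Fin n → ℝ))))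
    {a : Fin n → ℝ} (h : Cov lft J {a} R) : ∃ b, b ≠ a ∧ a ∈ J ∧ b ∈ J ∧ b ∈ R ∧
      IsExposed ℝ (convexHull ℝ (J : Set (Fin n → ℝ))) (segment ℝ a b) := by
  obtain ⟨b, hba, ha, hb, hR⟩ := cov_vertex hJ h
  refine ⟨b, hba, h.right.1 ha, h.right.1 hb, hb, ?_⟩
  have := (isFace_iff_isExposed hJ h.right.1).1 h.right
  rwa [hR, convexHull_pair] at this

lemma norm_gt_one (hn : 0 < n) {J : Finset (Fin n → ℝ)}
    (hJ : (J : Set (Fin n → ℝ)) ⊆ Set.extremePoints ℝ (convexHull ℝ (J : Set (Fin n → ℝ))))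
    (hint : (interior (convexHull ℝ (J : Set (Fin n → ℝ)))).Nonempty) (hT : Tang J)
    {a : Fin n → ℝ} (ha : a ∈ J) : 0 < qq a a - 1 := by
  classical
  by_contra hcon
  push Not at hcon
  have hge : ∀ R, Cov lft J {a} R → ∃ b ∈ R, b ≠ a ∧ qq a a = 1 ∧ qq a b = 1 := by
    intro R hR
    obtain ⟨b, hba, haJ, hbJ, hbR, hE⟩ := cov_segment hJ hR
    obtain ⟨t0, h0, h1, hall, e1, e2⟩ := tang_alg hT haJ hbJ hba.symm hE
    have hA := hall 0
    simp at hA
    have hA' : qq a a - 1 = 0 := by linarith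
    have h3 := quad_alg (t0 := 0) hall (by simp; linarith)
    refine ⟨b, hbR, hba, by linarith, ?_⟩
    have := h3.2
    simp at this
    linarith
  have hface := face_singleton hJ ha
  obtain ⟨R0, hR0, -⟩ := exists_cov_le hface (isFace_self lft J) (by
    rw [Finset.ssubset_iff_subset_ne]
    exact ⟨Finset.singleton_subset_iff.2 ha, fun h => ne_singleton hn hint a h.symm⟩)
  obtain ⟨b0, hb0, hb0a, hqa, -⟩ := hge R0 hR0
  -- the tangent functional
  let ψ : (Option (Fin n) → ℝ) →ₗ[ℝ] ℝ := mkf 1 (∑ i, a i • LinearMap.proj i)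
  have hψ : ∀ x, ψ (lft x) = 1 - qq a x := by
    intro x
    show mkf 1 (∑ i, a i • LinearMap.proj i) (lft x) = 1 - qq a x
    rw [mkf_lft]
    simp [qq]
  have hψa : ∀ i ∈ ({a} : Finset (Fin n → ℝ)), ψ (lft i) = 0 := by
    intro i hi
    rw [Finset.mem_singleton.1 hi, hψ, hqa, sub_self]
  have h1 := local_global hface hψa (fun R hR => by
    obtain ⟨b, hbR, hba, -, hqb⟩ := hge R hR
    exact ⟨b, hbR, fun h => hba (Finset.mem_singleton.1 h), by rw [hψ, hqb, sub_self]⟩)
  have h2 := local_global hface (ψ := -ψ) (fun i hi => by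
      rw [LinearMap.neg_apply, hψa i hi, neg_zero]) (fun R hR => by
    obtain ⟨b, hbR, hba, -, hqb⟩ := hge R hR
    exact ⟨b, hbR, fun h => hba (Finset.mem_singleton.1 h), by
      rw [LinearMap.neg_apply, hψ, hqb, sub_self, neg_zero]⟩)
  have h3 : ψ = 0 := phi_eq_zero hint (fun i hi => by
    have a1 := h1 i hi
    have a2 := h2 i hi
    rw [LinearMap.neg_apply] at a2
    linarith)
  have h4 := hψ 0
  rw [h3] at h4
  simp [qq] at h4

lemma isFace_scale {ι X : Type*} [AddCommGroup X] [Module ℝ X] {u v : ι → X} {c : ι → ℝ}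
    {J T : Finset ι} (hc : ∀ i ∈ J, 0 < c i) (hv : ∀ i ∈ J, v i = c i • u i) :
    IsFace v J T ↔ IsFace u J T := by
  unfold IsFace
  refine and_congr_right (fun hT => exists_congr (fun φ => ?_))
  refine and_congr (forall₂_congr fun i hi => ?_) (forall₂_congr fun i hi => ?_)
  · rw [hv i hi, map_smul, smul_eq_mul]
    exact mul_nonneg_iff_of_pos_left (hc i hi)
  · rw [hv i hi, map_smul, smul_eq_mul, mul_eq_zero]
    have := (hc i hi).ne'
    tauto

lemma isFace_comp {ι κ X : Type*} [AddCommGroup X] [Module ℝ X] [DecidableEq κ] {u : κ → X}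
    {f : ι → κ} {J T : Finset ι} (hf : Set.InjOn f J) (hT : T ⊆ J) :
    IsFace (u ∘ f) J T ↔ IsFace u (J.image f) (T.image f) := by
  unfold IsFace
  have e1 : T.image f ⊆ J.image f := Finset.image_subset_image hT
  simp only [hT, e1, true_and, Finset.forall_mem_image, Function.comp]
  refine exists_congr (fun φ => and_congr_right (fun _ => forall₂_congr fun i hi => ?_))
  have : f i ∈ T.image f ↔ i ∈ T := by
    rw [Finset.mem_image]
    constructor
    · rintro ⟨j, hj, hij⟩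
      rwa [← hf (hT hj) hi hij]
    · intro h; exact ⟨i, h, rfl⟩
  rw [this]

lemma scribed_comp {ι κ X : Type*} [AddCommGroup X] [Module ℝ X] [DecidableEq κ] {u : κ → X}
    {B : X →ₗ[ℝ] X →ₗ[ℝ] ℝ} {o : X}
    {f : ι → κ} {J : Finset ι} (hf : Set.InjOn f J) (h : Scribed B o u (J.image f)) :
    Scribed B o (u ∘ f) J where
  lor := h.lor
  span := by
    rw [← h.span]
    unfold sp
    rw [Set.image_comp, Finset.coe_image]
  fut := fun i hi => h.fut _ (Finset.mem_image_of_mem f hi)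
  unit := fun i hi => h.unit _ (Finset.mem_image_of_mem f hi)
  vert := fun i hi => by
    classical
    rw [isFace_comp hf (Finset.singleton_subset_iff.2 hi), Finset.image_singleton]
    exact h.vert _ (Finset.mem_image_of_mem f hi)
  edge := by
    classical
    intro T hT hcard i hi j hj hij
    have hTJ := hT.1
    have hT' := (isFace_comp hf hTJ).1 hT
    refine h.edge _ hT' ?_ (f i) (Finset.mem_image_of_mem f hi) (f j)
      (Finset.mem_image_of_mem f hj) (fun e => hij (hf (hTJ hi) (hTJ hj) e))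
    rw [Finset.card_image_of_injOn (hf.mono (by exact_mod_cast hTJ)), hcard]

/-- the diagonal matrix of the Lorentz form -/
def eta (n : ℕ) : Matrix (Option (Fin n)) (Option (Fin n)) ℝ :=
  Matrix.diagonal (fun i => Option.elim i (-1 : ℝ) (fun _ => (1 : ℝ)))

/-- the Lorentz form -/
noncomputable def LB (n : ℕ) : (Option (Fin n) → ℝ) →ₗ[ℝ] (Option (Fin n) → ℝ) →ₗ[ℝ] ℝ :=
  Matrix.toLinearMap₂' ℝ (eta n)

lemma LB_dot (x y : Option (Fin n) → ℝ) : LB n x y = x ⬝ᵥ (eta n *ᵥ y) := by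
  unfold LB
  rw [Matrix.toLinearMap₂'_apply']

lemma LB_apply (x y : Option (Fin n) → ℝ) :
    LB n x y = (∑ i, x (some i) * y (some i)) - x none * y none := by
  rw [LB_dot]
  unfold eta dotProduct
  rw [Fintype.sum_option]
  simp only [Matrix.mulVec_diagonal, Option.elim_none, Option.elim_some]
  have : ∑ i : Fin n, x (some i) * (1 * y (some i)) = ∑ i : Fin n, x (some i) * y (some i) :=
    Finset.sum_congr rfl (fun i _ => by ring)
  rw [this]; ring

lemma LB_lft (a b : Fin n → ℝ) : LB n (lft a) (lft b) = qq a b - 1 := by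
  rw [LB_apply]; simp [lft, qq]

lemma LB_e0 (x : Option (Fin n) → ℝ) : LB n e0 x = - x none := by
  rw [LB_apply]; simp [e0]

lemma lor_LB (n : ℕ) : Lor (LB n) (e0 : Option (Fin n) → ℝ) where
  symm x y := by
    rw [LB_apply, LB_apply, mul_comm (x none)]
    congr 1
    exact Finset.sum_congr rfl (fun i _ => mul_comm _ _)
  neg := by rw [LB_e0]; simp [e0]
  pos x hx hx0 := by
    rw [LB_e0] at hx
    have hn : x none = 0 := by linarith
    rw [LB_apply, hn, mul_zero, sub_zero]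
    have hne : ∃ i : Fin n, x (some i) ≠ 0 := by
      by_contra hcon
      push Not at hcon
      exact hx0 (by funext i; rcases i with _ | i; exacts [hn, hcon i])
    obtain ⟨i, hi⟩ := hne
    refine Finset.sum_pos' (fun j _ => mul_self_nonneg _) ⟨i, Finset.mem_univ _, ?_⟩
    exact mul_self_pos.2 hi

/-- normalisation factor -/
noncomputable def cc (a : Fin n → ℝ) : ℝ := (Real.sqrt (qq a a - 1))⁻¹

/-- normalised lift -/
noncomputable def uu (a : Fin n → ℝ) : Option (Fin n) → ℝ := cc a • lft a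

lemma cc_pos {a : Fin n → ℝ} (h : 0 < qq a a - 1) : 0 < cc a :=
  inv_pos.2 (Real.sqrt_pos.2 h)

lemma LB_uu (a b : Fin n → ℝ) : LB n (uu a) (uu b) = cc a * cc b * (qq a b - 1) := by
  unfold uu
  rw [map_smul, map_smul, LinearMap.smul_apply, LB_lft, smul_eq_mul, smul_eq_mul]
  ring

lemma LB_uu_self {a : Fin n → ℝ} (h : 0 < qq a a - 1) : LB n (uu a) (uu a) = 1 := by
  rw [LB_uu]
  unfold cc
  rw [← mul_inv, Real.mul_self_sqrt h.le, inv_mul_cancel₀ h.ne']

lemma isFace_uu {J T : Finset (Fin n → ℝ)} (h : ∀ a ∈ J, 0 < qq a a - 1) :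
    IsFace uu J T ↔ IsFace lft J T :=
  isFace_scale (c := cc) (fun i hi => cc_pos (h i hi)) (fun _ _ => rfl)

lemma scribed_uu (hn : 0 < n) {J : Finset (Fin n → ℝ)}
    (hJ : (J : Set (Fin n → ℝ)) ⊆ Set.extremePoints ℝ (convexHull ℝ (J : Set (Fin n → ℝ))))
    (hint : (interior (convexHull ℝ (J : Set (Fin n → ℝ)))).Nonempty) (hT : Tang J) :
    Scribed (LB n) e0 uu J := by
  classical
  have hpos : ∀ a ∈ J, 0 < qq a a - 1 := fun a ha => norm_gt_one hn hJ hint hT ha
  refine ⟨lor_LB n, ?_, ?_, ?_, ?_, ?_⟩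
  · rw [eq_top_iff, ← sp_top hint]
    refine sp_le (fun i hi => ?_)
    have h1 : lft i = (cc i)⁻¹ • uu i := by
      unfold uu
      rw [smul_smul, inv_mul_cancel₀ (cc_pos (hpos i hi)).ne', one_smul]
    rw [h1]
    exact Submodule.smul_mem _ _ (mem_sp hi)
  · intro i hi
    rw [LB_e0]
    have : uu i none = cc i := by simp [uu, lft_none]
    rw [this]
    have := cc_pos (hpos i hi)
    linarith
  · intro i hi; exact LB_uu_self (hpos i hi)
  · intro i hi
    rw [isFace_uu hpos]; exact face_singleton hJ hi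
  · intro T hTf hcard i hi j hj hij
    rw [isFace_uu hpos] at hTf
    have hTeq : T = {i, j} := by
      symm
      refine Finset.eq_of_subset_of_card_le ?_ ?_
      · intro x hx
        simp only [Finset.mem_insert, Finset.mem_singleton] at hx
        rcases hx with rfl | rfl <;> assumption
      · rw [hcard, Finset.card_pair hij]
    have hE := (isFace_iff_isExposed hJ hTf.1).1 hTf
    rw [hTeq, Finset.coe_pair, convexHull_pair] at hE
    have hiJ := hTf.1 hi
    have hjJ := hTf.1 hj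
    obtain ⟨h1, h2⟩ := edge_gram hT hiJ hjJ hij hE (hpos i hiJ) (hpos j hjJ)
    rw [LB_uu]
    have hA := hpos i hiJ
    have hC := hpos j hjJ
    have h3 : qq i j - 1 = -(Real.sqrt (qq i i - 1) * Real.sqrt (qq j j - 1)) := by
      rw [← Real.sqrt_mul hA.le, ← h2, Real.sqrt_sq_eq_abs, abs_of_neg h1, neg_neg]
    rw [h3]
    unfold cc
    have s1 := (Real.sqrt_pos.2 hA).ne'
    have s2 := (Real.sqrt_pos.2 hC).ne'
    field_simp

/-- A linear map realising an equality of Gram matrices. -/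
lemma exists_isometry {ι X : Type*} [AddCommGroup X] [Module ℝ X]
    {B : X →ₗ[ℝ] X →ₗ[ℝ] ℝ} {o : X} {u u' : ι → X} {J : Finset ι} (hB : Lor B o)
    (h1 : sp u J = ⊤) (h2 : sp u' J = ⊤)
    (hG : ∀ i ∈ J, ∀ j ∈ J, B (u i) (u j) = B (u' i) (u' j)) :
    ∃ A : X →ₗ[ℝ] X, (∀ i ∈ J, A (u i) = u' i) ∧ ∀ x y, B (A x) (A y) = B x y := by
  classical
  let Φ : (J → ℝ) →ₗ[ℝ] X := Fintype.linearCombination ℝ (fun i : J => u i)
  let Φ' : (J → ℝ) →ₗ[ℝ] X := Fintype.linearCombination ℝ (fun i : J => u' i)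
  have hΦ : ∀ w, Φ w = ∑ i : J, w i • u i := fun w => Fintype.linearCombination_apply ℝ _ _
  have hΦ' : ∀ w, Φ' w = ∑ i : J, w i • u' i := fun w => Fintype.linearCombination_apply ℝ _ _
  have hsurj : LinearMap.range Φ = ⊤ := by
    rw [show Φ = Fintype.linearCombination ℝ (fun i : J => u i) from rfl,
      Fintype.range_linearCombination, ← h1]
    unfold sp
    congr 1
    ext x; simp
  have hG2 : ∀ w w', B (Φ' w) (Φ' w') = B (Φ w) (Φ w') := by
    intro w w'
    rw [hΦ, hΦ, hΦ', hΦ']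
    simp only [map_sum, LinearMap.sum_apply, map_smul, LinearMap.smul_apply]
    refine Finset.sum_congr rfl (fun i _ => ?_)
    congr 1
    refine Finset.sum_congr rfl (fun j _ => ?_)
    rw [hG j j.2 i i.2]
  have hnd : ∀ x, (∀ y, B x y = 0) → x = 0 := by
    intro x hx
    by_contra hx0
    have h3 : B o x = 0 := by rw [hB.symm, hx]
    have := hB.pos x h3 hx0
    rw [hx] at this
    exact lt_irrefl _ this
  have hker : ∀ w, Φ w = 0 → Φ' w = 0 := by
    intro w hw
    refine hnd _ (fun y => ?_)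
    have hy : y ∈ sp u' J := by rw [h2]; trivial
    refine Submodule.span_induction (p := fun y _ => B (Φ' w) y = 0) ?_ ?_ ?_ ?_ hy
    · rintro _ ⟨j, hj, rfl⟩
      have hj' : j ∈ J := hj
      have h4 : Φ' (Pi.single ⟨j, hj'⟩ 1) = u' j := by
        rw [hΦ', Finset.sum_eq_single (⟨j, hj'⟩ : J)]
        · simp
        · intro b _ hb; simp [Pi.single_eq_of_ne hb]
        · intro h; exact absurd (Finset.mem_univ _) h
      rw [← h4, hG2, hw, map_zero, LinearMap.zero_apply]
    · exact (B (Φ' w)).map_zero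
    · intro a b _ _ ha hb; rw [map_add, ha, hb, add_zero]
    · intro c a _ ha; rw [map_smul, ha, smul_zero]
  obtain ⟨g, hg⟩ := LinearMap.exists_rightInverse_of_surjective Φ hsurj
  have hg' : ∀ x, Φ (g x) = x := fun x => LinearMap.congr_fun hg x
  have hA : ∀ w, Φ' (g (Φ w)) = Φ' w := by
    intro w
    have : Φ (g (Φ w) - w) = 0 := by rw [map_sub, hg', sub_self]
    have := hker _ this
    rwa [map_sub, sub_eq_zero] at this
  refine ⟨Φ' ∘ₗ g, fun i hi => ?_, fun x y => ?_⟩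
  · have h4 : Φ' (Pi.single ⟨i, hi⟩ 1) = u' i := by
      rw [hΦ', Finset.sum_eq_single (⟨i, hi⟩ : J)]
      · simp
      · intro b _ hb; simp [Pi.single_eq_of_ne hb]
      · intro h; exact absurd (Finset.mem_univ _) h
    have h5 : Φ (Pi.single ⟨i, hi⟩ 1) = u i := by
      rw [hΦ, Finset.sum_eq_single (⟨i, hi⟩ : J)]
      · simp
      · intro b _ hb; simp [Pi.single_eq_of_ne hb]
      · intro h; exact absurd (Finset.mem_univ _) h
    rw [LinearMap.comp_apply, ← h4, ← h5, hA]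
  · rw [LinearMap.comp_apply, LinearMap.comp_apply, hG2, hg', hg']

lemma matrix_of_isometry (A : (Option (Fin n) → ℝ) →ₗ[ℝ] (Option (Fin n) → ℝ))
    (hA : ∀ x y, LB n (A x) (A y) = LB n x y) :
    (LinearMap.toMatrix' A).transpose * eta n * (LinearMap.toMatrix' A) = eta n := by
  have h : ∀ x y : Option (Fin n) → ℝ, x ⬝ᵥ (((LinearMap.toMatrix' A).transpose * eta n *
      (LinearMap.toMatrix' A)) *ᵥ y) = x ⬝ᵥ (eta n *ᵥ y) := by
    intro x y
    rw [← LB_dot, ← hA, LB_dot, ← Matrix.mulVec_mulVec, ← Matrix.mulVec_mulVec,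
      LinearMap.toMatrix'_mulVec, Matrix.dotProduct_mulVec x, Matrix.vecMul_transpose,
      LinearMap.toMatrix'_mulVec]
  ext i j
  have := h (Pi.single i 1) (Pi.single j 1)
  simpa using this

/-- Image of the lift of a convex combination. -/
lemma lift_image {J J' : Finset (Fin n → ℝ)} {f : (Fin n → ℝ) → (Fin n → ℝ)}
    (hmap : J.image f = J') (hinj : Set.InjOn f J)
    {A : (Option (Fin n) → ℝ) →ₗ[ℝ] (Option (Fin n) → ℝ)} {k : (Fin n → ℝ) → ℝ}
    (hk : ∀ a ∈ J, 0 < k a) (hA : ∀ a ∈ J, A (lft a) = k a • lft (f a)) :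
    (∀ x ∈ convexHull ℝ (J : Set (Fin n → ℝ)), 0 < A (lft x) none) ∧
    (fun x : Fin n → ℝ => fun j : Fin n => A (lft x) (some j) / A (lft x) none) ''
      convexHull ℝ (J : Set (Fin n → ℝ)) = convexHull ℝ (J' : Set (Fin n → ℝ)) := by
  classical
  have hsum : ∀ w : (Fin n → ℝ) → ℝ, ∑ i ∈ J, w i = 1 →
      A (lft (∑ i ∈ J, w i • i)) = ∑ i ∈ J, (w i * k i) • lft (f i) := by
    intro w hw
    rw [lft_sum J w (fun i => i) hw, map_sum]
    refine Finset.sum_congr rfl (fun i hi => ?_)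
    rw [map_smul, hA i hi, smul_smul]
  have hnone : ∀ w : (Fin n → ℝ) → ℝ, ∑ i ∈ J, w i = 1 →
      A (lft (∑ i ∈ J, w i • i)) none = ∑ i ∈ J, w i * k i := by
    intro w hw
    rw [hsum w hw, Finset.sum_apply]
    refine Finset.sum_congr rfl (fun i hi => ?_)
    rw [Pi.smul_apply, lft_none, smul_eq_mul, mul_one]
  have hsome : ∀ w : (Fin n → ℝ) → ℝ, ∑ i ∈ J, w i = 1 → ∀ j,
      A (lft (∑ i ∈ J, w i • i)) (some j) = ∑ i ∈ J, w i * k i * f i j := by
    intro w hw j
    rw [hsum w hw, Finset.sum_apply]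
    refine Finset.sum_congr rfl (fun i hi => ?_)
    rw [Pi.smul_apply, lft_some, smul_eq_mul]
  have hpos : ∀ w : (Fin n → ℝ) → ℝ, (∀ i ∈ J, 0 ≤ w i) → ∑ i ∈ J, w i = 1 →
      0 < ∑ i ∈ J, w i * k i := by
    intro w hw0 hw1
    have hne : ∃ i ∈ J, w i ≠ 0 := by
      by_contra hcon
      push Not at hcon
      rw [Finset.sum_eq_zero hcon] at hw1
      exact zero_ne_one hw1
    obtain ⟨i, hi, hwi⟩ := hne
    refine Finset.sum_pos' (fun j hj => mul_nonneg (hw0 j hj) (hk j hj).le) ⟨i, hi, ?_⟩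
    exact mul_pos (lt_of_le_of_ne (hw0 i hi) (Ne.symm hwi)) (hk i hi)
  refine ⟨?_, ?_⟩
  · intro x hx
    obtain ⟨w, hw0, hw1, rfl⟩ := Finset.mem_convexHull'.1 hx
    rw [hnone w hw1]
    exact hpos w hw0 hw1
  · apply Set.Subset.antisymm
    · rintro _ ⟨x, hx, rfl⟩
      obtain ⟨w, hw0, hw1, rfl⟩ := Finset.mem_convexHull'.1 hx
      have hK := hpos w hw0 hw1
      set K := ∑ i ∈ J, w i * k i with hKdef
      have heq : (fun j : Fin n => A (lft (∑ i ∈ J, w i • i)) (some j) /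
          A (lft (∑ i ∈ J, w i • i)) none) = ∑ i ∈ J, (w i * k i / K) • f i := by
        funext j
        rw [hnone w hw1, hsome w hw1, ← hKdef, Finset.sum_apply, Finset.sum_div]
        refine Finset.sum_congr rfl (fun i _ => ?_)
        rw [Pi.smul_apply, smul_eq_mul]
        ring
      show (fun j : Fin n => A (lft (∑ i ∈ J, w i • i)) (some j) /
          A (lft (∑ i ∈ J, w i • i)) none) ∈ convexHull ℝ (J' : Set (Fin n → ℝ))
      rw [heq]
      refine (convex_convexHull ℝ _).sum_mem (fun i hi => ?_) ?_ (fun i hi => ?_)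
      · exact div_nonneg (mul_nonneg (hw0 i hi) (hk i hi).le) hK.le
      · rw [← Finset.sum_div, ← hKdef, div_self hK.ne']
      · refine subset_convexHull ℝ _ ?_
        rw [← hmap]
        exact_mod_cast Finset.mem_image_of_mem f hi
    · intro y hy
      rw [← hmap] at hy
      obtain ⟨w', hw0', hw1', rfl⟩ := Finset.mem_convexHull'.1 hy
      rw [Finset.sum_image (fun a ha b hb h => hinj ha hb h)] at hw1'
      have hw0 : ∀ i ∈ J, 0 ≤ w' (f i) := fun i hi => hw0' _ (Finset.mem_image_of_mem f hi)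
      rw [Finset.sum_image (fun a ha b hb h => hinj ha hb h)]
      have hK : 0 < ∑ i ∈ J, w' (f i) / k i := by
        have hne : ∃ i ∈ J, w' (f i) ≠ 0 := by
          by_contra hcon
          push Not at hcon
          rw [Finset.sum_eq_zero hcon] at hw1'
          exact zero_ne_one hw1'
        obtain ⟨i, hi, hwi⟩ := hne
        refine Finset.sum_pos' (fun j hj => div_nonneg (hw0 j hj) (hk j hj).le) ⟨i, hi, ?_⟩
        exact div_pos (lt_of_le_of_ne (hw0 i hi) (Ne.symm hwi)) (hk i hi)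
      set K := ∑ i ∈ J, w' (f i) / k i with hKdef
      have hw1 : ∑ i ∈ J, w' (f i) / k i / K = 1 := by
        rw [← Finset.sum_div, ← hKdef, div_self hK.ne']
      have hK2 : ∑ i ∈ J, w' (f i) / k i / K * k i = K⁻¹ := by
        have : ∑ i ∈ J, w' (f i) / k i / K * k i = ∑ i ∈ J, w' (f i) * K⁻¹ := by
          refine Finset.sum_congr rfl (fun i hi => ?_)
          have := (hk i hi).ne'
          field_simp
        rw [this, ← Finset.sum_mul, hw1', one_mul]
      refine ⟨∑ i ∈ J, (w' (f i) / k i / K) • i, ?_, ?_⟩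
      · refine (convex_convexHull ℝ _).sum_mem (fun i hi => ?_) hw1 (fun i hi => ?_)
        · exact div_nonneg (div_nonneg (hw0 i hi) (hk i hi).le) hK.le
        · exact subset_convexHull ℝ _ hi
      · funext j
        show A (lft (∑ i ∈ J, (w' (f i) / k i / K) • i)) (some j) /
          A (lft (∑ i ∈ J, (w' (f i) / k i / K) • i)) none = (∑ i ∈ J, w' (f i) • f i) j
        rw [hnone _ hw1, hsome _ hw1, hK2, Finset.sum_apply, div_inv_eq_mul, Finset.sum_mul]
        refine Finset.sum_congr rfl (fun i hi => ?_)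
        rw [Pi.smul_apply, smul_eq_mul]
        have := (hk i hi).ne'
        have := hK.ne'
        field_simp

theorem frozen_of_rigid (hR : ∀ n, 4 ≤ n → Rigid n) :
  ∀ d : ℕ, 2 ≤ d → ∀ V W : Finset (Fin (d+1) → ℝ),
    (interior (convexHull ℝ (V : Set (Fin (d+1) → ℝ)))).Nonempty →
    (interior (convexHull ℝ (W : Set (Fin (d+1) → ℝ)))).Nonempty →
    (∀ a ∈ V, ∀ b ∈ V, a ≠ b →
      IsExposed ℝ (convexHull ℝ (V : Set (Fin (d+1) → ℝ))) (segment ℝ a b) →
      ∃ p ∈ segment ℝ a b, ∑ i, p i ^ 2 = 1 ∧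
        ∀ t : ℝ, 1 ≤ ∑ i, (a i + t * (b i - a i)) ^ 2) →
    (∀ a ∈ W, ∀ b ∈ W, a ≠ b →
      IsExposed ℝ (convexHull ℝ (W : Set (Fin (d+1) → ℝ))) (segment ℝ a b) →
      ∃ p ∈ segment ℝ a b, ∑ i, p i ^ 2 = 1 ∧
        ∀ t : ℝ, 1 ≤ ∑ i, (a i + t * (b i - a i)) ^ 2) →
    (∃ f : (Fin (d+1) → ℝ) → (Fin (d+1) → ℝ),
      Set.BijOn f (Set.extremePoints ℝ (convexHull ℝ (V : Set (Fin (d+1) → ℝ))))
        (Set.extremePoints ℝ (convexHull ℝ (W : Set (Fin (d+1) → ℝ)))) ∧
      ∀ S ⊆ Set.extremePoints ℝ (convexHull ℝ (V : Set (Fin (d+1) → ℝ))),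
        (IsExposed ℝ (convexHull ℝ (V : Set (Fin (d+1) → ℝ))) (convexHull ℝ S) ↔
          IsExposed ℝ (convexHull ℝ (W : Set (Fin (d+1) → ℝ))) (convexHull ℝ (f '' S)))) →
    ∃ M : Matrix (Option (Fin (d+1))) (Option (Fin (d+1))) ℝ,
      M.transpose * Matrix.diagonal (fun i => Option.elim i (-1 : ℝ) (fun _ => (1 : ℝ))) * M
          = Matrix.diagonal (fun i => Option.elim i (-1 : ℝ) (fun _ => (1 : ℝ))) ∧
      (∀ x ∈ convexHull ℝ (V : Set (Fin (d+1) → ℝ)),
          (M *ᵥ (fun i => Option.elim i (1 : ℝ) x)) none ≠ 0) ∧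
      (fun x : Fin (d+1) → ℝ => fun j : Fin (d+1) =>
          (M *ᵥ (fun i => Option.elim i (1 : ℝ) x)) (some j) /
            (M *ᵥ (fun i => Option.elim i (1 : ℝ) x)) none)
        '' convexHull ℝ (V : Set (Fin (d+1) → ℝ))
        = convexHull ℝ (W : Set (Fin (d+1) → ℝ)) := by
  classical
  intro d hd V W hV hW htV htW ⟨f, hbij, hf⟩
  have hn : 0 < d + 1 := by omega
  set J := ext V with hJdef
  set J' := ext W with hJ'def
  have hJ := ext_extreme V
  have hJ' := ext_extreme W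
  have cV := hull_ext V
  have cW := hull_ext W
  rw [← coe_ext, ← coe_ext] at hbij
  rw [← coe_ext] at hf
  rw [← hJdef] at hJ cV hbij hf
  rw [← hJ'def] at hJ' cW hbij
  rw [← cV, ← cW] at hf
  rw [← cV] at hV
  rw [← cW] at hW
  have tV : Tang J := by
    intro a ha b hb hab hE
    rw [cV] at hE
    exact htV a (ext_subset V ha) b (ext_subset V hb) hab hE
  have tW : Tang J' := by
    intro a ha b hb hab hE
    rw [cW] at hE
    exact htW a (ext_subset W ha) b (ext_subset W hb) hab hE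
  have sV := scribed_uu hn hJ hV tV
  have sW := scribed_uu hn hJ' hW tW
  have himg : J.image f = J' := by
    have := hbij.image_eq
    exact_mod_cast this
  have hinj : Set.InjOn f (J : Set (Fin (d+1) → ℝ)) := hbij.injOn
  have pV : ∀ a ∈ J, 0 < qq a a - 1 := fun a ha => norm_gt_one hn hJ hV tV ha
  have pW : ∀ a ∈ J', 0 < qq a a - 1 := fun a ha => norm_gt_one hn hJ' hW tW ha
  have sW' : Scribed (LB (d+1)) e0 (uu ∘ f) J := by
    refine scribed_comp hinj ?_
    rw [himg]; exact sW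
  have hface : ∀ T, IsFace uu J T ↔ IsFace (uu ∘ f) J T := by
    intro T
    by_cases hT : T ⊆ J
    · have hT' : T.image f ⊆ J' := by rw [← himg]; exact Finset.image_subset_image hT
      rw [isFace_comp hinj hT, himg, isFace_uu pV, isFace_uu pW, isFace_iff_isExposed hJ hT,
        isFace_iff_isExposed hJ' hT', hf (T : Set (Fin (d+1) → ℝ)) (by exact_mod_cast hT),
        Finset.coe_image]
    · exact ⟨fun h => absurd h.1 hT, fun h => absurd h.1 hT⟩
  have hfr : finrank ℝ (Option (Fin (d+1)) → ℝ) = d + 2 := by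
    rw [Module.finrank_fintype_fun_eq_card]; simp
  have hgram := hR (d+2) (by omega) (Fin (d+1) → ℝ) (Option (Fin (d+1)) → ℝ)
    (Option (Fin (d+1)) → ℝ) (LB (d+1)) (LB (d+1)) e0 e0 uu (uu ∘ f) J hfr hfr sV sW' hface
  obtain ⟨A, hA1, hA2⟩ := exists_isometry (lor_LB (d+1)) sV.span sW'.span hgram
  have hk : ∀ a ∈ J, 0 < cc (f a) / cc a := by
    intro a ha
    have : f a ∈ J' := by rw [← himg]; exact Finset.mem_image_of_mem f ha
    exact div_pos (cc_pos (pW _ this)) (cc_pos (pV a ha))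
  have hAl : ∀ a ∈ J, A (lft a) = (cc (f a) / cc a) • lft (f a) := by
    intro a ha
    have h1 := hA1 a ha
    have hc := (cc_pos (pV a ha)).ne'
    simp only [uu, Function.comp, map_smul] at h1
    have h2 : A (lft a) = (cc a)⁻¹ • (cc a • A (lft a)) := by
      rw [smul_smul, inv_mul_cancel₀ hc, one_smul]
    rw [h2, h1, smul_smul]
    congr 1
    ring
  obtain ⟨r1, r2⟩ := lift_image himg hinj hk hAl
  have hM : ∀ x : Fin (d+1) → ℝ, LinearMap.toMatrix' A *ᵥ (fun i => Option.elim i (1 : ℝ) x)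
      = A (lft x) := fun x => by rw [LinearMap.toMatrix'_mulVec]; rfl
  refine ⟨LinearMap.toMatrix' A, matrix_of_isometry A hA2, ?_, ?_⟩
  · intro x hx
    rw [hM]
    rw [← cV] at hx
    exact (r1 x hx).ne'
  · simp only [hM]
    rw [← cV, ← cW]
    exact r2

end trans

end Pool.Agent.Work.MP_43c1cf_co
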