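import Pool.Agent.Work.MP_43c1cf_co.PolygonSign

/-!
# The sign lemma for convex polygons given by their side normals
-/

open Real Finset

namespace Pool.Agent.Work.MP_43c1cf_co

namespace PolygonSupport

/-- The cross product of two plane vectors. -/
def cr (u v : ℂ) : ℝ := u.re * v.im - u.im * v.re

/-- `a` is an argument of `u`. -/
def Dir (u : ℂ) (a : ℝ) : Prop := u = (‖u‖ : ℂ) * Complex.exp (a * Complex.I)

lemma Dir.re {u : ℂ} {a : ℝ} (h : Dir u a) : u.re = ‖u‖ * cos a := by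
  have := congrArg Complex.re h
  rw [Complex.re_ofReal_mul, Complex.exp_ofReal_mul_I_re] at this
  exact this

lemma Dir.im {u : ℂ} {a : ℝ} (h : Dir u a) : u.im = ‖u‖ * sin a := by
  have := congrArg Complex.im h
  rw [Complex.im_ofReal_mul, Complex.exp_ofReal_mul_I_im] at this
  exact this

lemma cr_polar {u v : ℂ} {a b : ℝ} (hu : Dir u a) (hv : Dir v b) :
    cr u v = ‖u‖ * ‖v‖ * sin (b - a) := by
  rw [cr, hu.re, hu.im, hv.re, hv.im, sin_sub]
  ring

lemma dot_polar {u v : ℂ} {a b : ℝ} (hu : Dir u a) (hv : Dir v b) :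
    u.re * v.re + u.im * v.im = ‖u‖ * ‖v‖ * cos (b - a) := by
  rw [hu.re, hu.im, hv.re, hv.im, cos_sub]
  ring

lemma between {u v : ℂ} {a b : ℝ} (hu : Dir u a) (hv : Dir v b) (h : 0 < cr u v)
    (h1 : -π < b - a) : a < b := by
  rw [cr_polar hu hv] at h
  by_contra hcon
  push Not at hcon
  have : sin (b - a) ≤ 0 := Real.sin_nonpos_of_nonpos_of_neg_pi_le (by linarith) h1.le
  have h3 : 0 ≤ ‖u‖ * ‖v‖ := by positivity
  nlinarith [mul_nonneg h3 (neg_nonneg.2 this)]

lemma Dir.neg {u : ℂ} {a : ℝ} (h : Dir u a) : Dir (-u) (a + π) := by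
  unfold Dir at *
  rw [norm_neg]
  push_cast
  rw [add_mul, Complex.exp_add, Complex.exp_pi_mul_I]
  rw [mul_neg, mul_neg, mul_one, ← h]

lemma dir_arg (u : ℂ) : Dir u u.arg := (Complex.norm_mul_exp_arg_mul_I u).symm

/-- A vector on the left of `u` has an argument in `(a, a + π)`. -/
lemma exists_dir {u v : ℂ} {a : ℝ} (hu : Dir u a) (h : 0 < cr u v) :
    ∃ b, Dir v b ∧ a < b ∧ b < a + π := by
  have hu0 : u ≠ 0 := by rintro rfl; simp [cr] at h
  have hn : 0 < ‖u‖ := norm_pos_iff.2 hu0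
  have hn2 : 0 < Complex.normSq u := Complex.normSq_pos.2 hu0
  have him : 0 < (v / u).im := by
    have : (v / u).im = cr u v / Complex.normSq u := by
      rw [Complex.div_im, cr]; ring
    rw [this]; exact div_pos h hn2
  have h0 : 0 < (v / u).arg := by
    refine lt_of_le_of_ne (Complex.arg_nonneg_iff.2 him.le) fun hh => ?_
    exact him.ne' (Complex.arg_eq_zero_iff.1 hh.symm).2
  have h1 : (v / u).arg < π := Complex.arg_lt_pi_iff.2 (Or.inr him.ne')
  refine ⟨a + (v / u).arg, ?_, by linarith, by linarith⟩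
  have h2 := dir_arg (v / u)
  unfold Dir at *
  rw [norm_div, Complex.ofReal_div] at h2
  have hun : (‖u‖ : ℂ) ≠ 0 := by exact_mod_cast hn.ne'
  calc v = (v / u) * u := by field_simp
    _ = ((‖v‖ : ℂ) / (‖u‖ : ℂ) * Complex.exp ((v / u).arg * Complex.I)) *
        ((‖u‖ : ℂ) * Complex.exp (a * Complex.I)) := by rw [← h2, ← hu]
    _ = (‖v‖ : ℂ) * (Complex.exp (a * Complex.I) * Complex.exp ((v / u).arg * Complex.I)) := by
        field_simp
    _ = (‖v‖ : ℂ) * Complex.exp ((a + (v / u).arg : ℝ) * Complex.I) := by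
        rw [← Complex.exp_add]
        push_cast
        rw [add_mul]

/-- The directions of the sides of a convex polygon. -/
lemma exists_phi {k : ℕ} (hk : 3 ≤ k) (z : ℕ → ℂ) (hz : z k = z 0)
    (hD : ∀ i < k, ∀ j < k, j ≠ i → j ≠ i + 1 → ¬ (i = k - 1 ∧ j = 0) →
      0 < cr (z (i + 1) - z i) (z j - z i)) :
    ∃ φ : ℕ → ℝ, (∀ j, j + 1 < k → φ j < φ (j + 1)) ∧ φ (k - 1) < φ 0 + 2 * π ∧
      ∀ j < k, Dir (z (j + 1) - z j) (φ j) := by
  set A : ℝ := (z 1 - z 0).arg with hA
  have hdA : Dir (z 1 - z 0) A := dir_arg _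
  -- directions of the diagonals from `z 0`
  have ha : ∀ j, ∃ a : ℝ, (j = 1 → a = A) ∧ (1 ≤ j → j < k → Dir (z j - z 0) a ∧ A ≤ a ∧ a < A + π) ∧
      (2 ≤ j → j < k → A < a) := by
    intro j
    rcases Nat.lt_trichotomy j 1 with h | h | h
    · exact ⟨0, by omega, by omega, by omega⟩
    · subst h
      refine ⟨A, fun _ => rfl, fun _ _ => ⟨hdA, le_rfl, by linarith [pi_pos]⟩, by omega⟩
    · by_cases hjk : j < k
      · obtain ⟨b, hb, h1, h2⟩ := exists_dir hdA (v := z j - z 0)
          (hD 0 (by omega) j hjk (by omega) (by omega) (by omega))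
        exact ⟨b, by omega, fun _ _ => ⟨hb, h1.le, h2⟩, fun _ _ => h1⟩
      · exact ⟨0, by omega, by omega, by omega⟩
  choose a ha1 ha2 ha3 using ha
  have hw : ∀ j, 1 ≤ j → j + 1 < k → 0 < cr (z j - z 0) (z (j + 1) - z 0) := by
    intro j h1 h2
    have := hD j (by omega) 0 (by omega) (by omega) (by omega) (by omega)
    have e : cr (z j - z 0) (z (j + 1) - z 0) = cr (z (j + 1) - z j) (z 0 - z j) := by
      simp only [cr, Complex.sub_re, Complex.sub_im]; ring
    rw [e]; exact this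
  have hmono : ∀ j, 1 ≤ j → j + 1 < k → a j < a (j + 1) := by
    intro j h1 h2
    have p1 := ha2 j h1 (by omega)
    have p2 := ha2 (j + 1) (by omega) h2
    exact between p1.1 p2.1 (hw j h1 h2) (by linarith [p1.2.2, p2.2.1])
  -- directions of the sides
  have hφ : ∀ j, ∃ φ : ℝ, (j < k → Dir (z (j + 1) - z j) φ) ∧ (j = 0 → φ = A) ∧
      (1 ≤ j → j + 1 < k → a (j + 1) < φ ∧ φ < a j + π) ∧ (j + 1 = k → φ = a (k - 1) + π) := by
    intro j
    rcases Nat.eq_zero_or_pos j with h | h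
    · subst h
      exact ⟨A, fun _ => hdA, fun _ => rfl, by omega, by omega⟩
    · rcases Nat.lt_trichotomy (j + 1) k with h2 | h2 | h2
      · have p1 := ha2 j h (by omega)
        have p2 := ha2 (j + 1) (by omega) h2
        have c1 : 0 < cr (z (j + 1) - z 0) (z (j + 1) - z j) := by
          have := hw j h h2
          have e : cr (z (j + 1) - z 0) (z (j + 1) - z j) = cr (z j - z 0) (z (j + 1) - z 0) := by
            simp only [cr, Complex.sub_re, Complex.sub_im]; ring
          rw [e]; exact this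
        obtain ⟨b, hb, q1, q2⟩ := exists_dir p2.1 c1
        refine ⟨b, fun _ => hb, by omega, fun _ _ => ⟨q1, ?_⟩, by omega⟩
        have c2 : 0 < cr (z (j + 1) - z j) (-(z j - z 0)) := by
          have := hw j h h2
          have e : cr (z (j + 1) - z j) (-(z j - z 0)) = cr (z j - z 0) (z (j + 1) - z 0) := by
            simp only [cr, Complex.sub_re, Complex.sub_im, Complex.neg_re, Complex.neg_im]; ring
          rw [e]; exact this
        have hj := hmono j h h2
        have p3 := p1.2.1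
        have p4 := p2.2.2
        exact between hb p1.1.neg c2 (by linarith)
      · refine ⟨a (k - 1) + π, fun _ => ?_, by omega, by omega, fun _ => rfl⟩
        have p1 := ha2 (k - 1) (by omega) (by omega)
        have := p1.1.neg
        have e : z (j + 1) - z j = -(z (k - 1) - z 0) := by
          have : j = k - 1 := by omega
          rw [h2, hz, this]; ring
        rw [e]; exact this
      · exact ⟨0, by omega, by omega, by omega, by omega⟩
  choose φ hφ1 hφ2 hφ3 hφ4 using hφ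
  refine ⟨φ, ?_, ?_, fun j hj => hφ1 j hj⟩
  · intro j hj
    rcases Nat.eq_zero_or_pos j with h | h
    · subst h
      have q := hφ3 1 (by omega) (by omega)
      have m := hmono 1 (by omega) (by omega)
      rw [hφ2 0 rfl, ← ha1 1 rfl]
      simp only [zero_add]
      exact m.trans q.1
    · have q := hφ3 j h hj
      rcases Nat.lt_or_ge (j + 2) k with h2 | h2
      · have q' := hφ3 (j + 1) (by omega) h2
        have m := hmono j h hj
        have m' := hmono (j + 1) (by omega) h2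
        have c : 0 < cr (z (j + 1) - z j) (z (j + 1 + 1) - z (j + 1)) := by
          have := hD j (by omega) (j + 1 + 1) (by omega) (by omega) (by omega) (by omega)
          have e : cr (z (j + 1) - z j) (z (j + 1 + 1) - z (j + 1)) =
              cr (z (j + 1) - z j) (z (j + 1 + 1) - z j) := by
            simp only [cr, Complex.sub_re, Complex.sub_im]; ring
          rw [e]; exact this
        exact between (hφ1 j (by omega)) (hφ1 (j + 1) (by omega)) c (by linarith [q.2, q'.1])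
      · have h3 : j + 1 + 1 = k := by omega
        rw [hφ4 (j + 1) h3]
        have m := hmono j h hj
        have e : k - 1 = j + 1 := by omega
        rw [e]
        linarith [q.2]
  · rw [hφ4 (k - 1) (by omega), hφ2 0 rfl]
    have := (ha2 (k - 1) (by omega) (by omega)).2.2
    linarith

/-- A plane vector as a complex number, possibly reflected. -/
def Z (ε : ℝ) (u : Fin 2 → ℝ) : ℂ := ⟨u 0, ε * u 1⟩

lemma dot2 (u v : Fin 2 → ℝ) : u ⬝ᵥ v = u 0 * v 0 + u 1 * v 1 := by
  simp [dotProduct, Fin.sum_univ_two]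

/-- The directions of the sides of a convex polygon given by its side normals. -/
lemma exists_directions {k : ℕ} [NeZero k] (hk : 3 ≤ k) (q ν : Fin k → Fin 2 → ℝ) (α : Fin k → ℝ)
    (hν : ∀ i, ν i ⬝ᵥ ν i = 1)
    (h0 : ∀ i, ν i ⬝ᵥ q i = α i) (h1 : ∀ i, ν i ⬝ᵥ q (i + 1) = α i)
    (hlt : ∀ i j, j ≠ i → j ≠ i + 1 → ν i ⬝ᵥ q j < α i) :
    (∀ i, 0 < Real.sqrt ((q (i+1) - q i) ⬝ᵥ (q (i+1) - q i))) ∧
    ∃ φ : Fin k → ℝ, StrictMono φ ∧ φ ⟨k - 1, by omega⟩ < φ ⟨0, by omega⟩ + 2 * π ∧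
      ∑ i, ((Real.sqrt ((q (i+1) - q i) ⬝ᵥ (q (i+1) - q i)) : ℝ) : ℂ) *
        Complex.exp (φ i * Complex.I) = 0 ∧
      ∀ i, cos (extAngle hk φ i) = ν (i - 1) ⬝ᵥ ν i := by
  have one_val : ((1 : Fin k) : ℕ) = 1 := by
    rw [Fin.val_one', Nat.mod_eq_of_lt (by omega)]
  have succ_ne : ∀ i : Fin k, i ≠ i + 1 := by
    intro i h
    have : (1 : Fin k) = 0 := by simpa using h.symm
    have := congrArg Fin.val this
    rw [one_val] at this
    simp at this
  have succ2_ne : ∀ i : Fin k, i ≠ i + 1 + 1 := by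
    intro i h
    rw [add_assoc] at h
    have : (1 + 1 : Fin k) = 0 := by simpa using h.symm
    have := congrArg Fin.val this
    rw [Fin.val_add, one_val, Nat.mod_eq_of_lt (by omega)] at this
    simp at this
  have C_val : ∀ n : ℕ, ((Fin.ofNat k n : Fin k) : ℕ) = n % k := fun n => rfl
  have C_self : ∀ i : Fin k, Fin.ofNat k (i : ℕ) = i := fun i =>
    Fin.ext (Nat.mod_eq_of_lt i.2)
  have C_succ : ∀ n : ℕ, Fin.ofNat k (n + 1) = Fin.ofNat k n + 1 := fun n =>
    Fin.ext (by rw [C_val, Fin.val_add, C_val, one_val, Nat.mod_add_mod])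
  -- the scalars `t i` with `q (i+1) - q i = t i • J (ν i)`
  set t : Fin k → ℝ := fun i => ν i 0 * (q (i + 1) 1 - q i 1) - ν i 1 * (q (i + 1) 0 - q i 0)
    with ht
  have e0 : ∀ i, q (i + 1) 0 - q i 0 = - t i * ν i 1 := by
    intro i
    have a1 := h0 i
    have a2 := h1 i
    have a3 := hν i
    rw [dot2] at a1 a2 a3
    have a4 : ν i 0 * (q (i+1) 0 - q i 0) + ν i 1 * (q (i+1) 1 - q i 1) = 0 := by linarith
    simp only [ht]
    linear_combination (q (i+1) 0 - q i 0) * (-a3) + ν i 0 * a4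
  have e1 : ∀ i, q (i + 1) 1 - q i 1 = t i * ν i 0 := by
    intro i
    have a1 := h0 i
    have a2 := h1 i
    have a3 := hν i
    rw [dot2] at a1 a2 a3
    have a4 : ν i 0 * (q (i+1) 0 - q i 0) + ν i 1 * (q (i+1) 1 - q i 1) = 0 := by linarith
    simp only [ht]
    linear_combination (q (i+1) 1 - q i 1) * (-a3) + ν i 1 * a4
  have hD : ∀ i j, (q (i + 1) 0 - q i 0) * (q j 1 - q i 1) - (q (i + 1) 1 - q i 1) * (q j 0 - q i 0)
      = t i * (α i - ν i ⬝ᵥ q j) := by
    intro i j
    rw [e0, e1, ← h0 i, dot2, dot2]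
    ring
  have ht0 : ∀ i, t i ≠ 0 := by
    intro i h
    have a0 := e0 i
    have a1 := e1 i
    rw [h] at a0 a1
    have b := hlt (i + 1) i (succ_ne i) (succ2_ne i)
    have b' := h0 (i + 1)
    rw [dot2] at b b'
    have c0 : q (i + 1) 0 = q i 0 := by linarith
    have c1 : q (i + 1) 1 = q i 1 := by linarith
    rw [c0, c1] at b'
    linarith
  have hstep : ∀ i, 0 < t i * t (i + 1) := by
    intro i
    have a1 := hD i (i + 1 + 1)
    have a2 := hD (i + 1) i
    have b1 : 0 < α i - ν i ⬝ᵥ q (i + 1 + 1) := by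
      have := hlt i (i + 1 + 1) (succ2_ne i).symm (succ_ne (i + 1)).symm
      linarith
    have b2 : 0 < α (i + 1) - ν (i + 1) ⬝ᵥ q i := by
      have := hlt (i + 1) i (succ_ne i) (succ2_ne i)
      linarith
    have e : t i * (α i - ν i ⬝ᵥ q (i + 1 + 1)) = t (i + 1) * (α (i + 1) - ν (i + 1) ⬝ᵥ q i) := by
      rw [← a1, ← a2]; ring
    have hsq : 0 < t i * t i * (α i - ν i ⬝ᵥ q (i + 1 + 1)) :=
      mul_pos (mul_self_pos.2 (ht0 i)) b1
    have : 0 < t i * t (i + 1) * (α (i + 1) - ν (i + 1) ⬝ᵥ q i) := by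
      calc 0 < t i * t i * (α i - ν i ⬝ᵥ q (i + 1 + 1)) := hsq
        _ = _ := by rw [mul_assoc, e]; ring
    exact (pos_iff_pos_of_mul_pos (by linarith : 0 < t i * t (i + 1) * (α (i + 1) - ν (i + 1) ⬝ᵥ q i))).2 b2
  -- the common sign
  obtain ⟨ε, hε, hεt⟩ : ∃ ε : ℝ, ε * ε = 1 ∧ ∀ i, 0 < ε * t i := by
    have key : ∀ ε : ℝ, 0 < ε * t 0 → ∀ i, 0 < ε * t i := by
      intro ε h
      have : ∀ n : ℕ, 0 < ε * t (Fin.ofNat k n) := by
        intro n
        induction n with
        | zero =>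
          have e : Fin.ofNat k 0 = 0 := C_self 0
          rw [e]; exact h
        | succ n ih =>
          have s := hstep (Fin.ofNat k n)
          rw [C_succ]
          have : 0 < (ε * t (Fin.ofNat k n)) * (ε * t (Fin.ofNat k n + 1)) := by
            have he : ε ≠ 0 := by rintro rfl; simp at ih
            have : 0 < ε * ε := mul_self_pos.2 he
            nlinarith [mul_pos this s]
          exact (pos_iff_pos_of_mul_pos this).1 ih
      intro i
      have := this i
      rwa [C_self] at this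
    rcases lt_or_gt_of_ne (ht0 0) with h | h
    · exact ⟨-1, by norm_num, key _ (by linarith)⟩
    · exact ⟨1, by norm_num, key _ (by linarith)⟩
  set z : ℕ → ℂ := fun n => Z ε (q (Fin.ofNat k n)) with hzdef
  have hz : z k = z 0 := by
    have e : Fin.ofNat k k = Fin.ofNat k 0 := Fin.ext (by rw [C_val, C_val]; simp)
    simp only [hzdef, e]
  have hnorm : ∀ i : Fin k, Real.sqrt ((q (i+1) - q i) ⬝ᵥ (q (i+1) - q i)) =
      ‖Z ε (q (i + 1)) - Z ε (q i)‖ := by
    intro i
    rw [Complex.norm_def, Complex.normSq_apply, dot2]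
    congr 1
    simp only [Z, Pi.sub_apply, Complex.sub_re, Complex.sub_im]
    linear_combination (-(q (i+1) 1 - q i 1) ^ 2) * hε
  have hlen : ∀ i : Fin k, Real.sqrt ((q (i+1) - q i) ⬝ᵥ (q (i+1) - q i)) = ε * t i := by
    intro i
    have a3 := hν i
    rw [dot2] at a3
    have : (q (i+1) - q i) ⬝ᵥ (q (i+1) - q i) = (ε * t i) ^ 2 := by
      rw [dot2]
      simp only [Pi.sub_apply, e0, e1]
      linear_combination (t i ^ 2) * a3 - (t i ^ 2) * hε
    rw [this]
    exact Real.sqrt_sq (hεt i).le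
  have hDz : ∀ i < k, ∀ j < k, j ≠ i → j ≠ i + 1 → ¬ (i = k - 1 ∧ j = 0) →
      0 < cr (z (i + 1) - z i) (z j - z i) := by
    intro i hi j hj hji hji1 hlast
    have e := C_succ i
    have vi : ((Fin.ofNat k i : Fin k) : ℕ) = i := by rw [C_val, Nat.mod_eq_of_lt hi]
    have vj : ((Fin.ofNat k j : Fin k) : ℕ) = j := by rw [C_val, Nat.mod_eq_of_lt hj]
    have n1 : Fin.ofNat k j ≠ Fin.ofNat k i := by
      intro h
      have := congrArg Fin.val h
      rw [vi, vj] at this
      exact hji this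
    have n2 : Fin.ofNat k j ≠ Fin.ofNat k i + 1 := by
      intro h
      have := congrArg Fin.val h
      rw [Fin.val_add, vi, vj, one_val] at this
      rcases Nat.lt_or_ge (i + 1) k with h2 | h2
      · rw [Nat.mod_eq_of_lt h2] at this
        exact hji1 this
      · have h3 : i + 1 = k := by omega
        rw [h3, Nat.mod_self] at this
        exact hlast ⟨by omega, this⟩
    have c := hlt _ _ n1 n2
    have d := hD (Fin.ofNat k i) (Fin.ofNat k j)
    have : cr (z (i + 1) - z i) (z j - z i) = (ε * t (Fin.ofNat k i)) *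
        (α (Fin.ofNat k i) - ν (Fin.ofNat k i) ⬝ᵥ q (Fin.ofNat k j)) := by
      rw [mul_assoc, ← d]
      simp only [hzdef, cr, Z, Complex.sub_re, Complex.sub_im, e]
      ring
    rw [this]
    exact mul_pos (hεt _) (by linarith)
  obtain ⟨φ, hφ1, hφ2, hφ3⟩ := exists_phi hk z hz hDz
  have hdir : ∀ i : Fin k, Dir (Z ε (q (i + 1)) - Z ε (q i)) (φ i) := by
    intro i
    have := hφ3 i i.2
    simp only [hzdef] at this
    rw [C_succ, C_self] at this
    exact this
  refine ⟨fun i => by rw [hlen]; exact hεt i, fun i => φ i, ?_, ?_, ?_, ?_⟩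
  · intro i j hij
    have hmono : ∀ n : ℕ, ∀ m : ℕ, m < n → n < k → φ m < φ n := by
      intro n
      induction n with
      | zero => intro m h; omega
      | succ n ih =>
        intro m hm hn
        rcases Nat.lt_succ_iff_lt_or_eq.1 hm with h | h
        · exact (ih m h (by omega)).trans (hφ1 n hn)
        · rw [h]; exact hφ1 n hn
    exact hmono j i hij j.2
  · exact hφ2
  · have : ∀ i : Fin k, ((Real.sqrt ((q (i+1) - q i) ⬝ᵥ (q (i+1) - q i)) : ℝ) : ℂ) *
        Complex.exp (φ i * Complex.I) = Z ε (q (i + 1)) - Z ε (q i) := by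
      intro i
      rw [hnorm]
      exact (hdir i).symm
    rw [Finset.sum_congr rfl fun i _ => this i, Finset.sum_sub_distrib]
    rw [sub_eq_zero]
    exact Equiv.sum_comp (Equiv.addRight (1 : Fin k)) (fun i => Z ε (q i))
  · -- the angles
    have hcos : ∀ i : Fin k, cos (φ i - φ (i - 1 : Fin k)) = ν (i - 1) ⬝ᵥ ν i := by
      intro i
      have d1 := hdir (i - 1)
      have d2 := hdir i
      have p := dot_polar d1 d2
      rw [← hnorm, ← hnorm, hlen, hlen, sub_add_cancel] at p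
      have g0 := e0 i
      have g1 := e1 i
      have g0' := e0 (i - 1)
      have g1' := e1 (i - 1)
      rw [sub_add_cancel] at g0' g1'
      simp only [Z, Complex.sub_re, Complex.sub_im] at p
      have p2 : (ε * t (i - 1)) * (ε * t i) * (ν (i - 1) ⬝ᵥ ν i) =
          (ε * t (i - 1)) * (ε * t i) * cos (φ i - φ (i - 1 : Fin k)) := by
        rw [← p, dot2, ← mul_sub, ← mul_sub, g0, g1, g0', g1']
        linear_combination (t (i - 1) * t i * (ν (i-1) 1 * ν i 1)) * hε
      have hne : (ε * t (i - 1)) * (ε * t i) ≠ 0 := (mul_pos (hεt _) (hεt _)).ne'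
      exact (mul_left_cancel₀ hne p2).symm
    intro i
    rw [← hcos i]
    unfold extAngle
    split_ifs with h
    · have hi : i = 0 := Fin.ext (by rw [h]; simp)
      have hv : ((i - 1 : Fin k) : ℕ) = k - 1 := by
        rw [hi, Fin.val_sub, one_val]
        simp
      rw [hv, h]
      have : φ 0 + 2 * π - φ (k - 1) = (φ 0 - φ (k - 1)) + 2 * π := by ring
      simp only
      rw [this, cos_add_two_pi]
    · have hv : ((i - 1 : Fin k) : ℕ) = i - 1 := by
        have hi := i.2
        rw [Fin.val_sub, one_val]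
        have : k - 1 + (i : ℕ) = (i - 1) + k := by omega
        rw [this, Nat.add_mod_right, Nat.mod_eq_of_lt (by omega)]
      rw [hv]

end PolygonSupport

open PolygonSupport in
/-- **The sign lemma for convex polygons given by their side normals.** -/
theorem polygon_support_sign {k : ℕ} [NeZero k] (hk : 3 ≤ k) (q q' ν ν' : Fin k → Fin 2 → ℝ)
    (α α' : Fin k → ℝ)
    (hν : ∀ i, ν i ⬝ᵥ ν i = 1) (hν' : ∀ i, ν' i ⬝ᵥ ν' i = 1)
    (h0 : ∀ i, ν i ⬝ᵥ q i = α i) (h0' : ∀ i, ν' i ⬝ᵥ q' i = α' i)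
    (h1 : ∀ i, ν i ⬝ᵥ q (i + 1) = α i) (h1' : ∀ i, ν' i ⬝ᵥ q' (i + 1) = α' i)
    (hlt : ∀ i j, j ≠ i → j ≠ i + 1 → ν i ⬝ᵥ q j < α i)
    (hlt' : ∀ i j, j ≠ i → j ≠ i + 1 → ν' i ⬝ᵥ q' j < α' i)
    (hl : ∀ i, (q (i+1) - q i) ⬝ᵥ (q (i+1) - q i) = (q' (i+1) - q' i) ⬝ᵥ (q' (i+1) - q' i))
    (s : Fin k → SignType) (hs : ∀ i, s i = SignType.sign (ν' (i-1) ⬝ᵥ ν' i - ν (i-1) ⬝ᵥ ν i))
    (halt : ¬ ∃ a b c d : Fin k, a < b ∧ b < c ∧ c < d ∧
      ((s a = 1 ∧ s b = -1 ∧ s c = 1 ∧ s d = -1) ∨ (s a = -1 ∧ s b = 1 ∧ s c = -1 ∧ s d = 1))) :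
    ∀ i, s i = 0 := by
  obtain ⟨hpos, φ, m, t, z, c⟩ := exists_directions hk q ν α hν h0 h1 hlt
  obtain ⟨-, φ', m', t', z', c'⟩ := exists_directions hk q' ν' α' hν' h0' h1' hlt'
  have key := polygon_sign (s := s) hk hpos m m' t t' z (by simpa only [hl] using z')
    (fun i => by rw [c, c']; exact hs i) halt
  intro i
  rw [hs i, ← c, ← c', key i, sub_self, _root_.sign_zero]

end Pool.Agent.Work.MP_43c1cf_co
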