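import Mathlib

/-!
# The spherical arm lemma

Convex chains of unit vectors in `ℝ ^ 3`, following Cauchy's induction.
-/

set_option autoImplicit false

namespace Pool.Agent.SphereSign

open Real

/-- Dot product of vectors in `ℝ ^ 3`. -/
def dt (x y : Fin 3 → ℝ) : ℝ := x 0 * y 0 + x 1 * y 1 + x 2 * y 2

/-- Triple product (determinant) of vectors in `ℝ ^ 3`. -/
def tp (x y z : Fin 3 → ℝ) : ℝ :=
  x 0 * (y 1 * z 2 - y 2 * z 1) - x 1 * (y 0 * z 2 - y 2 * z 0) + x 2 * (y 0 * z 1 - y 1 * z 0)

/-- Rotation of the vector `z` about the unit vector `b`. -/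
noncomputable def rot (b z : Fin 3 → ℝ) (t : ℝ) : Fin 3 → ℝ :=
  ![dt b z * b 0 + cos t * (z 0 - dt b z * b 0) + sin t * (z 1 * b 2 - z 2 * b 1),
    dt b z * b 1 + cos t * (z 1 - dt b z * b 1) + sin t * (z 2 * b 0 - z 0 * b 2),
    dt b z * b 2 + cos t * (z 2 - dt b z * b 2) + sin t * (z 0 * b 1 - z 1 * b 0)]

theorem dt_comm (x y : Fin 3 → ℝ) : dt x y = dt y x := by
  simp only [dt]; ring

/-- The three term relation. -/
theorem plucker (a b c d e : Fin 3 → ℝ) :
    tp a b c * tp a d e - tp a b d * tp a c e + tp a b e * tp a c d = 0 := by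
  simp only [tp]; ring

theorem tp_rot (a b c : Fin 3 → ℝ) : tp a b c = tp b c a := by
  simp only [tp]; ring

theorem tp_swap (a b c : Fin 3 → ℝ) : tp a b c = - tp b a c := by
  simp only [tp]; ring

theorem tp_swap' (a b c : Fin 3 → ℝ) : tp a b c = - tp a c b := by
  simp only [tp]; ring

/-- The Gram determinant of three vectors. -/
theorem gram_det (a b c : Fin 3 → ℝ) (hb : dt b b = 1) :
    (dt a c - dt a b * dt b c) ^ 2 + tp a b c ^ 2 =
      (dt a a - dt a b ^ 2) * (dt c c - dt b c ^ 2) := by
  have h : (dt b b * dt a c - dt a b * dt b c) ^ 2 + dt b b * tp a b c ^ 2 =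
      (dt b b * dt a a - dt a b ^ 2) * (dt b b * dt c c - dt b c ^ 2) := by
    simp only [dt, tp]; ring
  rw [hb] at h
  linarith [h]

theorem one_sub_sq_nonneg (b z : Fin 3 → ℝ) (hb : dt b b = 1) (hz : dt z z = 1) :
    0 ≤ 1 - dt b z ^ 2 := by
  have h7 : 1 - dt b z ^ 2 = (b 1 * z 2 - b 2 * z 1) ^ 2 + (b 2 * z 0 - b 0 * z 2) ^ 2 +
      (b 0 * z 1 - b 1 * z 0) ^ 2 := by
    have : (b 1 * z 2 - b 2 * z 1) ^ 2 + (b 2 * z 0 - b 0 * z 2) ^ 2 +
      (b 0 * z 1 - b 1 * z 0) ^ 2 = dt b b * dt z z - dt b z ^ 2 := by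
      simp only [dt]; ring
    rw [this, hb, hz]; ring
  rw [h7]; positivity

theorem one_sub_sq_pos (a b z : Fin 3 → ℝ) (hb : dt b b = 1) (hz : dt z z = 1)
    (h : tp a b z ≠ 0) : 0 < 1 - dt b z ^ 2 := by
  have h1 := gram_det a b z hb
  rw [hz] at h1
  rcases lt_or_eq_of_le (one_sub_sq_nonneg b z hb hz) with h2 | h2
  · exact h2
  · exfalso
    rw [← h2, mul_zero] at h1
    have : 0 < tp a b z ^ 2 := by positivity
    nlinarith [sq_nonneg (dt a z - dt a b * dt b z)]

/-! ### The rotation -/

theorem rot_zero (b z : Fin 3 → ℝ) : rot b z 0 = z := by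
  funext i
  fin_cases i <;> simp [rot]

theorem dt_rot_self (b z : Fin 3 → ℝ) (t : ℝ) (hb : dt b b = 1) : dt b (rot b z t) = dt b z := by
  have h : dt b (rot b z t) = dt b z * dt b b + cos t * (dt b z - dt b z * dt b b) := by
    simp only [dt, rot, Matrix.cons_val_zero, Matrix.cons_val_one, Matrix.cons_val]
    ring
  rw [h, hb]; ring

/-- Products with the rotating vector. -/
theorem dt_rot (a b z : Fin 3 → ℝ) (t : ℝ) :
    dt a (rot b z t) = dt a b * dt b z + cos t * (dt a z - dt a b * dt b z) - sin t * tp a b z := by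
  simp only [dt, tp, rot, Matrix.cons_val_zero, Matrix.cons_val_one, Matrix.cons_val]
  ring

theorem tp_rot_right (a b z : Fin 3 → ℝ) (t : ℝ) (hb : dt b b = 1) :
    tp a b (rot b z t) = cos t * tp a b z + sin t * (dt a z - dt a b * dt b z) := by
  have h : tp a b (rot b z t) = cos t * tp a b z + sin t * (dt b b * dt a z - dt a b * dt b z) := by
    simp only [dt, tp, rot, Matrix.cons_val_zero, Matrix.cons_val_one, Matrix.cons_val]
    ring
  rw [h, hb]; ring

theorem rot_norm (b z : Fin 3 → ℝ) (t : ℝ) (hb : dt b b = 1) : dt (rot b z t) (rot b z t) = dt z z := by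
  have h : dt (rot b z t) (rot b z t) = dt b z ^ 2 * dt b b
      + cos t ^ 2 * (dt z z - 2 * dt b z ^ 2 + dt b z ^ 2 * dt b b)
      + sin t ^ 2 * (dt z z * dt b b - dt b z ^ 2)
      + 2 * cos t * (dt b z * (dt b z - dt b z * dt b b)) := by
    simp only [dt, rot, Matrix.cons_val_zero, Matrix.cons_val_one, Matrix.cons_val]
    ring
  rw [h, hb]
  have := sin_sq_add_cos_sq t
  linear_combination (dt z z - dt b z ^ 2) * this

theorem continuous_dt_rot (a b z : Fin 3 → ℝ) : Continuous fun t => dt a (rot b z t) := by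
  simp only [dt_rot]
  fun_prop

theorem tp_eq_dt (x y z : Fin 3 → ℝ) :
    tp x y z = dt (![x 1 * y 2 - x 2 * y 1, x 2 * y 0 - x 0 * y 2, x 0 * y 1 - x 1 * y 0]) z := by
  simp only [dt, tp, Matrix.cons_val_zero, Matrix.cons_val_one, Matrix.cons_val]
  ring

theorem continuous_tp_rot (x y b z : Fin 3 → ℝ) : Continuous fun t => tp x y (rot b z t) := by
  simp only [tp_eq_dt x y]
  exact continuous_dt_rot _ _ _

/-- Polar coordinates in the upper half plane. -/
theorem exists_polar {P S : ℝ} (hS : 0 < S) :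
    ∃ R φ : ℝ, 0 < R ∧ 0 < φ ∧ φ < π ∧ P = R * cos φ ∧ S = R * sin φ ∧ R ^ 2 = P ^ 2 + S ^ 2 := by
  have hR : 0 < P ^ 2 + S ^ 2 := by positivity
  have hR' : 0 < √(P ^ 2 + S ^ 2) := Real.sqrt_pos.2 hR
  have hsq : √(P ^ 2 + S ^ 2) ^ 2 = P ^ 2 + S ^ 2 := Real.sq_sqrt hR.le
  have h1 : P / √(P ^ 2 + S ^ 2) < 1 := by
    rw [div_lt_one hR']
    exact lt_of_pow_lt_pow_left₀ 2 hR'.le (by rw [hsq]; nlinarith)
  have h2 : -1 < P / √(P ^ 2 + S ^ 2) := by
    rw [lt_div_iff₀ hR']
    have : -P < √(P ^ 2 + S ^ 2) := lt_of_pow_lt_pow_left₀ 2 hR'.le (by rw [hsq]; nlinarith)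
    linarith
  refine ⟨√(P ^ 2 + S ^ 2), arccos (P / √(P ^ 2 + S ^ 2)), hR', arccos_pos.2 h1, ?_, ?_, ?_, hsq⟩
  · rcases lt_or_eq_of_le (arccos_le_pi (P / √(P ^ 2 + S ^ 2))) with h | h
    · exact h
    · rw [arccos_eq_pi] at h; linarith
  · rw [cos_arccos h2.le h1.le]; field_simp
  · rw [sin_arccos]
    have h3 : 1 - (P / √(P ^ 2 + S ^ 2)) ^ 2 = (S / √(P ^ 2 + S ^ 2)) ^ 2 := by
      rw [div_pow, div_pow, hsq]; field_simp; ring
    rw [h3, Real.sqrt_sq (by positivity)]
    field_simp

/-- Opening the angle at `b` between `a` and `z`: either the prescribed angle is reached, or one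
gets stuck at a position in which `o`, `p`, `y` are on a great circle. -/
theorem open_step (a b z o p : Fin 3 → ℝ) (τ : ℝ) (hb : dt b b = 1) (hz : dt z z = 1)
    (ha : dt a a = 1) (habz : 0 < tp a b z) (hoab : 0 < tp o a b) (hobz : 0 < tp o b z)
    (hopz : 0 < tp o p z) (hτ : τ ≤ dt a z)
    (hτ' : (τ - dt a b * dt b z) ^ 2 < (1 - dt a b ^ 2) * (1 - dt b z ^ 2)) :
    ∃ y, dt y y = 1 ∧ dt b y = dt b z ∧ 0 < tp a b y ∧ 0 < tp o b y ∧ τ ≤ dt a y ∧
      ((dt a y = τ ∧ 0 < tp o p y ∧ dt o y ≤ dt o z ∧ (dt o y = dt o z → τ = dt a z)) ∨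
        (tp o p y = 0 ∧ dt o y < dt o z)) := by
  obtain ⟨R, φ, hR, hφ0, hφπ, hP, hS, hRsq⟩ := exists_polar (P := dt a z - dt a b * dt b z) habz
  have hgram := gram_det a b z hb
  rw [ha, hz] at hgram
  have hS'pos : 0 < R ^ 2 - (τ - dt a b * dt b z) ^ 2 := by
    rw [hRsq, hgram]; linarith
  obtain ⟨R', φ', hR'0, hφ'0, hφ'π, hP', hS', hR'sq⟩ :=
    exists_polar (P := τ - dt a b * dt b z) (Real.sqrt_pos.2 hS'pos)
  have hRR' : R' = R := by
    have h : R' ^ 2 = R ^ 2 := by
      rw [hR'sq, Real.sq_sqrt hS'pos.le]; ring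
    exact (sq_eq_sq₀ hR'0.le hR.le).1 h
  rw [hRR'] at hP'
  have hφφ' : φ ≤ φ' := by
    by_contra h
    push Not at h
    have := cos_lt_cos_of_nonneg_of_le_pi hφ'0.le hφπ.le h
    nlinarith
  -- the functions along the curve
  have hS_t : ∀ t, tp a b (rot b z t) = R * sin (φ + t) := by
    intro t
    rw [tp_rot_right a b z t hb, hP, hS, sin_add]; ring
  have hP_t : ∀ t, dt a (rot b z t) = dt a b * dt b z + R * cos (φ + t) := by
    intro t
    rw [dt_rot a b z t, hP, hS, cos_add]; ring
  have hSpos : ∀ t, 0 ≤ t → t ≤ φ' - φ → 0 < tp a b (rot b z t) := by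
    intro t h0 h1
    rw [hS_t]
    exact mul_pos hR (sin_pos_of_pos_of_lt_pi (by linarith) (by linarith))
  have hbz : 0 < 1 - dt b z ^ 2 := one_sub_sq_pos a b z hb hz habz.ne'
  have hobt : ∀ t, 0 ≤ t → t ≤ φ' - φ → 0 < tp o b (rot b z t) := by
    intro t h0 h1
    have hpl := plucker b o a z (rot b z t)
    have e1 : tp b o a = tp o a b := (tp_rot b o a)
    have e2 : tp b z (rot b z t) = - (sin t * (1 - dt b z ^ 2)) := by
      rw [tp_swap b z, tp_rot_right z b z t hb]
      have : tp z b z = 0 := by simp only [tp]; ring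
      rw [this, hz, dt_comm z b]; ring
    have e3 : tp b o z = - tp o b z := tp_swap b o z
    have e4 : tp b a (rot b z t) = - tp a b (rot b z t) := tp_swap _ _ _
    have e5 : tp b o (rot b z t) = - tp o b (rot b z t) := tp_swap _ _ _
    have e6 : tp b a z = - tp a b z := tp_swap _ _ _
    rw [e1, e2, e3, e4, e5, e6] at hpl
    have hs : 0 ≤ sin t := sin_nonneg_of_nonneg_of_le_pi h0 (by linarith)
    have hkey : tp o b (rot b z t) * tp a b z =
        tp o a b * (sin t * (1 - dt b z ^ 2)) + tp o b z * tp a b (rot b z t) := by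
      linear_combination hpl
    have hpos : 0 < tp o b (rot b z t) * tp a b z := by
      rw [hkey]
      have := hSpos t h0 h1
      positivity
    exact (mul_pos_iff_of_pos_right habz).1 hpos
  have hmono : ∀ t, 0 < t → t ≤ φ' - φ → dt o (rot b z t) < dt o z := by
    intro t h0 h1
    have h2 : dt o z - dt o (rot b z t) = 2 * sin (t / 2) * tp o b (rot b z (t / 2)) := by
      rw [dt_rot o b z t, tp_rot_right o b z (t / 2) hb]
      have hc : cos t = 1 - 2 * sin (t / 2) ^ 2 := by
        have := cos_sq' (t / 2)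
        have h3 : cos t = 2 * cos (t / 2) ^ 2 - 1 := by
          rw [← cos_two_mul]; congr 1; ring
        rw [h3, this]; ring
      have hsn : sin t = 2 * sin (t / 2) * cos (t / 2) := by
        rw [← sin_two_mul]; congr 1; ring
      rw [hc, hsn]; ring
    have h3 := hobt (t / 2) (by linarith) (by linarith)
    have h4 : 0 < sin (t / 2) := sin_pos_of_pos_of_lt_pi (by linarith) (by linarith)
    have : 0 < 2 * sin (t / 2) * tp o b (rot b z (t / 2)) := by positivity
    linarith
  have hanti : ∀ t, 0 ≤ t → t ≤ φ' - φ → τ ≤ dt a (rot b z t) := by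
    intro t h0 h1
    rw [hP_t]
    have : cos φ' ≤ cos (φ + t) := cos_le_cos_of_nonneg_of_le_pi (by linarith) hφ'π.le (by linarith)
    nlinarith
  have hend : dt a (rot b z (φ' - φ)) = τ := by
    rw [hP_t]
    have : φ + (φ' - φ) = φ' := by ring
    rw [this]; linarith
  have ht1 : 0 ≤ φ' - φ := by linarith
  rcases lt_or_ge 0 (tp o p (rot b z (φ' - φ))) with hpos | hneg
  · refine ⟨rot b z (φ' - φ), (rot_norm b z _ hb).trans hz, dt_rot_self b z _ hb,
      hSpos _ ht1 le_rfl, hobt _ ht1 le_rfl, hanti _ ht1 le_rfl, Or.inl ⟨hend, hpos, ?_, ?_⟩⟩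
    · rcases lt_or_eq_of_le ht1 with h | h
      · exact (hmono _ h le_rfl).le
      · rw [← h, rot_zero]
    · intro heq
      rcases lt_or_eq_of_le ht1 with h | h
      · exact absurd heq (hmono _ h le_rfl).ne
      · rw [← h, rot_zero] at hend
        exact hend.symm
  · have hcont := (continuous_tp_rot o p b z).continuousOn (s := Set.Icc 0 (φ' - φ))
    have h0 : tp o p (rot b z 0) = tp o p z := by rw [rot_zero]
    obtain ⟨t, ht, hteq⟩ : (0 : ℝ) ∈ (fun t => tp o p (rot b z t)) '' Set.Icc 0 (φ' - φ) := by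
      apply intermediate_value_Icc' ht1 hcont
      constructor
      · exact hneg
      · simp only [h0]; exact hopz.le
    have ht0 : 0 < t := by
      rcases lt_or_eq_of_le ht.1 with h | h
      · exact h
      · exfalso
        rw [← h] at hteq
        simp only [h0] at hteq
        linarith
    exact ⟨rot b z t, (rot_norm b z _ hb).trans hz, dt_rot_self b z _ hb,
      hSpos _ ht.1 ht.2, hobt _ ht.1 ht.2, hanti _ ht.1 ht.2, Or.inr ⟨hteq, hmono _ ht0 ht.2⟩⟩

/-- Cutting off a triangle. -/
theorem cut_step (a b c d a' b' c' d' : Fin 3 → ℝ) (ha : dt a a = 1) (hb : dt b b = 1)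
    (hc : dt c c = 1) (hd : dt d d = 1) (ha' : dt a' a' = 1) (hb' : dt b' b' = 1)
    (hc' : dt c' c' = 1) (hd' : dt d' d' = 1) (hab : dt a b = dt a' b') (hbc : dt b c = dt b' c')
    (hbd : dt b d = dt b' d') (hcd : dt c d = dt c' d') (habc : 0 < tp a b c)
    (habd : 0 < tp a b d) (hbcd : 0 < tp b c d) (habc' : 0 < tp a' b' c')
    (habd' : 0 < tp a' b' d') (hbcd' : 0 < tp b' c' d') (h : dt a' c' ≤ dt a c) :
    dt a' d' ≤ dt a d ∧ (dt a' d' = dt a d → dt a' c' = dt a c) := by
  have I1 : ∀ a b c d : Fin 3 → ℝ, dt b b = 1 → dt c c = 1 →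
      (dt a d - dt a b * dt b d) * (1 - dt b c ^ 2) =
      (dt a c - dt a b * dt b c) * (dt c d - dt b c * dt b d) + tp a b c * tp b c d := by
    intro a b c d hb hc
    have h : (dt b b * dt a d - dt a b * dt b d) * (dt b b * dt c c - dt b c ^ 2) =
      (dt b b * dt a c - dt a b * dt b c) * (dt b b * dt c d - dt b c * dt b d)
        + dt b b * tp a b c * tp b c d := by
      simp only [dt, tp]; ring
    rw [hb, hc] at h
    linarith [h]
  have I2 : ∀ a b c d : Fin 3 → ℝ, dt b b = 1 → dt c c = 1 →
      tp a b d * (1 - dt b c ^ 2) =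
      (dt c d - dt b c * dt b d) * tp a b c - (dt a c - dt a b * dt b c) * tp b c d := by
    intro a b c d hb hc
    have h : tp a b d * (dt b b * dt c c - dt b c ^ 2) =
      (dt b b * dt c d - dt b c * dt b d) * tp a b c
        - (dt b b * dt a c - dt a b * dt b c) * tp b c d := by
      simp only [dt, tp]; ring
    rw [hb, hc] at h
    linarith [h]
  have g1 := gram_det a b c hb
  have g1' := gram_det a' b' c' hb'
  have g2 := gram_det b c d hc
  have g2' := gram_det b' c' d' hc'
  have e1 := I1 a b c d hb hc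
  have e1' := I1 a' b' c' d' hb' hc'
  have e2 := I2 a b c d hb hc
  have e2' := I2 a' b' c' d' hb' hc'
  rw [ha, hc] at g1
  rw [ha', hc', ← hab, ← hbc] at g1'
  rw [hb, hd] at g2
  rw [hb', hd', ← hbc, ← hbd, ← hcd] at g2'
  rw [← hab, ← hbc, ← hbd, ← hcd] at e1'
  rw [← hab, ← hbc, ← hbd, ← hcd] at e2'
  have hT : tp b' c' d' = tp b c d := by
    have : tp b' c' d' ^ 2 = tp b c d ^ 2 := by linarith
    exact (sq_eq_sq₀ hbcd'.le hbcd.le).1 this
  rw [hT] at e1' e2'
  have hK := one_sub_sq_pos a b c hb hc habc.ne'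
  generalize dt a b = x at *
  generalize dt b c = y at *
  generalize dt b d = v at *
  generalize dt c d = r at *
  generalize dt a c = p at *
  generalize dt a' c' = p' at *
  generalize dt a d = m at *
  generalize dt a' d' = m' at *
  generalize tp a b c = s at *
  generalize tp a' b' c' = s' at *
  generalize tp b c d = T at *
  generalize tp a b d = n at *
  generalize tp a' b' d' = n' at *
  have key : (m - m') * (1 - y ^ 2) * (s + s') = (p - p') * ((n + n') * (1 - y ^ 2)) := by
    have h5 : (p - p') * (p + p' - 2 * (x * y)) = (s' - s) * (s + s') := by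
      have : (p - x * y) ^ 2 + s ^ 2 = (p' - x * y) ^ 2 + s' ^ 2 := by rw [g1, g1']
      linear_combination this
    linear_combination (s + s') * e1 - (s + s') * e1' - (p - p') * e2 - (p - p') * e2' + T * h5
  have hn : 0 < n + n' := by linarith
  have hs : 0 < s + s' := by linarith
  constructor
  · by_contra hcon
    push Not at hcon
    have h6 : (m - m') * (1 - y ^ 2) * (s + s') < 0 := by
      have : (m - m') * (1 - y ^ 2) < 0 := mul_neg_of_neg_of_pos (by linarith) hK
      exact mul_neg_of_neg_of_pos this hs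
    rw [key] at h6
    have h7 : 0 ≤ (p - p') * ((n + n') * (1 - y ^ 2)) := by
      have : 0 ≤ p - p' := by linarith
      positivity
    linarith
  · intro hm
    rw [hm] at key
    have h8 : (p - p') * ((n + n') * (1 - y ^ 2)) = 0 := by rw [← key]; ring
    have h9 : (n + n') * (1 - y ^ 2) ≠ 0 := by positivity
    rcases mul_eq_zero.1 h8 with h10 | h10
    · linarith
    · exact absurd h10 h9

/-- Three collinear points and the triangle inequality, as a statement on real numbers. -/
theorem collinear_real {x y w α β y' w' : ℝ} (hα : 0 < α) (hβ : 0 < β) (h1 : x = α + β * w)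
    (h2 : y = α * w + β) (h3 : α * x + β * y = 1) (hx : x ^ 2 < 1) (hy : y ^ 2 ≤ 1)
    (hy' : y' ^ 2 ≤ 1) (hw : w' ≤ w) (htri : (w' - x * y') ^ 2 ≤ (1 - x ^ 2) * (1 - y' ^ 2)) :
    y' ≤ y := by
  obtain ⟨hxa, hxb⟩ := abs_lt.1 ((sq_lt_one_iff_abs_lt_one x).1 hx)
  obtain ⟨hya, hyb⟩ := abs_le.1 ((sq_le_one_iff_abs_le_one y).1 hy)
  obtain ⟨hya', hyb'⟩ := abs_le.1 ((sq_le_one_iff_abs_le_one y').1 hy')
  have e1 : 1 - x ^ 2 = β * (y - w * x) := by linear_combination -h3 - x * h1
  have e2 : 1 - y ^ 2 = α * (x - w * y) := by linear_combination -h3 - y * h2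
  have e3 : α * (y - w * x) = x * y - w := by linear_combination -w * h3 - y * h1
  have e4 : β * (x - w * y) = x * y - w := by linear_combination -w * h3 - x * h2
  have hA : cos (arccos x) = x := cos_arccos hxa.le hxb.le
  have hB : cos (arccos y) = y := cos_arccos hya hyb
  have hB' : cos (arccos y') = y' := cos_arccos hya' hyb'
  have sA : sin (arccos x) ^ 2 = 1 - x ^ 2 := by rw [sin_sq, hA]
  have sB : sin (arccos y) ^ 2 = 1 - y ^ 2 := by rw [sin_sq, hB]
  have sB' : sin (arccos y') ^ 2 = 1 - y' ^ 2 := by rw [sin_sq, hB']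
  have pA : 0 < sin (arccos x) := by
    have h0 : 0 ≤ sin (arccos x) := sin_nonneg_of_nonneg_of_le_pi (arccos_nonneg _) (arccos_le_pi _)
    rcases lt_or_eq_of_le h0 with h | h
    · exact h
    · rw [← h] at sA; nlinarith
  have pB : 0 ≤ sin (arccos y) := sin_nonneg_of_nonneg_of_le_pi (arccos_nonneg _) (arccos_le_pi _)
  have pB' : 0 ≤ sin (arccos y') := sin_nonneg_of_nonneg_of_le_pi (arccos_nonneg _) (arccos_le_pi _)
  have A0 := arccos_nonneg x
  have B0 := arccos_nonneg y
  have B0' := arccos_nonneg y'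
  have B1 := arccos_le_pi y
  have A1 := arccos_le_pi x
  have B1' := arccos_le_pi y'
  generalize arccos x = A at *
  generalize arccos y = B at *
  generalize arccos y' = B' at *
  have law : α * sin A = β * sin B := by
    have h4 : (α * sin A) ^ 2 = (β * sin B) ^ 2 := by
      rw [mul_pow, mul_pow, sA, sB, e1, e2]
      linear_combination α * β * e3 - α * β * e4
    exact (sq_eq_sq₀ (by positivity) (by positivity)).1 h4
  have sAB : β * sin (A + B) = sin A := by
    rw [sin_add, hA, hB]
    linear_combination (-x) * law + sin A * h3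
  have sABpos : 0 < sin (A + B) := by
    have : 0 < β * sin (A + B) := by rw [sAB]; exact pA
    exact (mul_pos_iff_of_pos_left hβ).1 this
  have hABlt : A + B < π := by
    by_contra hcon
    push Not at hcon
    have h5 : sin (A + B) = - sin (A + B - π) := by rw [sin_sub_pi]; ring
    have h6 : 0 ≤ sin (A + B - π) := sin_nonneg_of_nonneg_of_le_pi (by linarith) (by linarith)
    linarith
  have cAB : cos (A + B) = w := by
    rw [cos_add, hA, hB]
    have h7 : α * (sin A * sin B) = α * (x * y - w) := by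
      have : α * (sin A * sin B) = β * sin B ^ 2 := by linear_combination sin B * law
      rw [this, sB, e2]
      linear_combination α * e4
    have := mul_left_cancel₀ hα.ne' h7
    linarith
  by_contra hcon
  push Not at hcon
  have hBB : B' < B := by
    by_contra h8
    push Not at h8
    have := cos_le_cos_of_nonneg_of_le_pi B0 B1' h8
    rw [hB, hB'] at this
    linarith
  have h9 : cos (A + B) < cos (A + B') :=
    cos_lt_cos_of_nonneg_of_le_pi (by linarith) hABlt.le (by linarith)
  have h10 : cos (A + B') ≤ w' := by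
    rw [cos_add, hA, hB']
    have h11 : (w' - x * y') ^ 2 ≤ (sin A * sin B') ^ 2 := by
      rw [mul_pow, sA, sB']; exact htri
    have h12 := abs_le_of_sq_le_sq h11 (by positivity)
    have := (abs_le.1 h12).1
    linarith
  rw [cAB] at h9
  linarith

/-! ### Convex chains -/

/-- The points `q 0, …, q n` are unit vectors in strictly convex position, in this order. -/
structure Chain (n : ℕ) (q : ℕ → Fin 3 → ℝ) : Prop where
  unit : ∀ i, i ≤ n → dt (q i) (q i) = 1
  conv : ∀ i j l, i < j → j < l → l ≤ n → 0 < tp (q i) (q j) (q l)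

/-- Adding a point to a convex chain. -/
theorem conv_ext {m : ℕ} {q : ℕ → Fin 3 → ℝ} (hq : Chain (m + 2) q) {y : Fin 3 → ℝ}
    (h1 : 0 ≤ tp (q 0) (q 1) y) (h2 : 0 < tp (q 0) (q (m + 2)) y)
    (h3 : 0 < tp (q (m + 1)) (q (m + 2)) y) (i j : ℕ) (hij : i < j) (hj : j ≤ m + 2)
    (hne : i ≠ 0 ∨ j ≠ 1) : 0 < tp (q i) (q j) y := by
  have hA : ∀ j, 2 ≤ j → j ≤ m + 2 → 0 < tp (q 0) (q j) y := by
    intro j hj1 hj2
    rcases Nat.lt_or_ge j (m + 2) with h | h
    · have hpl := plucker (q 0) (q 1) (q j) (q (m + 2)) y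
      have a1 := hq.conv 0 1 j (by omega) (by omega) hj2
      have a2 := hq.conv 0 1 (m + 2) (by omega) (by omega) le_rfl
      have a3 := hq.conv 0 j (m + 2) (by omega) h le_rfl
      have hpos : 0 < tp (q 0) (q 1) (q (m + 2)) * tp (q 0) (q j) y := by
        have : 0 ≤ tp (q 0) (q 1) y * tp (q 0) (q j) (q (m + 2)) := by positivity
        have : 0 < tp (q 0) (q 1) (q j) * tp (q 0) (q (m + 2)) y := by positivity
        linarith
      exact (mul_pos_iff_of_pos_left a2).1 hpos
    · have : j = m + 2 := by omega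
      rw [this]; exact h2
  have hB : ∀ i, i < m + 2 → 0 < tp (q i) (q (m + 2)) y := by
    intro i hi
    rcases Nat.eq_zero_or_pos i with h0 | h0
    · rw [h0]; exact h2
    rcases Nat.lt_or_ge i (m + 1) with h | h
    · have hpl := plucker (q (m + 2)) (q 0) (q i) (q (m + 1)) y
      have a1 := hq.conv 0 i (m + 2) h0 hi le_rfl
      have a2 := hq.conv 0 (m + 1) (m + 2) (by omega) (by omega) le_rfl
      have a3 := hq.conv i (m + 1) (m + 2) h (by omega) le_rfl
      rw [tp_rot (q (m + 2)) (q 0) (q i), tp_swap (q (m + 2)) (q (m + 1)) y,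
        tp_rot (q (m + 2)) (q 0) (q (m + 1)), tp_swap (q (m + 2)) (q i) y,
        tp_swap (q (m + 2)) (q 0) y, tp_rot (q (m + 2)) (q i) (q (m + 1))] at hpl
      have hpos : 0 < tp (q 0) (q (m + 1)) (q (m + 2)) * tp (q i) (q (m + 2)) y := by
        have : 0 < tp (q 0) (q i) (q (m + 2)) * tp (q (m + 1)) (q (m + 2)) y := by positivity
        have : 0 < tp (q 0) (q (m + 2)) y * tp (q i) (q (m + 1)) (q (m + 2)) := by positivity
        linarith
      exact (mul_pos_iff_of_pos_left a2).1 hpos
    · have : i = m + 1 := by omega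
      rw [this]; exact h3
  rcases Nat.eq_zero_or_pos i with h0 | h0
  · subst h0
    exact hA j (by omega) hj
  rcases Nat.lt_or_ge j (m + 2) with h | h
  · have hpl := plucker (q i) (q 0) (q j) (q (m + 2)) y
    have a1 := hq.conv 0 i j h0 hij hj
    have a2 := hq.conv 0 i (m + 2) h0 (by omega) le_rfl
    have a3 := hq.conv i j (m + 2) hij h le_rfl
    have a4 := hB i (by omega)
    have a5 : 0 ≤ tp (q 0) (q i) y := by
      rcases Nat.lt_or_ge i 2 with h' | h'
      · have : i = 1 := by omega
        rw [this]; exact h1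
      · exact (hA i h' (by omega)).le
    rw [tp_swap (q i) (q 0) (q j), tp_swap (q i) (q 0) (q (m + 2)), tp_swap (q i) (q 0) y] at hpl
    have hpos : 0 < tp (q 0) (q i) (q (m + 2)) * tp (q i) (q j) y := by
      have : 0 < tp (q 0) (q i) (q j) * tp (q i) (q (m + 2)) y := by positivity
      have : 0 ≤ tp (q 0) (q i) y * tp (q i) (q j) (q (m + 2)) := by positivity
      linarith
    exact (mul_pos_iff_of_pos_left a2).1 hpos
  · have : j = m + 2 := by omega
    rw [this]; exact hB i (by omega)

theorem Chain.mono {m n : ℕ} {q : ℕ → Fin 3 → ℝ} (hq : Chain n q) (h : m ≤ n) : Chain m q :=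
  ⟨fun i hi => hq.unit i (hi.trans h), fun i j l hi hj hl => hq.conv i j l hi hj (hl.trans h)⟩

/-- **The spherical arm lemma.** -/
theorem arm_aux (m : ℕ) : ∀ q q' : ℕ → Fin 3 → ℝ, Chain (m + 2) q → Chain (m + 2) q' →
    (∀ i, i < m + 2 → dt (q i) (q (i + 1)) = dt (q' i) (q' (i + 1))) →
    (∀ i, i + 2 ≤ m + 2 → dt (q' i) (q' (i + 2)) ≤ dt (q i) (q (i + 2))) →
    dt (q' 0) (q' (m + 2)) ≤ dt (q 0) (q (m + 2)) ∧
      (dt (q' 0) (q' (m + 2)) = dt (q 0) (q (m + 2)) →
        ∀ i, i + 2 ≤ m + 2 → dt (q' i) (q' (i + 2)) = dt (q i) (q (i + 2))) := by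
  induction m with
  | zero =>
    intro q q' _ _ _ hang
    refine ⟨hang 0 le_rfl, fun h i hi => ?_⟩
    have : i = 0 := by omega
    subst this
    exact h
  | succ m ih =>
    intro q q' hq hq' hside hang
    have hq2 : Chain (m + 2) q := hq.mono (by omega)
    obtain ⟨y, hy1, hby, haby, hoby, hτy, hcase⟩ := open_step (q (m + 1)) (q (m + 2)) (q (m + 3))
      (q 0) (q 1) (dt (q' (m + 1)) (q' (m + 3))) (hq.unit _ (by omega)) (hq.unit _ (by omega))
      (hq.unit _ (by omega)) (hq.conv _ _ _ (by omega) (by omega) (by omega))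
      (hq.conv _ _ _ (by omega) (by omega) (by omega))
      (hq.conv _ _ _ (by omega) (by omega) (by omega))
      (hq.conv _ _ _ (by omega) (by omega) (by omega)) (hang (m + 1) (by omega)) (by
        have h1 := gram_det (q' (m + 1)) (q' (m + 2)) (q' (m + 3)) (hq'.unit _ (by omega))
        rw [hq'.unit _ (by omega), hq'.unit _ (by omega), ← hside (m + 1) (by omega),
          ← hside (m + 2) (by omega)] at h1
        have h2 := hq'.conv (m + 1) (m + 2) (m + 3) (by omega) (by omega) (by omega)
        have : 0 < tp (q' (m + 1)) (q' (m + 2)) (q' (m + 3)) ^ 2 := by positivity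
        linarith)
    rcases hcase with ⟨hay, hopy, hle, heq⟩ | ⟨hopy, hlt⟩
    · -- the angle is opened completely
      have hext : ∀ i j, i < j → j ≤ m + 2 → 0 < tp (q i) (q j) y := by
        intro i j hij hj
        by_cases h : i ≠ 0 ∨ j ≠ 1
        · exact conv_ext hq2 hopy.le hoby haby i j hij hj h
        · push Not at h
          rw [h.1, h.2]; exact hopy
      have hch : Chain (m + 2) (fun i => if i ≤ m + 1 then q i else y) := by
        refine ⟨fun i hi => ?_, fun i j l hij hjl hl => ?_⟩
        · by_cases h : i ≤ m + 1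
          · simp only [h, if_true]; exact hq.unit i (by omega)
          · simp only [h, if_false]; exact hy1
        · have hi' : i ≤ m + 1 := by omega
          have hj' : j ≤ m + 1 := by omega
          by_cases h : l ≤ m + 1
          · simp only [h, hi', hj', if_true]; exact hq.conv i j l hij hjl (by omega)
          · simp only [h, hi', hj', if_true, if_false]; exact hext i j hij (by omega)
      have hch' : Chain (m + 2) (fun i => if i ≤ m + 1 then q' i else q' (m + 3)) := by
        refine ⟨fun i hi => ?_, fun i j l hij hjl hl => ?_⟩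
        · by_cases h : i ≤ m + 1
          · simp only [h, if_true]; exact hq'.unit i (by omega)
          · simp only [h, if_false]; exact hq'.unit _ (by omega)
        · have hi' : i ≤ m + 1 := by omega
          have hj' : j ≤ m + 1 := by omega
          by_cases h : l ≤ m + 1
          · simp only [h, hi', hj', if_true]; exact hq'.conv i j l hij hjl (by omega)
          · simp only [h, hi', hj', if_true, if_false]
            exact hq'.conv i j (m + 3) hij (by omega) (by omega)
      have hcut := cut_step (q m) (q (m + 1)) (q (m + 2)) y (q' m) (q' (m + 1)) (q' (m + 2))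
        (q' (m + 3)) (hq.unit _ (by omega)) (hq.unit _ (by omega)) (hq.unit _ (by omega)) hy1
        (hq'.unit _ (by omega)) (hq'.unit _ (by omega)) (hq'.unit _ (by omega))
        (hq'.unit _ (by omega)) (hside m (by omega)) (hside (m + 1) (by omega)) hay
        (by rw [hby]; exact hside (m + 2) (by omega))
        (hq.conv _ _ _ (by omega) (by omega) (by omega)) (hext m (m + 1) (by omega) (by omega)) haby
        (hq'.conv _ _ _ (by omega) (by omega) (by omega))
        (hq'.conv _ _ _ (by omega) (by omega) (by omega))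
        (hq'.conv _ _ _ (by omega) (by omega) (by omega)) (hang m (by omega))
      have hres := ih _ _ hch hch' (by
        intro i hi
        have h0 : i ≤ m + 1 := by omega
        by_cases h : i + 1 ≤ m + 1
        · simp only [h, h0, if_true]; exact hside i (by omega)
        · have : i = m + 1 := by omega
          subst this
          simp only [h, h0, if_true, if_false]; exact hay) (by
        intro i hi
        have h0 : i ≤ m + 1 := by omega
        by_cases h : i + 2 ≤ m + 1
        · simp only [h, h0, if_true]; exact hang i (by omega)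
        · have : i = m := by omega
          subst this
          simp only [h, h0, if_true, if_false]; exact hcut.1)
      have hz0 : (0 : ℕ) ≤ m + 1 := by omega
      have hzm : ¬ (m + 2 ≤ m + 1) := by omega
      simp only [hz0, hzm, if_true, if_false] at hres
      refine ⟨hres.1.trans hle, fun he i hi => ?_⟩
      have he1 : dt (q 0) y = dt (q 0) (q (m + 3)) := by
        have := hres.1
        have he' : dt (q' 0) (q' (m + 3)) = dt (q 0) (q (m + 3)) := he
        linarith
      have he2 : dt (q' 0) (q' (m + 3)) = dt (q 0) y := by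
        rw [he1]; exact he
      rcases Nat.lt_or_ge i (m + 1) with h | h
      · have := hres.2 he2 i (by omega)
        rcases Nat.lt_or_ge i m with h' | h'
        · have h3 : i ≤ m + 1 := by omega
          have h4 : i + 2 ≤ m + 1 := by omega
          simpa only [h3, h4, if_true] using this
        · have h5 : i = m := by omega
          subst h5
          have h3 : i ≤ i + 1 := by omega
          have h4 : ¬ (i + 2 ≤ i + 1) := by omega
          simp only [h3, h4, if_true, if_false] at this
          exact hcut.2 this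
      · have h5 : i = m + 1 := by omega
        subst h5
        exact heq he1
    · -- stuck
      have hext : ∀ i j, 1 ≤ i → i < j → j ≤ m + 2 → 0 < tp (q i) (q j) y := fun i j h1 hij hj =>
        conv_ext hq2 hopy.ge hoby haby i j hij hj (Or.inl (by omega))
      have hch : Chain (m + 2) (fun i => if i ≤ m + 1 then q (i + 1) else y) := by
        refine ⟨fun i hi => ?_, fun i j l hij hjl hl => ?_⟩
        · by_cases h : i ≤ m + 1
          · simp only [h, if_true]; exact hq.unit _ (by omega)
          · simp only [h, if_false]; exact hy1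
        · have hi' : i ≤ m + 1 := by omega
          have hj' : j ≤ m + 1 := by omega
          by_cases h : l ≤ m + 1
          · simp only [h, hi', hj', if_true]
            exact hq.conv _ _ _ (by omega) (by omega) (by omega)
          · simp only [h, hi', hj', if_true, if_false]
            exact hext _ _ (by omega) (by omega) (by omega)
      have hch' : Chain (m + 2) (fun i => q' (i + 1)) :=
        ⟨fun i hi => hq'.unit _ (by omega), fun i j l hij hjl hl =>
          hq'.conv _ _ _ (by omega) (by omega) (by omega)⟩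
      have hres := ih _ _ hch hch' (by
        intro i hi
        have h0 : i ≤ m + 1 := by omega
        by_cases h : i + 1 ≤ m + 1
        · simp only [h, h0, if_true]; exact hside _ (by omega)
        · have : i = m + 1 := by omega
          subst this
          simp only [h, h0, if_true, if_false]
          rw [hby]; exact hside (m + 2) (by omega)) (by
        intro i hi
        have h0 : i ≤ m + 1 := by omega
        by_cases h : i + 2 ≤ m + 1
        · simp only [h, h0, if_true]; exact hang (i + 1) (by omega)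
        · have : i = m := by omega
          subst this
          simp only [h, h0, if_true, if_false]; exact hτy)
      have hz0 : (0 : ℕ) ≤ m + 1 := by omega
      have hzm : ¬ (m + 2 ≤ m + 1) := by omega
      simp only [hz0, hzm, if_true, if_false, zero_add] at hres
      have hD : 0 < tp (q 1) (q (m + 2)) y := hext 1 (m + 2) le_rfl (by omega) le_rfl
      have hopd : 0 < tp (q 0) (q 1) (q (m + 2)) :=
        hq.conv _ _ _ (by omega) (by omega) (by omega)
      have hR : ∀ v, dt v (q 0) * tp (q 1) (q (m + 2)) y =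
          dt v (q 1) * tp (q 0) (q (m + 2)) y + dt v y * tp (q 0) (q 1) (q (m + 2)) := by
        intro v
        have h1 : dt v (q 0) * tp (q 1) (q (m + 2)) y =
          dt v (q 1) * tp (q 0) (q (m + 2)) y - dt v (q (m + 2)) * tp (q 0) (q 1) y
            + dt v y * tp (q 0) (q 1) (q (m + 2)) := by
          simp only [dt, tp]; ring
        rw [h1, hopy]; ring
      have u0 := hq.unit 0 (by omega)
      have u1 := hq.unit 1 (by omega)
      have hx : 0 < 1 - dt (q 0) (q 1) ^ 2 :=
        one_sub_sq_pos (q (m + 2)) (q 0) (q 1) u0 u1 (by rw [tp_rot]; exact hopd.ne')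
      have hy : 0 ≤ 1 - dt (q 0) y ^ 2 := one_sub_sq_nonneg _ _ u0 hy1
      have hy' : 0 ≤ 1 - dt (q' 0) (q' (m + 3)) ^ 2 :=
        one_sub_sq_nonneg _ _ (hq'.unit _ (by omega)) (hq'.unit _ (by omega))
      have htri := gram_det (q' 1) (q' 0) (q' (m + 3)) (hq'.unit _ (by omega))
      rw [hq'.unit _ (by omega), hq'.unit _ (by omega), dt_comm (q' 1) (q' 0),
        ← hside 0 (by omega)] at htri
      have hfin : dt (q' 0) (q' (m + 3)) ≤ dt (q 0) y := by
        refine collinear_real (x := dt (q 0) (q 1)) (w := dt (q 1) y)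
          (α := tp (q 0) (q (m + 2)) y / tp (q 1) (q (m + 2)) y)
          (β := tp (q 0) (q 1) (q (m + 2)) / tp (q 1) (q (m + 2)) y)
          (w' := dt (q' 1) (q' (m + 3))) (by positivity) (by positivity) ?_ ?_ ?_ (by linarith)
          (by linarith) (by linarith) hres.1 (by nlinarith [sq_nonneg (tp (q' 1) (q' 0) (q' (m + 3)))])
        · have h1 := hR (q 1)
          rw [u1, dt_comm (q 1) (q 0)] at h1
          field_simp
          linarith
        · have h1 := hR y
          rw [hy1, dt_comm y (q 0), dt_comm y (q 1)] at h1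
          field_simp
          linarith
        · have h1 := hR (q 0)
          rw [u0] at h1
          field_simp
          linarith
      refine ⟨hfin.trans hlt.le, fun he => ?_⟩
      exfalso
      have he' : dt (q' 0) (q' (m + 3)) = dt (q 0) (q (m + 3)) := he
      linarith

/-- **The spherical arm lemma** for chains with at least one side. -/
theorem arm {n : ℕ} (hn : 1 ≤ n) {q q' : ℕ → Fin 3 → ℝ} (hq : Chain n q) (hq' : Chain n q')
    (hside : ∀ i, i < n → dt (q i) (q (i + 1)) = dt (q' i) (q' (i + 1)))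
    (hang : ∀ i, i + 2 ≤ n → dt (q' i) (q' (i + 2)) ≤ dt (q i) (q (i + 2))) :
    dt (q' 0) (q' n) ≤ dt (q 0) (q n) ∧ (dt (q' 0) (q' n) = dt (q 0) (q n) →
        ∀ i, i + 2 ≤ n → dt (q' i) (q' (i + 2)) = dt (q i) (q (i + 2))) := by
  rcases Nat.lt_or_ge n 2 with h | h
  · have : n = 1 := by omega
    subst this
    exact ⟨(hside 0 (by omega)).ge, fun _ i hi => by omega⟩
  · obtain ⟨m, rfl⟩ : ∃ m, n = m + 2 := ⟨n - 2, by omega⟩
    exact arm_aux m q q' hq hq' hside hang

end Pool.Agent.SphereSign
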