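import Mathlib
import Pool.Agent.Work.MP_43c1cf_co.SphereArm

/-!
# The sign lemma of Cauchy and Legendre for convex spherical polygons
-/

set_option autoImplicit false

namespace Pool.Agent.SphereSign

open Real

/-- Unit vectors `U i`, periodic with period `k`, in strictly convex position in their cyclic
order. -/
structure Poly (k : ℕ) (U : ℕ → Fin 3 → ℝ) : Prop where
  unit : ∀ i, dt (U i) (U i) = 1
  per : ∀ i, U (i + k) = U i
  conv : ∀ i j l, i < j → j < l → l < i + k → 0 < tp (U i) (U j) (U l)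

theorem dt_add_smul (a b : ℝ) (x y z : Fin 3 → ℝ) :
    dt (a • x + b • y) z = a * dt x z + b * dt y z := by
  simp only [dt, Pi.add_apply, Pi.smul_apply, smul_eq_mul]; ring

theorem dt_add_smul' (a b : ℝ) (x y z : Fin 3 → ℝ) :
    dt z (a • x + b • y) = a * dt z x + b * dt z y := by
  simp only [dt, Pi.add_apply, Pi.smul_apply, smul_eq_mul]; ring

theorem tp_add_smul (a b : ℝ) (x y z w : Fin 3 → ℝ) :
    tp (a • x + b • y) z w = a * tp x z w + b * tp y z w := by
  simp only [tp, Pi.add_apply, Pi.smul_apply, smul_eq_mul]; ring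

theorem tp_add_smul' (a b : ℝ) (x y z w : Fin 3 → ℝ) :
    tp z w (a • x + b • y) = a * tp z w x + b * tp z w y := by
  simp only [tp, Pi.add_apply, Pi.smul_apply, smul_eq_mul]; ring

theorem tp_self_left (x y : Fin 3 → ℝ) : tp x x y = 0 := by
  simp only [tp]; ring

theorem tp_self_right (x y : Fin 3 → ℝ) : tp x y y = 0 := by
  simp only [tp]; ring

theorem tp_self_out (x y : Fin 3 → ℝ) : tp x y x = 0 := by
  simp only [tp]; ring

/-- A point on the side between `U i` and `U (i + 1)`. -/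
noncomputable def sidePt (U : ℕ → Fin 3 → ℝ) (i : ℕ) : Fin 3 → ℝ :=
  (1 / √(5 + 4 * dt (U i) (U (i + 1)))) • U i + (2 / √(5 + 4 * dt (U i) (U (i + 1)))) • U (i + 1)

theorem side_pos {k : ℕ} {U : ℕ → Fin 3 → ℝ} (hU : Poly k U) (i : ℕ) :
    0 < 5 + 4 * dt (U i) (U (i + 1)) := by
  have h := one_sub_sq_nonneg _ _ (hU.unit i) (hU.unit (i + 1))
  have := (abs_le.1 ((sq_le_one_iff_abs_le_one (dt (U i) (U (i + 1)))).1 (by linarith))).1
  linarith

theorem sidePt_unit {k : ℕ} {U : ℕ → Fin 3 → ℝ} (hU : Poly k U) (i : ℕ) :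
    dt (sidePt U i) (sidePt U i) = 1 := by
  have hp := side_pos hU i
  rw [sidePt, dt_add_smul, dt_add_smul', dt_add_smul', hU.unit, hU.unit, dt_comm (U (i + 1)) (U i)]
  have h := Real.mul_self_sqrt hp.le
  have h2 : √(5 + 4 * dt (U i) (U (i + 1))) ≠ 0 := (Real.sqrt_pos.2 hp).ne'
  field_simp
  nlinarith

theorem sidePt_per {k : ℕ} {U : ℕ → Fin 3 → ℝ} (hU : Poly k U) (i : ℕ) :
    sidePt U (i + k) = sidePt U i := by
  have h : i + k + 1 = i + 1 + k := by ring
  rw [sidePt, sidePt, h, hU.per, hU.per]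

/-- The chain consisting of the vertices `U (x + 1), …, U (x + n)` and of points on the two
adjacent sides. -/
noncomputable def arcPt (U : ℕ → Fin 3 → ℝ) (x n : ℕ) (i : ℕ) : Fin 3 → ℝ :=
  if i = 0 then sidePt U x else if i ≤ n then U (x + i) else sidePt U (x + n)

theorem arc_chain {k : ℕ} (hk : 3 ≤ k) {U : ℕ → Fin 3 → ℝ} (hU : Poly k U) {x n : ℕ} (_ : 1 ≤ n)
    (hnk : n < k) : Chain (n + 1) (arcPt U x n) := by
  have hc : ∀ i, 0 < 1 / √(5 + 4 * dt (U i) (U (i + 1))) := fun i =>
    one_div_pos.2 (Real.sqrt_pos.2 (side_pos hU i))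
  have hc2 : ∀ i, 0 < 2 / √(5 + 4 * dt (U i) (U (i + 1))) := fun i =>
    div_pos two_pos (Real.sqrt_pos.2 (side_pos hU i))
  refine ⟨fun i hi => ?_, fun i j l hij hjl hl => ?_⟩
  · rw [arcPt]
    split_ifs
    · exact sidePt_unit hU x
    · exact hU.unit _
    · exact sidePt_unit hU _
  · have hj0 : j ≠ 0 := by omega
    have hjn : j ≤ n := by omega
    have hl0 : l ≠ 0 := by omega
    have ej : arcPt U x n j = U (x + j) := by simp [arcPt, hj0, hjn]
    rw [ej]
    rcases Nat.eq_zero_or_pos i with hi | hi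
    · have ei : arcPt U x n i = sidePt U x := by simp [arcPt, hi]
      rw [ei]
      rcases Nat.lt_or_ge n l with hln | hln
      · -- both ends
        have hl' : l = n + 1 := by omega
        have el : arcPt U x n l = sidePt U (x + n) := by
          simp [arcPt, hl']
        rw [el, sidePt, sidePt, tp_add_smul, tp_add_smul', tp_add_smul']
        set c := √(5 + 4 * dt (U x) (U (x + 1)))
        have hcx : 0 < 1 / c := hc x
        have hcx2 : 0 < 2 / c := hc2 x
        set d := √(5 + 4 * dt (U (x + n)) (U (x + n + 1)))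
        have hdx : 0 < 1 / d := hc (x + n)
        have hdx2 : 0 < 2 / d := hc2 (x + n)
        have t1 : 0 ≤ tp (U x) (U (x + j)) (U (x + n)) := by
          rcases Nat.lt_or_ge j n with h | h
          · exact (hU.conv _ _ _ (by omega) (by omega) (by omega)).le
          · have : j = n := by omega
            rw [this, tp_self_right]
        have t2 : 0 ≤ tp (U x) (U (x + j)) (U (x + n + 1)) := by
          rcases Nat.lt_or_ge (n + 1) k with h | h
          · exact (hU.conv _ _ _ (by omega) (by omega) (by omega)).le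
          · have : x + n + 1 = x + k := by omega
            rw [this, hU.per, tp_self_out]
        have t3 : 0 ≤ tp (U (x + 1)) (U (x + j)) (U (x + n)) := by
          rcases Nat.lt_or_ge 1 j with h | h
          · rcases Nat.lt_or_ge j n with h' | h'
            · exact (hU.conv _ _ _ (by omega) (by omega) (by omega)).le
            · have : j = n := by omega
              rw [this, tp_self_right]
          · have : j = 1 := by omega
            rw [this, tp_self_left]
        have t4 : 0 ≤ tp (U (x + 1)) (U (x + j)) (U (x + n + 1)) := by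
          rcases Nat.lt_or_ge 1 j with h | h
          · exact (hU.conv _ _ _ (by omega) (by omega) (by omega)).le
          · have : j = 1 := by omega
            rw [this, tp_self_left]
        have hpos : 0 < tp (U x) (U (x + j)) (U (x + n)) ∨
            0 < tp (U x) (U (x + j)) (U (x + n + 1)) ∨
            0 < tp (U (x + 1)) (U (x + j)) (U (x + n + 1)) := by
          rcases Nat.lt_or_ge (n + 1) k with h | h
          · exact Or.inr (Or.inl (hU.conv _ _ _ (by omega) (by omega) (by omega)))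
          · rcases Nat.lt_or_ge j n with h' | h'
            · exact Or.inl (hU.conv _ _ _ (by omega) (by omega) (by omega))
            · exact Or.inr (Or.inr (hU.conv _ _ _ (by omega) (by omega) (by omega)))
        rcases hpos with h | h | h
        · have : 0 < 1 / c * (1 / d * tp (U x) (U (x + j)) (U (x + n))) := by positivity
          have : 0 ≤ 1 / c * (2 / d * tp (U x) (U (x + j)) (U (x + n + 1))) := by positivity
          have : 0 ≤ 2 / c * (1 / d * tp (U (x + 1)) (U (x + j)) (U (x + n)) +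
            2 / d * tp (U (x + 1)) (U (x + j)) (U (x + n + 1))) := by positivity
          linarith
        · have : 0 ≤ 1 / c * (1 / d * tp (U x) (U (x + j)) (U (x + n))) := by positivity
          have : 0 < 1 / c * (2 / d * tp (U x) (U (x + j)) (U (x + n + 1))) := by positivity
          have : 0 ≤ 2 / c * (1 / d * tp (U (x + 1)) (U (x + j)) (U (x + n)) +
            2 / d * tp (U (x + 1)) (U (x + j)) (U (x + n + 1))) := by positivity
          linarith
        · have : 0 ≤ 1 / c * (1 / d * tp (U x) (U (x + j)) (U (x + n))) := by positivity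
          have : 0 ≤ 1 / c * (2 / d * tp (U x) (U (x + j)) (U (x + n + 1))) := by positivity
          have : 0 < 2 / c * (1 / d * tp (U (x + 1)) (U (x + j)) (U (x + n)) +
            2 / d * tp (U (x + 1)) (U (x + j)) (U (x + n + 1))) := by positivity
          linarith
      · have el : arcPt U x n l = U (x + l) := by simp [arcPt, hl0, hln]
        rw [el, sidePt, tp_add_smul]
        have t1 : 0 < tp (U x) (U (x + j)) (U (x + l)) :=
          hU.conv _ _ _ (by omega) (by omega) (by omega)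
        have t2 : 0 ≤ tp (U (x + 1)) (U (x + j)) (U (x + l)) := by
          rcases Nat.lt_or_ge 1 j with h | h
          · exact (hU.conv _ _ _ (by omega) (by omega) (by omega)).le
          · have : j = 1 := by omega
            rw [this, tp_self_left]
        have := hc x
        have := hc2 x
        positivity
    · have hi0 : i ≠ 0 := by omega
      have hin : i ≤ n := by omega
      have ei : arcPt U x n i = U (x + i) := by simp [arcPt, hi0, hin]
      rw [ei]
      rcases Nat.lt_or_ge n l with hln | hln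
      · have hl' : l = n + 1 := by omega
        have el : arcPt U x n l = sidePt U (x + n) := by
          simp [arcPt, hl']
        rw [el, sidePt, tp_add_smul']
        have t1 : 0 ≤ tp (U (x + i)) (U (x + j)) (U (x + n)) := by
          rcases Nat.lt_or_ge j n with h | h
          · exact (hU.conv _ _ _ (by omega) (by omega) (by omega)).le
          · have : j = n := by omega
            rw [this, tp_self_right]
        have t2 : 0 < tp (U (x + i)) (U (x + j)) (U (x + n + 1)) :=
          hU.conv _ _ _ (by omega) (by omega) (by omega)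
        have := hc (x + n)
        have := hc2 (x + n)
        positivity
      · have el : arcPt U x n l = U (x + l) := by simp [arcPt, hl0, hln]
        rw [el]
        exact hU.conv _ _ _ (by omega) (by omega) (by omega)

theorem sidePt_dt_right {k : ℕ} {U U' : ℕ → Fin 3 → ℝ} 
    (hs : ∀ i, dt (U i) (U (i + 1)) = dt (U' i) (U' (i + 1))) (hU : Poly k U) (hU' : Poly k U')
    (x : ℕ) : dt (sidePt U x) (U (x + 1)) = dt (sidePt U' x) (U' (x + 1)) := by
  rw [sidePt, sidePt, dt_add_smul, dt_add_smul, hs x, hU.unit, hU'.unit]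

theorem sidePt_dt_left {k : ℕ} {U U' : ℕ → Fin 3 → ℝ} 
    (hs : ∀ i, dt (U i) (U (i + 1)) = dt (U' i) (U' (i + 1))) (hU : Poly k U) (hU' : Poly k U')
    (x : ℕ) : dt (U x) (sidePt U x) = dt (U' x) (sidePt U' x) := by
  rw [sidePt, sidePt, dt_add_smul', dt_add_smul', hs x, hU.unit, hU'.unit]

/-- Increasing affine functions: comparison of the products in both polygons. -/
theorem arc_angle {k : ℕ} {U U' : ℕ → Fin 3 → ℝ} (hU : Poly k U) (hU' : Poly k U')
    (hs : ∀ i, dt (U i) (U (i + 1)) = dt (U' i) (U' (i + 1))) (x n : ℕ) (hn : 1 ≤ n) (i : ℕ)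
    (hi : i < n) : ∃ A B : ℝ, 0 < B ∧
      dt (arcPt U x n i) (arcPt U x n (i + 2)) = A + B * dt (U (x + i)) (U (x + i + 2)) ∧
      dt (arcPt U' x n i) (arcPt U' x n (i + 2)) = A + B * dt (U' (x + i)) (U' (x + i + 2)) := by
  have hc : ∀ i, 0 < 1 / √(5 + 4 * dt (U i) (U (i + 1))) := fun i =>
    one_div_pos.2 (Real.sqrt_pos.2 (side_pos hU i))
  have hc2 : ∀ i, 0 < 2 / √(5 + 4 * dt (U i) (U (i + 1))) := fun i =>
    div_pos two_pos (Real.sqrt_pos.2 (side_pos hU i))
  rcases Nat.eq_zero_or_pos i with h0 | h0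
  · subst h0
    rcases Nat.lt_or_ge n 2 with h1 | h1
    · have : n = 1 := by omega
      subst this
      have e0 : ∀ V : ℕ → Fin 3 → ℝ, arcPt V x 1 0 = sidePt V x := fun V => by simp [arcPt]
      have e2 : ∀ V : ℕ → Fin 3 → ℝ, arcPt V x 1 (0 + 2) = sidePt V (x + 1) := fun V => by
        simp [arcPt]
      rw [e0, e2, e0, e2]
      refine ⟨1 / √(5 + 4 * dt (U x) (U (x + 1))) * (1 / √(5 + 4 * dt (U (x + 1)) (U (x + 1 + 1))) *
          dt (U x) (U (x + 1))) + 2 / √(5 + 4 * dt (U x) (U (x + 1))) *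
          (1 / √(5 + 4 * dt (U (x + 1)) (U (x + 1 + 1))) +
          2 / √(5 + 4 * dt (U (x + 1)) (U (x + 1 + 1))) * dt (U (x + 1)) (U (x + 1 + 1))),
        1 / √(5 + 4 * dt (U x) (U (x + 1))) * (2 / √(5 + 4 * dt (U (x + 1)) (U (x + 1 + 1)))),
        mul_pos (hc x) (hc2 (x + 1)), ?_, ?_⟩
      · rw [sidePt, sidePt, dt_add_smul, dt_add_smul', dt_add_smul', hU.unit]
        have : x + 0 + 2 = x + 1 + 1 := by ring
        rw [this, add_zero]
        ring
      · rw [sidePt, sidePt, dt_add_smul, dt_add_smul', dt_add_smul', hU'.unit]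
        have : x + 0 + 2 = x + 1 + 1 := by ring
        rw [this, add_zero, ← hs x, ← hs (x + 1)]
        ring
    · have e0 : ∀ V : ℕ → Fin 3 → ℝ, arcPt V x n 0 = sidePt V x := fun V => by simp [arcPt]
      have e2 : ∀ V : ℕ → Fin 3 → ℝ, arcPt V x n (0 + 2) = V (x + 1 + 1) := fun V => by
        simp [arcPt, h1, add_assoc]
      rw [e0, e2, e0, e2]
      refine ⟨2 / √(5 + 4 * dt (U x) (U (x + 1))) * dt (U (x + 1)) (U (x + 1 + 1)),
        1 / √(5 + 4 * dt (U x) (U (x + 1))), hc x, ?_, ?_⟩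
      · rw [sidePt, dt_add_smul]
        have : x + 0 + 2 = x + 1 + 1 := by ring
        rw [this, add_zero]
        ring
      · rw [sidePt, dt_add_smul]
        have : x + 0 + 2 = x + 1 + 1 := by ring
        rw [this, add_zero, ← hs x, ← hs (x + 1)]
        ring
  · have hi0 : i ≠ 0 := by omega
    have hin : i ≤ n := by omega
    have e0 : ∀ V : ℕ → Fin 3 → ℝ, arcPt V x n i = V (x + i) := fun V => by
      simp [arcPt, hi0, hin]
    rcases Nat.lt_or_ge n (i + 2) with h1 | h1
    · have e2 : ∀ V : ℕ → Fin 3 → ℝ, arcPt V x n (i + 2) = sidePt V (x + i + 1) := fun V => by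
        have h2 : ¬ (i + 2 ≤ n) := by omega
        have h3 : n = i + 1 := by omega
        simp [arcPt, h3, add_assoc]
      rw [e0, e2, e0, e2]
      refine ⟨1 / √(5 + 4 * dt (U (x + i + 1)) (U (x + i + 1 + 1))) * dt (U (x + i)) (U (x + i + 1)),
        2 / √(5 + 4 * dt (U (x + i + 1)) (U (x + i + 1 + 1))), hc2 _, ?_, ?_⟩
      · rw [sidePt, dt_add_smul']
      · rw [sidePt, dt_add_smul', ← hs (x + i), ← hs (x + i + 1)]
    · have e2 : ∀ V : ℕ → Fin 3 → ℝ, arcPt V x n (i + 2) = V (x + i + 2) := fun V => by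
        simp [arcPt, h1, add_assoc]
      rw [e0, e2, e0, e2]
      exact ⟨0, 1, one_pos, by ring, by ring⟩

/-- The arm lemma for the arc with vertices `x + 1, …, x + n`. -/
theorem arc {k : ℕ} (hk : 3 ≤ k) {U U' : ℕ → Fin 3 → ℝ} (hU : Poly k U) (hU' : Poly k U')
    (hs : ∀ i, dt (U i) (U (i + 1)) = dt (U' i) (U' (i + 1))) {x n : ℕ} (hn : 1 ≤ n) (hnk : n < k)
    (hang : ∀ i, i < n → dt (U' (x + i)) (U' (x + i + 2)) ≤ dt (U (x + i)) (U (x + i + 2))) :
    dt (sidePt U' x) (sidePt U' (x + n)) ≤ dt (sidePt U x) (sidePt U (x + n)) ∧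
      (dt (sidePt U' x) (sidePt U' (x + n)) = dt (sidePt U x) (sidePt U (x + n)) →
        ∀ i, i < n → dt (U' (x + i)) (U' (x + i + 2)) = dt (U (x + i)) (U (x + i + 2))) := by
  have h := arm (n := n + 1) (by omega) (arc_chain hk hU hn hnk (x := x))
    (arc_chain hk hU' hn hnk (x := x)) (by
      intro i hi
      rcases Nat.eq_zero_or_pos i with h0 | h0
      · subst h0
        have e0 : ∀ V : ℕ → Fin 3 → ℝ, arcPt V x n 0 = sidePt V x := fun V => by simp [arcPt]
        have e1 : ∀ V : ℕ → Fin 3 → ℝ, arcPt V x n (0 + 1) = V (x + 1) := fun V => by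
          simp [arcPt, hn]
        rw [e0, e1, e0, e1]
        exact sidePt_dt_right hs hU hU' x
      · have hi0 : i ≠ 0 := by omega
        have hin : i ≤ n := by omega
        have e0 : ∀ V : ℕ → Fin 3 → ℝ, arcPt V x n i = V (x + i) := fun V => by
          simp [arcPt, hi0, hin]
        rcases Nat.lt_or_ge n (i + 1) with h1 | h1
        · have e1 : ∀ V : ℕ → Fin 3 → ℝ, arcPt V x n (i + 1) = sidePt V (x + i) := fun V => by
            have h3 : n = i := by omega
            simp [arcPt, h3]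
          rw [e0, e1, e0, e1]
          exact sidePt_dt_left hs hU hU' (x + i)
        · have e1 : ∀ V : ℕ → Fin 3 → ℝ, arcPt V x n (i + 1) = V (x + i + 1) := fun V => by
            simp [arcPt, h1, add_assoc]
          rw [e0, e1, e0, e1]
          exact hs _) (by
      intro i hi
      obtain ⟨A, B, hB, h1, h2⟩ := arc_angle hU hU' hs x n hn i (by omega)
      rw [h1, h2]
      have := hang i (by omega)
      have := mul_le_mul_of_nonneg_left this hB.le
      linarith)
  have e0 : ∀ V : ℕ → Fin 3 → ℝ, arcPt V x n 0 = sidePt V x := fun V => by simp [arcPt]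
  have e1 : ∀ V : ℕ → Fin 3 → ℝ, arcPt V x n (n + 1) = sidePt V (x + n) := fun V => by
    simp [arcPt]
  rw [e0, e1, e0, e1] at h
  refine ⟨h.1, fun he i hi => ?_⟩
  have h3 := h.2 he i (by omega)
  obtain ⟨A, B, hB, h1, h2⟩ := arc_angle hU hU' hs x n hn i hi
  rw [h1, h2] at h3
  have h4 : B * dt (U' (x + i)) (U' (x + i + 2)) = B * dt (U (x + i)) (U (x + i + 2)) := by
    linarith
  exact mul_left_cancel₀ hB.ne' h4

theorem Poly.per_mul {k : ℕ} {U : ℕ → Fin 3 → ℝ} (hU : Poly k U) (i m : ℕ) :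
    U (i + m * k) = U i := by
  induction m with
  | zero => simp
  | succ m ih =>
    have : i + (m + 1) * k = i + m * k + k := by ring
    rw [this, hU.per, ih]

/-- Two arcs with opposite changes of the angles. -/
theorem two_arcs {k : ℕ} (hk : 3 ≤ k) {U U' : ℕ → Fin 3 → ℝ} (hU : Poly k U) (hU' : Poly k U')
    (hs : ∀ i, dt (U i) (U (i + 1)) = dt (U' i) (U' (i + 1))) {x n : ℕ} (hn : 1 ≤ n) (hnk : n < k)
    (h1 : ∀ i, i < n → dt (U' (x + i)) (U' (x + i + 2)) ≤ dt (U (x + i)) (U (x + i + 2)))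
    (h2 : ∀ i, n ≤ i → i < k → dt (U (x + i)) (U (x + i + 2)) ≤ dt (U' (x + i)) (U' (x + i + 2))) :
    ∀ i, i < k → dt (U' (x + i)) (U' (x + i + 2)) = dt (U (x + i)) (U (x + i + 2)) := by
  have a1 := arc hk hU hU' hs hn hnk h1
  have a2 := arc (x := x + n) (n := k - n) hk hU' hU (fun i => (hs i).symm) (by omega) (by omega) (by
    intro i hi
    have := h2 (n + i) (by omega) (by omega)
    simpa only [add_assoc] using this)
  have e : x + n + (k - n) = x + k := by omega
  rw [e, sidePt_per hU, sidePt_per hU', dt_comm (sidePt U (x + n)) (sidePt U x),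
    dt_comm (sidePt U' (x + n)) (sidePt U' x)] at a2
  intro i hi
  rcases Nat.lt_or_ge i n with h | h
  · exact a1.2 (le_antisymm a1.1 a2.1) i h
  · have := a2.2 (le_antisymm a2.1 a1.1) (i - n) (by omega)
    have e2 : x + n + (i - n) = x + i := by omega
    rw [e2] at this
    exact this.symm

/-- All angles change in the same direction. -/
theorem one_sign {k : ℕ} (hk : 3 ≤ k) {U U' : ℕ → Fin 3 → ℝ} (hU : Poly k U) (hU' : Poly k U')
    (hs : ∀ i, dt (U i) (U (i + 1)) = dt (U' i) (U' (i + 1)))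
    (h1 : ∀ i, dt (U' i) (U' (i + 2)) ≤ dt (U i) (U (i + 2))) :
    ∀ i, dt (U' i) (U' (i + 2)) = dt (U i) (U (i + 2)) := by
  intro x
  have hch : ∀ {V : ℕ → Fin 3 → ℝ}, Poly k V → Chain (k - 1) (fun i => V (x + i)) := by
    intro V hV
    exact ⟨fun i _ => hV.unit _, fun i j l hij hjl hl => hV.conv _ _ _ (by omega) (by omega)
      (by omega)⟩
  have h := arm (n := k - 1) (by omega) (hch hU) (hch hU') (fun i _ => hs (x + i))
    (fun i _ => h1 (x + i))
  refine h.2 ?_ 0 (by omega)
  have e : ∀ {V : ℕ → Fin 3 → ℝ}, Poly k V → dt (V (x + 0)) (V (x + (k - 1))) =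
      dt (V (x + (k - 1))) (V (x + (k - 1) + 1)) := by
    intro V hV
    have e1 : x + (k - 1) + 1 = x + k := by omega
    rw [e1, hV.per, add_zero, dt_comm]
  rw [e hU, e hU', hs]

/-- The change of the angle at the vertex `j` (positive: the angle is larger in `U'`). -/
noncomputable def tau (k : ℕ) (U U' : ℕ → Fin 3 → ℝ) (j : ℕ) : ℝ :=
  dt (U (j + k - 1)) (U (j + k + 1)) - dt (U' (j + k - 1)) (U' (j + k + 1))

theorem tau_per {k : ℕ} (hk : 3 ≤ k) {U U' : ℕ → Fin 3 → ℝ} (hU : Poly k U) (hU' : Poly k U')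
    (j : ℕ) : tau k U U' (j + k) = tau k U U' j := by
  have e1 : j + k + k - 1 = j + k - 1 + k := by omega
  have e2 : j + k + k + 1 = j + k + 1 + k := by omega
  rw [tau, tau, e1, e2, hU.per, hU.per, hU'.per, hU'.per]

theorem tau_swap (k : ℕ) (U U' : ℕ → Fin 3 → ℝ) (j : ℕ) : tau k U' U j = - tau k U U' j := by
  rw [tau, tau]; ring

theorem eq_of_tau {k : ℕ} (hk : 3 ≤ k) {U U' : ℕ → Fin 3 → ℝ} (hU : Poly k U) (hU' : Poly k U')
    (i : ℕ) : dt (U i) (U (i + 2)) - dt (U' i) (U' (i + 2)) = tau k U U' (i + 1) := by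
  have e1 : i + 1 + k - 1 = i + k := by omega
  have e2 : i + 1 + k + 1 = i + 2 + k := by omega
  rw [tau, e1, e2, hU.per, hU.per, hU'.per, hU'.per]

theorem mixed {k : ℕ} (hk : 3 ≤ k) {U U' : ℕ → Fin 3 → ℝ} (hU : Poly k U) (hU' : Poly k U')
    (hs : ∀ i, dt (U i) (U (i + 1)) = dt (U' i) (U' (i + 1))) {a : ℕ} (_ : a < k)
    (ha : 0 < tau k U U' a) (ha' : ∀ j, j < a → tau k U U' j = 0)
    (hneg : ∃ j, j < k ∧ tau k U U' j < 0)
    (hno : ∀ b c d, a < b → b < c → c < d → d < k →
      ¬ (tau k U U' b < 0 ∧ 0 < tau k U U' c ∧ tau k U U' d < 0)) :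
    ∀ i, dt (U' i) (U' (i + 2)) = dt (U i) (U (i + 2)) := by
  classical
  obtain ⟨hbk, hb⟩ := Nat.find_spec hneg
  have hbmin : ∀ j, j < Nat.find hneg → 0 ≤ tau k U U' j := by
    intro j hj
    have := Nat.find_min hneg hj
    by_contra hcon
    push Not at hcon
    exact this ⟨by omega, hcon⟩
  have hab : a < Nat.find hneg := by
    by_contra hcon
    push Not at hcon
    rcases lt_or_eq_of_le hcon with h | h
    · rw [ha' _ h] at hb; exact lt_irrefl _ hb
    · rw [h] at hb; linarith
  generalize Nat.find hneg = b at *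
  -- the last negative index
  obtain ⟨c, hbc, hck, hc, hcmax⟩ : ∃ c, b ≤ c ∧ c < k ∧ tau k U U' c < 0 ∧
      ∀ j, c < j → j < k → 0 ≤ tau k U U' j := by
    refine ⟨Nat.findGreatest (fun j => tau k U U' j < 0) (k - 1),
      Nat.le_findGreatest (by omega) hb, ?_, Nat.findGreatest_spec (P := fun j => tau k U U' j < 0)
        (m := b) (by omega) hb, ?_⟩
    · have := Nat.findGreatest_le (P := fun j => tau k U U' j < 0) (k - 1)
      omega
    · intro j hj hjk
      by_contra hcon
      push Not at hcon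
      have := Nat.le_findGreatest (P := fun j => tau k U U' j < 0) (n := k - 1) (m := j)
        (by omega) hcon
      omega
  have hmid : ∀ j, b ≤ j → j ≤ c → tau k U U' j ≤ 0 := by
    intro j h1 h2
    by_contra hcon
    push Not at hcon
    have h3 : b ≠ j := by rintro rfl; linarith
    have h4 : j ≠ c := by rintro rfl; linarith
    exact hno b j c hab (by omega) (by omega) hck ⟨hb, hcon, hc⟩
  have htau : ∀ i, dt (U (b + k - 1 + i)) (U (b + k - 1 + i + 2)) -
      dt (U' (b + k - 1 + i)) (U' (b + k - 1 + i + 2)) = tau k U U' (b + i) := by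
    intro i
    have e1 : b + k - 1 + i = b + i + k - 1 := by omega
    have e2 : b + i + k - 1 + 2 = b + i + k + 1 := by omega
    rw [e1, e2, tau]
  have h := two_arcs hk hU' hU (fun i => (hs i).symm) (x := b + k - 1) (n := c + 1 - b) (by omega)
    (by omega) (by
      intro i hi
      have h1 := htau i
      have h2 := hmid (b + i) (by omega) (by omega)
      linarith) (by
      intro i hi1 hi2
      have h1 := htau i
      have h2 : 0 ≤ tau k U U' (b + i) := by
        rcases Nat.lt_or_ge (b + i) k with h3 | h3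
        · exact hcmax _ (by omega) h3
        · have e : b + i = b + i - k + k := by omega
          rw [e, tau_per hk hU hU']
          exact hbmin _ (by omega)
      linarith)
  have h5 : ∀ i, i < k → tau k U U' (b + i) = 0 := by
    intro i hi
    rw [← htau i, h i hi]; ring
  have h6 : ∀ j, tau k U U' j = 0 := by
    have hper : ∀ m j, tau k U U' (j + m * k) = tau k U U' j := by
      intro m j
      induction m with
      | zero => simp
      | succ m ih =>
        have : j + (m + 1) * k = j + m * k + k := by ring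
        rw [this, tau_per hk hU hU', ih]
    intro j
    have h7 : b ≤ b * k := Nat.le_mul_of_pos_right b (by omega)
    have h8 := Nat.div_add_mod (j + b * k - b) k
    have h9 : j + b * k = b + (j + b * k - b) % k + (j + b * k - b) / k * k := by
      have : k * ((j + b * k - b) / k) = (j + b * k - b) / k * k := Nat.mul_comm _ _
      omega
    rw [← hper b j, h9, hper]
    exact h5 _ (Nat.mod_lt _ (by omega))
  intro i
  have h7 := eq_of_tau hk hU hU' i
  rw [h6] at h7
  linarith

theorem sign_nat {k : ℕ} (hk : 3 ≤ k) {U U' : ℕ → Fin 3 → ℝ} (hU : Poly k U) (hU' : Poly k U')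
    (hs : ∀ i, dt (U i) (U (i + 1)) = dt (U' i) (U' (i + 1)))
    (hno : ∀ a b c d, a < b → b < c → c < d → d < k →
      ¬ (0 < tau k U U' a ∧ tau k U U' b < 0 ∧ 0 < tau k U U' c ∧ tau k U U' d < 0) ∧
      ¬ (tau k U U' a < 0 ∧ 0 < tau k U U' b ∧ tau k U U' c < 0 ∧ 0 < tau k U U' d)) :
    ∀ i, dt (U' i) (U' (i + 2)) = dt (U i) (U (i + 2)) := by
  classical
  have hall : ∀ {V V' : ℕ → Fin 3 → ℝ}, Poly k V → Poly k V' →
      (∀ j, j < k → 0 ≤ tau k V V' j) → ∀ i, dt (V' i) (V' (i + 2)) ≤ dt (V i) (V (i + 2)) := by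
    intro V V' hV hV' h i
    have h1 := eq_of_tau hk hV hV' i
    have hper : ∀ m j, tau k V V' (j + m * k) = tau k V V' j := by
      intro m j
      induction m with
      | zero => simp
      | succ m ih =>
        have : j + (m + 1) * k = j + m * k + k := by ring
        rw [this, tau_per hk hV hV', ih]
    have h2 : i + 1 = (i + 1) % k + (i + 1) / k * k := (Nat.mod_add_div' (i + 1) k).symm
    rw [h2, hper] at h1
    have := h _ (Nat.mod_lt (i + 1) (show 0 < k by omega))
    linarith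
  by_cases hpos : ∃ j, j < k ∧ 0 < tau k U U' j
  · by_cases hneg : ∃ j, j < k ∧ tau k U U' j < 0
    · have hne : ∃ j, j < k ∧ tau k U U' j ≠ 0 := by
        obtain ⟨j, h1, h2⟩ := hpos
        exact ⟨j, h1, h2.ne'⟩
      obtain ⟨hak, ha⟩ := Nat.find_spec hne
      have hmin : ∀ j, j < Nat.find hne → tau k U U' j = 0 := by
        intro j hj
        by_contra hcon
        exact Nat.find_min hne hj ⟨by omega, hcon⟩
      rcases lt_or_gt_of_ne ha with h | h
      · -- first label negative: exchange the polygons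
        intro i
        refine (mixed hk hU' hU (fun i => (hs i).symm) hak ?_ ?_ ?_ ?_ i).symm
        · rw [tau_swap]; linarith
        · intro j hj
          rw [tau_swap, hmin j hj, neg_zero]
        · obtain ⟨j, h1, h2⟩ := hpos
          exact ⟨j, h1, by rw [tau_swap]; linarith⟩
        · intro b c d h1 h2 h3 h4
          simp only [tau_swap k U U']
          rintro ⟨h5, h6, h7⟩
          exact (hno _ b c d h1 h2 h3 h4).2 ⟨h, by linarith, by linarith, by linarith⟩
      · exact mixed hk hU hU' hs hak h hmin hneg (fun b c d h1 h2 h3 h4 ⟨h5, h6, h7⟩ =>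
          (hno _ b c d h1 h2 h3 h4).1 ⟨h, h5, h6, h7⟩)
    · push Not at hneg
      exact one_sign hk hU hU' hs (hall hU hU' hneg)
  · push Not at hpos
    intro i
    refine (one_sign hk hU' hU (fun i => (hs i).symm) (hall hU' hU ?_) i).symm
    intro j hj
    rw [tau_swap]
    have := hpos j hj
    linarith

/-! ### Polygons indexed by `Fin k` -/

open Matrix in
/-- The unit normal of the plane through `u i` and `u (i + 1)`. -/
noncomputable def nrm {k : ℕ} [NeZero k] (u : Fin k → Fin 3 → ℝ) (i : Fin k) : Fin 3 → ℝ :=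
  (1 / √((u i ⨯₃ u (i + 1)) ⬝ᵥ (u i ⨯₃ u (i + 1)))) • (u i ⨯₃ u (i + 1))

open Matrix in
/-- The sign of the change of the interior dihedral angle at the ray `u i` (positive: the angle is
larger in `u'`). -/
noncomputable def label {k : ℕ} [NeZero k] (u u' : Fin k → Fin 3 → ℝ) (i : Fin k) : SignType :=
  SignType.sign (nrm u' (i - 1) ⬝ᵥ nrm u' i - nrm u (i - 1) ⬝ᵥ nrm u i)

open Matrix in
theorem dt_eq (x y : Fin 3 → ℝ) : x ⬝ᵥ y = dt x y := by
  simp [dt, dotProduct, Fin.sum_univ_three]

open Matrix in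
theorem tp_eq (x y z : Fin 3 → ℝ) : x ⬝ᵥ (y ⨯₃ z) = tp x y z := by
  rw [dt_eq, cross_apply]
  simp only [dt, tp, Matrix.cons_val_zero, Matrix.cons_val_one, Matrix.cons_val]
  ring

open Matrix in
theorem nrm_dt {k : ℕ} [NeZero k] (u : Fin k → Fin 3 → ℝ) (hu : ∀ i, dt (u i) (u i) = 1)
    (i : Fin k) : nrm u (i - 1) ⬝ᵥ nrm u i =
      (dt (u (i - 1)) (u i) * dt (u i) (u (i + 1)) - dt (u (i - 1)) (u (i + 1))) /
      (√(1 - dt (u (i - 1)) (u i) ^ 2) * √(1 - dt (u i) (u (i + 1)) ^ 2)) := by
  have h1 : i - 1 + 1 = i := sub_add_cancel i 1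
  have hc : ∀ x y z w : Fin 3 → ℝ, (x ⨯₃ y) ⬝ᵥ (z ⨯₃ w) = dt x z * dt y w - dt x w * dt y z := by
    intro x y z w
    rw [cross_dot_cross, dt_eq, dt_eq, dt_eq, dt_eq]
  rw [nrm, nrm, smul_dotProduct, dotProduct_smul, h1, hc, hc, hc, hu, hu, hu,
    dt_comm (u i) (u (i - 1)), dt_comm (u (i + 1)) (u i)]
  simp only [smul_eq_mul, mul_one]
  rw [← pow_two, ← pow_two, div_eq_mul_inv, div_eq_mul_inv, div_eq_mul_inv, mul_inv]
  ring

theorem mod_aux {k : ℕ} (i d : ℕ) (hd : d < k) :
    (i + d) % k = if i % k + d < k then i % k + d else i % k + d - k := by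
  have hi : i % k < k := Nat.mod_lt _ (by omega)
  rw [Nat.add_mod, Nat.mod_eq_of_lt hd]
  split_ifs with h
  · exact Nat.mod_eq_of_lt h
  · rw [Nat.mod_eq_sub_mod (by omega), Nat.mod_eq_of_lt (by omega)]

theorem poly_of_fin {k : ℕ} [NeZero k] (u : Fin k → Fin 3 → ℝ) (hu : ∀ i, dt (u i) (u i) = 1)
    (hc : ∀ i j l, i < j → j < l → 0 < tp (u i) (u j) (u l)) :
    Poly k (fun i => u (Fin.ofNat k i)) := by
  refine ⟨fun i => hu _, fun i => ?_, fun i j l hij hjl hl => ?_⟩
  · have : Fin.ofNat k (i + k) = Fin.ofNat k i := by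
      apply Fin.ext
      simp [Fin.ofNat]
    simp only [this]
  · have hk : 0 < k := Nat.pos_of_ne_zero (NeZero.ne k)
    have hi : i % k < k := Nat.mod_lt _ hk
    have ej : j % k = if i % k + (j - i) < k then i % k + (j - i) else i % k + (j - i) - k := by
      rw [← mod_aux i (j - i) (by omega)]; congr 1; omega
    have el : l % k = if i % k + (l - i) < k then i % k + (l - i) else i % k + (l - i) - k := by
      rw [← mod_aux i (l - i) (by omega)]; congr 1; omega
    have vi : (Fin.ofNat k i).val = i % k := rfl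
    have vj : (Fin.ofNat k j).val = j % k := rfl
    have vl : (Fin.ofNat k l).val = l % k := rfl
    split_ifs at ej with h1
    · split_ifs at el with h2
      · exact hc _ _ _ (Fin.lt_def.2 (by omega)) (Fin.lt_def.2 (by omega))
      · rw [← tp_rot]
        exact hc _ _ _ (Fin.lt_def.2 (by omega)) (Fin.lt_def.2 (by omega))
    · have h2 : ¬ (i % k + (l - i) < k) := by omega
      rw [if_neg h2] at el
      rw [tp_rot]
      exact hc _ _ _ (Fin.lt_def.2 (by omega)) (Fin.lt_def.2 (by omega))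

/-- The indices in `Fin k`. -/
theorem ofNat_pred {k : ℕ} [NeZero k] (hk : 3 ≤ k) (j : Fin k) :
    Fin.ofNat k (j.val + k - 1) = j - 1 := by
  apply Fin.ext
  rw [Fin.sub_def]
  have h1 : (1 : Fin k).val = 1 := by
    rw [Fin.val_one']; exact Nat.mod_eq_of_lt (by omega)
  simp only [Fin.ofNat, h1]
  congr 1; omega

theorem ofNat_self {k : ℕ} [NeZero k] (j : Fin k) : Fin.ofNat k (j.val + k) = j := by
  apply Fin.ext
  simp only [Fin.ofNat, Nat.add_mod_right]
  exact Nat.mod_eq_of_lt j.isLt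

theorem ofNat_succ' {k : ℕ} [NeZero k] (hk : 3 ≤ k) (j : ℕ) :
    Fin.ofNat k (j + 1) = Fin.ofNat k j + 1 := by
  apply Fin.ext
  rw [Fin.val_add]
  have h1 : (1 : Fin k).val = 1 := by
    rw [Fin.val_one']; exact Nat.mod_eq_of_lt (by omega)
  simp only [Fin.ofNat, h1, Nat.mod_add_mod]

open Matrix in
/-- The label is the sign of the difference of the scalar products `⟨u (i-1), u (i+1)⟩`. -/
theorem label_eq {k : ℕ} [NeZero k] (hk : 3 ≤ k) (u u' : Fin k → Fin 3 → ℝ)
    (hu : ∀ i, dt (u i) (u i) = 1) (hu' : ∀ i, dt (u' i) (u' i) = 1)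
    (hc : ∀ i j l, i < j → j < l → 0 < tp (u i) (u j) (u l))
    (hs : ∀ i, dt (u i) (u (i + 1)) = dt (u' i) (u' (i + 1))) (i : Fin k) :
    label u u' i =
      SignType.sign (dt (u (i - 1)) (u (i + 1)) - dt (u' (i - 1)) (u' (i + 1))) := by
  have hP := poly_of_fin u hu hc
  have e0 : i - 1 + 1 = i := sub_add_cancel i 1
  have h1 : 0 < tp (u (i - 1)) (u i) (u (i + 1)) := by
    have := hP.conv (i.val + k - 1) (i.val + k) (i.val + k + 1) (by omega) (by omega) (by omega)
    rw [ofNat_pred hk, ofNat_self, ofNat_succ' hk, ofNat_self] at this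
    exact this
  have h2 : 0 < 1 - dt (u (i - 1)) (u i) ^ 2 :=
    one_sub_sq_pos (u (i + 1)) _ _ (hu _) (hu _) (by rw [tp_rot]; exact h1.ne')
  have h3 : 0 < 1 - dt (u i) (u (i + 1)) ^ 2 :=
    one_sub_sq_pos (u (i - 1)) _ _ (hu _) (hu _) h1.ne'
  have hs1 : dt (u' (i - 1)) (u' i) = dt (u (i - 1)) (u i) := by
    have := hs (i - 1)
    rw [e0] at this
    exact this.symm
  rw [label, nrm_dt u hu, nrm_dt u' hu', hs1, ← hs i, ← sub_div]
  have hD : 0 < √(1 - dt (u (i - 1)) (u i) ^ 2) * √(1 - dt (u i) (u (i + 1)) ^ 2) :=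
    mul_pos (Real.sqrt_pos.2 h2) (Real.sqrt_pos.2 h3)
  rw [show dt (u (i - 1)) (u i) * dt (u i) (u (i + 1)) - dt (u' (i - 1)) (u' (i + 1)) -
    (dt (u (i - 1)) (u i) * dt (u i) (u (i + 1)) - dt (u (i - 1)) (u (i + 1))) =
    dt (u (i - 1)) (u (i + 1)) - dt (u' (i - 1)) (u' (i + 1)) by ring]
  generalize dt (u (i - 1)) (u (i + 1)) - dt (u' (i - 1)) (u' (i + 1)) = t at *
  generalize √(1 - dt (u (i - 1)) (u i) ^ 2) * √(1 - dt (u i) (u (i + 1)) ^ 2) = D at *
  rcases lt_trichotomy t 0 with h | h | h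
  · rw [sign_neg h, sign_neg (div_neg_of_neg_of_pos h hD)]
  · rw [h, zero_div]
  · rw [sign_pos h, sign_pos (div_pos h hD)]

open Matrix in
/-- **The sign lemma of Cauchy and Legendre for convex spherical polygons.** Two strictly convex
spherical polygons (given by unit vectors `u i`, `u' i` on the rays of pointed cones in their cyclic
order) with equal sides: if the labels (signs of the changes of the angles) do not alternate at
least four times, then all of them vanish. -/
theorem sphere_sign {k : ℕ} [NeZero k] (hk : 3 ≤ k) (u u' : Fin k → Fin 3 → ℝ)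
    (hu : ∀ i, u i ⬝ᵥ u i = 1) (hu' : ∀ i, u' i ⬝ᵥ u' i = 1)
    (hc : ∀ i j l, i < j → j < l → 0 < u i ⬝ᵥ (u j ⨯₃ u l))
    (hc' : ∀ i j l, i < j → j < l → 0 < u' i ⬝ᵥ (u' j ⨯₃ u' l))
    (hs : ∀ i, u i ⬝ᵥ u (i + 1) = u' i ⬝ᵥ u' (i + 1))
    (hno : ¬ ∃ a b c d : Fin k, a < b ∧ b < c ∧ c < d ∧
      ((label u u' a = 1 ∧ label u u' b = -1 ∧ label u u' c = 1 ∧ label u u' d = -1) ∨
        (label u u' a = -1 ∧ label u u' b = 1 ∧ label u u' c = -1 ∧ label u u' d = 1))) :
    (∀ i, label u u' i = 0) ∧ ∀ i, u (i - 1) ⬝ᵥ u (i + 1) = u' (i - 1) ⬝ᵥ u' (i + 1) := by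
  simp only [tp_eq] at hc hc'
  simp only [dt_eq] at hu hu' hs
  have hP := poly_of_fin u hu hc
  have hP' := poly_of_fin u' hu' hc'
  have hlab := label_eq hk u u' hu hu' hc hs
  have htau : ∀ j : Fin k, tau k (fun i => u (Fin.ofNat k i)) (fun i => u' (Fin.ofNat k i)) j.val =
      dt (u (j - 1)) (u (j + 1)) - dt (u' (j - 1)) (u' (j + 1)) := by
    intro j
    simp only [tau]
    rw [ofNat_pred hk, ofNat_succ' hk, ofNat_self]
  have hpos : ∀ j : Fin k,
      0 < tau k (fun i => u (Fin.ofNat k i)) (fun i => u' (Fin.ofNat k i)) j.val →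
      label u u' j = 1 := by
    intro j h
    rw [hlab, ← htau, sign_pos h]
  have hneg : ∀ j : Fin k,
      tau k (fun i => u (Fin.ofNat k i)) (fun i => u' (Fin.ofNat k i)) j.val < 0 →
      label u u' j = -1 := by
    intro j h
    rw [hlab, ← htau, sign_neg h]
  have hfin := sign_nat hk hP hP' (fun i => by
      simp only [ofNat_succ' hk]
      exact hs _) (by
    intro a b c d hab hbc hcd hdk
    constructor
    · rintro ⟨h1, h2, h3, h4⟩
      exact hno ⟨⟨a, by omega⟩, ⟨b, by omega⟩, ⟨c, by omega⟩, ⟨d, hdk⟩, Fin.lt_def.2 hab,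
        Fin.lt_def.2 hbc, Fin.lt_def.2 hcd,
        Or.inl ⟨hpos ⟨a, by omega⟩ h1, hneg ⟨b, by omega⟩ h2, hpos ⟨c, by omega⟩ h3,
          hneg ⟨d, hdk⟩ h4⟩⟩
    · rintro ⟨h1, h2, h3, h4⟩
      exact hno ⟨⟨a, by omega⟩, ⟨b, by omega⟩, ⟨c, by omega⟩, ⟨d, hdk⟩, Fin.lt_def.2 hab,
        Fin.lt_def.2 hbc, Fin.lt_def.2 hcd,
        Or.inr ⟨hneg ⟨a, by omega⟩ h1, hpos ⟨b, by omega⟩ h2, hneg ⟨c, by omega⟩ h3,
          hpos ⟨d, hdk⟩ h4⟩⟩)
  have hall : ∀ i : Fin k, dt (u (i - 1)) (u (i + 1)) = dt (u' (i - 1)) (u' (i + 1)) := by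
    intro i
    have h1 := hfin (i.val + k - 1)
    have e1 : i.val + k - 1 + 2 = i.val + k + 1 := by omega
    simp only [e1] at h1
    rw [ofNat_pred hk, ofNat_succ' hk, ofNat_self] at h1
    exact h1.symm
  refine ⟨fun i => ?_, fun i => ?_⟩
  · rw [hlab, hall i, sub_self, _root_.sign_zero]
  · rw [dt_eq, dt_eq]
    exact hall i

end Pool.Agent.SphereSign
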