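import Mathlib
import Pool.Agent.Work.MP_43c1cf_co.SphereSign

/-!
# The sign lemma for spherical polygons given by the facet normals of a cone
-/

set_option autoImplicit false

namespace Pool.Agent.Work.MP_43c1cf_co

open Matrix Pool.Agent.SphereSign

/-- A vector orthogonal to two independent vectors is a multiple of their cross product. -/
theorem eq_smul_cross (a b n : Fin 3 → ℝ) (h : LinearIndependent ℝ ![a, b])
    (ha : n ⬝ᵥ a = 0) (hb : n ⬝ᵥ b = 0) : ∃ t : ℝ, n = t • (a ⨯₃ b) := by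
  have hc : a ⨯₃ b ≠ 0 := crossProduct_ne_zero_iff_linearIndependent.2 h
  have hcc : (a ⨯₃ b) ⬝ᵥ (a ⨯₃ b) ≠ 0 := fun h0 => hc (dotProduct_self_eq_zero.1 h0)
  refine ⟨(n ⬝ᵥ (a ⨯₃ b)) / ((a ⨯₃ b) ⬝ᵥ (a ⨯₃ b)), ?_⟩
  have e : ∀ j, ((a ⨯₃ b) ⬝ᵥ (a ⨯₃ b)) * n j = (n ⬝ᵥ (a ⨯₃ b)) * (a ⨯₃ b) j := by
    intro j
    simp only [dotProduct, Fin.sum_univ_three] at ha hb
    simp only [cross_apply, dotProduct, Fin.sum_univ_three]
    fin_cases j
    · simp only [Fin.zero_eta, Fin.isValue, Matrix.cons_val_zero, Matrix.cons_val_one,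
        Matrix.cons_val]
      linear_combination (b 0 * (a 0 * b 0 + a 1 * b 1 + a 2 * b 2) * 0 +
        (a 0 * (b 0 * b 0 + b 1 * b 1 + b 2 * b 2) - b 0 * (a 0 * b 0 + a 1 * b 1 + a 2 * b 2))) * ha
        + (b 0 * (a 0 * a 0 + a 1 * a 1 + a 2 * a 2) - a 0 * (a 0 * b 0 + a 1 * b 1 + a 2 * b 2)) * hb
    · simp only [Fin.mk_one, Fin.isValue, Matrix.cons_val_zero, Matrix.cons_val_one,
        Matrix.cons_val]
      linear_combination
        (a 1 * (b 0 * b 0 + b 1 * b 1 + b 2 * b 2) - b 1 * (a 0 * b 0 + a 1 * b 1 + a 2 * b 2)) * ha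
        + (b 1 * (a 0 * a 0 + a 1 * a 1 + a 2 * a 2) - a 1 * (a 0 * b 0 + a 1 * b 1 + a 2 * b 2)) * hb
    · simp only [Fin.reduceFinMk, Fin.isValue, Matrix.cons_val_zero, Matrix.cons_val_one,
        Matrix.cons_val]
      linear_combination
        (a 2 * (b 0 * b 0 + b 1 * b 1 + b 2 * b 2) - b 2 * (a 0 * b 0 + a 1 * b 1 + a 2 * b 2)) * ha
        + (b 2 * (a 0 * a 0 + a 1 * a 1 + a 2 * a 2) - a 2 * (a 0 * b 0 + a 1 * b 1 + a 2 * b 2)) * hb
  funext j
  rw [Pi.smul_apply, smul_eq_mul, div_mul_eq_mul_div, eq_div_iff hcc, mul_comm (n j)]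
  exact e j

/-- Strict convexity from the facets. -/
theorem convex_of_facets {k : ℕ} [NeZero k] (hk : 3 ≤ k) (v : Fin k → Fin 3 → ℝ)
    (h : ∀ i j, j ≠ i → j ≠ i + 1 → 0 < tp (v i) (v (i + 1)) (v j)) (i j l : Fin k)
    (hij : i < j) (hjl : j < l) : 0 < tp (v i) (v j) (v l) := by
  have hsucc : ∀ (n : ℕ) (hn : n + 1 < k), (⟨n, by omega⟩ : Fin k) + 1 = ⟨n + 1, hn⟩ := by
    intro n hn
    apply Fin.ext
    rw [Fin.val_add]
    have h1 : (1 : Fin k).val = 1 := by
      rw [Fin.val_one']; exact Nat.mod_eq_of_lt (by omega)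
    simp only [h1]
    exact Nat.mod_eq_of_lt hn
  have h1 : ∀ m : Fin k, i.val + 1 < m.val → 0 < tp (v i) (v (i + 1)) (v m) := by
    intro m hm
    have hi := hsucc i.val (by omega)
    refine h i m (fun e => by rw [e] at hm; omega) (fun e => ?_)
    rw [e] at hm
    have : (i + 1 : Fin k).val = i.val + 1 := by rw [show i + 1 = _ from hi]
    omega
  have h2 : ∀ m m' : Fin k, i < m → m'.val = m.val + 1 → 0 < tp (v i) (v m) (v m') := by
    intro m m' hm hm'
    have e : m + 1 = m' := by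
      have := hsucc m.val (by omega)
      rw [show m + 1 = _ from this]
      exact Fin.ext hm'.symm
    rw [tp_rot, ← e]
    refine h m i hm.ne (fun e' => ?_)
    rw [e] at e'
    rw [e'] at hm
    have := Fin.lt_def.1 hm
    omega
  have key : ∀ n : ℕ, ∀ hn : j.val + 1 + n < k,
      0 < tp (v i) (v j) (v ⟨j.val + 1 + n, hn⟩) := by
    intro n
    induction n with
    | zero =>
      intro hn
      exact h2 j _ hij rfl
    | succ n ih =>
      intro hn
      have hn' : j.val + 1 + n < k := by omega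
      have ihn := ih hn'
      have hi := hsucc i.val (by have := Fin.lt_def.1 hij; omega)
      have hlt := Fin.lt_def.1 hij
      have e1 : (i + 1 : Fin k).val = i.val + 1 := by rw [show i + 1 = _ from hi]
      have hP := plucker (v i) (v (i + 1)) (v j) (v ⟨j.val + 1 + n, hn'⟩)
        (v ⟨j.val + 1 + (n + 1), hn⟩)
      have p1 : 0 < tp (v i) (v (i + 1)) (v ⟨j.val + 1 + n, hn'⟩) := h1 _ (by simp only; omega)
      have p2 : 0 < tp (v i) (v (i + 1)) (v ⟨j.val + 1 + (n + 1), hn⟩) :=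
        h1 _ (by simp only; omega)
      have p3 : 0 < tp (v i) (v ⟨j.val + 1 + n, hn'⟩) (v ⟨j.val + 1 + (n + 1), hn⟩) :=
        h2 _ _ (Fin.lt_def.2 (by simp only; omega)) (by simp only; omega)
      have p4 : 0 ≤ tp (v i) (v (i + 1)) (v j) := by
        rcases Nat.lt_or_ge (i.val + 1) j.val with h' | h'
        · exact (h1 j h').le
        · have : i + 1 = j := Fin.ext (by omega)
          rw [this, tp_self_right]
      by_contra hneg
      have hneg' := not_lt.1 hneg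
      nlinarith [mul_pos p2 ihn, mul_nonneg p4 p3.le, mul_nonneg p1.le (neg_nonneg.2 hneg')]
  have hjl' := Fin.lt_def.1 hjl
  have := key (l.val - (j.val + 1)) (by omega)
  have e : (⟨j.val + 1 + (l.val - (j.val + 1)), by omega⟩ : Fin k) = l := Fin.ext (by simp only; omega)
  rwa [e] at this

/-- The oriented case. -/
theorem oriented {k : ℕ} [NeZero k] (hk : 3 ≤ k) (v ν : Fin k → Fin 3 → ℝ)
    (hν : ∀ i, ν i ⬝ᵥ ν i = 1) (h0 : ∀ i, ν i ⬝ᵥ v i = 0) (h1 : ∀ i, ν i ⬝ᵥ v (i + 1) = 0)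
    (hlt : ∀ i j, j ≠ i → j ≠ i + 1 → ν i ⬝ᵥ v j < 0)
    (hli : ∀ i, LinearIndependent ℝ ![v i, v (i + 1)])
    (hor : ∀ i, 0 < tp (v i) (v (i + 1)) (v (i + 1 + 1))) :
    (∀ i j l, i < j → j < l → 0 < v i ⬝ᵥ (v j ⨯₃ v l)) ∧
    ∀ i, nrm v (i - 1) ⬝ᵥ nrm v i = ν (i - 1) ⬝ᵥ ν i := by
  have h1v : (1 : Fin k).val = 1 := by
    rw [Fin.val_one']; exact Nat.mod_eq_of_lt (by omega)
  have hne : ∀ i : Fin k, i + 1 + 1 ≠ i ∧ i + 1 + 1 ≠ i + 1 := by
    intro i
    constructor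
    · intro e
      have e2 : (i + 1 + 1).val = i.val := congrArg Fin.val e
      rw [Fin.val_add, Fin.val_add, h1v, Nat.mod_add_mod] at e2
      have hi := i.isLt
      rcases Nat.lt_or_ge (i.val + 1 + 1) k with h | h
      · rw [Nat.mod_eq_of_lt h] at e2; omega
      · rw [Nat.mod_eq_sub_mod h, Nat.mod_eq_of_lt (by omega)] at e2; omega
    · intro e
      have e3 : (i + 1) + 1 = (i + 1) + 0 := by rw [add_zero]; exact e
      have e4 := add_left_cancel e3
      have e5 := congrArg Fin.val e4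
      rw [h1v] at e5
      simp at e5
  choose t ht using fun i => eq_smul_cross (v i) (v (i + 1)) (ν i) (hli i) (h0 i) (h1 i)
  have hdot : ∀ i j, ν i ⬝ᵥ v j = t i * tp (v i) (v (i + 1)) (v j) := by
    intro i j
    rw [ht i, smul_dotProduct, smul_eq_mul, dotProduct_comm, tp_eq, tp_rot]
  have htneg : ∀ i, t i < 0 := by
    intro i
    have := hlt i (i + 1 + 1) (hne i).1 (hne i).2
    rw [hdot] at this
    by_contra hge
    have := mul_nonneg (not_lt.1 hge) (hor i).le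
    linarith
  have hpos : ∀ i j, j ≠ i → j ≠ i + 1 → 0 < tp (v i) (v (i + 1)) (v j) := by
    intro i j hj hj'
    have := hlt i j hj hj'
    rw [hdot] at this
    by_contra hge
    have := mul_nonneg_of_nonpos_of_nonpos (htneg i).le (not_lt.1 hge)
    linarith
  refine ⟨fun i j l hij hjl => ?_, fun i => ?_⟩
  · rw [tp_eq]
    exact convex_of_facets hk v hpos i j l hij hjl
  · have hn : ∀ i, ν i = - nrm v i := by
      intro i
      have hu := hν i
      have hti := ht i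
      have htn := htneg i
      generalize t i = x at hti htn
      rw [nrm]
      generalize v i ⨯₃ v (i + 1) = c at hti ⊢
      rw [hti, smul_dotProduct, dotProduct_smul, smul_eq_mul, smul_eq_mul] at hu
      rw [hti, ← neg_smul]
      congr 1
      have hcc : 0 < c ⬝ᵥ c := by
        rcases lt_or_ge 0 (c ⬝ᵥ c) with h | h
        · exact h
        · exfalso
          have h2 : 0 ≤ x * x := mul_self_nonneg x
          nlinarith
      have hs : √(c ⬝ᵥ c) = 1 / (-x) := by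
        rw [show c ⬝ᵥ c = (1 / (-x)) ^ 2 by
          rw [div_pow, one_pow, neg_sq, eq_div_iff (ne_of_gt (by nlinarith))]
          linarith [hu]]
        exact Real.sqrt_sq (by have : 0 < -x := by linarith
                               positivity)
      rw [hs, one_div_one_div, neg_neg]
    rw [hn, hn, neg_dotProduct, dotProduct_neg, neg_neg]

/-- Reflection in the first coordinate. -/
def refl (x : Fin 3 → ℝ) : Fin 3 → ℝ := ![- x 0, x 1, x 2]

theorem refl_dot (x y : Fin 3 → ℝ) : refl x ⬝ᵥ refl y = x ⬝ᵥ y := by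
  simp [refl, dotProduct, Fin.sum_univ_three]

theorem refl_tp (x y z : Fin 3 → ℝ) : tp (refl x) (refl y) (refl z) = - tp x y z := by
  simp only [tp, refl, Matrix.cons_val_zero, Matrix.cons_val_one, Matrix.cons_val]
  ring

theorem refl_cross_ne (x y : Fin 3 → ℝ) (h : LinearIndependent ℝ ![x, y]) :
    LinearIndependent ℝ ![refl x, refl y] := by
  rw [LinearIndependent.pair_iff] at h ⊢
  intro s t hst
  apply h s t
  funext j
  have := congrFun hst j
  fin_cases j
  · simp [refl] at this ⊢; linarith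
  · simpa [refl] using this
  · simpa [refl] using this

/-- A polygon given by facet normals can be moved into the position of `sphere_sign`. -/
theorem exists_oriented {k : ℕ} [NeZero k] (hk : 3 ≤ k) (v ν : Fin k → Fin 3 → ℝ)
    (hν : ∀ i, ν i ⬝ᵥ ν i = 1) (h0 : ∀ i, ν i ⬝ᵥ v i = 0) (h1 : ∀ i, ν i ⬝ᵥ v (i + 1) = 0)
    (hlt : ∀ i j, j ≠ i → j ≠ i + 1 → ν i ⬝ᵥ v j < 0)
    (hli : ∀ i, LinearIndependent ℝ ![v i, v (i + 1)]) :
    ∃ w : Fin k → Fin 3 → ℝ, (∀ i j, w i ⬝ᵥ w j = v i ⬝ᵥ v j) ∧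
      (∀ i j l, i < j → j < l → 0 < w i ⬝ᵥ (w j ⨯₃ w l)) ∧
      ∀ i, nrm w (i - 1) ⬝ᵥ nrm w i = ν (i - 1) ⬝ᵥ ν i := by
  have h1v : (1 : Fin k).val = 1 := by
    rw [Fin.val_one']; exact Nat.mod_eq_of_lt (by omega)
  have hne1 : ∀ i : Fin k, i + 1 ≠ i := by
    intro i e
    have e3 : i + 1 = i + 0 := by rw [add_zero]; exact e
    have e5 := congrArg Fin.val (add_left_cancel e3)
    rw [h1v] at e5
    simp at e5
  have hne2 : ∀ i : Fin k, i + 1 + 1 ≠ i := by
    intro i e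
    have e2 : (i + 1 + 1).val = i.val := congrArg Fin.val e
    rw [Fin.val_add, Fin.val_add, h1v, Nat.mod_add_mod] at e2
    have hi := i.isLt
    rcases Nat.lt_or_ge (i.val + 1 + 1) k with h | h
    · rw [Nat.mod_eq_of_lt h] at e2; omega
    · rw [Nat.mod_eq_sub_mod h, Nat.mod_eq_of_lt (by omega)] at e2; omega
  choose t ht using fun i => eq_smul_cross (v i) (v (i + 1)) (ν i) (hli i) (h0 i) (h1 i)
  have hdot : ∀ i j, ν i ⬝ᵥ v j = t i * tp (v i) (v (i + 1)) (v j) := by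
    intro i j
    rw [ht i, smul_dotProduct, smul_eq_mul, dotProduct_comm, tp_eq, tp_rot]
  -- the triple products of consecutive vectors have the same sign
  have hstep : ∀ i, t i * tp (v i) (v (i + 1)) (v (i + 1 + 1)) < 0 ∧
      t (i + 1) * tp (v i) (v (i + 1)) (v (i + 1 + 1)) < 0 := by
    intro i
    constructor
    · rw [← hdot]
      exact hlt i _ (hne2 i) (hne1 _)
    · rw [tp_rot, ← hdot]
      exact hlt (i + 1) i (hne1 i).symm (hne2 i).symm
  have hall : (∀ i, t i < 0) ∨ (∀ i, 0 < t i) := by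
    have hnat : ∀ n : ℕ, (t 0 < 0 → t (Fin.ofNat k n) < 0) ∧ (0 < t 0 → 0 < t (Fin.ofNat k n)) := by
      intro n
      induction n with
      | zero =>
        have : Fin.ofNat k 0 = 0 := rfl
        rw [this]
        exact ⟨id, id⟩
      | succ n ih =>
        rw [ofNat_succ' hk]
        have hs := hstep (Fin.ofNat k n)
        refine ⟨fun h => ?_, fun h => ?_⟩
        · have h2 := ih.1 h
          by_contra h3
          nlinarith [hs.1, hs.2, not_lt.1 h3]
        · have h2 := ih.2 h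
          by_contra h3
          nlinarith [hs.1, hs.2, not_lt.1 h3]
    have hfin : ∀ i : Fin k, Fin.ofNat k i.val = i := by
      intro i
      apply Fin.ext
      simp only [Fin.ofNat]
      exact Nat.mod_eq_of_lt i.isLt
    have ht0 : t 0 ≠ 0 := by
      intro h
      have := (hstep 0).1
      rw [h, zero_mul] at this
      exact lt_irrefl _ this
    rcases lt_or_gt_of_ne ht0 with h | h
    · exact Or.inl fun i => by rw [← hfin i]; exact (hnat i.val).1 h
    · exact Or.inr fun i => by rw [← hfin i]; exact (hnat i.val).2 h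
  rcases hall with hneg | hpos
  · refine ⟨v, fun i j => rfl, oriented hk v ν hν h0 h1 hlt hli fun i => ?_⟩
    have := (hstep i).1
    by_contra h3
    nlinarith [hneg i, not_lt.1 h3]
  · refine ⟨fun i => refl (v i), fun i j => refl_dot _ _, ?_⟩
    have := oriented hk (fun i => refl (v i)) (fun i => refl (ν i))
      (fun i => by rw [refl_dot]; exact hν i) (fun i => by rw [refl_dot]; exact h0 i)
      (fun i => by rw [refl_dot]; exact h1 i) (fun i j hj hj' => by rw [refl_dot]; exact hlt i j hj hj')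
      (fun i => refl_cross_ne _ _ (hli i)) (fun i => by
        rw [refl_tp]
        have := (hstep i).1
        by_contra h3
        nlinarith [hpos i, not_lt.1 h3])
    refine ⟨this.1, fun i => ?_⟩
    rw [this.2 i, refl_dot]

/-- **The sign lemma of Cauchy and Legendre for cones given by facet normals.** -/
theorem sphere_support_sign {k : ℕ} [NeZero k] (hk : 3 ≤ k) (v v' ν ν' : Fin k → Fin 3 → ℝ)
    (hv : ∀ i, v i ⬝ᵥ v i = 1) (hv' : ∀ i, v' i ⬝ᵥ v' i = 1)
    (hν : ∀ i, ν i ⬝ᵥ ν i = 1) (hν' : ∀ i, ν' i ⬝ᵥ ν' i = 1)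
    (h0 : ∀ i, ν i ⬝ᵥ v i = 0) (h0' : ∀ i, ν' i ⬝ᵥ v' i = 0)
    (h1 : ∀ i, ν i ⬝ᵥ v (i + 1) = 0) (h1' : ∀ i, ν' i ⬝ᵥ v' (i + 1) = 0)
    (hlt : ∀ i j, j ≠ i → j ≠ i + 1 → ν i ⬝ᵥ v j < 0)
    (hlt' : ∀ i j, j ≠ i → j ≠ i + 1 → ν' i ⬝ᵥ v' j < 0)
    (hli : ∀ i, LinearIndependent ℝ ![v i, v (i+1)])
    (hli' : ∀ i, LinearIndependent ℝ ![v' i, v' (i+1)])
    (hl : ∀ i, v i ⬝ᵥ v (i + 1) = v' i ⬝ᵥ v' (i + 1))
    (s : Fin k → SignType)
    (hs : ∀ i, s i = SignType.sign (ν' (i-1) ⬝ᵥ ν' i - ν (i-1) ⬝ᵥ ν i))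
    (halt : ¬ ∃ a b c d : Fin k, a < b ∧ b < c ∧ c < d ∧
      ((s a = 1 ∧ s b = -1 ∧ s c = 1 ∧ s d = -1) ∨ (s a = -1 ∧ s b = 1 ∧ s c = -1 ∧ s d = 1))) :
    ∀ i, s i = 0 := by
  obtain ⟨w, hw1, hw2, hw3⟩ := exists_oriented hk v ν hν h0 h1 hlt hli
  obtain ⟨w', hw1', hw2', hw3'⟩ := exists_oriented hk v' ν' hν' h0' h1' hlt' hli'
  have hlab : ∀ i, label w w' i = s i := by
    intro i
    rw [label, hw3, hw3', hs]
  have := sphere_sign hk w w' (fun i => by rw [hw1]; exact hv i) (fun i => by rw [hw1']; exact hv' i)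
    hw2 hw2' (fun i => by rw [hw1, hw1']; exact hl i) (by simp only [hlab]; exact halt)
  intro i
  rw [← hlab]
  exact this.1 i

end Pool.Agent.Work.MP_43c1cf_co
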