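import Pool.Agent.Work.MP_43c1cf_co.Scr
import Pool.Agent.Work.MP_43c1cf_co.SphereSupport
import Pool.Agent.Work.MP_43c1cf_co.PolygonSupport

/-!
# Local sign lemmas at codimension three faces
-/

set_option autoImplicit false

namespace Pool.Agent.Work.MP_43c1cf_co

open Module Matrix

section

variable {ι X : Type*} [AddCommGroup X] [Module ℝ X] {B : X →ₗ[ℝ] X →ₗ[ℝ] ℝ} {o : X}
  {u : ι → X} {J T R F G E : Finset ι}

/-- Orthonormal completion. -/
lemma Lor.exists_orthonormal [FiniteDimensional ℝ X] (h : Lor B o) {τ : X} (hτ : B τ τ < 0) :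
    ∀ (k : ℕ) (Z : Submodule ℝ X), τ ∈ Z → finrank ℝ Z + k = finrank ℝ X →
      ∃ e : Fin k → X, (∀ i j, B (e i) (e j) = if i = j then 1 else 0) ∧
        (∀ i, ∀ z ∈ Z, B (e i) z = 0) ∧ ∀ x, x - ∑ i, B (e i) x • e i ∈ Z := by
  intro k
  induction k with
  | zero =>
    intro Z hτZ hZ
    have hZ' : Z = ⊤ := Submodule.eq_top_of_finrank_eq (by simpa using hZ)
    refine ⟨Fin.elim0, fun i => i.elim0, fun i => i.elim0, fun x => ?_⟩
    rw [hZ']; exact Submodule.mem_top
  | succ k ih =>
    intro Z hτZ hZ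
    have hlt : Z < ⊤ := by
      refine lt_top_iff_ne_top.2 ?_
      rintro rfl
      rw [finrank_top] at hZ; omega
    obtain ⟨ψ, hψ0, hψ⟩ := Submodule.exists_le_ker_of_lt_top Z hlt
    obtain ⟨m, hm⟩ := h.repr ψ
    have hm0 : m ≠ 0 := by
      rintro rfl
      apply hψ0
      ext x; rw [hm]; simp
    have hmZ : ∀ z ∈ Z, B m z = 0 := fun z hz => by rw [← hm]; simpa using hψ hz
    have hmm := h.pos_of_orth hτ (by rw [h.symm]; exact hmZ τ hτZ) hm0
    set s := Real.sqrt (B m m) with hs
    have hs0 : 0 < s := Real.sqrt_pos.2 hmm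
    have hs2 : s * s = B m m := Real.mul_self_sqrt hmm.le
    set e0 := s⁻¹ • m with he0
    have he00 : B e0 e0 = 1 := by
      simp only [he0, map_smul, LinearMap.smul_apply, smul_eq_mul]
      rw [← hs2]; field_simp
    have he0Z : ∀ z ∈ Z, B e0 z = 0 := fun z hz => by
      simp only [he0, map_smul, LinearMap.smul_apply, smul_eq_mul, hmZ z hz, mul_zero]
    have he0n : e0 ∉ Z := fun hmem => by have := he0Z e0 hmem; linarith
    have hlt2 : Z < Z ⊔ Submodule.span ℝ {e0} := by
      refine lt_of_le_of_ne le_sup_left (fun e => he0n ?_)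
      exact e ▸ Submodule.mem_sup_right (Submodule.mem_span_singleton_self e0)
    have h1 := Submodule.finrank_lt_finrank_of_lt hlt2
    have h2 := Submodule.finrank_add_le_finrank_add_finrank Z (Submodule.span ℝ {e0})
    have h3 := finrank_span_le_card (R := ℝ) ({e0} : Set X)
    simp only [Set.toFinset_singleton, Finset.card_singleton] at h3
    obtain ⟨e, he1, he2, he3⟩ := ih (Z ⊔ Submodule.span ℝ {e0}) (Submodule.mem_sup_left hτZ)
      (by omega)
    have he0e : ∀ i, B (e i) e0 = 0 := fun i =>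
      he2 i e0 (Submodule.mem_sup_right (Submodule.mem_span_singleton_self e0))
    refine ⟨Fin.cons e0 e, ?_, ?_, ?_⟩
    · intro i j
      refine Fin.cases ?_ (fun i => ?_) i <;> refine Fin.cases ?_ (fun j => ?_) j
      · simp [he00]
      · simp only [Fin.cons_zero, Fin.cons_succ, h.symm e0, he0e]
        rw [if_neg (Fin.succ_ne_zero j).symm]
      · simp only [Fin.cons_zero, Fin.cons_succ, he0e]
        rw [if_neg (Fin.succ_ne_zero i)]
      · simp only [Fin.cons_succ, he1, Fin.succ_inj]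
    · intro i z hz
      refine Fin.cases ?_ (fun i => ?_) i
      · exact he0Z z hz
      · exact he2 i z (Submodule.mem_sup_left hz)
    · intro x
      rw [Fin.sum_univ_succ]
      simp only [Fin.cons_zero, Fin.cons_succ]
      obtain ⟨z, hz, w, hw, hzw⟩ := Submodule.mem_sup.1 (he3 x)
      obtain ⟨c, rfl⟩ := Submodule.mem_span_singleton.1 hw
      have hc : B e0 x = c := by
        have e1 := congrArg (B e0) hzw
        simp only [map_add, map_smul, map_sub, map_sum, smul_eq_mul, he0Z z hz, he00] at e1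
        have : ∑ i, B (e i) x * B e0 (e i) = 0 :=
          Finset.sum_eq_zero (fun i _ => by rw [h.symm e0, he0e, mul_zero])
        rw [this] at e1
        linarith
      rw [hc]
      have : x - (c • e0 + ∑ i, B (e i) x • e i) = z := by
        have : x - ∑ i, B (e i) x • e i = z + c • e0 := hzw.symm
        rw [add_comm (c • e0), ← sub_sub, this]; abel
      rw [this]; exact hz

/-- coordinates with respect to an orthonormal family -/
def co {k : ℕ} (B : X →ₗ[ℝ] X →ₗ[ℝ] ℝ) (e : Fin k → X) (x : X) : Fin k → ℝ := fun i => B (e i) x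

lemma co_add {k : ℕ} (e : Fin k → X) (x y : X) : co B e (x + y) = co B e x + co B e y := by
  funext i; simp [co]

lemma co_smul {k : ℕ} (e : Fin k → X) (c : ℝ) (x : X) : co B e (c • x) = c • co B e x := by
  funext i; simp [co]

lemma co_sub {k : ℕ} (e : Fin k → X) (x y : X) : co B e (x - y) = co B e x - co B e y := by
  funext i; simp [co]

/-- `e` is adapted to `T`: it is orthogonal to `T` and computes the form on the orthogonal
complement of `T`. -/
structure Adapted {k : ℕ} (B : X →ₗ[ℝ] X →ₗ[ℝ] ℝ) (u : ι → X) (T : Finset ι) (e : Fin k → X) :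
    Prop where
  orth : ∀ i, ∀ s ∈ T, B (e i) (u s) = 0
  comp : ∀ t t', (∀ s ∈ T, B t (u s) = 0) → (∀ s ∈ T, B t' (u s) = 0) →
    B t t' = co B e t ⬝ᵥ co B e t'

lemma Adapted.co_sp {k : ℕ} {e : Fin k → X} (h : Adapted B u T e) {x : X} (hx : x ∈ sp u T) :
    co B e x = 0 := by
  funext i
  exact vanish_sp (h.orth i) hx

/-- Isometries matching on `T` preserve adapted coordinates' products. -/
lemma Adapted.isom {k : ℕ} {e : Fin k → X} (h : Adapted B u T e)
    {X' : Type*} [AddCommGroup X'] [Module ℝ X'] {B' : X' →ₗ[ℝ] X' →ₗ[ℝ] ℝ} {u' : ι → X'}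
    {e' : Fin k → X'} (h' : Adapted B' u' T e') {M : X →ₗ[ℝ] X'}
    (hM : ∀ s ∈ T, M (u s) = u' s) (hM2 : ∀ z w, B' (M z) (M w) = B z w)
    {x y sx sy tx ty : X} (hx : x = sx + tx) (hy : y = sy + ty)
    (hsx : sx ∈ sp u T) (hsy : sy ∈ sp u T)
    (htx : ∀ s ∈ T, B tx (u s) = 0) (hty : ∀ s ∈ T, B ty (u s) = 0) :
    co B' e' (M x) ⬝ᵥ co B' e' (M y) = co B e x ⬝ᵥ co B e y := by
  have hMs : ∀ z ∈ sp u T, M z ∈ sp u' T := by
    intro z hz
    have : sp u T ≤ (sp u' T).comap M := sp_le (fun i hi => by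
      rw [Submodule.mem_comap, hM i hi]; exact mem_sp hi)
    exact this hz
  have hMt : ∀ t, (∀ s ∈ T, B t (u s) = 0) → ∀ s ∈ T, B' (M t) (u' s) = 0 := by
    intro t ht s hs
    rw [← hM s hs, hM2]; exact ht s hs
  rw [hx, hy, map_add, map_add, co_add, co_add, co_add, co_add, h'.co_sp (hMs _ hsx),
    h'.co_sp (hMs _ hsy), h.co_sp hsx, h.co_sp hsy, zero_add, zero_add, zero_add, zero_add,
    ← h'.comp _ _ (hMt _ htx) (hMt _ hty), ← h.comp _ _ htx hty, hM2]

/-- Adapted coordinates at a face of rank at least three and codimension three. -/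
lemma Scribed.adapted [FiniteDimensional ℝ X] (h : Scribed B o u J) (hT : IsFace u J T)
    (hrk : 3 ≤ rk u T) (hN : rk u T + 3 = finrank ℝ X) :
    ∃ e : Fin 3 → X, Adapted B u T e ∧
      ∀ x, ∃ s t, x = s + t ∧ s ∈ sp u T ∧ (∀ r ∈ T, B t (u r) = 0) := by
  obtain ⟨τ, hτ, hττ, -⟩ := h.timelike hT hrk
  obtain ⟨e, he1, he2, he3⟩ := h.lor.exists_orthonormal hττ 3 (sp u T) hτ hN
  refine ⟨e, ⟨fun i s hs => he2 i _ (mem_sp hs), ?_⟩, ?_⟩
  · intro t t' ht ht'
    have hz : t - ∑ i, B (e i) t • e i = 0 := by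
      have hz1 := he3 t
      set z := t - ∑ i, B (e i) t • e i with hzdef
      have hzT : ∀ s ∈ T, B z (u s) = 0 := by
        intro s hs
        rw [hzdef]
        simp only [map_sub, map_sum, map_smul, LinearMap.sub_apply, LinearMap.coe_sum,
          Finset.sum_apply, LinearMap.smul_apply, smul_eq_mul, ht s hs]
        rw [Finset.sum_eq_zero (fun i _ => by rw [he2 i _ (mem_sp hs), mul_zero]), sub_zero]
      have hzz : B z z = 0 := vanish_sp hzT hz1
      by_contra hz0
      have := h.lor.pos_of_orth hττ (by rw [h.lor.symm]; exact vanish_sp hzT hτ) hz0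
      linarith
    rw [sub_eq_zero] at hz
    conv_lhs => rw [hz]
    simp only [map_sum, map_smul, LinearMap.coe_sum, Finset.sum_apply, LinearMap.smul_apply,
      smul_eq_mul]
    rfl
  · intro x
    refine ⟨x - ∑ i, B (e i) x • e i, ∑ i, B (e i) x • e i, by abel, he3 x, ?_⟩
    intro r hr
    simp only [map_sum, map_smul, LinearMap.coe_sum, Finset.sum_apply, LinearMap.smul_apply,
      smul_eq_mul]
    exact Finset.sum_eq_zero (fun i _ => by rw [he2 i _ (mem_sp hr), mul_zero])

/-- Adapted coordinates at an edge in dimension five. -/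
lemma Scribed.adapted_edge [FiniteDimensional ℝ X] (h : Scribed B o u J)
    (hN : finrank ℝ X = 5) {i j : ι} (hi : i ∈ J) (hE : Cov u J {i} E)
    (hj : ∀ k, k ∈ E ↔ k = i ∨ k = j) (hji : j ≠ i) :
    ∃ e : Fin 2 → X, Adapted B u E e ∧
      (∀ t, (∀ s ∈ E, B t (u s) = 0) → ∃ α : ℝ, ∀ y, B t y = α * B (u i + u j) y +
        co B e t ⬝ᵥ co B e y) ∧
      ∀ x, B (u i + u j) x = 0 →
        ∃ s t, x = s + t ∧ s ∈ sp u E ∧ (∀ r ∈ E, B t (u r) = 0) := by
  classical
  have hiE : i ∈ E := (hj i).2 (Or.inl rfl)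
  have hjE : j ∈ E := (hj j).2 (Or.inr rfl)
  have hjJ := hE.right.1 hjE
  have hcard : E.card = 2 := by
    have : E = {i, j} := by ext k; simp [hj]
    rw [this]; exact Finset.card_pair hji.symm
  have hij : B (u i) (u j) = -1 := h.edge E hE.right hcard i hiE j hjE hji.symm
  obtain ⟨hp1, hp2⟩ := h.null hi hjJ hij
  set p := u i + u j with hp
  have hpi : B p (u i) = 0 := by
    rw [hp, map_add, LinearMap.add_apply, h.unit i hi, h.lor.symm, hij]; norm_num
  have hpj : B p (u j) = 0 := by
    rw [hp, map_add, LinearMap.add_apply, h.unit j hjJ, hij]; norm_num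
  have hpE : ∀ s ∈ E, B p (u s) = 0 := by
    intro s hs
    rcases (hj s).1 hs with rfl | rfl
    · exact hpi
    · exact hpj
  have hpsp : p ∈ sp u E := Submodule.add_mem _ (mem_sp hiE) (mem_sp hjE)
  -- the auxiliary timelike vector is `o`
  have hrkE : rk u E = 2 := by rw [hE.rk_eq, h.rk_single hi]
  have hpo : B p o < 0 := by rw [h.lor.symm]; exact hp2
  have hoE : o ∉ sp u E := by
    intro hmem
    have := vanish_sp hpE hmem
    linarith
  set Z := sp u E ⊔ Submodule.span ℝ {o} with hZ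
  have hlt2 : sp u E < Z := by
    refine lt_of_le_of_ne le_sup_left (fun e => hoE ?_)
    exact e ▸ Submodule.mem_sup_right (Submodule.mem_span_singleton_self o)
  have h1 := Submodule.finrank_lt_finrank_of_lt hlt2
  have h2 := Submodule.finrank_add_le_finrank_add_finrank (sp u E) (Submodule.span ℝ {o})
  have h3 := finrank_span_le_card (R := ℝ) ({o} : Set X)
  simp only [Set.toFinset_singleton, Finset.card_singleton] at h3
  rw [rk] at hrkE
  obtain ⟨e, he1, he2, he3⟩ := h.lor.exists_orthonormal h.lor.neg 2 Z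
    (Submodule.mem_sup_right (Submodule.mem_span_singleton_self o)) (by rw [← hZ] at h2; omega)
  have heE : ∀ i, ∀ s ∈ E, B (e i) (u s) = 0 := fun i s hs =>
    he2 i _ (Submodule.mem_sup_left (mem_sp hs))
  have hep : ∀ i, B (e i) p = 0 := fun i => he2 i _ (Submodule.mem_sup_left hpsp)
  -- decomposition of vectors orthogonal to p
  have hdec : ∀ x, B p x = 0 → x - ∑ i, B (e i) x • e i ∈ sp u E := by
    intro x hx
    obtain ⟨z, hz, w, hw, hzw⟩ := Submodule.mem_sup.1 (he3 x)
    obtain ⟨c, rfl⟩ := Submodule.mem_span_singleton.1 hw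
    have hc : c = 0 := by
      have e1 := congrArg (B p) hzw
      simp only [map_add, map_smul, map_sub, map_sum, smul_eq_mul, vanish_sp hpE hz, hx] at e1
      have : ∑ i, B (e i) x * B p (e i) = 0 :=
        Finset.sum_eq_zero (fun i _ => by rw [h.lor.symm p, hep, mul_zero])
      rw [this] at e1
      have h5 : c * B p o = 0 := by linarith
      rcases mul_eq_zero.1 h5 with h6 | h6
      · exact h6
      · exact absurd h6 hpo.ne
    rw [← hzw, hc, zero_smul, add_zero]; exact hz
  have hsumE : ∀ x, ∀ r ∈ E, B (∑ i, B (e i) x • e i) (u r) = 0 := by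
    intro x r hr
    simp only [map_sum, map_smul, LinearMap.coe_sum, Finset.sum_apply, LinearMap.smul_apply,
      smul_eq_mul]
    exact Finset.sum_eq_zero (fun i _ => by rw [heE i _ hr, mul_zero])
  have hmain : ∀ t, (∀ s ∈ E, B t (u s) = 0) → ∃ α : ℝ, t = α • p + ∑ i, B (e i) t • e i := by
    intro t ht
    have htp : B p t = 0 := by
      rw [h.lor.symm, hp, map_add, ht i hiE, ht j hjE, add_zero]
    have hz1 := hdec t htp
    set z := t - ∑ i, B (e i) t • e i with hzdef
    have hzT : ∀ s ∈ E, B z (u s) = 0 := by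
      intro s hs
      rw [hzdef, map_sub, LinearMap.sub_apply, ht s hs, hsumE t s hs, sub_zero]
    -- z ∈ span (u i, u j)
    have hspE : sp u E = Submodule.span ℝ {u i} ⊔ Submodule.span ℝ {u j} := by
      rw [hE.sp_insert hjE (by simpa using hji)]
      congr 1
      simp [sp]
    rw [hspE] at hz1
    obtain ⟨z1, hz1', z2, hz2', hz12⟩ := Submodule.mem_sup.1 hz1
    obtain ⟨a, rfl⟩ := Submodule.mem_span_singleton.1 hz1'
    obtain ⟨b, rfl⟩ := Submodule.mem_span_singleton.1 hz2'
    have e1 := hzT i hiE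
    rw [← hz12] at e1
    simp only [map_add, map_smul, LinearMap.add_apply, LinearMap.smul_apply, smul_eq_mul,
      h.unit i hi, h.lor.symm (u j) (u i), hij] at e1
    have hab : a = b := by linarith
    refine ⟨a, ?_⟩
    have h7 : a • p = z := by rw [← hz12, hp, smul_add, hab]
    rw [h7, hzdef]; abel
  refine ⟨e, ⟨heE, ?_⟩, ?_, ?_⟩
  · intro t t' ht ht'
    obtain ⟨α, hα⟩ := hmain t ht
    have htp : B p t' = 0 := by
      rw [h.lor.symm, hp, map_add, ht' i hiE, ht' j hjE, add_zero]
    conv_lhs => rw [hα]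
    simp only [map_add, map_sum, map_smul, LinearMap.add_apply, LinearMap.coe_sum,
      Finset.sum_apply, LinearMap.smul_apply, smul_eq_mul, htp, mul_zero, zero_add]
    rfl
  · intro t ht
    obtain ⟨α, hα⟩ := hmain t ht
    refine ⟨α, fun y => ?_⟩
    conv_lhs => rw [hα]
    simp only [map_add, map_sum, map_smul, LinearMap.add_apply, LinearMap.coe_sum,
      Finset.sum_apply, LinearMap.smul_apply, smul_eq_mul]
    rfl
  · intro x hx
    exact ⟨x - ∑ i, B (e i) x • e i, ∑ i, B (e i) x • e i, by abel, hdec x hx, hsumE x⟩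

end

end Pool.Agent.Work.MP_43c1cf_co
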