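import Pool.Agent.Work.MP_43c1cf_co.Face

/-!
# Lorentz spaces and scribed configurations
-/

set_option autoImplicit false

namespace Pool.Agent.Work.MP_43c1cf_co

open Module

/-- `B` is a Lorentz form and `o` a timelike vector. -/
structure Lor {X : Type*} [AddCommGroup X] [Module ℝ X] (B : X →ₗ[ℝ] X →ₗ[ℝ] ℝ) (o : X) : Prop where
  symm : ∀ x y, B x y = B y x
  neg : B o o < 0
  pos : ∀ x, B o x = 0 → x ≠ 0 → 0 < B x x

/-- Lorentz configuration of an edge-scribed polytope: unit spacelike vectors `u i`, `i ∈ J`, spanning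
the space, on the positive side of `o`, every one of them a ray of the cone, and with `u i + u j` null
for every edge `{i, j}`. -/
structure Scribed {ι X : Type*} [AddCommGroup X] [Module ℝ X] (B : X →ₗ[ℝ] X →ₗ[ℝ] ℝ) (o : X)
    (u : ι → X) (J : Finset ι) : Prop where
  lor : Lor B o
  span : sp u J = ⊤
  fut : ∀ i ∈ J, B o (u i) < 0
  unit : ∀ i ∈ J, B (u i) (u i) = 1
  vert : ∀ i ∈ J, IsFace u J {i}
  edge : ∀ T, IsFace u J T → T.card = 2 → ∀ i ∈ T, ∀ j ∈ T, i ≠ j → B (u i) (u j) = -1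

/-- Rigidity of scribed configurations in dimension `n`: the face lattice determines the Gram
matrix. -/
def Rigid (n : ℕ) : Prop :=
  ∀ (ι X X' : Type) [AddCommGroup X] [Module ℝ X] [AddCommGroup X'] [Module ℝ X']
    [FiniteDimensional ℝ X] [FiniteDimensional ℝ X']
    (B : X →ₗ[ℝ] X →ₗ[ℝ] ℝ) (B' : X' →ₗ[ℝ] X' →ₗ[ℝ] ℝ) (o : X) (o' : X')
    (u : ι → X) (u' : ι → X') (J : Finset ι),
    finrank ℝ X = n → finrank ℝ X' = n → Scribed B o u J → Scribed B' o' u' J →
    (∀ T, IsFace u J T ↔ IsFace u' J T) →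
    ∀ i ∈ J, ∀ j ∈ J, B (u i) (u j) = B' (u' i) (u' j)

end Pool.Agent.Work.MP_43c1cf_co
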