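import Mathlib

/-!
# Face theory of finite vector families
-/

set_option autoImplicit false

namespace Pool.Agent.Work.MP_43c1cf_co

open Module

variable {ι X : Type*} [AddCommGroup X] [Module ℝ X]

/-- `T` is the zero set on `J` of a linear functional which is nonnegative on all `u i`, `i ∈ J`. -/
def IsFace (u : ι → X) (J T : Finset ι) : Prop :=
  T ⊆ J ∧ ∃ φ : X →ₗ[ℝ] ℝ, (∀ i ∈ J, 0 ≤ φ (u i)) ∧ ∀ i ∈ J, (φ (u i) = 0 ↔ i ∈ T)

/-- The span of the vectors indexed by `T`. -/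
def sp (u : ι → X) (T : Finset ι) : Submodule ℝ X := Submodule.span ℝ (u '' (T : Set ι))

/-- The rank of the vectors indexed by `T`. -/
noncomputable def rk (u : ι → X) (T : Finset ι) : ℕ := finrank ℝ (sp u T)

/-- `T` covers `S` in the face lattice of `(u, J)`. -/
def Cov (u : ι → X) (J S T : Finset ι) : Prop :=
  IsFace u J S ∧ IsFace u J T ∧ S ⊂ T ∧ ∀ R, IsFace u J R → S ⊂ R → R ⊆ T → R = T

section basic

variable {u : ι → X} {J S T R G : Finset ι}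

instance (u : ι → X) (T : Finset ι) : FiniteDimensional ℝ (sp u T) :=
  FiniteDimensional.span_of_finite ℝ (T.finite_toSet.image u)

lemma mem_sp {i : ι} (h : i ∈ T) : u i ∈ sp u T :=
  Submodule.subset_span ⟨i, h, rfl⟩

lemma sp_mono (h : S ⊆ T) : sp u S ≤ sp u T :=
  Submodule.span_mono (Set.image_mono (by exact_mod_cast h))

lemma rk_mono (h : S ⊆ T) : rk u S ≤ rk u T :=
  Submodule.finrank_mono (sp_mono h)

lemma sp_le {p : Submodule ℝ X} (h : ∀ i ∈ T, u i ∈ p) : sp u T ≤ p := by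
  refine Submodule.span_le.2 ?_
  rintro _ ⟨i, hi, rfl⟩
  exact h i hi

lemma vanish_sp {ψ : X →ₗ[ℝ] ℝ} (h : ∀ i ∈ T, ψ (u i) = 0) {x : X} (hx : x ∈ sp u T) : ψ x = 0 := by
  have : sp u T ≤ LinearMap.ker ψ := sp_le (fun i hi => by simpa using h i hi)
  simpa using this hx

lemma rk_empty (u : ι → X) : rk u (∅ : Finset ι) = 0 := by
  unfold rk sp
  rw [Finset.coe_empty, Set.image_empty, Submodule.span_empty]
  exact finrank_bot ℝ X

lemma exists_large (s : Finset ι) (f g : ι → ℝ) (hg : ∀ i ∈ s, 0 < g i) :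
    ∃ M : ℝ, 0 < M ∧ ∀ i ∈ s, 0 < f i + M * g i := by
  classical
  refine ⟨1 + ∑ i ∈ s, |f i| / g i, ?_, ?_⟩
  · have : 0 ≤ ∑ i ∈ s, |f i| / g i :=
      Finset.sum_nonneg (fun i hi => div_nonneg (abs_nonneg _) (hg i hi).le)
    linarith
  · intro i hi
    have h1 : |f i| / g i ≤ ∑ j ∈ s, |f j| / g j :=
      Finset.single_le_sum (f := fun j => |f j| / g j)
        (fun j hj => div_nonneg (abs_nonneg _) (hg j hj).le) hi
    have h2 := hg i hi
    have h3 : |f i| ≤ (∑ j ∈ s, |f j| / g j) * g i := by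
      rw [div_le_iff₀ h2] at h1
      exact h1
    have h4 := neg_abs_le (f i)
    nlinarith

lemma isFace_self (u : ι → X) (J : Finset ι) : IsFace u J J :=
  ⟨subset_rfl, 0, by simp, by simp⟩

lemma IsFace.sub (h : IsFace u J T) : T ⊆ J := h.1

lemma IsFace.inter [DecidableEq ι] (hS : IsFace u J S) (hT : IsFace u J T) : IsFace u J (S ∩ T) := by
  obtain ⟨h1, φ, hφ, hφ0⟩ := hS
  obtain ⟨h2, ψ, hψ, hψ0⟩ := hT
  refine ⟨fun i hi => h1 (Finset.mem_of_mem_inter_left hi), φ + ψ, fun i hi => ?_, fun i hi => ?_⟩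
  · have := hφ i hi; have := hψ i hi
    simp only [LinearMap.add_apply]; linarith
  · have a := hφ i hi
    have b := hψ i hi
    rw [Finset.mem_inter, ← hφ0 i hi, ← hψ0 i hi, LinearMap.add_apply]
    constructor
    · intro h; constructor <;> linarith
    · rintro ⟨h1, h2⟩; rw [h1, h2, add_zero]

lemma IsFace.restrict (hS : IsFace u J S) (hT : T ⊆ J) (hST : S ⊆ T) : IsFace u T S := by
  obtain ⟨h1, φ, hφ, hφ0⟩ := hS
  exact ⟨hST, φ, fun i hi => hφ i (hT hi), fun i hi => hφ0 i (hT hi)⟩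

lemma IsFace.trans (hT : IsFace u J T) (hS : IsFace u T S) : IsFace u J S := by
  classical
  obtain ⟨h1, φ, hφ, hφ0⟩ := hT
  obtain ⟨h2, ψ, hψ, hψ0⟩ := hS
  obtain ⟨M, hM, hM'⟩ := exists_large (J \ T) (fun i => ψ (u i)) (fun i => φ (u i)) (by
    intro i hi
    rw [Finset.mem_sdiff] at hi
    exact lt_of_le_of_ne (hφ i hi.1) (fun h => hi.2 ((hφ0 i hi.1).1 h.symm)))
  refine ⟨h2.trans h1, ψ + M • φ, fun i hi => ?_, fun i hi => ?_⟩
  · by_cases hiT : i ∈ T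
    · have := hψ i hiT
      simp [(hφ0 i hi).2 hiT, this]
    · exact (hM' i (Finset.mem_sdiff.2 ⟨hi, hiT⟩)).le
  · by_cases hiT : i ∈ T
    · simp [(hφ0 i hi).2 hiT, hψ0 i hiT]
    · have h3 := hM' i (Finset.mem_sdiff.2 ⟨hi, hiT⟩)
      constructor
      · intro h
        simp only [LinearMap.add_apply, LinearMap.smul_apply, smul_eq_mul] at h
        linarith
      · intro h; exact absurd (h2 h) hiT

lemma isFace_iff (hT : IsFace u J T) : IsFace u T S ↔ IsFace u J S ∧ S ⊆ T :=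
  ⟨fun h => ⟨hT.trans h, h.1⟩, fun h => h.1.restrict hT.1 h.2⟩

lemma IsFace.mem_of_sp (hT : IsFace u J T) {i : ι} (hi : i ∈ J) (h : u i ∈ sp u T) : i ∈ T := by
  obtain ⟨h1, φ, hφ, hφ0⟩ := hT
  exact (hφ0 i hi).1 (vanish_sp (fun j hj => (hφ0 j (h1 hj)).2 hj) h)

lemma IsFace.rk_lt (hS : IsFace u J S) (hT : T ⊆ J) (hST : S ⊂ T) : rk u S < rk u T := by
  refine Submodule.finrank_lt_finrank_of_lt (lt_of_le_of_ne (sp_mono hST.1) ?_)
  intro h
  obtain ⟨i, hi, hi'⟩ := Finset.exists_of_ssubset hST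
  exact hi' (hS.mem_of_sp (hT hi) (h ▸ mem_sp hi))

lemma IsFace.eq_of_rk (hS : IsFace u J S) (hT : T ⊆ J) (hST : S ⊆ T) (h : rk u T ≤ rk u S) :
    S = T := by
  by_contra hne
  exact absurd (hS.rk_lt hT (Finset.ssubset_iff_subset_ne.2 ⟨hST, hne⟩)) (by omega)

/-- The ratio lemma: minimising `ψ/φ` off a face produces a bigger face. -/
lemma ratio [DecidableEq ι] {φ ψ : X →ₗ[ℝ] ℝ} (hφ : ∀ i ∈ J, 0 ≤ φ (u i))
    (hφ0 : ∀ i ∈ J, (φ (u i) = 0 ↔ i ∈ T)) (hT : T ⊆ J) (hψ : ∀ i ∈ T, ψ (u i) = 0)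
    (hne : T ≠ J) :
    ∃ (c : ℝ) (M : Finset ι), IsFace u J M ∧ T ⊂ M ∧ (∀ i ∈ J, c * φ (u i) ≤ ψ (u i)) ∧
      (∀ i ∈ J, (ψ (u i) = c * φ (u i) ↔ i ∈ M)) := by
  classical
  have hpos : ∀ i ∈ J \ T, 0 < φ (u i) := by
    intro i hi
    rw [Finset.mem_sdiff] at hi
    exact lt_of_le_of_ne (hφ i hi.1) (fun h => hi.2 ((hφ0 i hi.1).1 h.symm))
  have hJT : (J \ T).Nonempty := by
    rw [Finset.sdiff_nonempty]
    exact fun h => hne (Finset.Subset.antisymm hT h)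
  obtain ⟨i0, hi0, hmin⟩ := Finset.exists_min_image (J \ T) (fun i => ψ (u i) / φ (u i)) hJT
  set c := ψ (u i0) / φ (u i0) with hc
  have hle : ∀ i ∈ J, c * φ (u i) ≤ ψ (u i) := by
    intro i hi
    by_cases hiT : i ∈ T
    · rw [(hφ0 i hi).2 hiT, hψ i hiT, mul_zero]
    · have h := hmin i (Finset.mem_sdiff.2 ⟨hi, hiT⟩)
      rwa [le_div_iff₀ (hpos i (Finset.mem_sdiff.2 ⟨hi, hiT⟩))] at h
  refine ⟨c, J.filter (fun i => ψ (u i) = c * φ (u i)),
    ⟨Finset.filter_subset _ _, ψ - c • φ, ?_, ?_⟩, ?_, hle, ?_⟩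
  · intro i hi
    have := hle i hi
    simp only [LinearMap.sub_apply, LinearMap.smul_apply, smul_eq_mul]; linarith
  · intro i hi
    simp only [LinearMap.sub_apply, LinearMap.smul_apply, smul_eq_mul, Finset.mem_filter, hi,
      true_and, sub_eq_zero]
  · rw [Finset.ssubset_iff_of_subset]
    · refine ⟨i0, ?_, (Finset.mem_sdiff.1 hi0).2⟩
      rw [Finset.mem_filter]
      refine ⟨(Finset.mem_sdiff.1 hi0).1, ?_⟩
      rw [hc, div_mul_cancel₀ _ (hpos i0 hi0).ne']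
    · intro i hi
      rw [Finset.mem_filter]
      exact ⟨hT hi, by rw [(hφ0 i (hT hi)).2 hi, hψ i hi, mul_zero]⟩
  · intro i hi
    simp [hi]

lemma exists_cov_le (hT : IsFace u J T) (hG : IsFace u J G) (h : T ⊂ G) :
    ∃ R, Cov u J T R ∧ R ⊆ G := by
  classical
  have hne : (J.powerset.filter (fun R => IsFace u J R ∧ T ⊂ R ∧ R ⊆ G)).Nonempty :=
    ⟨G, by simp [hG, h, hG.1]⟩
  obtain ⟨R, hR, hmin⟩ := Finset.exists_min_image _ Finset.card hne
  rw [Finset.mem_filter] at hR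
  refine ⟨R, ⟨hT, hR.2.1, hR.2.2.1, ?_⟩, hR.2.2.2⟩
  intro R' h1 h2 h3
  refine Finset.eq_of_subset_of_card_le h3 (hmin R' ?_)
  rw [Finset.mem_filter, Finset.mem_powerset]
  exact ⟨h1.1, h1, h2, h3.trans hR.2.2.2⟩

lemma exists_le_cov (hT : IsFace u J T) (hG : IsFace u J G) (h : T ⊂ G) :
    ∃ R, Cov u J R G ∧ T ⊆ R := by
  classical
  have hne : (J.powerset.filter (fun R => IsFace u J R ∧ R ⊂ G ∧ T ⊆ R)).Nonempty :=
    ⟨T, by simp [hT, h, hT.1]⟩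
  obtain ⟨R, hR, hmax⟩ := Finset.exists_max_image _ Finset.card hne
  rw [Finset.mem_filter] at hR
  refine ⟨R, ⟨hR.2.1, hG, hR.2.2.1, ?_⟩, hR.2.2.2⟩
  intro R' h1 h2 h3
  by_contra hne'
  have := hmax R' (by
    rw [Finset.mem_filter, Finset.mem_powerset]
    exact ⟨h1.1, h1, Finset.ssubset_iff_subset_ne.2 ⟨h3, hne'⟩, hR.2.2.2.trans h2.1⟩)
  exact absurd (Finset.card_lt_card h2) (by omega)

lemma Cov.left (h : Cov u J T R) : IsFace u J T := h.1
lemma Cov.right (h : Cov u J T R) : IsFace u J R := h.2.1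
lemma Cov.ss (h : Cov u J T R) : T ⊂ R := h.2.2.1
lemma Cov.sub (h : Cov u J T R) : T ⊆ R := h.2.2.1.1

lemma Cov.sp_insert (h : Cov u J T R) {a : ι} (ha : a ∈ R) (haT : a ∉ T) :
    sp u R = sp u T ⊔ Submodule.span ℝ {u a} := by
  classical
  obtain ⟨h1, h2, h3, h4⟩ := h
  refine le_antisymm (sp_le ?_) (sup_le (sp_mono h3.1) ?_)
  swap
  · rw [Submodule.span_singleton_le_iff_mem]; exact mem_sp ha
  intro b hb
  by_contra hnot
  obtain ⟨ψ, hψb, hψ⟩ := Submodule.exists_le_ker_of_notMem hnot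
  obtain ⟨hT1, φ, hφ, hφ0⟩ := h1
  have hψT : ∀ i ∈ T, ψ (u i) = 0 := fun i hi => by
    have := hψ (Submodule.mem_sup_left (mem_sp hi)); simpa using this
  have hψa : ψ (u a) = 0 := by
    have := hψ (Submodule.mem_sup_right (Submodule.mem_span_singleton_self (u a))); simpa using this
  have hbT : b ∉ T := fun hbT => hψb (hψT b hbT)
  obtain ⟨c, M, hM, hTM, hle, hiff⟩ := ratio (J := R) (fun i hi => hφ i (h2.1 hi))
    (fun i hi => hφ0 i (h2.1 hi)) h3.1 hψT h3.ne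
  have hMR := h4 M (h2.trans hM) hTM hM.1
  have e1 := (hiff a ha).2 (hMR ▸ ha)
  have e2 := (hiff b hb).2 (hMR ▸ hb)
  have hφa : φ (u a) ≠ 0 := fun h0 => haT ((hφ0 a (h2.1 ha)).1 h0)
  rw [hψa] at e1
  have hc : c = 0 := by
    rcases mul_eq_zero.1 e1.symm with h | h
    · exact h
    · exact absurd h hφa
  rw [hc, zero_mul] at e2
  exact hψb e2

lemma Cov.rk_eq (h : Cov u J T R) : rk u R = rk u T + 1 := by
  classical
  have h1 := h.left.rk_lt h.right.1 h.ss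
  obtain ⟨a, ha, haT⟩ := Finset.exists_of_ssubset h.ss
  have h2 : rk u R ≤ rk u T + 1 := by
    rw [rk, rk, h.sp_insert ha haT]
    refine (Submodule.finrank_add_le_finrank_add_finrank _ _).trans ?_
    have := finrank_span_le_card (R := ℝ) ({u a} : Set X)
    simp at this
    omega
  omega

/-- Functionals vanishing on `T` are proportional on a cover of `T`. -/
lemma Cov.prop (h : Cov u J T R) {φ ψ : X →ₗ[ℝ] ℝ} (hφ : ∀ i ∈ T, φ (u i) = 0)
    (hψ : ∀ i ∈ T, ψ (u i) = 0) {a b : ι} (ha : a ∈ R) (hb : b ∈ R) :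
    ψ (u a) * φ (u b) = ψ (u b) * φ (u a) := by
  classical
  by_cases haT : a ∈ T
  · rw [hφ a haT, hψ a haT]; ring
  have hb' := mem_sp (u := u) hb
  rw [h.sp_insert ha haT, Submodule.mem_sup] at hb'
  obtain ⟨y, hy, z, hz, hyz⟩ := hb'
  obtain ⟨c, rfl⟩ := Submodule.mem_span_singleton.1 hz
  have e1 := vanish_sp hφ hy
  have e2 := vanish_sp hψ hy
  rw [← hyz]
  simp only [map_add, map_smul, e1, e2, smul_eq_mul]
  ring

/-- Sign constancy on a cover. -/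
lemma Cov.pos_iff (h : Cov u J T R) {ψ : X →ₗ[ℝ] ℝ}
    (hψ : ∀ i ∈ T, ψ (u i) = 0) {a b : ι} (ha : a ∈ R) (haT : a ∉ T) (hb : b ∈ R) (hbT : b ∉ T)
    (hpos : 0 < ψ (u a)) : 0 < ψ (u b) := by
  obtain ⟨hT1, φ, hφ, hφ0⟩ := h.left
  have e := h.prop (φ := φ) (fun i hi => (hφ0 i (hT1 hi)).2 hi) hψ ha hb
  have p1 : 0 < φ (u a) := lt_of_le_of_ne (hφ a (h.right.1 ha))
    (fun h' => haT ((hφ0 a (h.right.1 ha)).1 h'.symm))
  have p2 : 0 < φ (u b) := lt_of_le_of_ne (hφ b (h.right.1 hb))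
    (fun h' => hbT ((hφ0 b (h.right.1 hb)).1 h'.symm))
  have : 0 < ψ (u b) * φ (u a) := by rw [← e]; positivity
  exact (mul_pos_iff_of_pos_right p1).1 this

lemma Cov.neg_iff (h : Cov u J T R) {ψ : X →ₗ[ℝ] ℝ}
    (hψ : ∀ i ∈ T, ψ (u i) = 0) {a b : ι} (ha : a ∈ R) (haT : a ∉ T) (hb : b ∈ R) (hbT : b ∉ T)
    (hneg : ψ (u a) < 0) : ψ (u b) < 0 := by
  have := h.pos_iff (ψ := -ψ) (fun i hi => by simp [hψ i hi]) ha haT hb hbT (by simpa using hneg)
  simpa using this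

/-- Local to global: a functional vanishing on a face which is nonnegative on all covers of it is
nonnegative. -/
lemma local_global (hT : IsFace u J T) {ψ : X →ₗ[ℝ] ℝ} (hψ : ∀ i ∈ T, ψ (u i) = 0)
    (h : ∀ R, Cov u J T R → ∃ a ∈ R, a ∉ T ∧ 0 ≤ ψ (u a)) : ∀ i ∈ J, 0 ≤ ψ (u i) := by
  classical
  by_cases hne : T = J
  · subst hne; intro i hi; rw [hψ i hi]
  obtain ⟨hT1, φ, hφ, hφ0⟩ := id hT
  obtain ⟨c, M, hM, hTM, hle, hiff⟩ := ratio hφ hφ0 hT1 hψ hne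
  obtain ⟨R, hR, hRM⟩ := exists_cov_le hT hM hTM
  obtain ⟨a, ha, haT, ha0⟩ := h R hR
  have e := (hiff a (hR.right.1 ha)).2 (hRM ha)
  have p1 : 0 < φ (u a) := lt_of_le_of_ne (hφ a (hR.right.1 ha))
    (fun h' => haT ((hφ0 a (hR.right.1 ha)).1 h'.symm))
  have hc : 0 ≤ c := by
    rw [e] at ha0
    exact nonneg_of_mul_nonneg_left ha0 p1
  intro i hi
  exact (mul_nonneg hc (hφ i hi)).trans (hle i hi)

lemma local_global_pos (hT : IsFace u J T) {ψ : X →ₗ[ℝ] ℝ} (hψ : ∀ i ∈ T, ψ (u i) = 0)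
    (h : ∀ R, Cov u J T R → ∃ a ∈ R, a ∉ T ∧ 0 < ψ (u a)) : ∀ i ∈ J, i ∉ T → 0 < ψ (u i) := by
  classical
  by_cases hne : T = J
  · subst hne; intro i hi h; exact absurd hi h
  obtain ⟨hT1, φ, hφ, hφ0⟩ := id hT
  obtain ⟨c, M, hM, hTM, hle, hiff⟩ := ratio hφ hφ0 hT1 hψ hne
  obtain ⟨R, hR, hRM⟩ := exists_cov_le hT hM hTM
  obtain ⟨a, ha, haT, ha0⟩ := h R hR
  have e := (hiff a (hR.right.1 ha)).2 (hRM ha)
  have p1 : 0 < φ (u a) := lt_of_le_of_ne (hφ a (hR.right.1 ha))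
    (fun h' => haT ((hφ0 a (hR.right.1 ha)).1 h'.symm))
  have hc : 0 < c := by
    rw [e] at ha0
    exact (pos_iff_pos_of_mul_pos ha0).2 p1
  intro i hi hiT
  have p2 : 0 < φ (u i) := lt_of_le_of_ne (hφ i hi) (fun h' => hiT ((hφ0 i hi).1 h'.symm))
  exact (mul_pos hc p2).trans_le (hle i hi)

end basic

end Pool.Agent.Work.MP_43c1cf_co
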