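import Pool.Agent.Work.MP_43c1cf_co.Face

/-!
# Face theory II: diamond property, connectivity, facets, rank transport
-/

set_option autoImplicit false

namespace Pool.Agent.Work.MP_43c1cf_co

open Module

variable {ι X : Type*} [AddCommGroup X] [Module ℝ X]

variable {u : ι → X} {J S T R G : Finset ι}

/-- Cover relation through ranks. -/
lemma cov_iff_rk (hS : IsFace u J S) (hT : IsFace u J T) (hST : S ⊆ T) :
    Cov u J S T ↔ rk u T = rk u S + 1 := by
  constructor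
  · intro h; exact h.rk_eq
  · intro h
    refine ⟨hS, hT, ?_, ?_⟩
    · rw [Finset.ssubset_iff_subset_ne]
      refine ⟨hST, ?_⟩
      rintro rfl; omega
    · intro R hR h1 h2
      exact hR.eq_of_rk hT.1 h2 (by have := hS.rk_lt hR.1 h1; omega)

lemma Cov.restrict (h : Cov u J S T) (hG : G ⊆ J) (hTG : T ⊆ G) : Cov u G S T := by
  have h1 := h.left.restrict hG (h.sub.trans hTG)
  have h2 := h.right.restrict hG hTG
  rw [cov_iff_rk h1 h2 h.sub]
  exact h.rk_eq

lemma Cov.extend (hG : IsFace u J G) (h : Cov u G S T) : Cov u J S T := by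
  rw [cov_iff_rk (hG.trans h.left) (hG.trans h.right) h.sub]
  exact h.rk_eq

/-- Functional positive off the face. -/
lemma IsFace.exists_pos (hT : IsFace u J T) : ∃ φ : X →ₗ[ℝ] ℝ, (∀ i ∈ J, 0 ≤ φ (u i)) ∧
    (∀ i ∈ T, φ (u i) = 0) ∧ (∀ i ∈ J, i ∉ T → 0 < φ (u i)) ∧
    (∀ i ∈ J, (φ (u i) = 0 ↔ i ∈ T)) := by
  obtain ⟨h1, φ, h2, h3⟩ := hT
  exact ⟨φ, h2, fun i hi => (h3 i (h1 hi)).2 hi,
    fun i hi hT => lt_of_le_of_ne (h2 i hi) (fun h => hT ((h3 i hi).1 h.symm)), h3⟩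

lemma inter_cov [DecidableEq ι] {R R' : Finset ι} (h : Cov u J T R) (h' : Cov u J T R')
    (hne : R ≠ R') : R ∩ R' = T := by
  have hf := h.right.inter h'.right
  by_contra hT
  have h1 : T ⊂ R ∩ R' := by
    rw [Finset.ssubset_iff_subset_ne]
    exact ⟨Finset.subset_inter h.sub h'.sub, fun e => hT e.symm⟩
  have e1 := h.2.2.2 _ hf h1 Finset.inter_subset_left
  have e2 := h'.2.2.2 _ hf h1 Finset.inter_subset_right
  exact hne (e1.symm.trans e2)

/-- The diamond property, existence of the second face. -/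
lemma diamond_exists (h1 : Cov u J S R) (h2 : Cov u J R T) :
    ∃ R', R' ≠ R ∧ Cov u J S R' ∧ Cov u J R' T ∧
      ∀ Q, IsFace u J Q → S ⊂ Q → Q ⊂ T → Q = R ∨ Q = R' := by
  classical
  have hrk : rk u T = rk u S + 2 := by have := h1.rk_eq; have := h2.rk_eq; omega
  have hST : S ⊆ T := h1.sub.trans h2.sub
  obtain ⟨φ, hφ, hφT, hφpos, hφ0⟩ := h1.left.exists_pos
  obtain ⟨ψ, hψ, hψR, hψpos, hψ0⟩ := h1.right.exists_pos
  have hTJ := h2.right.1
  -- maximise ψ/φ on T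
  obtain ⟨c, M, hM, hSM, hle, hiff⟩ := ratio (u := u) (J := T) (T := S) (φ := φ) (ψ := -ψ)
    (fun i hi => hφ i (hTJ hi)) (fun i hi => hφ0 i (hTJ hi)) hST
    (fun i hi => by simp [hψR i (h1.sub hi)]) (by rintro rfl; omega)
  have hMJ := h2.right.trans hM
  obtain ⟨r0, hr0T, hr0R⟩ := Finset.exists_of_ssubset h2.ss
  obtain ⟨s0, hs0R, hs0S⟩ := Finset.exists_of_ssubset h1.ss
  obtain ⟨m0, hm0M, hm0S⟩ := Finset.exists_of_ssubset hSM
  have hc : c < 0 := by
    have e1 := hle r0 hr0T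
    have e2 := hψpos r0 (hTJ hr0T) hr0R
    have e3 := hφpos r0 (hTJ hr0T) (fun h => hr0R (h1.sub h))
    simp only [LinearMap.neg_apply] at e1
    nlinarith
  have hMR : ∀ i ∈ M, i ∉ S → i ∉ R := by
    intro i hi hiS hiR
    have e1 := (hiff i (hM.1 hi)).2 hi
    have e3 := hφpos i (hTJ (hM.1 hi)) hiS
    simp only [LinearMap.neg_apply, hψR i hiR] at e1
    nlinarith
  have hMne : M ≠ T := by
    rintro rfl
    exact hMR s0 (h2.sub hs0R) hs0S hs0R
  have hMT : M ⊂ T := Finset.ssubset_iff_subset_ne.2 ⟨hM.1, hMne⟩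
  have rkM : rk u M = rk u S + 1 := by
    have a := h1.left.rk_lt hMJ.1 hSM
    have b := hMJ.rk_lt hTJ hMT
    omega
  have cSM : Cov u J S M := (cov_iff_rk h1.left hMJ hSM.1).2 rkM
  have cMT : Cov u J M T := (cov_iff_rk hMJ h2.right hM.1).2 (by omega)
  refine ⟨M, fun h => hMR m0 hm0M hm0S (h ▸ hm0M), cSM, cMT, ?_⟩
  intro Q hQ hSQ hQT
  by_contra hcon
  push Not at hcon
  obtain ⟨hQR, hQM⟩ := hcon
  have rkQ : rk u Q = rk u S + 1 := by
    have a := h1.left.rk_lt hQ.1 hSQ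
    have b := hQ.rk_lt hTJ hQT
    omega
  have cSQ : Cov u J S Q := (cov_iff_rk h1.left hQ hSQ.1).2 rkQ
  obtain ⟨q0, hq0Q, hq0S⟩ := Finset.exists_of_ssubset hSQ
  have iR := inter_cov cSQ h1 hQR
  have iM := inter_cov cSQ cSM hQM
  have hq0R : q0 ∉ R := fun h => hq0S (iR ▸ Finset.mem_inter.2 ⟨hq0Q, h⟩)
  have hq0M : q0 ∉ M := fun h => hq0S (iM ▸ Finset.mem_inter.2 ⟨hq0Q, h⟩)
  -- sp T = sp S ⊔ span {u s0} ⊔ span {u m0}
  have hspR := h1.sp_insert hs0R hs0S
  have hspT := h2.sp_insert (hM.1 hm0M) (hMR m0 hm0M hm0S)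
  have hq0 : u q0 ∈ sp u T := mem_sp (hQT.1 hq0Q)
  rw [hspT, hspR, Submodule.mem_sup] at hq0
  obtain ⟨w, hw, z, hz, hwz⟩ := hq0
  rw [Submodule.mem_sup] at hw
  obtain ⟨y, hy, w', hw', hyw⟩ := hw
  obtain ⟨α, rfl⟩ := Submodule.mem_span_singleton.1 hw'
  obtain ⟨β, rfl⟩ := Submodule.mem_span_singleton.1 hz
  subst hyw
  -- evaluate
  have hβ : 0 < β := by
    have e := congrArg ψ hwz
    simp only [map_add, map_smul, smul_eq_mul] at e
    rw [vanish_sp (fun i hi => hψR i (h1.sub hi)) hy, hψR s0 hs0R] at e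
    have p1 := hψpos q0 (hTJ (hQT.1 hq0Q)) hq0R
    have p2 := hψpos m0 (hMJ.1 hm0M) (hMR m0 hm0M hm0S)
    by_contra hb
    push Not at hb
    nlinarith
  have hα : 0 < α := by
    have e := congrArg (-ψ - c • φ) hwz
    simp only [map_add, map_smul, smul_eq_mul] at e
    have v1 : (-ψ - c • φ) y = 0 := vanish_sp (u := u) (T := S) (fun i hi => by
      simp [hψR i (h1.sub hi), hφT i hi]) hy
    have v2 : (-ψ - c • φ) (u m0) = 0 := by
      have := (hiff m0 (hM.1 hm0M)).2 hm0M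
      simp only [LinearMap.sub_apply, LinearMap.smul_apply, smul_eq_mul]
      linarith
    have v3 : 0 < (-ψ - c • φ) (u q0) := by
      have a := hle q0 (hQT.1 hq0Q)
      have b := fun h => hq0M ((hiff q0 (hQT.1 hq0Q)).1 h)
      simp only [LinearMap.sub_apply, LinearMap.smul_apply, smul_eq_mul]
      have := lt_of_le_of_ne a (fun h => b h.symm)
      linarith
    have v4 : 0 < (-ψ - c • φ) (u s0) := by
      simp only [LinearMap.sub_apply, LinearMap.smul_apply, smul_eq_mul, LinearMap.neg_apply,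
        hψR s0 hs0R]
      have := hφpos s0 (h1.right.1 hs0R) hs0S
      nlinarith
    rw [v1, v2] at e
    by_contra hb
    push Not at hb
    nlinarith
  obtain ⟨ρ, hρ, hρQ, hρpos, hρ0⟩ := hQ.exists_pos
  have e := congrArg ρ hwz
  simp only [map_add, map_smul, smul_eq_mul] at e
  rw [vanish_sp (fun i hi => hρQ i (hSQ.1 hi)) hy, hρQ q0 hq0Q] at e
  have p1 := hρpos s0 (h1.right.1 hs0R)
    (fun h => hs0S (iR ▸ Finset.mem_inter.2 ⟨h, hs0R⟩))
  have p2 := hρpos m0 (hMJ.1 hm0M)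
    (fun h => hm0S (iM ▸ Finset.mem_inter.2 ⟨h, hm0M⟩))
  have q1 := mul_pos hα p1
  have q2 := mul_pos hβ p2
  linarith

/-- The diamond property. -/
lemma diamond (hS : IsFace u J S) (hT : IsFace u J T) (hST : S ⊆ T) (hrk : rk u T = rk u S + 2) :
    ∃ R R', R ≠ R' ∧ Cov u J S R ∧ Cov u J R T ∧ Cov u J S R' ∧ Cov u J R' T ∧
      ∀ Q, IsFace u J Q → S ⊂ Q → Q ⊂ T → Q = R ∨ Q = R' := by
  have hne : S ⊂ T := Finset.ssubset_iff_subset_ne.2 ⟨hST, by rintro rfl; omega⟩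
  obtain ⟨R, hR, hRT⟩ := exists_cov_le hS hT hne
  have hRT' : Cov u J R T := (cov_iff_rk hR.right hT hRT).2 (by have := hR.rk_eq; omega)
  obtain ⟨R', h1, h2, h3, h4⟩ := diamond_exists hR hRT'
  exact ⟨R, R', h1.symm, hR, hRT', h2, h3, h4⟩

/-- Sublevel connectivity of the covers of a face. -/
lemma connected (hT : IsFace u J T) {h : X →ₗ[ℝ] ℝ} (hT0 : ∀ i ∈ T, h (u i) = 0)
    {R1 R2 : Finset ι} (hR1 : Cov u J T R1) (hR2 : Cov u J T R2)
    (hneg1 : ∀ i ∈ R1, i ∉ T → h (u i) < 0) (hneg2 : ∀ i ∈ R2, i ∉ T → h (u i) < 0)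
    (P : Finset ι → Prop) (hP1 : P R1)
    (hP : ∀ R R' G, P R → Cov u J T R → Cov u J T R' → Cov u J R G → Cov u J R' G →
      (∀ i ∈ R, i ∉ T → h (u i) < 0) → (∀ i ∈ R', i ∉ T → h (u i) < 0) → P R') : P R2 := by
  classical
  obtain ⟨ψ, hψ, hψR, hψpos, hψ0⟩ := hR2.right.exists_pos
  -- candidates
  let C : Finset (Finset ι × ι) := (J.powerset ×ˢ J).filter (fun p =>
    P p.1 ∧ Cov u J T p.1 ∧ (∀ i ∈ p.1, i ∉ T → h (u i) < 0) ∧ p.2 ∈ p.1 ∧ p.2 ∉ T)
  obtain ⟨r1, hr1, hr1T⟩ := Finset.exists_of_ssubset hR1.ss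
  have hC : C.Nonempty := ⟨(R1, r1), by
    simp only [C, Finset.mem_filter, Finset.mem_product, Finset.mem_powerset]
    exact ⟨⟨hR1.right.1, hR1.right.1 hr1⟩, hP1, hR1, hneg1, hr1, hr1T⟩⟩
  obtain ⟨p, hp, hmin⟩ := Finset.exists_min_image C (fun p => ψ (u p.2) / (-h (u p.2))) hC
  obtain ⟨R, a⟩ := p
  simp only [C, Finset.mem_filter, Finset.mem_product, Finset.mem_powerset] at hp
  obtain ⟨⟨hRJ, haJ⟩, hPR, hcov, hneg, haR, haT⟩ := hp
  by_cases hRR : R = R2
  · rwa [← hRR]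
  have hh := hneg a haR haT
  have hint := inter_cov hcov hR2 hRR
  have haR2 : a ∉ R2 := fun h' => haT (hint ▸ Finset.mem_inter.2 ⟨haR, h'⟩)
  have hψa := hψpos a haJ haR2
  set c := ψ (u a) / (-h (u a)) with hc
  have hcpos : 0 < c := div_pos hψa (by linarith)
  -- η = ψ + c h
  set η := ψ + c • h with hη
  have hηT : ∀ i ∈ T, η (u i) = 0 := by
    intro i hi
    simp [hη, hψR i (hR2.sub hi), hT0 i hi]
  have hηa : η (u a) = 0 := by
    simp only [hη, LinearMap.add_apply, LinearMap.smul_apply, smul_eq_mul, hc]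
    have : h (u a) ≠ 0 := hh.ne
    field_simp
    ring
  have hηR : ∀ i ∈ R, η (u i) = 0 := by
    intro i hi
    have hsp := mem_sp (u := u) hi
    rw [hcov.sp_insert haR haT, Submodule.mem_sup] at hsp
    obtain ⟨y, hy, z, hz, hyz⟩ := hsp
    obtain ⟨t, rfl⟩ := Submodule.mem_span_singleton.1 hz
    rw [← hyz, map_add, map_smul, vanish_sp hηT hy, hηa]
    simp
  obtain ⟨r2, hr2, hr2T⟩ := Finset.exists_of_ssubset hR2.ss
  have hη2 : η (u r2) < 0 := by
    simp only [hη, LinearMap.add_apply, LinearMap.smul_apply, smul_eq_mul, hψR r2 hr2]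
    have := hneg2 r2 hr2 hr2T
    nlinarith
  -- by local-global some cover G of R has η < 0
  have hex : ∃ G, Cov u J R G ∧ ∀ g ∈ G, g ∉ R → η (u g) < 0 := by
    by_contra hcon
    push Not at hcon
    have := local_global hcov.right hηR (fun G hG => by
      obtain ⟨g, hg, hgR, hg0⟩ := hcon G hG
      exact ⟨g, hg, hgR, hg0⟩) r2 (hR2.right.1 hr2)
    linarith
  obtain ⟨G, hG, hGneg⟩ := hex
  obtain ⟨R', hne, hR', hR'G, -⟩ := diamond_exists hcov hG
  obtain ⟨b, hb, hbT⟩ := Finset.exists_of_ssubset hR'.ss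
  have hint' := inter_cov hR' hcov hne
  have key : ∀ i ∈ R', i ∉ T → h (u i) < 0 ∧ ψ (u i) < c * (-h (u i)) := by
    intro i hi hiT
    have hiR : i ∉ R := fun h' => hiT (hint' ▸ Finset.mem_inter.2 ⟨hi, h'⟩)
    have e := hGneg i (hR'G.sub hi) hiR
    simp only [hη, LinearMap.add_apply, LinearMap.smul_apply, smul_eq_mul] at e
    have p := hψ i (hR'.right.1 hi)
    constructor
    · by_contra hcon
      push Not at hcon
      nlinarith
    · linarith
  have hmem : (R', b) ∈ C := by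
    simp only [C, Finset.mem_filter, Finset.mem_product, Finset.mem_powerset]
    exact ⟨⟨hR'.right.1, hR'.right.1 hb⟩, hP R R' G hPR hcov hR' hG hR'G hneg
      (fun i hi hiT => (key i hi hiT).1), hR', fun i hi hiT => (key i hi hiT).1, hb, hbT⟩
  have := hmin _ hmem
  simp only at this
  obtain ⟨k1, k2⟩ := key b hb hbT
  rw [le_div_iff₀ (by linarith)] at this
  linarith

/-- Connectivity of the covers of a face. -/
lemma connected' (hT : IsFace u J T)
    {R1 R2 : Finset ι} (hR1 : Cov u J T R1) (hR2 : Cov u J T R2)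
    (P : Finset ι → Prop) (hP1 : P R1)
    (hP : ∀ R R' G, P R → Cov u J T R → Cov u J T R' → Cov u J R G → Cov u J R' G → P R') :
    P R2 := by
  obtain ⟨φ, hφ, hφT, hφpos, hφ0⟩ := hT.exists_pos
  refine connected hT (h := -φ) (fun i hi => by simp [hφT i hi]) hR1 hR2 ?_ ?_ P hP1
    (fun R R' G h1 h2 h3 h4 h5 _ _ => hP R R' G h1 h2 h3 h4 h5)
  · intro i hi hiT
    have := hφpos i (hR1.right.1 hi) hiT
    simpa using this
  · intro i hi hiT
    have := hφpos i (hR2.right.1 hi) hiT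
    simpa using this

/-- Ranks of faces are determined by the face lattice. -/
lemma rk_transport {X' : Type*} [AddCommGroup X'] [Module ℝ X'] {u' : ι → X'}
    (h : ∀ T, IsFace u J T ↔ IsFace u' J T) (h0 : IsFace u J ∅) :
    ∀ T, IsFace u J T → rk u T = rk u' T := by
  classical
  intro T
  induction T using Finset.strongInduction with
  | _ T ih =>
    intro hT
    by_cases hne : T = ∅
    · subst hne; rw [rk_empty, rk_empty]
    obtain ⟨R, hR, -⟩ := exists_le_cov h0 hT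
      (Finset.ssubset_iff_subset_ne.2 ⟨Finset.empty_subset _, fun e => hne e.symm⟩)
    have hR' : Cov u' J R T := ⟨(h R).1 hR.left, (h T).1 hT, hR.ss,
      fun Q hQ h1 h2 => hR.2.2.2 Q ((h Q).2 hQ) h1 h2⟩
    rw [hR.rk_eq, hR'.rk_eq, ih R hR.ss hR.left]

lemma cov_transport {X' : Type*} [AddCommGroup X'] [Module ℝ X'] {u' : ι → X'}
    (h : ∀ T, IsFace u J T ↔ IsFace u' J T) : Cov u J S T ↔ Cov u' J S T := by
  unfold Cov
  simp only [h]

end Pool.Agent.Work.MP_43c1cf_co
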