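import Pool.Agent.Work.MP_43c1cf_co.Adapt

/-!
# Local sign lemmas at codimension three faces II
-/

set_option autoImplicit false

namespace Pool.Agent.Work.MP_43c1cf_co

open Module Matrix

/-- no alternating pattern -/
def Alt {k : ℕ} (s : Fin k → SignType) : Prop :=
  ∃ a b c d : Fin k, a < b ∧ b < c ∧ c < d ∧
      ((s a = 1 ∧ s b = -1 ∧ s c = 1 ∧ s d = -1) ∨ (s a = -1 ∧ s b = 1 ∧ s c = -1 ∧ s d = 1))

/-- cyclic data at a face -/
structure Cyc3 {ι X : Type*} [AddCommGroup X] [Module ℝ X] (u : ι → X) (J T : Finset ι) {k : ℕ}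
    [NeZero k] (e f : Fin k → Finset ι) : Prop where
  cov : ∀ i, Cov u J T (e i)
  fac : ∀ i, Cov u J (f i) J
  sub : ∀ i, T ⊆ f i
  inc : ∀ i j, e j ⊆ f i ↔ j = i ∨ j = i + 1

lemma fin_aux1 {k : ℕ} [NeZero k] (hk : 3 ≤ k) : (1 : Fin k) ≠ 0 := by
  intro h
  have := congrArg Fin.val h
  rw [Fin.val_zero, Fin.val_one', Nat.mod_eq_of_lt (by omega)] at this
  omega

lemma fin_aux2 {k : ℕ} [NeZero k] (hk : 3 ≤ k) : (1 : Fin k) + 1 ≠ 0 := by
  intro h
  have := congrArg Fin.val h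
  rw [Fin.val_zero, Fin.val_add, Fin.val_one', Nat.mod_eq_of_lt (show 1 < k by omega),
    Nat.mod_eq_of_lt (show 1 + 1 < k by omega)] at this
  omega

lemma fin_ne1 {k : ℕ} [NeZero k] (hk : 3 ≤ k) (i : Fin k) : i ≠ i + 1 := by
  intro h
  exact fin_aux1 hk (by simpa using h)

lemma fin_ne2 {k : ℕ} [NeZero k] (hk : 3 ≤ k) (i : Fin k) : i ≠ i + 1 + 1 := by
  intro h
  rw [add_assoc] at h
  exact fin_aux2 hk (by simpa using h)

lemma fin_ne3 {k : ℕ} [NeZero k] (hk : 3 ≤ k) (i : Fin k) : i + 1 ≠ i - 1 := by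
  intro h
  have : i - 1 + 1 + 1 = i - 1 := by rw [sub_add_cancel]; exact h
  exact fin_ne2 hk (i - 1) this.symm

section

variable {ι X X' : Type*} [AddCommGroup X] [Module ℝ X] [AddCommGroup X'] [Module ℝ X']
  [FiniteDimensional ℝ X] [FiniteDimensional ℝ X']
  {B : X →ₗ[ℝ] X →ₗ[ℝ] ℝ} {B' : X' →ₗ[ℝ] X' →ₗ[ℝ] ℝ} {o : X} {o' : X'}
  {u : ι → X} {u' : ι → X'} {J T : Finset ι}

omit [FiniteDimensional ℝ X] [FiniteDimensional ℝ X'] in
lemma Cyc3.transport {k : ℕ} [NeZero k] {e f : Fin k → Finset ι}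
    (hf : ∀ T, IsFace u J T ↔ IsFace u' J T) (h : Cyc3 u J T e f) : Cyc3 u' J T e f :=
  ⟨fun i => (cov_transport hf).1 (h.cov i), fun i => (cov_transport hf).1 (h.fac i), h.sub, h.inc⟩

omit [FiniteDimensional ℝ X] in
lemma Cyc3.mem_iff {k : ℕ} [NeZero k] {e f : Fin k → Finset ι} (h : Cyc3 u J T e f)
    {a : Fin k → ι} (ha : ∀ i, a i ∈ e i) (haT : ∀ i, a i ∉ T) (i j : Fin k) :
    a j ∈ f i ↔ j = i ∨ j = i + 1 := by
  classical
  rw [← h.inc i j]
  constructor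
  · intro hmem
    have h1 := (h.cov j).right.inter (h.fac i).left
    have h2 := (h.cov j).2.2.2 _ h1 ((Finset.ssubset_iff_of_subset
      (Finset.subset_inter (h.cov j).sub (h.sub i))).2
        ⟨a j, Finset.mem_inter.2 ⟨ha j, hmem⟩, haT j⟩) Finset.inter_subset_left
    rw [← h2]; exact Finset.inter_subset_right
  · intro hsub; exact hsub (ha j)

omit [FiniteDimensional ℝ X] in
/-- facts on normals in adapted coordinates -/
lemma normal_co {n : ℕ} {E : Fin n → X} (hE : Adapted B u T E)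
    {m : X} (hm : ∀ s ∈ T, B m (u s) = 0) {x s t : X} (hx : x = s + t) (hs : s ∈ sp u T)
    (ht : ∀ r ∈ T, B t (u r) = 0) : B m x = co B E m ⬝ᵥ co B E x := by
  rw [hx, map_add, vanish_sp hm hs, co_add, hE.co_sp hs, zero_add, zero_add, hE.comp _ _ hm ht]

theorem local_sphere (h : Scribed B o u J) (h' : Scribed B' o' u' J)
    (hf : ∀ T, IsFace u J T ↔ IsFace u' J T) (hT : IsFace u J T) (hrk : 3 ≤ rk u T)
    (hN : rk u T + 3 = finrank ℝ X) (hX' : finrank ℝ X' = finrank ℝ X)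
    {m : Finset ι → X} {m' : Finset ι → X'}
    (hm : ∀ F, Cov u J F J → IsNormal B u J F (m F))
    (hm' : ∀ F, Cov u J F J → IsNormal B' u' J F (m' F))
    {M : Finset ι → (X →ₗ[ℝ] X')}
    (hM : ∀ F, Cov u J F J → (∀ i ∈ F, M F (u i) = u' i) ∧ ∀ z w, B' (M F z) (M F w) = B z w)
    {k : ℕ} [NeZero k] (hk : 3 ≤ k) {e f : Fin k → Finset ι} (hc : Cyc3 u J T e f)
    {s : Fin k → SignType}
    (hs : ∀ i, s i = SignType.sign (B' (m' (f (i-1))) (m' (f i)) - B (m (f (i-1))) (m (f i))))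
    (halt : ¬ Alt s) : ∀ i, s i = 0 := by
  classical
  have hT' := (hf T).1 hT
  have hrkT : rk u T = rk u' T := rk_transport hf h.empty T hT
  have hc' := hc.transport hf
  obtain ⟨E, hE, hEd⟩ := h.adapted hT hrk hN
  obtain ⟨E', hE', hEd'⟩ := h'.adapted hT' (hrkT ▸ hrk) (by rw [← hrkT, hN, hX'])
  choose a ha haT using fun i => Finset.exists_of_ssubset (hc.cov i).ss
  have haJ : ∀ i, a i ∈ J := fun i => (hc.cov i).right.1 (ha i)
  have hmem := hc.mem_iff ha haT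
  -- positivity of norms
  have hpos : ∀ i, 0 < co B E (u (a i)) ⬝ᵥ co B E (u (a i)) := by
    intro i
    obtain ⟨sx, tx, hx, hsx, htx⟩ := hEd (u (a i))
    obtain ⟨τ, hτ, hττ, -⟩ := h.timelike hT hrk
    have e1 : co B E (u (a i)) ⬝ᵥ co B E (u (a i)) = B tx tx := by
      rw [hx, co_add, hE.co_sp hsx, zero_add, hE.comp _ _ htx htx]
    rw [e1]
    refine h.lor.pos_of_orth hττ (by rw [h.lor.symm]; exact vanish_sp htx hτ) ?_
    rintro rfl
    rw [add_zero] at hx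
    exact haT i (hT.mem_of_sp (haJ i) (hx ▸ hsx))
  have hpos' : ∀ i, 0 < co B' E' (u' (a i)) ⬝ᵥ co B' E' (u' (a i)) := by
    intro i
    obtain ⟨sx, tx, hx, hsx, htx⟩ := hEd' (u' (a i))
    obtain ⟨τ, hτ, hττ, -⟩ := h'.timelike hT' (hrkT ▸ hrk)
    have e1 : co B' E' (u' (a i)) ⬝ᵥ co B' E' (u' (a i)) = B' tx tx := by
      rw [hx, co_add, hE'.co_sp hsx, zero_add, hE'.comp _ _ htx htx]
    rw [e1]
    refine h'.lor.pos_of_orth hττ (by rw [h'.lor.symm]; exact vanish_sp htx hτ) ?_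
    rintro rfl
    rw [add_zero] at hx
    exact haT i (hT'.mem_of_sp (haJ i) (hx ▸ hsx))
  -- products in a facet
  have hww : ∀ i j l, a i ∈ f l → a j ∈ f l →
      co B' E' (u' (a i)) ⬝ᵥ co B' E' (u' (a j)) = co B E (u (a i)) ⬝ᵥ co B E (u (a j)) := by
    intro i j l hi hj
    obtain ⟨sx, tx, hx, hsx, htx⟩ := hEd (u (a i))
    obtain ⟨sy, ty, hy, hsy, hty⟩ := hEd (u (a j))
    obtain ⟨hM1, hM2⟩ := hM (f l) (hc.fac l)
    have := hE.isom hE' (M := M (f l)) (fun s hs => hM1 s (hc.sub l hs)) hM2 hx hy hsx hsy htx hty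
    rwa [hM1 _ hi, hM1 _ hj] at this
  have hmT : ∀ i, ∀ s ∈ T, B (m (f i)) (u s) = 0 := fun i s hs =>
    (hm _ (hc.fac i)).2.1 s (hc.sub i hs)
  have hmT' : ∀ i, ∀ s ∈ T, B' (m' (f i)) (u' s) = 0 := fun i s hs =>
    (hm' _ (hc.fac i)).2.1 s (hc.sub i hs)
  have hν : ∀ i j, co B E (m (f i)) ⬝ᵥ co B E (u (a j)) = B (m (f i)) (u (a j)) := by
    intro i j
    obtain ⟨sx, tx, hx, hsx, htx⟩ := hEd (u (a j))
    exact (normal_co hE (hmT i) hx hsx htx).symm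
  have hν' : ∀ i j, co B' E' (m' (f i)) ⬝ᵥ co B' E' (u' (a j)) = B' (m' (f i)) (u' (a j)) := by
    intro i j
    obtain ⟨sx, tx, hx, hsx, htx⟩ := hEd' (u' (a j))
    exact (normal_co hE' (hmT' i) hx hsx htx).symm
  set r : Fin k → ℝ := fun i => (Real.sqrt (co B E (u (a i)) ⬝ᵥ co B E (u (a i))))⁻¹ with hr
  set r' : Fin k → ℝ := fun i => (Real.sqrt (co B' E' (u' (a i)) ⬝ᵥ co B' E' (u' (a i))))⁻¹ with hr'
  have hr0 : ∀ i, 0 < r i := fun i => inv_pos.2 (Real.sqrt_pos.2 (hpos i))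
  have hr0' : ∀ i, 0 < r' i := fun i => inv_pos.2 (Real.sqrt_pos.2 (hpos' i))
  have hrr : ∀ i, r' i = r i := by
    intro i
    simp only [hr, hr']
    rw [hww i i i ((hmem i i).2 (Or.inl rfl)) ((hmem i i).2 (Or.inl rfl))]
  have hlt : ∀ i j, j ≠ i → j ≠ i + 1 →
      co B E (m (f i)) ⬝ᵥ (r j • co B E (u (a j))) < 0 := by
    intro i j h1 h2
    rw [dotProduct_smul, hν, smul_eq_mul]
    refine mul_neg_of_pos_of_neg (hr0 j) ((hm _ (hc.fac i)).2.2 _ (haJ j) ?_)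
    rw [hmem]; tauto
  have hlt' : ∀ i j, j ≠ i → j ≠ i + 1 →
      co B' E' (m' (f i)) ⬝ᵥ (r' j • co B' E' (u' (a j))) < 0 := by
    intro i j h1 h2
    rw [dotProduct_smul, hν', smul_eq_mul]
    refine mul_neg_of_pos_of_neg (hr0' j) ((hm' _ (hc.fac i)).2.2 _ (haJ j) ?_)
    rw [hmem]; tauto
  have h00 : ∀ i j, (j = i ∨ j = i + 1) → co B E (m (f i)) ⬝ᵥ (r j • co B E (u (a j))) = 0 := by
    intro i j hij
    rw [dotProduct_smul, hν, (hm _ (hc.fac i)).2.1 _ ((hmem i j).2 hij), smul_zero]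
  have h00' : ∀ i j, (j = i ∨ j = i + 1) →
      co B' E' (m' (f i)) ⬝ᵥ (r' j • co B' E' (u' (a j))) = 0 := by
    intro i j hij
    rw [dotProduct_smul, hν', (hm' _ (hc.fac i)).2.1 _ ((hmem i j).2 hij), smul_zero]
  have hli : ∀ (v ν : Fin k → Fin 3 → ℝ), (∀ i j, j ≠ i → j ≠ i + 1 → ν i ⬝ᵥ v j < 0) →
      (∀ i j, (j = i ∨ j = i + 1) → ν i ⬝ᵥ v j = 0) →
      ∀ i, LinearIndependent ℝ ![v i, v (i+1)] := by
    intro v ν hv1 hv2 i
    rw [LinearIndependent.pair_iff]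
    intro s t hst
    have e1 := congrArg (fun z => ν (i - 1) ⬝ᵥ z) hst
    have e2 := congrArg (fun z => ν (i + 1) ⬝ᵥ z) hst
    simp only [dotProduct_add, dotProduct_smul, dotProduct_zero, smul_eq_mul] at e1 e2
    rw [hv2 (i-1) i (Or.inr (by rw [sub_add_cancel]))] at e1
    rw [hv2 (i+1) (i+1) (Or.inl rfl)] at e2
    have f1 := hv1 (i-1) (i+1) (fin_ne3 hk i) (by rw [sub_add_cancel]; exact (fin_ne1 hk i).symm)
    have f2 := hv1 (i+1) i (fin_ne1 hk i) (fin_ne2 hk i)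
    constructor
    · have : s * (ν (i+1) ⬝ᵥ v i) = 0 := by linarith
      exact (mul_eq_zero.1 this).resolve_right f2.ne
    · have : t * (ν (i-1) ⬝ᵥ v (i+1)) = 0 := by linarith
      exact (mul_eq_zero.1 this).resolve_right f1.ne
  refine sphere_support_sign hk (fun i => r i • co B E (u (a i)))
    (fun i => r' i • co B' E' (u' (a i))) (fun i => co B E (m (f i)))
    (fun i => co B' E' (m' (f i))) ?_ ?_ ?_ ?_ ?_ ?_ ?_ ?_ hlt hlt' ?_ ?_ ?_ s ?_ halt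
  · intro i
    simp only [smul_dotProduct, dotProduct_smul, smul_eq_mul, hr]
    have := Real.mul_self_sqrt (hpos i).le
    have h2 := (Real.sqrt_pos.2 (hpos i)).ne'
    field_simp
    rw [sq]; exact this.symm
  · intro i
    simp only [smul_dotProduct, dotProduct_smul, smul_eq_mul, hr']
    have := Real.mul_self_sqrt (hpos' i).le
    have h2 := (Real.sqrt_pos.2 (hpos' i)).ne'
    field_simp
    rw [sq]; exact this.symm
  · intro i
    rw [← hE.comp _ _ (hmT i) (hmT i)]; exact (hm _ (hc.fac i)).1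
  · intro i
    rw [← hE'.comp _ _ (hmT' i) (hmT' i)]; exact (hm' _ (hc.fac i)).1
  · exact fun i => h00 i i (Or.inl rfl)
  · exact fun i => h00' i i (Or.inl rfl)
  · exact fun i => h00 i (i+1) (Or.inr rfl)
  · exact fun i => h00' i (i+1) (Or.inr rfl)
  · exact hli _ _ hlt h00
  · exact hli _ _ hlt' h00'
  · intro i
    simp only [smul_dotProduct, dotProduct_smul, smul_eq_mul, hrr]
    rw [hww i (i+1) i ((hmem i i).2 (Or.inl rfl)) ((hmem i (i+1)).2 (Or.inr rfl))]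
  · intro i
    rw [hs i, hE.comp _ _ (hmT _) (hmT _), hE'.comp _ _ (hmT' _) (hmT' _)]

end

end Pool.Agent.Work.MP_43c1cf_co
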