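import Pool.Agent.Work.MP_43c1cf_co.Defs
import Pool.Agent.Work.MP_43c1cf_co.Face2

/-!
# Lorentz space algebra
-/

set_option autoImplicit false

namespace Pool.Agent.Work.MP_43c1cf_co

open Module

variable {X : Type*} [AddCommGroup X] [Module ℝ X] {B : X →ₗ[ℝ] X →ₗ[ℝ] ℝ} {o : X}

lemma Lor.nonneg (h : Lor B o) {x : X} (hx : B o x = 0) : 0 ≤ B x x := by
  by_cases h0 : x = 0
  · simp [h0]
  · exact (h.pos x hx h0).le

lemma Lor.eq_zero (h : Lor B o) {x : X} (hx : B o x = 0) (hxx : B x x ≤ 0) : x = 0 := by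
  by_contra h0
  exact absurd (h.pos x hx h0) (not_lt.2 hxx)

lemma Lor.cs (h : Lor B o) {x y : X} (hx : B o x = 0) (hy : B o y = 0) :
    (B x y) ^ 2 ≤ B x x * B y y := by
  by_cases h0 : y = 0
  · simp [h0]
  have hyy := h.pos y hy h0
  have h1 : 0 ≤ B (B y y • x - B x y • y) (B y y • x - B x y • y) := by
    refine h.nonneg ?_
    simp [hx, hy]
  have h2 : B (B y y • x - B x y • y) (B y y • x - B x y • y) =
      B y y * (B y y * B x x - (B x y) ^ 2) := by
    simp only [map_sub, map_smul, LinearMap.sub_apply, LinearMap.smul_apply, smul_eq_mul]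
    rw [h.symm y x]
    ring
  rw [h2] at h1
  have := nonneg_of_mul_nonneg_right h1 hyy
  linarith

/-- Decomposition along `o`. -/
lemma Lor.decomp (h : Lor B o) (x : X) :
    ∃ (a : ℝ) (x' : X), x = a • o + x' ∧ B o x' = 0 ∧ B o x = a * B o o := by
  have hw := h.neg.ne
  refine ⟨B o x / B o o, x - (B o x / B o o) • o, by abel, ?_, ?_⟩
  · simp only [map_sub, map_smul, smul_eq_mul]; field_simp; ring
  · field_simp

lemma Lor.pos_of_orth (h : Lor B o) {x y : X} (hx : B x x < 0) (hxy : B x y = 0) (hy : y ≠ 0) :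
    0 < B y y := by
  obtain ⟨a, x', rfl, hx', -⟩ := h.decomp x
  obtain ⟨b, y', rfl, hy', -⟩ := h.decomp y
  have sx' : B x' o = 0 := by rw [h.symm]; exact hx'
  have sy' : B y' o = 0 := by rw [h.symm]; exact hy'
  simp only [map_add, map_smul, LinearMap.add_apply, LinearMap.smul_apply, smul_eq_mul, hx', hy',
    sx', sy'] at hx hxy ⊢
  have hw := h.neg
  have cs := h.cs hx' hy'
  have n1 := h.nonneg hx'
  have n2 := h.nonneg hy'
  by_contra hcon
  push Not at hcon
  have hb : b ≠ 0 := by
    rintro rfl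
    have : y' = 0 := h.eq_zero hy' (by linarith)
    exact hy (by simp [this])
  have hb2 : 0 < b ^ 2 := by positivity
  have e1 : B x' y' = - (a * b * B o o) := by linarith
  rw [e1] at cs
  have e2 : B x' x' * B y' y' ≤ B x' x' * (b ^ 2 * (- B o o)) :=
    mul_le_mul_of_nonneg_left (by nlinarith) n1
  have e3 : B x' x' * (b ^ 2 * (- B o o)) < (a ^ 2 * (- B o o)) * (b ^ 2 * (- B o o)) := by
    refine mul_lt_mul_of_pos_right (by nlinarith) (mul_pos hb2 (by linarith))
  nlinarith

lemma Lor.neg_of_future (h : Lor B o) {x y : X} (hx : B x x < 0) (hy : B y y ≤ 0)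
    (hox : B o x < 0) (hoy : B o y < 0) : B x y < 0 := by
  obtain ⟨a, x', rfl, hx', ha⟩ := h.decomp x
  obtain ⟨b, y', rfl, hy', hb⟩ := h.decomp y
  have sx' : B x' o = 0 := by rw [h.symm]; exact hx'
  have sy' : B y' o = 0 := by rw [h.symm]; exact hy'
  have hw := h.neg
  rw [ha] at hox
  rw [hb] at hoy
  have ha0 : 0 < a := by by_contra hc; push Not at hc; nlinarith
  have hb0 : 0 < b := by by_contra hc; push Not at hc; nlinarith
  simp only [map_add, map_smul, LinearMap.add_apply, LinearMap.smul_apply, smul_eq_mul, hx', hy',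
    sx', sy'] at hx hy ⊢
  have cs := h.cs hx' hy'
  have n1 := h.nonneg hx'
  have n2 := h.nonneg hy'
  have e2 : B x' x' * B y' y' ≤ B x' x' * (b ^ 2 * (- B o o)) :=
    mul_le_mul_of_nonneg_left (by nlinarith) n1
  have e3 : B x' x' * (b ^ 2 * (- B o o)) < (a ^ 2 * (- B o o)) * (b ^ 2 * (- B o o)) := by
    refine mul_lt_mul_of_pos_right (by nlinarith) (mul_pos (by positivity) (by linarith))
  have e4 : (B x' y') ^ 2 < (a * b * (-B o o)) ^ 2 := by nlinarith
  have e5 : |B x' y'| < |a * b * (-B o o)| := sq_lt_sq.1 e4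
  have e6 : 0 < a * b * (-B o o) := by
    have : 0 < a * b := mul_pos ha0 hb0
    nlinarith
  rw [abs_of_pos e6] at e5
  have := (abs_lt.1 e5).2
  nlinarith

lemma Lor.prop_of_orth (h : Lor B o) {x y : X} (hx : B x x ≤ 0) (hy : B y y ≤ 0)
    (hox : B o x < 0) (hoy : B o y < 0) (hxy : 0 ≤ B x y) : y = (B o y / B o x) • x := by
  have hz : B o x • y - B o y • x = 0 := by
    refine h.eq_zero ?_ ?_
    · simp only [map_sub, map_smul, smul_eq_mul]; ring
    · simp only [map_sub, map_smul, LinearMap.sub_apply, LinearMap.smul_apply, smul_eq_mul]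
      rw [h.symm y x]
      have p1 : 0 < B o x * B o y := mul_pos_of_neg_of_neg hox hoy
      have p2 : 0 < (B o x) ^ 2 := sq_pos_of_neg hox
      have p3 : 0 < (B o y) ^ 2 := sq_pos_of_neg hoy
      nlinarith [mul_nonneg p1.le hxy, mul_nonneg p2.le (neg_nonneg.2 hy),
        mul_nonneg p3.le (neg_nonneg.2 hx)]
  have hne : B o x ≠ 0 := hox.ne
  rw [sub_eq_zero] at hz
  rw [div_eq_inv_mul, mul_smul, ← hz, smul_smul, inv_mul_cancel₀ hne, one_smul]

lemma Lor.nonpos_of_future (h : Lor B o) {x y : X} (hx : B x x ≤ 0) (hy : B y y ≤ 0)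
    (hox : B o x < 0) (hoy : B o y < 0) : B x y ≤ 0 := by
  by_contra hcon
  push Not at hcon
  have e := h.prop_of_orth hx hy hox hoy hcon.le
  rw [e, map_smul, smul_eq_mul] at hcon
  have : 0 < B o y / B o x := div_pos_of_neg_of_neg hoy hox
  nlinarith

/-- Two future causal vectors which are not proportional have negative product. -/
lemma Lor.neg_of_not_prop (h : Lor B o) {x y : X} (hx : B x x ≤ 0) (hy : B y y ≤ 0)
    (hox : B o x < 0) (hoy : B o y < 0) (hne : ∀ t : ℝ, y ≠ t • x) : B x y < 0 := by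
  by_contra hcon
  push Not at hcon
  exact hne _ (h.prop_of_orth hx hy hox hoy hcon)

/-- Sign of `B o` versus sign of the product with a future timelike vector. -/
lemma Lor.causal_sign (h : Lor B o) {x y : X} (hx : B x x < 0) (hox : B o x < 0)
    (hy : B y y ≤ 0) (hxy : B x y < 0) : B o y < 0 := by
  rcases lt_trichotomy (B o y) 0 with h1 | h1 | h1
  · exact h1
  · have := h.eq_zero h1 hy
    subst this; simp at hxy
  · have h2 := h.neg_of_future (x := x) (y := -y) hx (by simpa using hy) hox (by simpa using h1)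
    simp only [map_neg] at h2
    linarith

lemma Lor.nondeg (h : Lor B o) {x : X} (hx : ∀ y, B x y = 0) : x = 0 :=
  h.eq_zero (by rw [h.symm]; exact hx o) (hx x).le

lemma Lor.repr [FiniteDimensional ℝ X] (h : Lor B o) (φ : X →ₗ[ℝ] ℝ) : ∃ m, ∀ x, φ x = B m x := by
  have hinj : Function.Injective B := by
    rw [injective_iff_map_eq_zero]
    intro x hx
    exact h.nondeg (fun y => by rw [hx]; rfl)
  have hsurj : Function.Surjective B :=
    (LinearMap.injective_iff_surjective_of_finrank_eq_finrank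
      (Subspace.dual_finrank_eq (K := ℝ) (V := X)).symm).1 hinj
  obtain ⟨m, hm⟩ := hsurj φ
  exact ⟨m, fun x => by rw [hm]⟩

/-- Any future timelike vector can serve as the time vector. -/
lemma Lor.change (h : Lor B o) {o' : X} (ho : B o' o' < 0) : Lor B o' :=
  ⟨h.symm, ho, fun _ hx hx0 => h.pos_of_orth ho hx hx0⟩

/-- Families with proportional Gram matrices, spanning, are related by a linear map. -/
lemma exists_isom {κ X' : Type*} [AddCommGroup X'] [Module ℝ X']
    {B' : X' →ₗ[ℝ] X' →ₗ[ℝ] ℝ} (x : κ → X) (y : κ → X')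
    (hx : Submodule.span ℝ (Set.range x) = ⊤) (hy : Submodule.span ℝ (Set.range y) = ⊤)
    (hB' : ∀ z, (∀ w, B' z w = 0) → z = 0) (c : ℝ)
    (hG : ∀ k l, B' (y k) (y l) = c * B (x k) (x l)) :
    ∃ A : X →ₗ[ℝ] X', (∀ k, A (x k) = y k) ∧ ∀ z w, B' (A z) (A w) = c * B z w := by
  set f := Finsupp.linearCombination ℝ x with hf
  set g := Finsupp.linearCombination ℝ y with hg
  have hfs : Function.Surjective f := by
    rw [← LinearMap.range_eq_top, hf, Finsupp.range_linearCombination, hx]
  have hgram : ∀ a b, B' (g a) (g b) = c * B (f a) (f b) := by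
    intro a b
    induction a using Finsupp.induction_linear with
    | zero => simp
    | add a1 a2 h1 h2 => simp only [map_add, LinearMap.add_apply, h1, h2]; ring
    | single k r =>
      induction b using Finsupp.induction_linear with
      | zero => simp
      | add b1 b2 h1 h2 => simp only [map_add, h1, h2]; ring
      | single l s =>
        simp only [hf, hg, Finsupp.linearCombination_single, map_smul, LinearMap.smul_apply,
          smul_eq_mul, hG]
        ring
  have hgs : Function.Surjective g := by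
    rw [← LinearMap.range_eq_top, hg, Finsupp.range_linearCombination, hy]
  have hker : LinearMap.ker f ≤ LinearMap.ker g := by
    intro a ha
    rw [LinearMap.mem_ker] at ha ⊢
    refine hB' _ (fun w => ?_)
    obtain ⟨b, rfl⟩ := hgs w
    rw [hgram, ha]; simp
  obtain ⟨s, hs⟩ := LinearMap.exists_rightInverse_of_surjective f (LinearMap.range_eq_top.2 hfs)
  have hsf : ∀ z, f (s z) = z := fun z => by
    have := congrArg (fun F => F z) hs
    simpa using this
  have hA : ∀ a, g (s (f a)) = g a := by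
    intro a
    have : s (f a) - a ∈ LinearMap.ker f := by
      rw [LinearMap.mem_ker, map_sub, hsf, sub_self]
    have h2 := hker this
    rw [LinearMap.mem_ker, map_sub, sub_eq_zero] at h2
    exact h2
  refine ⟨g ∘ₗ s, ?_, ?_⟩
  · intro k
    have : x k = f (Finsupp.single k 1) := by simp [hf]
    rw [LinearMap.comp_apply, this, hA]
    simp [hg]
  · intro z w
    rw [LinearMap.comp_apply, LinearMap.comp_apply, hgram, hsf, hsf]

/-- Restriction of a Lorentz form to the orthogonal complement of a spacelike vector. -/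
lemma Lor.proj (h : Lor B o) {m : X} (hm : B m m = 1) :
    B (o - B o m • m) (o - B o m • m) < 0 ∧ (∀ y, B m y = 0 → B (o - B o m • m) y = B o y) ∧
      B m (o - B o m • m) = 0 := by
  refine ⟨?_, ?_, ?_⟩
  · simp only [map_sub, map_smul, LinearMap.sub_apply, LinearMap.smul_apply, smul_eq_mul, hm]
    rw [h.symm m o]
    have := h.neg
    nlinarith [sq_nonneg (B o m)]
  · intro y hy
    simp [hy]
  · simp only [map_sub, map_smul, smul_eq_mul, hm]
    rw [h.symm m o]; ring

end Pool.Agent.Work.MP_43c1cf_co
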