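import Mathlib

/-!
# Edge-scribed polytopes and their ball arrangements: definitions

Literal rendering of the section Setting and definitions of MP_43c1cf_co.  Euclidean space `E^n` is
`Fin n → ℝ` with the squared norm `nsq`, and `ℝ^d ∪ {∞}` is `OnePoint (Fin d → ℝ)`.
-/

set_option autoImplicit false

namespace Pool.Agent.Work.MP_43c1cf_co.Mob

/-- the squared Euclidean norm on `E^n` -/
def nsq {n : ℕ} (x : Fin n → ℝ) : ℝ := ∑ i, x i ^ 2

/-- the unit sphere of `E^n` -/
def unitSphere (n : ℕ) : Set (Fin n → ℝ) := {x | nsq x = 1}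

/-- `P` is an `n`-polytope in `E^n`: the convex hull of a finite set of points, with nonempty interior
(that is, `n`-dimensional). -/
def IsPolytope {n : ℕ} (P : Set (Fin n → ℝ)) : Prop :=
  (∃ V : Finset (Fin n → ℝ), P = convexHull ℝ (V : Set (Fin n → ℝ))) ∧ (interior P).Nonempty

/-- The face lattice of `P`, ordered by inclusion: the empty set and the sets of maximal points in `P`
of the linear functionals (the zero functional gives `P` itself). -/
abbrev Faces {n : ℕ} (P : Set (Fin n → ℝ)) : Type :=
  {F : Set (Fin n → ℝ) // IsExposed ℝ P F}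

/-- `P` and `Q` have the same combinatorial type: their face lattices are isomorphic. -/
def SameType {n : ℕ} (P Q : Set (Fin n → ℝ)) : Prop := Nonempty (Faces P ≃o Faces Q)

/-- `P` is edge-scribed: every edge (face of dimension `1`) of `P` is tangent to the unit sphere, that
is, the line spanned by the edge has exactly one point in common with the sphere and this point
belongs to the edge. -/
def EdgeScribed {n : ℕ} (P : Set (Fin n → ℝ)) : Prop :=
  ∀ F : Set (Fin n → ℝ), IsExposed ℝ P F → Module.finrank ℝ (vectorSpan ℝ F) = 1 →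
    ∃ p ∈ F, (affineSpan ℝ F : Set (Fin n → ℝ)) ∩ unitSphere n = {p}

/-- The cap of the points `x` of the unit sphere visible from `v`: the segment from `v` to `x` contains
no point of the closed unit ball apart from `x`. -/
def cap {n : ℕ} (v : Fin n → ℝ) : Set (Fin n → ℝ) :=
  {x | x ∈ unitSphere n ∧ ∀ y ∈ segment ℝ v x, nsq y ≤ 1 → y = x}

open Classical in
/-- Stereographic projection of the unit sphere of `E^(d+1)` onto `ℝ^d ∪ {∞}` from the point
`(0, …, 0, 1)`. -/
noncomputable def stereo {d : ℕ} (x : Fin (d + 1) → ℝ) : OnePoint (Fin d → ℝ) :=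
  if x (Fin.last d) = 1 then OnePoint.infty
  else OnePoint.some fun i => x i.castSucc / (1 - x (Fin.last d))

/-- The ball of the vertex `v`: the stereographic projection of the cap visible from `v`. -/
def ball {d : ℕ} (v : Fin (d + 1) → ℝ) : Set (OnePoint (Fin d → ℝ)) := stereo '' cap v

/-- The ball-arrangement projection `B(P)`: the balls of the vertices of `P` (faces with one point). -/
def ballArrangement {d : ℕ} (P : Set (Fin (d + 1) → ℝ)) : Set (Set (OnePoint (Fin d → ℝ))) :=
  {B | ∃ v, IsExposed ℝ P {v} ∧ B = ball v}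

open Classical in
/-- Inversion of `ℝ^d ∪ {∞}` in the sphere with centre `c` and radius `r`. -/
noncomputable def sphereInversion {d : ℕ} (c : Fin d → ℝ) (r : ℝ) :
    OnePoint (Fin d → ℝ) → OnePoint (Fin d → ℝ)
  | OnePoint.infty => OnePoint.some c
  | OnePoint.some y =>
      if y = c then OnePoint.infty
      else OnePoint.some fun i => c i + r ^ 2 / nsq (y - c) * (y i - c i)

/-- Reflection of `ℝ^d ∪ {∞}` in the hyperplane `{y | a · y = t}`. -/
noncomputable def planeReflection {d : ℕ} (a : Fin d → ℝ) (t : ℝ) :
    OnePoint (Fin d → ℝ) → OnePoint (Fin d → ℝ)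
  | OnePoint.infty => OnePoint.infty
  | OnePoint.some y => OnePoint.some fun i => y i - 2 * ((∑ j, a j * y j) - t) / nsq a * a i

/-- Möbius transformations of `ℝ^d ∪ {∞}`: the compositions of finitely many inversions in spheres and
reflections in hyperplanes. -/
inductive IsMobius {d : ℕ} : (OnePoint (Fin d → ℝ) → OnePoint (Fin d → ℝ)) → Prop
  | id : IsMobius id
  | inversion (c : Fin d → ℝ) (r : ℝ) (μ : OnePoint (Fin d → ℝ) → OnePoint (Fin d → ℝ)) :
      0 < r → IsMobius μ → IsMobius (sphereInversion c r ∘ μ)
  | reflection (a : Fin d → ℝ) (t : ℝ) (μ : OnePoint (Fin d → ℝ) → OnePoint (Fin d → ℝ)) :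
      a ≠ 0 → IsMobius μ → IsMobius (planeReflection a t ∘ μ)

/-- The `(d+1)`-polytope `T` is edge-scribable: its combinatorial type has an edge-scribed
realization. -/
def EdgeScribable {d : ℕ} (T : Set (Fin (d + 1) → ℝ)) : Prop :=
  ∃ P, IsPolytope P ∧ SameType T P ∧ EdgeScribed P

/-- The `(d+1)`-polytope `T` is Möbius unique: for any two edge-scribed realizations `P`, `Q` of its
combinatorial type there is a Möbius transformation mapping `B(P)` onto `B(Q)`. -/
def MobiusUnique {d : ℕ} (T : Set (Fin (d + 1) → ℝ)) : Prop :=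
  ∀ P Q, IsPolytope P → SameType T P → EdgeScribed P → IsPolytope Q → SameType T Q → EdgeScribed Q →
    ∃ μ : OnePoint (Fin d → ℝ) → OnePoint (Fin d → ℝ), IsMobius μ ∧
      (fun B => μ '' B) '' ballArrangement P = ballArrangement Q

end Pool.Agent.Work.MP_43c1cf_co.Mob
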