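import Pool.Agent.Work.MP_43c1cf_co.MobLemmas

/-!
# Every Lorentz isometry induces a Möbius transformation
-/

set_option autoImplicit false

namespace Pool.Agent.Work.MP_43c1cf_co.Mob

open Pool.Agent.Work.MP_43c1cf_co

variable {d n : ℕ}

lemma LB_single_some (x : Option (Fin n) → ℝ) (j : Fin n) : LB n x (Pi.single (some j) 1) = x (some j) := by
  rw [LB_apply]
  rw [Finset.sum_eq_single j]
  · simp
  · intro i _ hij
    have : (some i : Option (Fin n)) ≠ some j := fun h => hij (Option.some.inj h)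
    simp [Pi.single_apply, this, hij]
  · intro h; exact absurd (Finset.mem_univ j) h

lemma LB_single_none (x : Option (Fin n) → ℝ) : LB n x (Pi.single none 1) = - x none := by
  rw [LB_apply]
  simp

lemma e0_eq : (e0 : Option (Fin n) → ℝ) = Pi.single none 1 := by
  funext i; rcases i with _ | i <;> simp [e0]

lemma isom_inj {A : (Option (Fin n) → ℝ) →ₗ[ℝ] (Option (Fin n) → ℝ)}
    (hA : ∀ x y, LB n (A x) (A y) = LB n x y) {Z : Option (Fin n) → ℝ} (hZ : A Z = 0) : Z = 0 := by
  have h : ∀ y, LB n Z y = 0 := fun y => by rw [← hA, hZ, map_zero, LinearMap.zero_apply]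
  funext j
  rcases j with _ | j
  · have := h (Pi.single none 1)
    rw [LB_single_none] at this
    simpa using this
  · have := h (Pi.single (some j) 1)
    rw [LB_single_some] at this
    simpa using this

/-- `A` induces a Möbius transformation -/
def Good (A : (Option (Fin (d+1)) → ℝ) →ₗ[ℝ] (Option (Fin (d+1)) → ℝ)) : Prop :=
  ∃ μ : OnePoint (Fin d → ℝ) → OnePoint (Fin d → ℝ), IsMobius μ ∧
    ∀ Z, LB (d+1) Z Z = 0 → Z ≠ 0 → sg (A Z) = μ (sg Z)

lemma Good.comp {A : (Option (Fin (d+1)) → ℝ) →ₗ[ℝ] (Option (Fin (d+1)) → ℝ)} (hA : Good A)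
    (hi : ∀ x y, LB (d+1) (A x) (A y) = LB (d+1) x y) {w : Option (Fin (d+1)) → ℝ}
    (hw : 0 < LB (d+1) w w) : Good (RR (d+1) w ∘ₗ A) := by
  obtain ⟨μ, hμ, h⟩ := hA
  obtain ⟨ν, hν, h'⟩ := refl_mob hw hμ
  refine ⟨ν ∘ μ, hν, fun Z hZ hZ0 => ?_⟩
  rw [LinearMap.comp_apply, h' (A Z) (by rw [hi, hZ]) (fun h0 => hZ0 (isom_inj hi h0)), h Z hZ hZ0]
  rfl

lemma comp_isom {A : (Option (Fin n) → ℝ) →ₗ[ℝ] (Option (Fin n) → ℝ)}
    (hi : ∀ x y, LB n (A x) (A y) = LB n x y) {w : Option (Fin n) → ℝ} (hw : LB n w w ≠ 0) :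
    ∀ x y, LB n ((RR n w ∘ₗ A) x) ((RR n w ∘ₗ A) y) = LB n x y := by
  intro x y
  rw [LinearMap.comp_apply, LinearMap.comp_apply, RR_isom hw, hi]

lemma Good.of_comp {A : (Option (Fin (d+1)) → ℝ) →ₗ[ℝ] (Option (Fin (d+1)) → ℝ)}
    (hi : ∀ x y, LB (d+1) (A x) (A y) = LB (d+1) x y) {w : Option (Fin (d+1)) → ℝ}
    (hw : 0 < LB (d+1) w w) (h : Good (RR (d+1) w ∘ₗ A)) : Good A := by
  have h1 := h.comp (comp_isom hi hw.ne') hw
  have : RR (d+1) w ∘ₗ (RR (d+1) w ∘ₗ A) = A := by
    refine LinearMap.ext fun Z => ?_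
    rw [LinearMap.comp_apply, LinearMap.comp_apply, RR_invol hw.ne']
  rwa [this] at h1

lemma RR_orth {w x : Option (Fin n) → ℝ} (h : LB n x w = 0) : RR n w x = x := by
  rw [RR_apply, h, mul_zero, zero_div, zero_smul, sub_zero]

/-- the reflection in `A x - x` maps `A x` to `x` -/
lemma RR_swap {u x : Option (Fin n) → ℝ} (h : LB n u u = LB n x x)
    (hw : LB n (u - x) (u - x) ≠ 0) : RR n (u - x) u = x := by
  have e : LB n (u - x) (u - x) = 2 * LB n u (u - x) := by
    simp only [map_sub, LinearMap.sub_apply]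
    rw [LB_symm x u, h]; ring
  rw [RR_apply, ← e, div_self hw, one_smul, sub_sub_cancel]

lemma good_of_fix (S : Finset (Fin (d+1))) :
    ∀ A : (Option (Fin (d+1)) → ℝ) →ₗ[ℝ] (Option (Fin (d+1)) → ℝ),
      (∀ x y, LB (d+1) (A x) (A y) = LB (d+1) x y) → A (Pi.single none 1) = Pi.single none 1 →
      (∀ j, j ∉ S → A (Pi.single (some j) 1) = Pi.single (some j) 1) → Good A := by
  classical
  induction S using Finset.induction_on with
  | empty =>
    intro A hA h0 h1
    have : A = LinearMap.id := by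
      refine (Pi.basisFun ℝ (Option (Fin (d+1)))).ext fun j => ?_
      rw [Pi.basisFun_apply, LinearMap.id_apply]
      rcases j with _ | j
      · exact h0
      · exact h1 j (Finset.notMem_empty j)
    rw [this]
    exact ⟨id, IsMobius.id, fun Z _ _ => rfl⟩
  | insert k S hk ih =>
    intro A hA h0 h1
    by_cases hfix : A (Pi.single (some k) 1) = Pi.single (some k) 1
    · refine ih A hA h0 fun j hj => ?_
      by_cases hjk : j = k
      · rw [hjk, hfix]
      · exact h1 j (by rw [Finset.mem_insert]; push Not; exact ⟨hjk, hj⟩)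
    · set w := A (Pi.single (some k) 1) - Pi.single (some k) 1 with hwdef
      have hw0 : w ≠ 0 := sub_ne_zero.2 hfix
      have hort : ∀ x, A x = x → LB (d+1) x w = 0 := by
        intro x hx
        rw [hwdef, map_sub, sub_eq_zero]
        conv_lhs => rw [← hx]
        rw [hA]
      have hw : 0 < LB (d+1) w w := (lor_LB (d+1)).pos w (by rw [e0_eq]; exact hort _ h0) hw0
      refine Good.of_comp hA hw (ih _ (comp_isom hA hw.ne') ?_ ?_)
      · rw [LinearMap.comp_apply, h0, RR_orth (hort _ h0)]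
      · intro j hj
        rw [LinearMap.comp_apply]
        by_cases hjk : j = k
        · rw [hjk]
          exact RR_swap (hA _ _) hw.ne'
        · have hj' := h1 j (by rw [Finset.mem_insert]; push Not; exact ⟨hjk, hj⟩)
          rw [hj', RR_orth (hort _ hj')]

lemma sg_neg (Z : Option (Fin (d+1)) → ℝ) : sg (-Z) = sg Z := by
  by_cases h : Z none - Z (some (Fin.last d)) = 0
  · rw [sg_inf h, sg_inf]
    simp only [Pi.neg_apply]; linarith
  · have h' : (-Z) none - (-Z) (some (Fin.last d)) ≠ 0 := by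
      simp only [Pi.neg_apply]
      intro h2; exact h (by linarith)
    rw [sg_some h, sg_some h']
    congr 1
    funext i
    simp only [Pi.neg_apply]
    rw [show -Z none - -Z (some (Fin.last d)) = -(Z none - Z (some (Fin.last d))) by ring, neg_div_neg_eq]

lemma good_pos (A : (Option (Fin (d+1)) → ℝ) →ₗ[ℝ] (Option (Fin (d+1)) → ℝ))
    (hA : ∀ x y, LB (d+1) (A x) (A y) = LB (d+1) x y) (h : 0 < A (Pi.single none 1) none) : Good A := by
  set u := A (Pi.single none 1) with hu
  by_cases hfix : u = Pi.single none 1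
  · exact good_of_fix Finset.univ A hA hfix (fun j hj => absurd (Finset.mem_univ j) hj)
  · have huu : LB (d+1) u u = -1 := by
      rw [hu, hA, LB_single_none]; simp
    have hee : LB (d+1) (Pi.single none 1) (Pi.single none 1 : Option (Fin (d+1)) → ℝ) = -1 := by
      rw [LB_single_none]; simp
    set w := u - Pi.single none 1 with hwdef
    have hww : LB (d+1) w w = 2 * (u none - 1) := by
      rw [hwdef]
      simp only [map_sub, LinearMap.sub_apply]
      rw [LB_symm (Pi.single none 1) u, huu, hee, LB_single_none]; ring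
    have hsq : u none ^ 2 = 1 + ∑ i, u (some i) ^ 2 := by
      rw [LB_apply] at huu
      have : ∑ i, u (some i) * u (some i) = ∑ i, u (some i) ^ 2 :=
        Finset.sum_congr rfl fun i _ => by ring
      rw [this] at huu
      nlinarith
    have hne : ∃ i, u (some i) ≠ 0 := by
      by_contra hc
      push Not at hc
      have h0 : ∑ i, u (some i) ^ 2 = 0 := Finset.sum_eq_zero fun i _ => by rw [hc i]; ring
      rw [h0] at hsq
      have : u none = 1 := by nlinarith
      apply hfix
      funext j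
      rcases j with _ | j
      · simp [this]
      · simp [hc j]
    obtain ⟨i, hi⟩ := hne
    have hpos : 0 < ∑ i, u (some i) ^ 2 :=
      Finset.sum_pos' (fun j _ => sq_nonneg _) ⟨i, Finset.mem_univ _, by positivity⟩
    have h1 : 1 < u none := by nlinarith
    have hw : 0 < LB (d+1) w w := by rw [hww]; linarith
    refine Good.of_comp hA hw (good_of_fix Finset.univ _ (comp_isom hA hw.ne') ?_
      (fun j hj => absurd (Finset.mem_univ j) hj))
    rw [LinearMap.comp_apply, ← hu]
    exact RR_swap (by rw [huu, hee]) hw.ne'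

/-- every Lorentz isometry induces a Möbius transformation -/
theorem good_all (A : (Option (Fin (d+1)) → ℝ) →ₗ[ℝ] (Option (Fin (d+1)) → ℝ))
    (hA : ∀ x y, LB (d+1) (A x) (A y) = LB (d+1) x y) : Good A := by
  rcases lt_trichotomy (A (Pi.single none 1) none) 0 with h | h | h
  · obtain ⟨μ, hμ, h2⟩ := good_pos (-A) (fun x y => by simp [hA]) (by simp; exact h)
    refine ⟨μ, hμ, fun Z hZ hZ0 => ?_⟩
    rw [← h2 Z hZ hZ0, LinearMap.neg_apply, sg_neg]
  · exfalso
    have huu : LB (d+1) (A (Pi.single none 1)) (A (Pi.single none 1)) = -1 := by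
      rw [hA, LB_single_none]; simp
    rw [LB_apply, h] at huu
    have : 0 ≤ ∑ i, A (Pi.single none 1) (some i) * A (Pi.single none 1) (some i) :=
      Finset.sum_nonneg fun i _ => mul_self_nonneg _
    linarith
  · exact good_pos A hA h

end Pool.Agent.Work.MP_43c1cf_co.Mob
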