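import Pool.Agent.Work.MP_43c1cf_co.Main
import Pool.Agent.Work.MP_43c1cf_co.Koebe
import Pool.Agent.Work.MP_43c1cf_co.MobGood

/-!
# Isomorphisms of face lattices and the resulting Lorentz isometry
-/

set_option autoImplicit false

namespace Pool.Agent.Work.MP_43c1cf_co.Mob

open Module Pool.Agent.Work.MP_43c1cf_co

variable {n : ℕ}

/-- the Lorentz isometry between two edge-scribed polytopes of the same type -/
theorem isometry_of_types (hn : 3 ≤ n) {V W : Finset (Fin n → ℝ)}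
    (hV : (interior (convexHull ℝ (V : Set (Fin n → ℝ)))).Nonempty)
    (hW : (interior (convexHull ℝ (W : Set (Fin n → ℝ)))).Nonempty)
    (tV : Tang (ext V)) (tW : Tang (ext W)) {f : (Fin n → ℝ) → (Fin n → ℝ)}
    (hbij : Set.BijOn f (Set.extremePoints ℝ (convexHull ℝ (V : Set (Fin n → ℝ))))
        (Set.extremePoints ℝ (convexHull ℝ (W : Set (Fin n → ℝ)))))
    (hf : ∀ S ⊆ Set.extremePoints ℝ (convexHull ℝ (V : Set (Fin n → ℝ))),
        (IsExposed ℝ (convexHull ℝ (V : Set (Fin n → ℝ))) (convexHull ℝ S) ↔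
          IsExposed ℝ (convexHull ℝ (W : Set (Fin n → ℝ))) (convexHull ℝ (f '' S)))) :
    ∃ A : (Option (Fin n) → ℝ) →ₗ[ℝ] (Option (Fin n) → ℝ), (∀ x y, LB n (A x) (A y) = LB n x y) ∧
      ∃ k : (Fin n → ℝ) → ℝ, (∀ a ∈ ext V, 0 < k a) ∧
        (∀ a ∈ ext V, A (lft a) = k a • lft (f a)) ∧
        ∀ x ∈ convexHull ℝ (V : Set (Fin n → ℝ)), 0 < A (lft x) none := by
  classical
  have hn0 : 0 < n := by omega
  set J := ext V with hJdef
  set J' := ext W with hJ'def
  have hJ := ext_extreme V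
  have hJ' := ext_extreme W
  have cV := hull_ext V
  have cW := hull_ext W
  rw [← coe_ext, ← coe_ext] at hbij
  rw [← coe_ext] at hf
  rw [← hJdef] at hJ cV hbij hf
  rw [← hJ'def] at hJ' cW hbij
  rw [← cV, ← cW] at hf
  rw [← cV] at hV
  rw [← cW] at hW
  have sV := scribed_uu hn0 hJ hV tV
  have sW := scribed_uu hn0 hJ' hW tW
  have himg : J.image f = J' := by
    have := hbij.image_eq
    exact_mod_cast this
  have hinj : Set.InjOn f (J : Set (Fin n → ℝ)) := hbij.injOn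
  have pV : ∀ a ∈ J, 0 < qq a a - 1 := fun a ha => norm_gt_one hn0 hJ hV tV ha
  have pW : ∀ a ∈ J', 0 < qq a a - 1 := fun a ha => norm_gt_one hn0 hJ' hW tW ha
  have sW' : Scribed (LB n) e0 (uu ∘ f) J := by
    refine scribed_comp hinj ?_
    rw [himg]; exact sW
  have hface : ∀ T, IsFace uu J T ↔ IsFace (uu ∘ f) J T := by
    intro T
    by_cases hT : T ⊆ J
    · have hT' : T.image f ⊆ J' := by rw [← himg]; exact Finset.image_subset_image hT
      rw [isFace_comp hinj hT, himg, isFace_uu pV, isFace_uu pW, isFace_iff_isExposed hJ hT,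
        isFace_iff_isExposed hJ' hT', hf (T : Set (Fin n → ℝ)) (by exact_mod_cast hT),
        Finset.coe_image]
    · exact ⟨fun h => absurd h.1 hT, fun h => absurd h.1 hT⟩
  have hfr : finrank ℝ (Option (Fin n) → ℝ) = n + 1 := by
    rw [Module.finrank_fintype_fun_eq_card]; simp
  have hgram := rigid_of_four rigid_four (n+1) (by omega) (Fin n → ℝ) (Option (Fin n) → ℝ)
    (Option (Fin n) → ℝ) (LB n) (LB n) e0 e0 uu (uu ∘ f) J hfr hfr sV sW' hface
  obtain ⟨A, hA1, hA2⟩ := exists_isometry (lor_LB n) sV.span sW'.span hgram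
  have hk : ∀ a ∈ J, 0 < cc (f a) / cc a := by
    intro a ha
    have : f a ∈ J' := by rw [← himg]; exact Finset.mem_image_of_mem f ha
    exact div_pos (cc_pos (pW _ this)) (cc_pos (pV a ha))
  have hAl : ∀ a ∈ J, A (lft a) = (cc (f a) / cc a) • lft (f a) := by
    intro a ha
    have h1 := hA1 a ha
    have hc := (cc_pos (pV a ha)).ne'
    simp only [uu, Function.comp, map_smul] at h1
    have h2 : A (lft a) = (cc a)⁻¹ • (cc a • A (lft a)) := by
      rw [smul_smul, inv_mul_cancel₀ hc, one_smul]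
    rw [h2, h1, smul_smul]
    congr 1
    ring
  obtain ⟨r1, -⟩ := lift_image himg hinj hk hAl
  refine ⟨A, hA2, fun a => cc (f a) / cc a, hk, hAl, ?_⟩
  rw [← cV]
  exact r1

/-! ### faces of a polytope -/

lemma exposed_singleton {V : Finset (Fin n → ℝ)} {v : Fin n → ℝ} :
    IsExposed ℝ (convexHull ℝ (V : Set (Fin n → ℝ))) {v} ↔
      v ∈ Set.extremePoints ℝ (convexHull ℝ (V : Set (Fin n → ℝ))) := by
  constructor
  · intro h
    exact isExtreme_singleton.1 h.isExtreme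
  · intro h
    rw [← coe_ext] at h
    have h1 := face_singleton (ext_extreme V) h
    have h2 := (isFace_iff_isExposed (ext_extreme V) (Finset.singleton_subset_iff.2 h)).1 h1
    rwa [hull_ext, Finset.coe_singleton, convexHull_singleton] at h2

lemma face_nonempty {V : Finset (Fin n → ℝ)} {F : Set (Fin n → ℝ)}
    (hF : IsExposed ℝ (convexHull ℝ (V : Set (Fin n → ℝ))) F) (hne : F.Nonempty) :
    ∃ v ∈ Set.extremePoints ℝ (convexHull ℝ (V : Set (Fin n → ℝ))), v ∈ F := by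
  have hc : IsCompact F := hF.isCompact (V.finite_toSet.isCompact_convexHull ℝ)
  obtain ⟨v, hv⟩ := hc.extremePoints_nonempty hne
  rw [hF.isExtreme.extremePoints_eq] at hv
  exact ⟨v, hv.2, hv.1⟩

lemma face_hull {V : Finset (Fin n → ℝ)} {F : Set (Fin n → ℝ)}
    (hF : IsExposed ℝ (convexHull ℝ (V : Set (Fin n → ℝ))) F) :
    F = convexHull ℝ (F ∩ Set.extremePoints ℝ (convexHull ℝ (V : Set (Fin n → ℝ)))) := by
  have hc : IsCompact F := hF.isCompact (V.finite_toSet.isCompact_convexHull ℝ)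
  have h := closure_convexHull_extremePoints hc (hF.convex (convex_convexHull ℝ _))
  have hfin : (F ∩ Set.extremePoints ℝ (convexHull ℝ (V : Set (Fin n → ℝ)))).Finite :=
    (V.finite_toSet.subset (extremePoints_convexHull_subset (𝕜 := ℝ)
      (A := (V : Set (Fin n → ℝ))))).subset Set.inter_subset_right
  rw [hF.isExtreme.extremePoints_eq, (hfin.isClosed_convexHull ℝ).closure_eq] at h
  exact h.symm

lemma hull_inter {V : Finset (Fin n → ℝ)} {S : Set (Fin n → ℝ)}
    (hS : S ⊆ Set.extremePoints ℝ (convexHull ℝ (V : Set (Fin n → ℝ)))) :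
    convexHull ℝ S ∩ Set.extremePoints ℝ (convexHull ℝ (V : Set (Fin n → ℝ))) = S := by
  apply Set.Subset.antisymm
  · intro x hx
    have h1 : convexHull ℝ S ⊆ convexHull ℝ (V : Set (Fin n → ℝ)) :=
      convexHull_min (hS.trans extremePoints_subset) (convex_convexHull ℝ _)
    exact extremePoints_convexHull_subset (inter_extremePoints_subset_extremePoints_of_subset h1 hx)
  · intro x hx
    exact ⟨subset_convexHull ℝ _ hx, hS hx⟩

/-! ### isomorphisms -/

lemma iso_empty {P Q : Set (Fin n → ℝ)} (φ : Faces P ≃o Faces Q) (F : Faces P) :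
    (φ F : Set (Fin n → ℝ)) = ∅ ↔ (F : Set (Fin n → ℝ)) = ∅ := by
  constructor
  · intro h
    have h1 : φ F ≤ φ ⟨∅, isExposed_empty⟩ := by
      show (φ F : Set (Fin n → ℝ)) ⊆ _
      rw [h]; exact Set.empty_subset _
    have h2 : F ≤ ⟨∅, isExposed_empty⟩ := φ.le_iff_le.1 h1
    exact Set.subset_empty_iff.1 h2
  · intro h
    have h1 : F ≤ φ.symm ⟨∅, isExposed_empty⟩ := by
      show (F : Set (Fin n → ℝ)) ⊆ _
      rw [h]; exact Set.empty_subset _
    have h2 : φ F ≤ ⟨∅, isExposed_empty⟩ := by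
      have := φ.le_iff_le.2 h1
      rwa [φ.apply_symm_apply] at this
    exact Set.subset_empty_iff.1 h2

lemma iso_atom {V W : Finset (Fin n → ℝ)}
    (φ : Faces (convexHull ℝ (V : Set (Fin n → ℝ))) ≃o Faces (convexHull ℝ (W : Set (Fin n → ℝ))))
    {v : Fin n → ℝ} (hv : IsExposed ℝ (convexHull ℝ (V : Set (Fin n → ℝ))) {v}) :
    ∃ w, (φ ⟨{v}, hv⟩ : Set (Fin n → ℝ)) = {w} := by
  have hne : (φ ⟨{v}, hv⟩ : Set (Fin n → ℝ)).Nonempty := by
    rw [Set.nonempty_iff_ne_empty]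
    intro h
    have := (iso_empty φ _).1 h
    exact (Set.singleton_ne_empty v) this
  obtain ⟨w, hw, hwF⟩ := face_nonempty (φ ⟨{v}, hv⟩).2 hne
  have hwe := exposed_singleton.2 hw
  have h1 : (⟨{w}, hwe⟩ : Faces (convexHull ℝ (W : Set (Fin n → ℝ)))) ≤ φ ⟨{v}, hv⟩ := by
    show ({w} : Set (Fin n → ℝ)) ⊆ _
    exact Set.singleton_subset_iff.2 hwF
  have h2 : φ.symm ⟨{w}, hwe⟩ ≤ ⟨{v}, hv⟩ := by
    have := φ.symm.le_iff_le.2 h1
    rwa [φ.symm_apply_apply] at this
  have h3 : (φ.symm ⟨{w}, hwe⟩ : Set (Fin n → ℝ)) ⊆ {v} := h2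
  rcases Set.subset_singleton_iff_eq.1 h3 with h4 | h4
  · exfalso
    have := (iso_empty φ.symm _).1 h4
    exact (Set.singleton_ne_empty w) this
  · refine ⟨w, ?_⟩
    have h5 : φ.symm ⟨{w}, hwe⟩ = ⟨{v}, hv⟩ := Subtype.ext h4
    rw [← h5, φ.apply_symm_apply]

/-- the bijection of the vertices induced by an isomorphism of the face lattices -/
theorem iso_vertex {V W : Finset (Fin n → ℝ)}
    (φ : Faces (convexHull ℝ (V : Set (Fin n → ℝ))) ≃o Faces (convexHull ℝ (W : Set (Fin n → ℝ)))) :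
    ∃ f : (Fin n → ℝ) → (Fin n → ℝ),
      (∀ (v : Fin n → ℝ) (hv : IsExposed ℝ (convexHull ℝ (V : Set (Fin n → ℝ))) {v}),
        (φ ⟨{v}, hv⟩ : Set (Fin n → ℝ)) = {f v}) ∧
      Set.BijOn f (Set.extremePoints ℝ (convexHull ℝ (V : Set (Fin n → ℝ))))
        (Set.extremePoints ℝ (convexHull ℝ (W : Set (Fin n → ℝ)))) ∧
      ∀ S ⊆ Set.extremePoints ℝ (convexHull ℝ (V : Set (Fin n → ℝ))),
        (IsExposed ℝ (convexHull ℝ (V : Set (Fin n → ℝ))) (convexHull ℝ S) ↔
          IsExposed ℝ (convexHull ℝ (W : Set (Fin n → ℝ))) (convexHull ℝ (f '' S))) := by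
  classical
  have hex : ∀ v : Fin n → ℝ, ∃ w : Fin n → ℝ,
      ∀ hv : IsExposed ℝ (convexHull ℝ (V : Set (Fin n → ℝ))) {v},
        (φ ⟨{v}, hv⟩ : Set (Fin n → ℝ)) = {w} := by
    intro v
    by_cases hv : IsExposed ℝ (convexHull ℝ (V : Set (Fin n → ℝ))) {v}
    · obtain ⟨w, hw⟩ := iso_atom φ hv
      exact ⟨w, fun _ => hw⟩
    · exact ⟨0, fun h => absurd h hv⟩
  choose f hf using hex
  set E := Set.extremePoints ℝ (convexHull ℝ (V : Set (Fin n → ℝ))) with hE
  set E' := Set.extremePoints ℝ (convexHull ℝ (W : Set (Fin n → ℝ))) with hE'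
  have hmaps : Set.MapsTo f E E' := by
    intro v hv
    have h1 := (φ ⟨{v}, exposed_singleton.2 hv⟩).2
    rw [hf v] at h1
    exact exposed_singleton.1 h1
  have hinj : Set.InjOn f E := by
    intro v hv w hw hvw
    have h1 := hf v (exposed_singleton.2 hv)
    have h2 := hf w (exposed_singleton.2 hw)
    rw [hvw, ← h2] at h1
    have h3 := φ.injective (Subtype.ext h1)
    have h4 : ({v} : Set (Fin n → ℝ)) = {w} := congrArg Subtype.val h3
    exact Set.singleton_injective h4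
  have hsurj : Set.SurjOn f E E' := by
    intro w hw
    have hwe := exposed_singleton.2 hw
    obtain ⟨v, hv⟩ := iso_atom φ.symm hwe
    have hve : IsExposed ℝ (convexHull ℝ (V : Set (Fin n → ℝ))) {v} := by
      rw [← hv]; exact (φ.symm ⟨{w}, hwe⟩).2
    have h1 : φ.symm ⟨{w}, hwe⟩ = ⟨{v}, hve⟩ := Subtype.ext hv
    have h2 := hf v hve
    rw [← h1, φ.apply_symm_apply] at h2
    exact ⟨v, exposed_singleton.1 hve, (Set.singleton_injective h2).symm⟩
  have hmem : ∀ F : Faces (convexHull ℝ (V : Set (Fin n → ℝ))), ∀ v ∈ E,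
      (v ∈ (F : Set (Fin n → ℝ)) ↔ f v ∈ (φ F : Set (Fin n → ℝ))) := by
    intro F v hv
    have hve := exposed_singleton.2 hv
    have h1 : (⟨{v}, hve⟩ : Faces (convexHull ℝ (V : Set (Fin n → ℝ)))) ≤ F ↔ v ∈ (F : Set (Fin n → ℝ)) :=
      Set.singleton_subset_iff
    have h2 : φ ⟨{v}, hve⟩ ≤ φ F ↔ f v ∈ (φ F : Set (Fin n → ℝ)) := by
      show (φ ⟨{v}, hve⟩ : Set (Fin n → ℝ)) ⊆ _ ↔ _
      rw [hf v]
      exact Set.singleton_subset_iff
    rw [← h1, ← h2, φ.le_iff_le]
  have himg : ∀ F : Faces (convexHull ℝ (V : Set (Fin n → ℝ))),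
      (φ F : Set (Fin n → ℝ)) ∩ E' = f '' ((F : Set (Fin n → ℝ)) ∩ E) := by
    intro F
    apply Set.Subset.antisymm
    · rintro w ⟨hw1, hw2⟩
      obtain ⟨v, hv, rfl⟩ := hsurj hw2
      exact ⟨v, ⟨(hmem F v hv).2 hw1, hv⟩, rfl⟩
    · rintro _ ⟨v, ⟨hv1, hv2⟩, rfl⟩
      exact ⟨(hmem F v hv2).1 hv1, hmaps hv2⟩
  refine ⟨f, hf, ⟨hmaps, hinj, hsurj⟩, fun S hS => ⟨fun h => ?_, fun h => ?_⟩⟩
  · have h1 := face_hull (φ ⟨convexHull ℝ S, h⟩).2
    rw [himg, hull_inter hS] at h1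
    rw [← h1]
    exact (φ ⟨convexHull ℝ S, h⟩).2
  · set F := φ.symm ⟨convexHull ℝ (f '' S), h⟩ with hF
    have h1 := himg F
    rw [hF, φ.apply_symm_apply] at h1
    have hS' : f '' S ⊆ E' := by
      rintro _ ⟨v, hv, rfl⟩
      exact hmaps (hS hv)
    have h2 : convexHull ℝ (f '' S) ∩ E' = f '' S := hull_inter hS'
    have h3 : f '' ((F : Set (Fin n → ℝ)) ∩ E) = f '' S := by rw [hF, ← h1, h2]
    have h4 : (F : Set (Fin n → ℝ)) ∩ E = S :=
      (hinj.image_eq_image_iff Set.inter_subset_right hS).1 h3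
    have h5 := face_hull F.2
    rw [h4] at h5
    rw [← h5]
    exact F.2

/-! ### tangent edges -/

lemma segment_eq_line {a b p : Fin n → ℝ} (hp : p ∈ segment ℝ a b) :
    ∀ t : ℝ, p + t • (b - a) ∈ (affineSpan ℝ (segment ℝ a b) : Set (Fin n → ℝ)) := by
  intro t
  have h1 : p ∈ affineSpan ℝ (segment ℝ a b) := subset_affineSpan ℝ _ hp
  have h2 : t • (b - a) ∈ (affineSpan ℝ (segment ℝ a b)).direction := by
    rw [direction_affineSpan, vectorSpan_segment]
    exact Submodule.smul_mem _ _ (Submodule.mem_span_singleton_self _)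
  have := AffineSubspace.vadd_mem_of_mem_direction h2 h1
  rw [vadd_eq_add, add_comm] at this
  exact this

lemma tang_of_edgeScribed {V : Finset (Fin n → ℝ)}
    (h : EdgeScribed (convexHull ℝ (V : Set (Fin n → ℝ)))) : Tang (ext V) := by
  intro a ha b hb hab hE
  rw [hull_ext] at hE
  have hba : b - a ≠ 0 := sub_ne_zero.2 hab.symm
  obtain ⟨p, hp, hps⟩ := h _ hE (by
    rw [vectorSpan_segment, vsub_eq_sub]
    exact finrank_span_singleton hba)
  have hp1 : nsq p = 1 := by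
    have : p ∈ (affineSpan ℝ (segment ℝ a b) : Set (Fin n → ℝ)) ∩ unitSphere n := by
      rw [hps]; exact Set.mem_singleton p
    exact this.2
  refine ⟨p, hp, hp1, ?_⟩
  set L := nsq (b - a) with hL
  have hL0 : 0 < L := nsq_pos hba
  set m := 2 * ∑ i, p i * (b - a) i with hm
  have hq : ∀ s : ℝ, nsq (p + s • (b - a)) = 1 + m * s + L * s ^ 2 := by
    intro s
    have e : nsq (p + s • (b - a)) = nsq p + s * m + s ^ 2 * L := by
      rw [hm, hL]
      unfold nsq
      rw [Finset.mul_sum, Finset.mul_sum, Finset.mul_sum, ← Finset.sum_add_distrib,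
        ← Finset.sum_add_distrib]
      exact Finset.sum_congr rfl fun i _ => by
        simp only [Pi.add_apply, Pi.smul_apply, Pi.sub_apply, smul_eq_mul]; ring
    rw [e, hp1]; ring
  have hm0 : m = 0 := by
    have h1 : p + (-m / L) • (b - a) ∈ (affineSpan ℝ (segment ℝ a b) : Set (Fin n → ℝ)) ∩
        unitSphere n := by
      refine ⟨segment_eq_line hp _, ?_⟩
      show nsq _ = 1
      rw [hq]
      field_simp
      ring
    rw [hps, Set.mem_singleton_iff] at h1
    have h2 : (-m / L) • (b - a) = 0 := by simpa using h1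
    rcases smul_eq_zero.1 h2 with h3 | h3
    · rcases div_eq_zero_iff.1 h3 with h4 | h4
      · linarith
      · exact absurd h4 hL0.ne'
    · exact absurd h3 hba
  rw [segment_eq_image'] at hp
  obtain ⟨t0, -, rfl⟩ := hp
  intro t
  have e : ∑ i, (a i + t * (b i - a i)) ^ 2 = nsq (a + t0 • (b - a) + (t - t0) • (b - a)) := by
    unfold nsq
    exact Finset.sum_congr rfl fun i _ => by
      simp only [Pi.add_apply, Pi.smul_apply, Pi.sub_apply, smul_eq_mul]; ring
  rw [e, hq, hm0]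
  have : 0 ≤ L * (t - t0) ^ 2 := mul_nonneg hL0.le (sq_nonneg _)
  linarith

end Pool.Agent.Work.MP_43c1cf_co.Mob
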