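import Pool.Agent.Work.MP_43c1cf_co.Trans
import Pool.Agent.Work.MP_43c1cf_co.MobDefs

/-!
# Möbius transformations of `ℝ^d ∪ {∞}` and the Lorentz group

The homogeneous stereographic projection intertwines Lorentz reflections with inversions in spheres and
reflections in hyperplanes.
-/

set_option autoImplicit false

namespace Pool.Agent.Work.MP_43c1cf_co.Mob

open Pool.Agent.Work.MP_43c1cf_co

variable {d n : ℕ}

/-- first coordinates -/
def hd (Z : Option (Fin (d+1)) → ℝ) : Fin d → ℝ := fun i => Z (some i.castSucc)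

/-- homogeneous stereographic projection -/
noncomputable def sg (Z : Option (Fin (d+1)) → ℝ) : OnePoint (Fin d → ℝ) := by
  classical
  exact if Z none - Z (some (Fin.last d)) = 0 then OnePoint.infty
    else OnePoint.some (fun i => Z (some i.castSucc) / (Z none - Z (some (Fin.last d))))

lemma sg_inf {Z : Option (Fin (d+1)) → ℝ} (h : Z none - Z (some (Fin.last d)) = 0) :
    sg Z = OnePoint.infty := by
  unfold sg; rw [if_pos h]

lemma sg_some {Z : Option (Fin (d+1)) → ℝ} (h : Z none - Z (some (Fin.last d)) ≠ 0) :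
    sg Z = OnePoint.some (fun i => Z (some i.castSucc) / (Z none - Z (some (Fin.last d)))) := by
  unfold sg; rw [if_neg h]

lemma inv_inf (c : Fin d → ℝ) (r : ℝ) : sphereInversion c r OnePoint.infty = OnePoint.some c := rfl

lemma inv_center (c : Fin d → ℝ) (r : ℝ) : sphereInversion c r (OnePoint.some c) = OnePoint.infty := by
  show (if c = c then OnePoint.infty else _) = _
  rw [if_pos rfl]

lemma inv_some (c : Fin d → ℝ) (r : ℝ) {y : Fin d → ℝ} (h : y ≠ c) :
    sphereInversion c r (OnePoint.some y) =
      OnePoint.some (fun i => c i + r ^ 2 / nsq (y - c) * (y i - c i)) := by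
  show (if y = c then OnePoint.infty else _) = _
  rw [if_neg h]

lemma refl_inf (a : Fin d → ℝ) (t : ℝ) : planeReflection a t OnePoint.infty = OnePoint.infty := rfl

lemma refl_some (a : Fin d → ℝ) (t : ℝ) (y : Fin d → ℝ) :
    planeReflection a t (OnePoint.some y) =
      OnePoint.some (fun i => y i - 2 * ((∑ j, a j * y j) - t) / nsq a * a i) := rfl

lemma nsq_nonneg (x : Fin n → ℝ) : 0 ≤ nsq x := Finset.sum_nonneg fun _ _ => sq_nonneg _

lemma nsq_pos {x : Fin n → ℝ} (h : x ≠ 0) : 0 < nsq x := by
  have : ∃ i, x i ≠ 0 := by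
    by_contra hc; push Not at hc; exact h (funext hc)
  obtain ⟨i, hi⟩ := this
  refine Finset.sum_pos' (fun j _ => sq_nonneg _) ⟨i, Finset.mem_univ _, ?_⟩
  positivity

lemma nsq_eq_zero {x : Fin n → ℝ} (h : nsq x = 0) : x = 0 := by
  by_contra hc; exact (nsq_pos hc).ne' h

lemma nsq_sub (y p : Fin n → ℝ) : nsq (y - p) = nsq y - 2 * (∑ i, y i * p i) + nsq p := by
  unfold nsq
  rw [Finset.mul_sum, ← Finset.sum_sub_distrib, ← Finset.sum_add_distrib]
  exact Finset.sum_congr rfl fun i _ => by simp only [Pi.sub_apply]; ring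

lemma nsq_smul (c : ℝ) (y : Fin n → ℝ) : nsq (fun i => c * y i) = c ^ 2 * nsq y := by
  unfold nsq
  rw [Finset.mul_sum]
  exact Finset.sum_congr rfl fun i _ => by ring

lemma LB_split (x y : Option (Fin (d+1)) → ℝ) :
    LB (d+1) x y = (∑ i : Fin d, x (some i.castSucc) * y (some i.castSucc)) +
      x (some (Fin.last d)) * y (some (Fin.last d)) - x none * y none := by
  rw [LB_apply, Fin.sum_univ_castSucc]

lemma LB_symm (x y : Option (Fin n) → ℝ) : LB n x y = LB n y x := (lor_LB n).symm x y

/-- Lorentz reflection -/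
noncomputable def RR (n : ℕ) (w : Option (Fin n) → ℝ) :
    (Option (Fin n) → ℝ) →ₗ[ℝ] (Option (Fin n) → ℝ) where
  toFun Z := Z - (2 * LB n Z w / LB n w w) • w
  map_add' x y := by
    rw [map_add, LinearMap.add_apply, mul_add, add_div, add_smul]
    abel
  map_smul' c x := by
    rw [map_smul, LinearMap.smul_apply, smul_eq_mul, RingHom.id_apply, smul_sub, smul_smul]
    congr 2
    ring

lemma RR_apply (w Z : Option (Fin n) → ℝ) : RR n w Z = Z - (2 * LB n Z w / LB n w w) • w := rfl

lemma RR_coord (w Z : Option (Fin n) → ℝ) (j : Option (Fin n)) :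
    RR n w Z j = Z j - 2 * LB n Z w / LB n w w * w j := rfl

lemma RR_isom {w : Option (Fin n) → ℝ} (hw : LB n w w ≠ 0) (x y : Option (Fin n) → ℝ) :
    LB n (RR n w x) (RR n w y) = LB n x y := by
  rw [RR_apply, RR_apply]
  simp only [map_sub, LinearMap.sub_apply, map_smul, LinearMap.smul_apply, smul_eq_mul]
  rw [LB_symm w y]
  field_simp
  ring

lemma RR_invol {w : Option (Fin n) → ℝ} (hw : LB n w w ≠ 0) (x : Option (Fin n) → ℝ) :
    RR n w (RR n w x) = x := by
  rw [RR_apply, RR_apply]
  simp only [map_sub, LinearMap.sub_apply, map_smul, LinearMap.smul_apply, smul_eq_mul]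
  have e : 2 * (LB n x w - 2 * LB n x w / LB n w w * LB n w w) / LB n w w =
      -(2 * LB n x w / LB n w w) := by
    field_simp
    ring
  rw [e, neg_smul]
  abel

/-- a Lorentz reflection induces an inversion or a reflection -/
lemma refl_mob {w : Option (Fin (d+1)) → ℝ} (hw : 0 < LB (d+1) w w)
    {μ : OnePoint (Fin d → ℝ) → OnePoint (Fin d → ℝ)} (hμ : IsMobius μ) :
    ∃ ν : OnePoint (Fin d → ℝ) → OnePoint (Fin d → ℝ), IsMobius (ν ∘ μ) ∧
      ∀ Z, LB (d+1) Z Z = 0 → Z ≠ 0 → sg (RR (d+1) w Z) = ν (sg Z) := by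
  set b := w (some (Fin.last d)) with hb
  set c := w none with hc
  set a : Fin d → ℝ := hd w with ha
  have hD : LB (d+1) w w = nsq a + b ^ 2 - c ^ 2 := by
    rw [LB_split]
    unfold nsq
    have : ∑ i : Fin d, w (some i.castSucc) * w (some i.castSucc) = ∑ i, a i ^ 2 :=
      Finset.sum_congr rfl fun i _ => by simp only [ha, hd]; ring
    rw [this]; ring
  set D := LB (d+1) w w with hDdef
  -- null vectors
  have hnull : ∀ Z : Option (Fin (d+1)) → ℝ, LB (d+1) Z Z = 0 →
      nsq (hd Z) = (Z none - Z (some (Fin.last d))) * (Z none + Z (some (Fin.last d))) := by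
    intro Z hZ
    rw [LB_split] at hZ
    have : ∑ i : Fin d, Z (some i.castSucc) * Z (some i.castSucc) = nsq (hd Z) :=
      Finset.sum_congr rfl fun i _ => by simp only [hd]; ring
    rw [this] at hZ
    linarith
  have hLB : ∀ Z : Option (Fin (d+1)) → ℝ, LB (d+1) Z w = (∑ i, hd Z i * a i) +
      Z (some (Fin.last d)) * b - Z none * c := by
    intro Z
    rw [LB_split]
    rfl
  -- the case `Z = ∞`
  have hinf : ∀ Z : Option (Fin (d+1)) → ℝ, LB (d+1) Z Z = 0 → Z ≠ 0 →
      Z none - Z (some (Fin.last d)) = 0 → hd Z = 0 ∧ Z none = Z (some (Fin.last d)) ∧ Z none ≠ 0 := by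
    intro Z hZ hZ0 hs
    have h1 := hnull Z hZ
    rw [hs, zero_mul] at h1
    have h2 := nsq_eq_zero h1
    have h3 : Z none = Z (some (Fin.last d)) := by linarith
    refine ⟨h2, h3, fun h4 => hZ0 ?_⟩
    funext j
    rcases j with _ | j
    · exact h4
    · refine Fin.lastCases ?_ (fun i => ?_) j
      · show Z (some (Fin.last d)) = 0
        rw [← h3, h4]
      · exact congrFun h2 i
  by_cases hbc : b = c
  · -- hyperplane
    have hDa : D = nsq a := by rw [hD, hbc]; ring
    have ha0 : a ≠ 0 := by
      intro h0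
      rw [hDa, h0] at hw
      simp [nsq] at hw
    refine ⟨planeReflection a b, IsMobius.reflection a b μ ha0 hμ, fun Z hZ hZ0 => ?_⟩
    have hsR : RR (d+1) w Z none - RR (d+1) w Z (some (Fin.last d)) =
        Z none - Z (some (Fin.last d)) := by
      rw [RR_coord, RR_coord, ← hb, ← hc, hbc]; ring
    by_cases hs : Z none - Z (some (Fin.last d)) = 0
    · rw [sg_inf hs, refl_inf, sg_inf (by rw [hsR, hs])]
    · rw [sg_some hs, refl_some, sg_some (by rw [hsR]; exact hs), hsR]
      congr 1
      funext i
      rw [RR_coord]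
      set s := Z none - Z (some (Fin.last d)) with hsdef
      have hsum : ∑ j, a j * (Z (some j.castSucc) / s) = (∑ j, hd Z j * a j) / s := by
        rw [Finset.sum_div]
        exact Finset.sum_congr rfl fun j _ => by simp only [hd]; ring
      rw [hsum, hLB Z, ← hDdef, hDa]
      have hna : nsq a ≠ 0 := (nsq_pos ha0).ne'
      have hai : w (some i.castSucc) = a i := rfl
      rw [hai]
      have e : (∑ j, hd Z j * a j) + Z (some (Fin.last d)) * b - Z none * c =
          (∑ j, hd Z j * a j) - s * b := by rw [hsdef, hbc]; ring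
      rw [e]
      field_simp
      try ring
  · -- sphere
    have hbc' : b - c ≠ 0 := sub_ne_zero.2 hbc
    set p : Fin d → ℝ := fun i => -(a i) / (b - c) with hp
    set r : ℝ := Real.sqrt D / |b - c| with hr
    have hr2 : r ^ 2 = D / (b - c) ^ 2 := by
      rw [hr, div_pow, Real.sq_sqrt hw.le, sq_abs]
    have hr0 : 0 < r := div_pos (Real.sqrt_pos.2 hw) (abs_pos.2 hbc')
    refine ⟨sphereInversion p r, IsMobius.inversion p r μ hr0 hμ, fun Z hZ hZ0 => ?_⟩
    have hnp : nsq p = nsq a / (b - c) ^ 2 := by
      have : nsq p = nsq (fun i => (-1 / (b - c)) * a i) := by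
        congr 1; funext i; simp only [hp]; ring
      rw [this, nsq_smul, div_pow]; ring
    by_cases hs : Z none - Z (some (Fin.last d)) = 0
    · obtain ⟨h1, h2, h3⟩ := hinf Z hZ hZ0 hs
      have hL : LB (d+1) Z w = Z none * (b - c) := by
        rw [hLB, h1, ← h2]; simp; ring
      have hsR : RR (d+1) w Z none - RR (d+1) w Z (some (Fin.last d)) =
          2 * Z none * (b - c) ^ 2 / D := by
        rw [RR_coord, RR_coord, ← hb, ← hc, hL, ← h2, ← hDdef]; ring
      have hne : 2 * Z none * (b - c) ^ 2 / D ≠ 0 := by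
        have := hw.ne'
        positivity
      rw [sg_inf hs, inv_inf, sg_some (by rw [hsR]; exact hne), hsR]
      congr 1
      funext i
      rw [RR_coord, hL, ← hDdef]
      have hz : Z (some i.castSucc) = 0 := congrFun h1 i
      have hai : w (some i.castSucc) = a i := rfl
      rw [hz, hai]
      simp only [hp]
      have := hw.ne'
      field_simp
      try ring
    · set s := Z none - Z (some (Fin.last d)) with hsdef
      set y : Fin d → ℝ := fun i => Z (some i.castSucc) / s with hy
      have hyd : ∀ i, hd Z i = s * y i := fun i => by simp only [hd, hy]; field_simp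
      have hZs : nsq (hd Z) = s ^ 2 * nsq y := by
        rw [← nsq_smul]; congr 1; funext i; exact hyd i
      have hsum : Z none + Z (some (Fin.last d)) = s * nsq y := by
        have := hnull Z hZ
        rw [hZs, ← hsdef] at this
        have h5 : s * (s * nsq y - (Z none + Z (some (Fin.last d)))) = 0 := by
          rw [mul_sub]; linarith
        rcases mul_eq_zero.1 h5 with h6 | h6
        · exact absurd h6 hs
        · linarith
      have hya : ∑ i, hd Z i * a i = s * ∑ i, y i * a i := by
        rw [Finset.mul_sum]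
        exact Finset.sum_congr rfl fun i _ => by rw [hyd]; ring
      have hL : LB (d+1) Z w = s / 2 * ((b - c) * nsq y + 2 * (∑ i, y i * a i) - (b + c)) := by
        rw [hLB, hya]
        have e1 : Z none = (s * nsq y + s) / 2 := by rw [← hsum, hsdef]; ring
        have e2 : Z (some (Fin.last d)) = (s * nsq y - s) / 2 := by rw [← hsum, hsdef]; ring
        rw [e1, e2]; ring
      have hyp : nsq (y - p) = nsq y + 2 * (∑ i, y i * a i) / (b - c) + nsq a / (b - c) ^ 2 := by
        rw [nsq_sub, hnp]
        have : ∑ i, y i * p i = -(∑ i, y i * a i) / (b - c) := by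
          rw [← Finset.sum_neg_distrib, Finset.sum_div]
          exact Finset.sum_congr rfl fun i _ => by simp only [hp]; ring
        rw [this]; ring
      have hL' : 2 * LB (d+1) Z w / D * (b - c) = s * (nsq (y - p) / r ^ 2 - 1) := by
        rw [hL, hyp, hr2]
        have hD0 := hw.ne'
        have hDe : D = nsq a + b ^ 2 - c ^ 2 := hD
        have : (s * ((nsq y + 2 * (∑ i, y i * a i) / (b - c) + nsq a / (b - c) ^ 2) /
            (D / (b - c) ^ 2) - 1)) = s * ((b - c) ^ 2 * nsq y + 2 * (∑ i, y i * a i) * (b - c) +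
            nsq a - D) / D := by
          field_simp
        rw [this, hDe]
        have hD1 : nsq a + b ^ 2 - c ^ 2 ≠ 0 := by rw [← hDe]; exact hD0
        field_simp
        ring
      have hsR : RR (d+1) w Z none - RR (d+1) w Z (some (Fin.last d)) =
          s * (nsq (y - p) / r ^ 2) := by
        rw [RR_coord, RR_coord, ← hb, ← hc, ← hDdef]
        have : Z none - 2 * LB (d+1) Z w / D * c - (Z (some (Fin.last d)) -
            2 * LB (d+1) Z w / D * b) = s + 2 * LB (d+1) Z w / D * (b - c) := by
          rw [hsdef]; ring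
        rw [this, hL']; ring
      have hco : ∀ i : Fin d, RR (d+1) w Z (some i.castSucc) =
          s * (y i + (nsq (y - p) / r ^ 2 - 1) * p i) := by
        intro i
        rw [RR_coord, ← hDdef]
        have hai : w (some i.castSucc) = -(b - c) * p i := by
          show a i = _
          simp only [hp]; field_simp
        have hzi : Z (some i.castSucc) = s * y i := hyd i
        rw [hai, hzi]
        have : s * y i - 2 * LB (d+1) Z w / D * (-(b - c) * p i) = s * y i +
            (2 * LB (d+1) Z w / D * (b - c)) * p i := by ring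
        rw [this, hL']; ring
      rw [sg_some hs, ← hsdef]
      show sg (RR (d+1) w Z) = sphereInversion p r (OnePoint.some y)
      by_cases hyp0 : y = p
      · have h0 : nsq (y - p) = 0 := by rw [hyp0]; simp [nsq]
        rw [hyp0, inv_center, sg_inf (by rw [hsR, h0]; simp)]
      · have h0 : nsq (y - p) ≠ 0 := (nsq_pos (sub_ne_zero.2 hyp0)).ne'
        rw [inv_some p r hyp0, sg_some (by rw [hsR]; have := hr0.ne'; positivity), hsR]
        congr 1
        funext i
        rw [hco]
        have := hr0.ne'
        field_simp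
        ring

end Pool.Agent.Work.MP_43c1cf_co.Mob
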