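import Pool.Agent.Work.MP_43c1cf_co.MobFaces

/-!
# Edge-scribed polytopes of the same type have Möbius equivalent ball arrangements
-/

set_option autoImplicit false

namespace Pool.Agent.Work.MP_43c1cf_co.Mob

open Module Pool.Agent.Work.MP_43c1cf_co

variable {d n : ℕ}

lemma qq_self (x : Fin n → ℝ) : qq x x = nsq x := by
  unfold qq nsq
  exact Finset.sum_congr rfl fun i _ => by ring

lemma nsq_comb (v x : Fin n → ℝ) (s : ℝ) :
    nsq (x + s • (v - x)) = s ^ 2 * nsq v + 2 * s * (1 - s) * qq x v + (1 - s) ^ 2 * nsq x := by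
  unfold nsq qq
  rw [Finset.mul_sum, Finset.mul_sum, Finset.mul_sum, ← Finset.sum_add_distrib,
    ← Finset.sum_add_distrib]
  exact Finset.sum_congr rfl fun i _ => by
    simp only [Pi.add_apply, Pi.smul_apply, Pi.sub_apply, smul_eq_mul]; ring

/-- the cap of a point outside the ball is cut out by the polar halfspace -/
lemma mem_cap {v x : Fin n → ℝ} (hv : 1 < nsq v) :
    x ∈ cap v ↔ nsq x = 1 ∧ 1 ≤ qq x v := by
  constructor
  · rintro ⟨hx, h⟩
    have hx1 : nsq x = 1 := hx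
    refine ⟨hx1, ?_⟩
    by_contra hq
    push Not at hq
    have hvx : v - x ≠ 0 := by
      intro h0
      rw [sub_eq_zero] at h0
      rw [h0, hx1] at hv
      exact lt_irrefl _ hv
    set q := qq x v with hqdef
    have hden : 0 < nsq v - 2 * q + 1 := by linarith
    set s := (1 - q) / (nsq v - 2 * q + 1) with hs
    have hs0 : 0 < s := div_pos (by linarith) hden
    have hs1 : s ≤ 1 := by
      rw [hs, div_le_one hden]; linarith
    have hmem : x + s • (v - x) ∈ segment ℝ v x := by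
      rw [segment_symm, segment_eq_image']
      exact ⟨s, ⟨hs0.le, hs1⟩, rfl⟩
    have hle : nsq (x + s • (v - x)) ≤ 1 := by
      rw [nsq_comb, hx1]
      have e : s ^ 2 * nsq v + 2 * s * (1 - s) * q + (1 - s) ^ 2 * 1 =
          1 + s * (s * (nsq v - 2 * q + 1) - 2 * (1 - q)) := by ring
      rw [e]
      have e2 : s * (nsq v - 2 * q + 1) = 1 - q := by
        rw [hs]; exact div_mul_cancel₀ _ hden.ne'
      rw [e2]
      have := mul_pos hs0 (show 0 < 1 - q by linarith)
      linarith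
    have h1 := h _ hmem hle
    have h2 : s • (v - x) = 0 := by simpa using h1
    rcases smul_eq_zero.1 h2 with h3 | h3
    · exact hs0.ne' h3
    · exact hvx h3
  · rintro ⟨hx, hq⟩
    refine ⟨hx, fun y hy hy1 => ?_⟩
    rw [segment_symm, segment_eq_image'] at hy
    obtain ⟨s, ⟨hs0, hs1⟩, rfl⟩ := hy
    simp only at hy1 ⊢
    rw [nsq_comb, hx] at hy1
    have h1 : 0 ≤ s * (1 - s) * (qq x v - 1) :=
      mul_nonneg (mul_nonneg hs0 (by linarith)) (by linarith)
    have h2 : s ^ 2 * (nsq v - 1) ≤ 0 := by nlinarith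
    have h3 : s = 0 := by
      by_contra hs
      have : 0 < s ^ 2 * (nsq v - 1) := mul_pos (by positivity) (by linarith)
      linarith
    rw [h3]; simp

lemma LB_lft_self {x : Fin n → ℝ} (hx : nsq x = 1) : LB n (lft x) (lft x) = 0 := by
  rw [LB_lft, qq_self, hx, sub_self]

lemma lft_ne (x : Fin n → ℝ) : lft x ≠ 0 := by
  intro h
  have := congrFun h none
  rw [lft_none] at this
  exact one_ne_zero this

lemma stereo_eq (x : Fin (d+1) → ℝ) : stereo x = sg (lft x) := by
  unfold stereo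
  by_cases h : x (Fin.last d) = 1
  · rw [if_pos h, sg_inf]
    rw [lft_none, lft_some, h, sub_self]
  · rw [if_neg h, sg_some]
    · rfl
    · rw [lft_none, lft_some]
      intro h2; exact h (by linarith)

lemma sg_smul {c : ℝ} (hc : c ≠ 0) (Z : Option (Fin (d+1)) → ℝ) : sg (c • Z) = sg Z := by
  by_cases h : Z none - Z (some (Fin.last d)) = 0
  · rw [sg_inf h, sg_inf]
    simp only [Pi.smul_apply, smul_eq_mul]
    rw [← mul_sub, h, mul_zero]
  · have h' : (c • Z) none - (c • Z) (some (Fin.last d)) ≠ 0 := by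
      simp only [Pi.smul_apply, smul_eq_mul]
      rw [← mul_sub]; exact mul_ne_zero hc h
    rw [sg_some h, sg_some h']
    congr 1
    funext i
    simp only [Pi.smul_apply, smul_eq_mul]
    rw [← mul_sub, mul_div_mul_left _ _ hc]

/-- a null vector with vanishing time coordinate is zero -/
lemma null_zero {Z : Option (Fin n) → ℝ} (h : LB n Z Z = 0) (h0 : Z none = 0) : Z = 0 := by
  by_contra hZ
  have := (lor_LB n).pos Z (by rw [LB_e0, h0, neg_zero]) hZ
  linarith

/-- the point of the sphere represented by a null vector -/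
noncomputable def pt (Z : Option (Fin n) → ℝ) : Fin n → ℝ := fun j => (Z none)⁻¹ * Z (some j)

lemma lft_pt {Z : Option (Fin n) → ℝ} (h0 : Z none ≠ 0) : lft (pt Z) = (Z none)⁻¹ • Z := by
  funext j
  rcases j with _ | j
  · rw [lft_none, Pi.smul_apply, smul_eq_mul, inv_mul_cancel₀ h0]
  · rfl

lemma nsq_pt {Z : Option (Fin n) → ℝ} (h : LB n Z Z = 0) (h0 : Z none ≠ 0) : nsq (pt Z) = 1 := by
  have h1 : LB n (lft (pt Z)) (lft (pt Z)) = 0 := by
    rw [lft_pt h0, map_smul, map_smul, LinearMap.smul_apply, h]; simp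
  rw [LB_lft, qq_self] at h1
  linarith

/-- the Lorentz product of a past and a future null vector is nonnegative -/
lemma LB_past_future {Z Y : Option (Fin n) → ℝ} (hZ : LB n Z Z = 0) (hY : LB n Y Y = 0)
    (hZ0 : Z none ≤ 0) (hY0 : 0 ≤ Y none) : 0 ≤ LB n Z Y := by
  rw [LB_apply] at *
  have hcs := Finset.sum_mul_sq_le_sq_mul_sq Finset.univ (fun i => Z (some i)) (fun i => Y (some i))
  have e1 : ∑ i : Fin n, Z (some i) ^ 2 = Z none ^ 2 := by
    have : ∑ i : Fin n, Z (some i) ^ 2 = ∑ i : Fin n, Z (some i) * Z (some i) :=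
      Finset.sum_congr rfl fun i _ => by ring
    rw [this]; linarith [hZ, sq (Z none)]
  have e2 : ∑ i : Fin n, Y (some i) ^ 2 = Y none ^ 2 := by
    have : ∑ i : Fin n, Y (some i) ^ 2 = ∑ i : Fin n, Y (some i) * Y (some i) :=
      Finset.sum_congr rfl fun i _ => by ring
    rw [this]; linarith [hY, sq (Y none)]
  rw [e1, e2] at hcs
  set c := ∑ i : Fin n, Z (some i) * Y (some i)
  have h1 : c ^ 2 ≤ (Z none * Y none) ^ 2 := by rw [mul_pow]; exact hcs
  have h2 : Z none * Y none ≤ 0 := mul_nonpos_of_nonpos_of_nonneg hZ0 hY0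
  have h3 : |c| ≤ |Z none * Y none| := sq_le_sq.1 h1
  have h4 : |Z none * Y none| = -(Z none * Y none) := abs_of_nonpos h2
  have h5 := neg_abs_le c
  rw [h4] at h3
  linarith

/-- time orientation: if one future null vector is mapped to a future vector, then all are -/
lemma future_of_future {A : (Option (Fin n) → ℝ) →ₗ[ℝ] (Option (Fin n) → ℝ)}
    (hA : ∀ x y, LB n (A x) (A y) = LB n x y) {p : Fin n → ℝ} (hp : nsq p = 1)
    (hpA : 0 < A (lft p) none) {x : Fin n → ℝ} (hx : nsq x = 1) : 0 < A (lft x) none := by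
  by_contra hcon
  push Not at hcon
  have h1 : LB n (A (lft x)) (A (lft x)) = 0 := by rw [hA, LB_lft_self hx]
  have h2 : LB n (A (lft p)) (A (lft p)) = 0 := by rw [hA, LB_lft_self hp]
  have h3 := LB_past_future h1 h2 hcon hpA.le
  rw [hA, LB_lft] at h3
  by_cases hxp : x = p
  · rw [hxp] at hcon
    linarith
  · have h4 := nsq_pos (sub_ne_zero.2 hxp)
    rw [nsq_sub, hx, hp] at h4
    have h5 : ∑ i, x i * p i = qq x p := rfl
    rw [h5] at h4
    linarith

lemma ball_image {A : (Option (Fin (d+1)) → ℝ) →ₗ[ℝ] (Option (Fin (d+1)) → ℝ)}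
    (hA : ∀ x y, LB (d+1) (A x) (A y) = LB (d+1) x y)
    (hfut : ∀ x : Fin (d+1) → ℝ, nsq x = 1 → 0 < A (lft x) none)
    {μ : OnePoint (Fin d → ℝ) → OnePoint (Fin d → ℝ)}
    (hμ : ∀ Z, LB (d+1) Z Z = 0 → Z ≠ 0 → sg (A Z) = μ (sg Z))
    {v w : Fin (d+1) → ℝ} {k : ℝ} (hk : 0 < k) (hvw : A (lft v) = k • lft w)
    (hv : 1 < nsq v) (hw : 1 < nsq w) : μ '' ball v = ball w := by
  have hinj : Function.Injective A := by
    intro x y hxy
    have : A (x - y) = 0 := by rw [map_sub, hxy, sub_self]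
    exact sub_eq_zero.1 (isom_inj hA this)
  have hsurj : Function.Surjective A := LinearMap.surjective_of_injective hinj
  apply Set.Subset.antisymm
  · rintro _ ⟨_, ⟨x, hx, rfl⟩, rfl⟩
    rw [mem_cap hv] at hx
    obtain ⟨hx1, hxv⟩ := hx
    have hf := hfut x hx1
    have hn : LB (d+1) (A (lft x)) (A (lft x)) = 0 := by rw [hA, LB_lft_self hx1]
    refine ⟨pt (A (lft x)), ?_, ?_⟩
    · rw [mem_cap hw]
      refine ⟨nsq_pt hn hf.ne', ?_⟩
      have h1 : 0 ≤ LB (d+1) (A (lft x)) (A (lft v)) := by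
        rw [hA, LB_lft]; linarith
      rw [hvw, map_smul, smul_eq_mul] at h1
      have h2 : 0 ≤ LB (d+1) (A (lft x)) (lft w) := by
        by_contra hc
        push Not at hc
        have := mul_neg_of_pos_of_neg hk hc
        linarith
      have h3 : 0 ≤ LB (d+1) (lft (pt (A (lft x)))) (lft w) := by
        rw [lft_pt hf.ne', map_smul, LinearMap.smul_apply, smul_eq_mul]
        exact mul_nonneg (inv_pos.2 hf).le h2
      rw [LB_lft] at h3
      linarith
    · rw [stereo_eq, stereo_eq, lft_pt hf.ne', sg_smul (inv_ne_zero hf.ne'),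
        hμ _ (LB_lft_self hx1) (lft_ne x)]
  · rintro _ ⟨y, hy, rfl⟩
    rw [mem_cap hw] at hy
    obtain ⟨hy1, hyw⟩ := hy
    obtain ⟨Z, hZ⟩ := hsurj (lft y)
    have hZn : LB (d+1) Z Z = 0 := by rw [← hA, hZ, LB_lft_self hy1]
    have hZ0 : Z none ≠ 0 := by
      intro h0
      have := null_zero hZn h0
      rw [this, map_zero] at hZ
      exact lft_ne y hZ.symm
    have hx1 := nsq_pt hZn hZ0
    have hf := hfut _ hx1
    rw [lft_pt hZ0, map_smul, hZ, Pi.smul_apply, lft_none, smul_eq_mul, mul_one] at hf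
    have hZpos : 0 < Z none := inv_pos.1 hf
    refine ⟨stereo (pt Z), ⟨pt Z, ?_, rfl⟩, ?_⟩
    · rw [mem_cap hv]
      refine ⟨hx1, ?_⟩
      have h1 : 0 ≤ LB (d+1) (lft y) (lft w) := by rw [LB_lft]; linarith
      have h2 : 0 ≤ LB (d+1) (lft y) (k • lft w) := by
        rw [map_smul, smul_eq_mul]; exact mul_nonneg hk.le h1
      rw [← hvw, ← hZ, hA] at h2
      have h3 : 0 ≤ LB (d+1) (lft (pt Z)) (lft v) := by
        rw [lft_pt hZ0, map_smul, LinearMap.smul_apply, smul_eq_mul]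
        exact mul_nonneg hf.le h2
      rw [LB_lft] at h3
      linarith
    · rw [stereo_eq, ← hμ _ (LB_lft_self hx1) (lft_ne _), lft_pt hZ0, map_smul,
        sg_smul (inv_ne_zero hZ0), hZ, stereo_eq]

/-- a full-dimensional edge-scribed polytope touches the unit sphere -/
lemma exists_tangent (hn : 0 < n) {V : Finset (Fin n → ℝ)}
    (hV : (interior (convexHull ℝ (V : Set (Fin n → ℝ)))).Nonempty) (tV : Tang (ext V)) :
    ∃ p ∈ convexHull ℝ (V : Set (Fin n → ℝ)), nsq p = 1 := by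
  classical
  have hint := hV
  rw [← hull_ext] at hint
  obtain ⟨a, ha⟩ : (ext V).Nonempty := by
    rw [Finset.nonempty_iff_ne_empty]
    intro h
    rw [h] at hint
    simp at hint
  have hface := face_singleton (ext_extreme V) ha
  obtain ⟨R0, hR0, -⟩ := exists_cov_le hface (isFace_self lft (ext V)) (by
    rw [Finset.ssubset_iff_subset_ne]
    exact ⟨Finset.singleton_subset_iff.2 ha, fun h => ne_singleton hn hint a h.symm⟩)
  obtain ⟨b, hba, haJ, hbJ, -, hE⟩ := cov_segment (ext_extreme V) hR0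
  obtain ⟨p, hp, hp1, -⟩ := tV a haJ b hbJ hba.symm hE
  refine ⟨p, ?_, hp1⟩
  rw [← hull_ext]
  exact hE.subset hp

/-- the main statement, labelled form -/
theorem mobius_of_iso {d : ℕ} (hd : 2 ≤ d) {P Q : Set (Fin (d+1) → ℝ)} (hP : IsPolytope P)
    (hQ : IsPolytope Q) (eP : EdgeScribed P) (eQ : EdgeScribed Q) (φ : Faces P ≃o Faces Q) :
    ∃ μ : OnePoint (Fin d → ℝ) → OnePoint (Fin d → ℝ), IsMobius μ ∧
      (∀ (v w : Fin (d+1) → ℝ) (hv : IsExposed ℝ P {v}),
        (φ ⟨{v}, hv⟩ : Set (Fin (d+1) → ℝ)) = {w} → μ '' ball v = ball w) ∧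
      (fun B => μ '' B) '' ballArrangement P = ballArrangement Q := by
  obtain ⟨⟨V, rfl⟩, hV⟩ := hP
  obtain ⟨⟨W, rfl⟩, hW⟩ := hQ
  have tV := tang_of_edgeScribed eP
  have tW := tang_of_edgeScribed eQ
  obtain ⟨f, hf1, hbij, hf2⟩ := iso_vertex φ
  obtain ⟨A, hA, k, hk, hAk, hfutP⟩ := isometry_of_types (by omega) hV hW tV tW hbij hf2
  obtain ⟨p, hp, hp1⟩ := exists_tangent (by omega) hV tV
  have hfut : ∀ x : Fin (d+1) → ℝ, nsq x = 1 → 0 < A (lft x) none :=
    fun x hx => future_of_future hA hp1 (hfutP p hp) hx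
  obtain ⟨μ, hμ, hμA⟩ := good_all A hA
  have hV' := hV
  have hW' := hW
  rw [← hull_ext] at hV' hW'
  have nV : ∀ v ∈ ext V, 1 < nsq v := fun v hv => by
    have := norm_gt_one (by omega) (ext_extreme V) hV' tV hv
    rw [qq_self] at this; linarith
  have nW : ∀ v ∈ ext W, 1 < nsq v := fun v hv => by
    have := norm_gt_one (by omega) (ext_extreme W) hW' tW hv
    rw [qq_self] at this; linarith
  have mV : ∀ v, v ∈ ext V ↔ v ∈ Set.extremePoints ℝ (convexHull ℝ (V : Set (Fin (d+1) → ℝ))) :=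
    fun v => by rw [← coe_ext]; exact Iff.rfl
  have mW : ∀ v, v ∈ ext W ↔ v ∈ Set.extremePoints ℝ (convexHull ℝ (W : Set (Fin (d+1) → ℝ))) :=
    fun v => by rw [← coe_ext]; exact Iff.rfl
  have hball : ∀ v ∈ Set.extremePoints ℝ (convexHull ℝ (V : Set (Fin (d+1) → ℝ))),
      μ '' ball v = ball (f v) := by
    intro v hv
    have hv' := (mV v).2 hv
    have hw' := (mW (f v)).2 (hbij.mapsTo hv)
    exact ball_image hA hfut hμA (hk v hv') (hAk v hv') (nV v hv') (nW _ hw')
  refine ⟨μ, hμ, ?_, ?_⟩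
  · intro v w hv hφ
    rw [hf1 v hv] at hφ
    have : f v = w := Set.singleton_injective hφ
    rw [← this]
    exact hball v (exposed_singleton.1 hv)
  · apply Set.Subset.antisymm
    · rintro _ ⟨_, ⟨v, hv, rfl⟩, rfl⟩
      have hv' := exposed_singleton.1 hv
      exact ⟨f v, exposed_singleton.2 (hbij.mapsTo hv'), hball v hv'⟩
    · rintro _ ⟨w, hw, rfl⟩
      obtain ⟨v, hv, rfl⟩ := hbij.surjOn (exposed_singleton.1 hw)
      exact ⟨ball v, ⟨v, exposed_singleton.2 hv, rfl⟩, hball v hv⟩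

end Pool.Agent.Work.MP_43c1cf_co.Mob
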