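import Mathlib

/-!
# The Cauchy-Legendre sign lemma for Euclidean convex polygons with equal sides

Two convex `k`-gons with the same side lengths: label each vertex by the sign of the change of its
angle.  If the cyclic sequence of labels has fewer than four sign changes, nothing changes.
-/

open Real Finset

namespace Pool.Agent.Work.MP_43c1cf_co

namespace PolygonSign

/-- The arm lemma: a convex chain whose exterior angles do not increase opens up. -/
lemma arm {a b : ℤ} (hab : a < b) {w Φ Φ' : ℤ → ℝ} (hw : ∀ n ∈ Icc a b, 0 < w n)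
    (hΦ : StrictMono Φ) (hΦ' : StrictMono Φ')
    (hδ : ∀ m n, a ≤ m → m ≤ n → n ≤ b → Φ' n - Φ n ≤ Φ' m - Φ m)
    {θ : ℝ} (h1 : Φ a < θ) (h2 : θ < Φ b) (h3 : θ - Φ a ≤ π) (h4 : Φ b - θ ≤ π) :
    (∑ n ∈ Icc a b, w n * cos (Φ n - θ) ≤ ‖∑ n ∈ Icc a b, (w n : ℂ) * Complex.exp (Φ' n * Complex.I)‖)
    ∧ (∑ n ∈ Icc a b, w n * cos (Φ n - θ) =
        ‖∑ n ∈ Icc a b, (w n : ℂ) * Complex.exp (Φ' n * Complex.I)‖ →
      Φ' a - Φ a = Φ' b - Φ b) := by
  classical
  -- the splitting index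
  obtain ⟨m, hma, hmb, hm1, hm2⟩ : ∃ m : ℤ, a ≤ m ∧ m < b ∧ Φ m ≤ θ ∧ θ < Φ (m + 1) := by
    by_contra hcon
    push Not at hcon
    have hall : ∀ j : ℕ, a + j ≤ b → Φ (a + j) ≤ θ := by
      intro j
      induction j with
      | zero => intro _; simpa using h1.le
      | succ j ih =>
        intro hj
        have hj' : a + (j : ℤ) < b := by push_cast at hj; omega
        have := hcon (a + j) (by omega) hj' (ih hj'.le)
        have e : a + ((j + 1 : ℕ) : ℤ) = a + j + 1 := by push_cast; ring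
        rw [e]; exact this
    have := hall (b - a).toNat (by omega)
    have e : a + (((b - a).toNat : ℕ) : ℤ) = b := by omega
    rw [e] at this
    exact absurd h2 (not_lt.2 this)
  set c : ℝ := max (Φ' (m + 1) - Φ (m + 1)) (Φ' m - Φ m - (θ - Φ m)) with hc
  have hc1 : Φ' (m + 1) - Φ (m + 1) ≤ c := le_max_left _ _
  have hc2 : Φ' m - Φ m - (θ - Φ m) ≤ c := le_max_right _ _
  have hmono' : Φ' m < Φ' (m + 1) := hΦ' (by omega)
  have hδm := hδ m (m + 1) hma (by omega) (by omega)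
  have hc3 : c ≤ Φ' m - Φ m := max_le hδm (by linarith)
  have hc4 : c ≤ Φ' (m + 1) - θ := max_le (by linarith) (by linarith)
  -- the termwise comparison
  have hterm : ∀ n ∈ Icc a b, cos (Φ n - θ) ≤ cos (Φ' n - (θ + c)) ∧
      (cos (Φ n - θ) = cos (Φ' n - (θ + c)) → Φ' n - Φ n = c) := by
    intro n hn
    rw [mem_Icc] at hn
    rcases le_or_gt n m with hnm | hnm
    · have e1 : cos (Φ n - θ) = cos (θ - Φ n) := by rw [← cos_neg]; congr 1; ring
      have e2 : cos (Φ' n - (θ + c)) = cos (θ + c - Φ' n) := by rw [← cos_neg]; congr 1; ring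
      have k1 : Φ n ≤ Φ m := hΦ.monotone hnm
      have k2 : Φ' n ≤ Φ' m := hΦ'.monotone hnm
      have k3 : Φ a ≤ Φ n := hΦ.monotone hn.1
      have k4 := hδ n m hn.1 hnm hmb.le
      have u0 : 0 ≤ θ + c - Φ' n := by linarith
      have u1 : θ + c - Φ' n ≤ θ - Φ n := by linarith
      have u2 : θ - Φ n ≤ π := by linarith
      rw [e1, e2]
      refine ⟨cos_le_cos_of_nonneg_of_le_pi u0 u2 u1, fun h => ?_⟩
      have := injOn_cos ⟨u0.trans u1, u2⟩ ⟨u0, u1.trans u2⟩ h
      linarith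
    · have k1 : Φ (m + 1) ≤ Φ n := hΦ.monotone (by omega)
      have k2 : Φ' (m + 1) ≤ Φ' n := hΦ'.monotone (by omega)
      have k3 : Φ n ≤ Φ b := hΦ.monotone hn.2
      have k4 := hδ (m + 1) n (by omega) (by omega) hn.2
      have u0 : 0 ≤ Φ' n - (θ + c) := by linarith
      have u1 : Φ' n - (θ + c) ≤ Φ n - θ := by linarith
      have u2 : Φ n - θ ≤ π := by linarith
      refine ⟨cos_le_cos_of_nonneg_of_le_pi u0 u2 u1, fun h => ?_⟩
      have := injOn_cos ⟨u0.trans u1, u2⟩ ⟨u0, u1.trans u2⟩ h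
      linarith
  have hsum : ∑ n ∈ Icc a b, w n * cos (Φ n - θ) ≤ ∑ n ∈ Icc a b, w n * cos (Φ' n - (θ + c)) :=
    sum_le_sum fun n hn => mul_le_mul_of_nonneg_left (hterm n hn).1 (hw n hn).le
  have hre : ∑ n ∈ Icc a b, w n * cos (Φ' n - (θ + c)) =
      ((∑ n ∈ Icc a b, (w n : ℂ) * Complex.exp (Φ' n * Complex.I)) *
        Complex.exp (-(θ + c : ℝ) * Complex.I)).re := by
    rw [sum_mul, Complex.re_sum]
    refine sum_congr rfl fun n _ => ?_
    rw [mul_assoc, ← Complex.exp_add, ← add_mul, Complex.re_ofReal_mul]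
    have : ((Φ' n : ℂ) + -((θ + c : ℝ) : ℂ)) = ((Φ' n - (θ + c) : ℝ) : ℂ) := by push_cast; ring
    rw [this, Complex.exp_ofReal_mul_I_re]
  have hle : ((∑ n ∈ Icc a b, (w n : ℂ) * Complex.exp (Φ' n * Complex.I)) *
        Complex.exp (-(θ + c : ℝ) * Complex.I)).re ≤
      ‖∑ n ∈ Icc a b, (w n : ℂ) * Complex.exp (Φ' n * Complex.I)‖ := by
    refine (Complex.re_le_norm _).trans ?_
    rw [norm_mul]
    have : -((θ + c : ℝ) : ℂ) = ((-(θ + c) : ℝ) : ℂ) := by push_cast; ring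
    rw [this, Complex.norm_exp_ofReal_mul_I, mul_one]
  refine ⟨hsum.trans (hre.le.trans hle), fun heq => ?_⟩
  have hsum' : ∑ n ∈ Icc a b, w n * cos (Φ n - θ) = ∑ n ∈ Icc a b, w n * cos (Φ' n - (θ + c)) :=
    le_antisymm hsum (by rw [heq, hre]; exact hle)
  have hall := (sum_eq_sum_iff_of_le fun n hn =>
    mul_le_mul_of_nonneg_left (hterm n hn).1 (hw n hn).le).1 hsum'
  have hA : a ∈ Icc a b := mem_Icc.2 ⟨le_rfl, hab.le⟩
  have hB : b ∈ Icc a b := mem_Icc.2 ⟨hab.le, le_rfl⟩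
  rw [(hterm a hA).2 (mul_left_cancel₀ (hw a hA).ne' (hall a hA)),
    (hterm b hB).2 (mul_left_cancel₀ (hw b hB).ne' (hall b hB))]

/-- The weights of a chain from the midpoint of side `a` to the midpoint of side `b`. -/
noncomputable def W (L : ℤ → ℝ) (a b n : ℤ) : ℝ := if n = a ∨ n = b then L n / 2 else L n

lemma W_pos {L : ℤ → ℝ} (hL : ∀ n, 0 < L n) (a b n : ℤ) : 0 < W L a b n := by
  unfold W
  split_ifs
  · exact half_pos (hL n)
  · exact hL n

lemma sum_Icc_W {E : Type*} [AddCommGroup E] [Module ℝ E] (L : ℤ → ℝ) (f : ℤ → E) {a b : ℤ}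
    (hab : a < b) : ∑ n ∈ Icc a b, W L a b n • f n =
      (L a / 2) • f a + (L b / 2) • f b + ∑ n ∈ Ioo a b, L n • f n := by
  have h : Icc a b = insert a (insert b (Ioo a b)) := by
    ext n; simp only [mem_Icc, mem_insert, mem_Ioo]; omega
  have ha : a ∉ insert b (Ioo a b) := by simp only [mem_insert, mem_Ioo]; omega
  have hb : b ∉ Ioo a b := by simp only [mem_Ioo]; omega
  rw [h, sum_insert ha, sum_insert hb, ← add_assoc]
  congr 1
  · congr 1
    · simp [W]
    · simp [W]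
  · refine sum_congr rfl fun n hn => ?_
    rw [mem_Ioo] at hn
    have : ¬ (n = a ∨ n = b) := by omega
    simp [W, this]

lemma sum_split {E : Type*} [AddCommGroup E] [Module ℝ E] (L : ℤ → ℝ) (f : ℤ → E) {a b k : ℤ}
    (hab : a < b) (hbk : b < a + k) (hL : L (a + k) = L a) (hf : f (a + k) = f a) :
    ∑ n ∈ Icc a b, W L a b n • f n + ∑ n ∈ Icc b (a + k), W L b (a + k) n • f n =
      ∑ n ∈ Ico a (a + k), L n • f n := by
  have h : Ico a (a + k) = insert a (insert b (Ioo a b ∪ Ioo b (a + k))) := by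
    ext n; simp only [mem_Ico, mem_insert, mem_union, mem_Ioo]; omega
  have ha : a ∉ insert b (Ioo a b ∪ Ioo b (a + k)) := by
    simp only [mem_insert, mem_union, mem_Ioo]; omega
  have hb : b ∉ (Ioo a b ∪ Ioo b (a + k)) := by simp only [mem_union, mem_Ioo]; omega
  have hd : Disjoint (Ioo a b) (Ioo b (a + k)) := by
    rw [Finset.disjoint_left]; intro n; simp only [mem_Ioo]; omega
  rw [sum_Icc_W L f hab, sum_Icc_W L f hbk, h, sum_insert ha, sum_insert hb, sum_union hd, hL, hf]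
  have e1 : L a • f a = (L a / 2) • f a + (L a / 2) • f a := by rw [← add_smul, add_halves]
  have e2 : L b • f b = (L b / 2) • f b + (L b / 2) • f b := by rw [← add_smul, add_halves]
  rw [e1, e2]
  abel

/-- A convex polygon with sides of length `L n` in the directions `Φ n`, indexed periodically. -/
structure IsPoly (k : ℤ) (L Φ : ℤ → ℝ) : Prop where
  three_le : 3 ≤ k
  pos : ∀ n, 0 < L n
  per : ∀ n, L (n + k) = L n
  mono : StrictMono Φ
  turn : ∀ n, Φ (n + k) = Φ n + 2 * π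
  closed : ∀ m, ∑ n ∈ Ico m (m + k), L n • Complex.exp (Φ n * Complex.I) = 0

namespace IsPoly

variable {k : ℤ} {L Φ : ℤ → ℝ}

lemma closed_sin (h : IsPoly k L Φ) (m : ℤ) (ψ : ℝ) :
    ∑ n ∈ Ico m (m + k), L n * sin (Φ n - ψ) = 0 := by
  have h1 := congrArg (fun z : ℂ => (z * Complex.exp (-ψ * Complex.I)).im) (h.closed m)
  simp only [zero_mul, Complex.zero_im] at h1
  rw [← h1, sum_mul, Complex.im_sum]
  refine sum_congr rfl fun n _ => ?_
  rw [smul_mul_assoc, ← Complex.exp_add, ← add_mul, Complex.smul_im, smul_eq_mul]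
  have : ((Φ n : ℂ) + -(ψ : ℂ)) = ((Φ n - ψ : ℝ) : ℂ) := by push_cast; ring
  rw [this, Complex.exp_ofReal_mul_I_im]

lemma sin_split (h : IsPoly k L Φ) {a b : ℤ} (hab : a < b) (hbk : b < a + k) (ψ : ℝ) :
    ∑ n ∈ Icc a b, W L a b n * sin (Φ n - ψ) +
      ∑ n ∈ Icc b (a + k), W L b (a + k) n * sin (Φ n - ψ) = 0 := by
  rw [← h.closed_sin a ψ]
  exact sum_split L (fun n => sin (Φ n - ψ)) hab hbk (h.per a) (by
    show sin (Φ (a + k) - ψ) = sin (Φ a - ψ)
    rw [h.turn, add_sub_right_comm, sin_add_two_pi])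

/-- The exterior angles are less than `π`. -/
lemma ext_lt_pi (h : IsPoly k L Φ) (n : ℤ) : Φ n - Φ (n - 1) < π := by
  by_contra hcon
  push Not at hcon
  have hk := h.three_le
  have hturn : Φ (n + k - 1) = Φ (n - 1) + 2 * π := by
    rw [← h.turn]; congr 1; ring
  have hsum := h.closed_sin n (Φ n)
  have hnn : ∀ j ∈ Ico n (n + k), 0 ≤ L j * sin (Φ j - Φ n) := by
    intro j hj
    rw [mem_Ico] at hj
    refine mul_nonneg (h.pos j).le (sin_nonneg_of_nonneg_of_le_pi ?_ ?_)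
    · have := h.mono.monotone hj.1; linarith
    · have : Φ j ≤ Φ (n + k - 1) := h.mono.monotone (by omega)
      linarith
  have hzero := (sum_eq_zero_iff_of_nonneg hnn).1 hsum (n + 1) (mem_Ico.2 ⟨by omega, by omega⟩)
  have hpos : 0 < L (n + 1) * sin (Φ (n + 1) - Φ n) := by
    refine mul_pos (h.pos _) (sin_pos_of_pos_of_lt_pi ?_ ?_)
    · have := h.mono (show n < n + 1 by omega); linarith
    · have : Φ (n + 1) < Φ (n + k - 1) := h.mono (by omega)
      linarith
  linarith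

/-- The chord lies to the left of the initial side of the chain. -/
lemma sin_pos (h : IsPoly k L Φ) {a b : ℤ} (hab : a < b) (hbk : b < a + k) :
    0 < ∑ n ∈ Icc a b, W L a b n * sin (Φ n - Φ a) := by
  have hk := h.three_le
  have hW := fun n => W_pos h.pos a b n
  have hW2 := fun n => W_pos h.pos b (a + k) n
  rcases lt_trichotomy (Φ b - Φ a) π with hlt | heq | hgt
  · refine sum_pos' (fun n hn => ?_) ⟨b, mem_Icc.2 ⟨hab.le, le_rfl⟩, ?_⟩
    · rw [mem_Icc] at hn
      refine mul_nonneg (hW n).le (sin_nonneg_of_nonneg_of_le_pi ?_ ?_)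
      · have := h.mono.monotone hn.1; linarith
      · have := h.mono.monotone hn.2; linarith
    · refine mul_pos (hW b) (sin_pos_of_pos_of_lt_pi ?_ hlt)
      have := h.mono hab; linarith
  · rcases (by omega : a + 1 < b ∨ b + 1 < a + k) with h3 | h3
    · refine sum_pos' (fun n hn => ?_) ⟨a + 1, mem_Icc.2 ⟨by omega, by omega⟩, ?_⟩
      · rw [mem_Icc] at hn
        refine mul_nonneg (hW n).le (sin_nonneg_of_nonneg_of_le_pi ?_ ?_)
        · have := h.mono.monotone hn.1; linarith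
        · have := h.mono.monotone hn.2; linarith
      · refine mul_pos (hW _) (sin_pos_of_pos_of_lt_pi ?_ ?_)
        · have := h.mono (show a < a + 1 by omega); linarith
        · have := h.mono h3; linarith
    · have hs := h.sin_split hab hbk (Φ a)
      have hneg : ∑ n ∈ Icc b (a + k), W L b (a + k) n * sin (Φ n - Φ a) < 0 := by
        have : 0 < ∑ n ∈ Icc b (a + k), W L b (a + k) n * -sin (Φ n - Φ a) := by
          refine sum_pos' (fun n hn => ?_) ⟨b + 1, mem_Icc.2 ⟨by omega, by omega⟩, ?_⟩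
          · rw [mem_Icc] at hn
            refine mul_nonneg (hW2 n).le ?_
            rw [← sin_sub_pi]
            refine sin_nonneg_of_nonneg_of_le_pi ?_ ?_
            · have := h.mono.monotone hn.1; linarith
            · have := h.mono.monotone hn.2; rw [h.turn] at this; linarith
          · refine mul_pos (hW2 _) ?_
            rw [← sin_sub_pi]
            refine sin_pos_of_pos_of_lt_pi ?_ ?_
            · have := h.mono (show b < b + 1 by omega); linarith
            · have := h.mono h3; rw [h.turn] at this; linarith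
        simp only [mul_neg, sum_neg_distrib] at this
        linarith
      linarith
  · have hs := h.sin_split hab hbk (Φ a)
    have hneg : ∑ n ∈ Icc b (a + k), W L b (a + k) n * sin (Φ n - Φ a) < 0 := by
      have : 0 < ∑ n ∈ Icc b (a + k), W L b (a + k) n * -sin (Φ n - Φ a) := by
        refine sum_pos' (fun n hn => ?_) ⟨b, mem_Icc.2 ⟨le_rfl, by omega⟩, ?_⟩
        · rw [mem_Icc] at hn
          refine mul_nonneg (hW2 n).le ?_
          rw [← sin_sub_pi]
          refine sin_nonneg_of_nonneg_of_le_pi ?_ ?_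
          · have := h.mono.monotone hn.1; linarith
          · have := h.mono.monotone hn.2; rw [h.turn] at this; linarith
        · refine mul_pos (hW2 _) ?_
          rw [← sin_sub_pi]
          refine sin_pos_of_pos_of_lt_pi (by linarith) ?_
          have := h.mono hbk; rw [h.turn] at this; linarith
      simp only [mul_neg, sum_neg_distrib] at this
      linarith
    linarith

/-- The chord lies to the right of the final side of the chain. -/
lemma sin_neg' (h : IsPoly k L Φ) {a b : ℤ} (hab : a < b) (hbk : b < a + k) :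
    ∑ n ∈ Icc a b, W L a b n * sin (Φ n - Φ b) < 0 := by
  have h1 := h.sin_pos hbk (by omega : a + k < b + k)
  have h2 := h.sin_split hab hbk (Φ b)
  linarith

lemma exp_split (h : IsPoly k L Φ) {a b : ℤ} (hab : a < b) (hbk : b < a + k) :
    ∑ n ∈ Icc a b, (W L a b n : ℂ) * Complex.exp (Φ n * Complex.I) +
      ∑ n ∈ Icc b (a + k), (W L b (a + k) n : ℂ) * Complex.exp (Φ n * Complex.I) = 0 := by
  have h1 := sum_split L (fun n => Complex.exp (Φ n * Complex.I)) hab hbk (h.per a) (by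
    show Complex.exp (Φ (a + k) * Complex.I) = Complex.exp (Φ a * Complex.I)
    rw [h.turn]
    push_cast
    rw [add_mul, Complex.exp_add, Complex.exp_two_pi_mul_I, mul_one])
  simp only [Complex.real_smul] at h1
  rw [h1]
  have h2 := h.closed a
  simp only [Complex.real_smul] at h2
  exact h2

/-- The direction of the chord. -/
lemma chord (h : IsPoly k L Φ) {a b : ℤ} (hab : a < b) (hbk : b < a + k) :
    ∃ θ : ℝ, Φ a < θ ∧ θ < Φ b ∧ θ - Φ a ≤ π ∧ Φ b - θ ≤ π ∧
      ∑ n ∈ Icc a b, W L a b n * cos (Φ n - θ) =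
        ‖∑ n ∈ Icc a b, (W L a b n : ℂ) * Complex.exp (Φ n * Complex.I)‖ := by
  set V : ℂ := ∑ n ∈ Icc a b, (W L a b n : ℂ) * Complex.exp (Φ n * Complex.I) with hV
  have hmul : ∀ ψ : ℝ, V * Complex.exp (-ψ * Complex.I) =
      ∑ n ∈ Icc a b, (W L a b n : ℂ) * Complex.exp ((Φ n - ψ : ℝ) * Complex.I) := by
    intro ψ
    rw [hV, sum_mul]
    refine sum_congr rfl fun n _ => ?_
    rw [mul_assoc, ← Complex.exp_add, ← add_mul]
    congr 3
    push_cast; ring
  have him : ∀ ψ : ℝ, (V * Complex.exp (-ψ * Complex.I)).im =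
      ∑ n ∈ Icc a b, W L a b n * sin (Φ n - ψ) := by
    intro ψ
    rw [hmul, Complex.im_sum]
    refine sum_congr rfl fun n _ => ?_
    rw [Complex.im_ofReal_mul, Complex.exp_ofReal_mul_I_im]
  have hre : ∀ ψ : ℝ, (V * Complex.exp (-ψ * Complex.I)).re =
      ∑ n ∈ Icc a b, W L a b n * cos (Φ n - ψ) := by
    intro ψ
    rw [hmul, Complex.re_sum]
    refine sum_congr rfl fun n _ => ?_
    rw [Complex.re_ofReal_mul, Complex.exp_ofReal_mul_I_re]
  set U : ℂ := V * Complex.exp (-(Φ a) * Complex.I) with hU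
  have hUim : 0 < U.im := by rw [him]; exact h.sin_pos hab hbk
  have hUne : U ≠ 0 := by rintro h0; rw [h0] at hUim; exact lt_irrefl _ hUim
  have hUnorm : ‖U‖ = ‖V‖ := by
    rw [hU, norm_mul]
    have : -((Φ a : ℝ) : ℂ) = ((-(Φ a) : ℝ) : ℂ) := by push_cast; ring
    rw [this, Complex.norm_exp_ofReal_mul_I, mul_one]
  have hVpos : 0 < ‖V‖ := by rw [← hUnorm]; exact norm_pos_iff.2 hUne
  have harg : 0 < Complex.arg U ∧ Complex.arg U < π := by
    have hs : 0 < sin (Complex.arg U) := by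
      rw [Complex.sin_arg]; exact div_pos hUim (norm_pos_iff.2 hUne)
    have h1 := Complex.neg_pi_lt_arg U
    have h2 := Complex.arg_le_pi U
    constructor
    · by_contra hcon
      push Not at hcon
      have := sin_nonneg_of_nonneg_of_le_pi (x := -Complex.arg U) (by linarith) (by linarith)
      rw [sin_neg] at this
      linarith
    · rcases h2.lt_or_eq with h3 | h3
      · exact h3
      · rw [h3, sin_pi] at hs; exact absurd hs (lt_irrefl _)
  obtain ⟨ρ, hρ⟩ : ∃ ρ : ℝ, ρ = ‖V‖ := ⟨_, rfl⟩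
  obtain ⟨α, hα⟩ : ∃ α : ℝ, α = Complex.arg U := ⟨_, rfl⟩
  have hVexp : V = (ρ : ℂ) * Complex.exp ((Φ a + α : ℝ) * Complex.I) := by
    have h1 : U = (ρ : ℂ) * Complex.exp (α * Complex.I) := by
      rw [hρ, hα, ← hUnorm]; exact (Complex.norm_mul_exp_arg_mul_I U).symm
    calc V = U * Complex.exp ((Φ a : ℝ) * Complex.I) := by
          rw [hU, mul_assoc, ← Complex.exp_add]
          have : -((Φ a : ℝ) : ℂ) * Complex.I + (Φ a : ℝ) * Complex.I = 0 := by ring
          rw [this, Complex.exp_zero, mul_one]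
      _ = ((ρ : ℂ) * Complex.exp (α * Complex.I)) * Complex.exp ((Φ a : ℝ) * Complex.I) := by
          rw [h1]
      _ = (ρ : ℂ) * Complex.exp ((Φ a + α : ℝ) * Complex.I) := by
          rw [mul_assoc, ← Complex.exp_add]
          congr 2
          push_cast; ring
  rw [← hα] at harg
  rw [← hρ] at hVpos
  have hψ : ∀ ψ : ℝ, V * Complex.exp (-ψ * Complex.I) =
      (ρ : ℂ) * Complex.exp ((Φ a + α - ψ : ℝ) * Complex.I) := by
    intro ψ
    rw [hVexp, mul_assoc, ← Complex.exp_add]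
    congr 2
    push_cast; ring
  have hsinb : sin (Φ a + α - Φ b) < 0 := by
    have h1 := h.sin_neg' hab hbk
    rw [← him, hψ, Complex.im_ofReal_mul, Complex.exp_ofReal_mul_I_im] at h1
    by_contra hcon
    push Not at hcon
    linarith [mul_nonneg hVpos.le hcon]
  have hbk' : Φ b < Φ a + 2 * π := by rw [← h.turn]; exact h.mono hbk
  have hab' := h.mono hab
  have hlt : Φ a + α < Φ b := by
    by_contra hcon
    push Not at hcon
    have := sin_nonneg_of_nonneg_of_le_pi (x := Φ a + α - Φ b) (by linarith) (by linarith [harg.2])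
    linarith
  have hgt : Φ b - (Φ a + α) < π := by
    by_contra hcon
    push Not at hcon
    have := sin_nonneg_of_nonneg_of_le_pi (x := Φ a + α - Φ b + 2 * π) (by linarith [harg.1])
      (by linarith)
    rw [sin_add_two_pi] at this
    linarith
  refine ⟨Φ a + α, by linarith [harg.1], hlt, by linarith [harg.2], hgt.le, ?_⟩
  rw [← hre, hψ, sub_self, ← hρ]
  simp

/-- The two-arc comparison. -/
lemma two_arcs (h : IsPoly k L Φ) {Φ' : ℤ → ℝ} (h' : IsPoly k L Φ') {a b : ℤ} (hab : a < b)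
    (hbk : b < a + k) (h1 : ∀ m n, a ≤ m → m ≤ n → n ≤ b → Φ' n - Φ n ≤ Φ' m - Φ m)
    (h2 : ∀ m n, b ≤ m → m ≤ n → n ≤ a + k → Φ' m - Φ m ≤ Φ' n - Φ n) :
    Φ' a - Φ a = Φ' b - Φ b := by
  obtain ⟨θ, t1, t2, t3, t4, t5⟩ := h.chord hab hbk
  obtain ⟨θ', u1, u2, u3, u4, u5⟩ := h'.chord hbk (by omega : a + k < b + k)
  have A := arm hab (w := W L a b) (fun n _ => W_pos h.pos a b n) h.mono h'.mono h1 t1 t2 t3 t4
  have B := arm hbk (w := W L b (a + k)) (fun n _ => W_pos h.pos b (a + k) n) h'.mono h.mono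
    (fun m n e1 e2 e3 => by have := h2 m n e1 e2 e3; linarith) u1 u2 u3 u4
  have e := h.exp_split hab hbk
  have e' := h'.exp_split hab hbk
  have n1 : ‖∑ n ∈ Icc a b, (W L a b n : ℂ) * Complex.exp (Φ n * Complex.I)‖ =
      ‖∑ n ∈ Icc b (a + k), (W L b (a + k) n : ℂ) * Complex.exp (Φ n * Complex.I)‖ := by
    rw [eq_neg_of_add_eq_zero_left e, norm_neg]
  have n2 : ‖∑ n ∈ Icc a b, (W L a b n : ℂ) * Complex.exp (Φ' n * Complex.I)‖ =
      ‖∑ n ∈ Icc b (a + k), (W L b (a + k) n : ℂ) * Complex.exp (Φ' n * Complex.I)‖ := by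
    rw [eq_neg_of_add_eq_zero_left e', norm_neg]
  have A1 := A.1
  have B1 := B.1
  exact A.2 (le_antisymm A1 (by rw [t5]; rw [u5] at B1; linarith))

end IsPoly

lemma exists_descent {D : ℤ → ℝ} {x y : ℤ} (hxy : x < y) (h : D y < D x) :
    ∃ p, x < p ∧ p ≤ y ∧ D p < D (p - 1) := by
  by_contra hcon
  push Not at hcon
  have hall : ∀ j : ℕ, x + j ≤ y → D x ≤ D (x + j) := by
    intro j
    induction j with
    | zero => intro _; simp
    | succ j ih =>
      intro hj
      have h1 := ih (by push_cast at hj; omega)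
      have h2 := hcon (x + ((j + 1 : ℕ) : ℤ)) (by push_cast; omega) hj
      have e : x + ((j + 1 : ℕ) : ℤ) - 1 = x + j := by push_cast; ring
      rw [e] at h2
      exact h1.trans h2
  have := hall (y - x).toNat (by omega)
  have e : x + (((y - x).toNat : ℕ) : ℤ) = y := by omega
  rw [e] at this
  linarith

lemma exists_ascent {D : ℤ → ℝ} {x y : ℤ} (hxy : x < y) (h : D x < D y) :
    ∃ p, x < p ∧ p ≤ y ∧ D (p - 1) < D p := by
  obtain ⟨p, h1, h2, h3⟩ := exists_descent (D := fun n => -D n) hxy (by simpa using h)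
  exact ⟨p, h1, h2, by simpa using h3⟩

/-- Combinatorial core: a periodic function without four alternating ascents and descents in a
period is unimodal. -/
lemma unimodal {D : ℤ → ℝ} {k : ℤ} (hk : 0 < k) (hper : ∀ n, D (n + k) = D n)
    (hno : ∀ p1 p2 p3 p4 : ℤ, 0 ≤ p1 → p1 < p2 → p2 < p3 → p3 < p4 → p4 < k →
      ¬ ((D p1 < D (p1 - 1) ∧ D (p2 - 1) < D p2 ∧ D p3 < D (p3 - 1) ∧ D (p4 - 1) < D p4) ∨
        (D (p1 - 1) < D p1 ∧ D p2 < D (p2 - 1) ∧ D (p3 - 1) < D p3 ∧ D p4 < D (p4 - 1)))) :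
    (∀ n, D n = D 0) ∨ ∃ a b : ℤ, a < b ∧ b < a + k ∧ D b < D a ∧ (∀ n, D n ≤ D a) ∧
      (∀ n, D b ≤ D n) ∧ (∀ m n, a ≤ m → m ≤ n → n ≤ b → D n ≤ D m) ∧
      (∀ m n, b ≤ m → m ≤ n → n ≤ a + k → D m ≤ D n) := by
  have hper' : ∀ n, D (n - k) = D n := fun n => by rw [← hper, sub_add_cancel]
  have hperz : ∀ n j : ℤ, D (n + k * j) = D n := by
    intro n j
    induction j with
    | zero => simp
    | succ j ih =>
      rw [← ih, ← hper (n + k * j)]; congr 1; ring
    | pred j ih =>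
      rw [← ih, ← hper' (n + k * (-(j : ℤ)))]; congr 1; ring
  have hmod : ∀ n, D n = D (n % k) := fun n => by
    conv_lhs => rw [← Int.emod_add_mul_ediv n k]
    exact hperz _ _
  have hne : (Ico (0 : ℤ) k).Nonempty := ⟨0, mem_Ico.2 ⟨le_rfl, hk⟩⟩
  obtain ⟨a, ha, hamax⟩ := exists_max_image (Ico (0 : ℤ) k) D hne
  obtain ⟨b0, hb0, hbmin⟩ := exists_min_image (Ico (0 : ℤ) k) D hne
  rw [mem_Ico] at ha hb0
  have hmax : ∀ n, D n ≤ D a := fun n => by
    rw [hmod n]
    exact hamax _ (mem_Ico.2 ⟨Int.emod_nonneg _ hk.ne', Int.emod_lt_of_pos _ hk⟩)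
  have hmin0 : ∀ n, D b0 ≤ D n := fun n => by
    rw [hmod n]
    exact hbmin _ (mem_Ico.2 ⟨Int.emod_nonneg _ hk.ne', Int.emod_lt_of_pos _ hk⟩)
  by_cases hconst : D b0 = D a
  · left
    intro n
    exact le_antisymm ((hmax n).trans (hconst ▸ hmin0 0)) ((hmax 0).trans (hconst ▸ hmin0 n))
  right
  obtain ⟨b, hab, hbk, hb⟩ : ∃ b, a < b ∧ b < a + k ∧ D b = D b0 := by
    rcases lt_trichotomy a b0 with h | h | h
    · exact ⟨b0, h, by omega, rfl⟩
    · exact absurd (by rw [h]) hconst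
    · exact ⟨b0 + k, by omega, by omega, hper b0⟩
  have hlt : D b < D a := by
    rw [hb]; exact lt_of_le_of_ne (hmin0 a) hconst
  have hmin : ∀ n, D b ≤ D n := fun n => by rw [hb]; exact hmin0 n
  -- the window version of the hypothesis
  have hwin : ∀ p1 p2 p3 p4 : ℤ, a < p1 → p1 < p2 → p2 < p3 → p3 < p4 → p4 ≤ a + k →
      ¬ (D p1 < D (p1 - 1) ∧ D (p2 - 1) < D p2 ∧ D p3 < D (p3 - 1) ∧ D (p4 - 1) < D p4) ∧
      ¬ (D (p1 - 1) < D p1 ∧ D p2 < D (p2 - 1) ∧ D (p3 - 1) < D p3 ∧ D p4 < D (p4 - 1)) := by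
    intro p1 p2 p3 p4 h0 h1 h2 h3 h4
    have sh : ∀ p, D (p - k - 1) = D (p - 1) := fun p => by
      rw [← hper' (p - 1)]; congr 1; ring
    rcases lt_or_ge p4 k with c4 | c4
    · have := hno p1 p2 p3 p4 (by omega) h1 h2 h3 c4
      tauto
    rcases lt_or_ge p3 k with c3 | c3
    · have := hno (p4 - k) p1 p2 p3 (by omega) (by omega) h1 h2 c3
      rw [hper', sh] at this
      tauto
    rcases lt_or_ge p2 k with c2 | c2
    · have := hno (p3 - k) (p4 - k) p1 p2 (by omega) (by omega) (by omega) h1 c2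
      rw [hper', sh, hper', sh] at this
      tauto
    rcases lt_or_ge p1 k with c1 | c1
    · have := hno (p2 - k) (p3 - k) (p4 - k) p1 (by omega) (by omega) (by omega) (by omega) c1
      rw [hper', sh, hper', sh, hper', sh] at this
      tauto
    · have := hno (p1 - k) (p2 - k) (p3 - k) (p4 - k) (by omega) (by omega) (by omega) (by omega)
        (by omega)
      rw [hper', sh, hper', sh, hper', sh, hper', sh] at this
      tauto
  refine ⟨a, b, hab, hbk, hlt, hmax, hmin, ?_, ?_⟩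
  · intro m n h1 h2 h3
    by_contra hcon
    push Not at hcon
    have hmn : m < n := lt_of_le_of_ne h2 (by rintro rfl; exact lt_irrefl _ hcon)
    obtain ⟨i, i1, i2, i3⟩ := exists_ascent hmn hcon
    have hai : a < i - 1 := by
      rcases lt_or_eq_of_le (show a ≤ i - 1 by omega) with h | h
      · exact h
      · rw [← h] at i3
        exact absurd (hmax i) (not_le.2 i3)
    have hib : i < b := by
      rcases lt_or_eq_of_le (show i ≤ b by omega) with h | h
      · exact h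
      · rw [h] at i3
        exact absurd (hmin (b - 1)) (not_le.2 i3)
    obtain ⟨p, p1, p2, p3⟩ := exists_descent hai (i3.trans_le (hmax i))
    obtain ⟨q, q1, q2, q3⟩ := exists_descent hib ((hmin (i - 1)).trans_lt i3)
    obtain ⟨r, r1, r2, r3⟩ := exists_ascent (D := D) hbk (by rw [hper]; exact hlt)
    exact (hwin p i q r p1 (by omega) q1 (by omega) r2).1 ⟨p3, i3, q3, r3⟩
  · intro m n h1 h2 h3
    by_contra hcon
    push Not at hcon
    have hmn : m < n := lt_of_le_of_ne h2 (by rintro rfl; exact lt_irrefl _ hcon)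
    obtain ⟨i, i1, i2, i3⟩ := exists_descent hmn hcon
    have hbi : b < i - 1 := by
      rcases lt_or_eq_of_le (show b ≤ i - 1 by omega) with h | h
      · exact h
      · rw [← h] at i3
        exact absurd (hmin i) (not_le.2 i3)
    have hia : i < a + k := by
      rcases lt_or_eq_of_le (show i ≤ a + k by omega) with h | h
      · exact h
      · rw [h, hper] at i3
        exact absurd (hmax (a + k - 1)) (not_le.2 i3)
    obtain ⟨p, p1, p2, p3⟩ := exists_descent hab hlt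
    obtain ⟨q, q1, q2, q3⟩ := exists_ascent hbi ((hmin i).trans_lt i3)
    obtain ⟨r, r1, r2, r3⟩ := exists_ascent (D := D) hia (by
      rw [hper]; exact i3.trans_le (hmax (i - 1)))
    exact (hwin p q i r p1 (by omega) (by omega) (by omega) r2).1 ⟨p3, q3, i3, r3⟩

/-- The sign lemma for periodically indexed polygons. -/
lemma main_periodic {k : ℤ} {L Φ Φ' : ℤ → ℝ} (h : IsPoly k L Φ) (h' : IsPoly k L Φ')
    (hno : ∀ p1 p2 p3 p4 : ℤ, 0 ≤ p1 → p1 < p2 → p2 < p3 → p3 < p4 → p4 < k →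
      ¬ ((Φ' p1 - Φ' (p1 - 1) < Φ p1 - Φ (p1 - 1) ∧ Φ p2 - Φ (p2 - 1) < Φ' p2 - Φ' (p2 - 1) ∧
          Φ' p3 - Φ' (p3 - 1) < Φ p3 - Φ (p3 - 1) ∧ Φ p4 - Φ (p4 - 1) < Φ' p4 - Φ' (p4 - 1)) ∨
        (Φ p1 - Φ (p1 - 1) < Φ' p1 - Φ' (p1 - 1) ∧ Φ' p2 - Φ' (p2 - 1) < Φ p2 - Φ (p2 - 1) ∧
          Φ p3 - Φ (p3 - 1) < Φ' p3 - Φ' (p3 - 1) ∧ Φ' p4 - Φ' (p4 - 1) < Φ p4 - Φ (p4 - 1)))) :
    ∀ n, Φ' n - Φ' (n - 1) = Φ n - Φ (n - 1) := by
  have hk := h.three_le
  have hper : ∀ n, (fun n => Φ' n - Φ n) (n + k) = (fun n => Φ' n - Φ n) n := fun n => by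
    show Φ' (n + k) - Φ (n + k) = Φ' n - Φ n
    rw [h.turn, h'.turn]; ring
  have e1 : ∀ p, (Φ' p - Φ p < Φ' (p - 1) - Φ (p - 1)) ↔
      (Φ' p - Φ' (p - 1) < Φ p - Φ (p - 1)) := fun p => by constructor <;> intro h <;> linarith
  have e2 : ∀ p, (Φ' (p - 1) - Φ (p - 1) < Φ' p - Φ p) ↔
      (Φ p - Φ (p - 1) < Φ' p - Φ' (p - 1)) := fun p => by constructor <;> intro h <;> linarith
  rcases unimodal (D := fun n => Φ' n - Φ n) (by omega) hper (by
    intro p1 p2 p3 p4 h0 h1 h2 h3 h4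
    simp only [e1, e2]
    exact hno p1 p2 p3 p4 h0 h1 h2 h3 h4) with hc | ⟨a, b, hab, hbk, hlt, _, _, m1, m2⟩
  · intro n
    have h1 : Φ' n - Φ n = Φ' 0 - Φ 0 := hc n
    have h2 : Φ' (n - 1) - Φ (n - 1) = Φ' 0 - Φ 0 := hc (n - 1)
    linarith
  · have := h.two_arcs h' hab hbk m1 m2
    exact absurd this hlt.ne'

/-- Residue of an integer as an element of `Fin k`. -/
def res (k : ℕ) (hk : 0 < k) (n : ℤ) : Fin k :=
  ⟨(n % k).toNat, by
    have h1 := Int.emod_nonneg n (show (k : ℤ) ≠ 0 by omega)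
    have h2 := Int.emod_lt_of_pos n (show (0 : ℤ) < k by omega)
    omega⟩

/-- Quasi-periodic extension of the directions. -/
noncomputable def ext' (k : ℕ) (hk : 0 < k) (φ : Fin k → ℝ) (n : ℤ) : ℝ :=
  φ (res k hk n) + 2 * π * ((n / k : ℤ) : ℝ)

lemma res_cast {k : ℕ} (hk : 0 < k) (i : Fin k) : res k hk (i : ℕ) = i := by
  apply Fin.ext
  simp only [res]
  have h2 := i.2
  have : ((i : ℕ) : ℤ) % (k : ℤ) = (i : ℕ) := Int.emod_eq_of_lt (by omega) (by omega)
  rw [this]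
  simp

lemma res_add {k : ℕ} (hk : 0 < k) (n : ℤ) : res k hk (n + k) = res k hk n := by
  apply Fin.ext
  simp only [res, Int.add_emod_right]

lemma ext'_cast {k : ℕ} (hk : 0 < k) (φ : Fin k → ℝ) (i : Fin k) :
    ext' k hk φ (i : ℕ) = φ i := by
  rw [ext', res_cast]
  have h2 := i.2
  have : ((i : ℕ) : ℤ) / (k : ℤ) = 0 := Int.ediv_eq_zero_of_lt (by omega) (by omega)
  rw [this]
  simp

lemma ext'_add {k : ℕ} (hk : 0 < k) (φ : Fin k → ℝ) (n : ℤ) :
    ext' k hk φ (n + k) = ext' k hk φ n + 2 * π := by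
  rw [ext', ext', res_add, Int.add_ediv_of_dvd_right (dvd_refl _), Int.ediv_self (by omega)]
  push_cast
  ring

lemma ext'_neg_one {k : ℕ} (hk : 0 < k) (φ : Fin k → ℝ) :
    ext' k hk φ (-1) = φ ⟨k - 1, by omega⟩ - 2 * π := by
  have h1 := ext'_add hk φ (-1)
  have h2 := ext'_cast hk φ ⟨k - 1, by omega⟩
  have e : (-1 + (k : ℤ)) = (((⟨k - 1, by omega⟩ : Fin k) : ℕ) : ℤ) := by
    simp only; omega
  rw [e, h2] at h1
  linarith

lemma res_mul_add {k : ℕ} (hk : 0 < k) (i : Fin k) (q : ℤ) :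
    res k hk ((i : ℕ) + k * q) = i := by
  apply Fin.ext
  have h2 := i.2
  simp only [res, Int.add_mul_emod_self_left]
  rw [Int.emod_eq_of_lt (by omega) (by omega)]
  simp

lemma ext'_mul_add {k : ℕ} (hk : 0 < k) (φ : Fin k → ℝ) (i : Fin k) (q : ℤ) :
    ext' k hk φ ((i : ℕ) + k * q) = φ i + 2 * π * q := by
  have h2 := i.2
  rw [ext', res_mul_add, Int.add_mul_ediv_left _ _ (by omega),
    Int.ediv_eq_zero_of_lt (by omega) (by omega), zero_add]

lemma eq_mul_add {k : ℕ} (hk : 0 < k) (n : ℤ) : n = ((res k hk n : ℕ) : ℤ) + k * (n / k) := by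
  have hm0 := Int.emod_nonneg n (show (k : ℤ) ≠ 0 by omega)
  have hdm := Int.emod_add_mul_ediv n k
  have : ((res k hk n : ℕ) : ℤ) = n % k := by simp only [res]; omega
  rw [this, hdm]

lemma ext'_strictMono {k : ℕ} (hk : 0 < k) {φ : Fin k → ℝ} (hφ : StrictMono φ)
    (h2 : φ ⟨k - 1, by omega⟩ < φ ⟨0, hk⟩ + 2 * π) : StrictMono (ext' k hk φ) := by
  apply strictMono_int_of_lt_succ
  intro n
  have e := eq_mul_add hk n
  generalize res k hk n = i at e
  generalize n / (k : ℤ) = q at e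
  subst e
  have hi := i.2
  rcases lt_or_ge ((i : ℕ) + 1) k with h | h
  · have e1 : ((i : ℕ) : ℤ) + k * q + 1 = (((⟨i + 1, h⟩ : Fin k) : ℕ) : ℤ) + k * q := by
      push_cast; ring
    rw [e1, ext'_mul_add, ext'_mul_add]
    have : φ i < φ ⟨i + 1, h⟩ := hφ (Fin.lt_def.2 (Nat.lt_succ_self _))
    linarith
  · have e1 : ((i : ℕ) : ℤ) + k * q + 1 = (((⟨0, hk⟩ : Fin k) : ℕ) : ℤ) + k * (q + 1) := by
      have : ((i : ℕ) : ℤ) + 1 = k := by omega
      push_cast
      linarith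
    rw [e1, ext'_mul_add, ext'_mul_add]
    have : i = ⟨k - 1, by omega⟩ := Fin.ext (by simp only; omega)
    rw [this]
    push_cast
    linarith

lemma sum_window {k : ℕ} (hk : 0 < k) {f : ℤ → ℂ} (hf : ∀ n, f (n + k) = f n)
    (h0 : ∑ i : Fin k, f (i : ℕ) = 0) (m : ℤ) : ∑ n ∈ Ico m (m + k), f n = 0 := by
  have hstep : ∀ m : ℤ, ∑ n ∈ Ico (m + 1) (m + 1 + k), f n = ∑ n ∈ Ico m (m + k), f n := by
    intro m
    have e1 : Ico m (m + k) = insert m (Ico (m + 1) (m + k)) := by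
      ext n; simp only [mem_Ico, mem_insert]; omega
    have e2 : Ico (m + 1) (m + 1 + k) = insert (m + k) (Ico (m + 1) (m + k)) := by
      ext n; simp only [mem_Ico, mem_insert]; omega
    rw [e1, e2, sum_insert (by simp), sum_insert (by simp), hf]
  have hbase : ∑ n ∈ Ico (0 : ℤ) (0 + k), f n = 0 := by
    rw [← h0]
    symm
    refine sum_bij (fun (i : Fin k) _ => ((i : ℕ) : ℤ)) ?_ ?_ ?_ ?_
    · intro i _
      have := i.2
      rw [mem_Ico]; omega
    · intro i _ j _ hij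
      apply Fin.ext
      exact_mod_cast hij
    · intro n hn
      rw [mem_Ico] at hn
      refine ⟨⟨n.toNat, by omega⟩, mem_univ _, ?_⟩
      simp only; omega
    · intro i _; rfl
  induction m with
  | zero => exact hbase
  | succ j ih => rw [hstep]; exact ih
  | pred j ih =>
    rw [← hstep]
    have e : (-(j : ℤ) - 1 + 1) = -(j : ℤ) := by ring
    rw [e]
    exact ih

lemma isPoly {k : ℕ} (hk : 3 ≤ k) {l φ : Fin k → ℝ} (hl : ∀ i, 0 < l i) (hφ : StrictMono φ)
    (h2 : φ ⟨k - 1, by omega⟩ < φ ⟨0, by omega⟩ + 2 * π)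
    (hs : ∑ i, (l i : ℂ) * Complex.exp (φ i * Complex.I) = 0) :
    IsPoly k (fun n => l (res k (by omega) n)) (ext' k (by omega) φ) where
  three_le := by exact_mod_cast hk
  pos n := hl _
  per n := by simp only [res_add]
  mono := ext'_strictMono _ hφ h2
  turn := ext'_add _ φ
  closed := by
    apply sum_window (by omega : 0 < k)
    · intro n
      simp only [res_add, ext'_add]
      push_cast
      rw [add_mul, Complex.exp_add, Complex.exp_two_pi_mul_I, mul_one]
    · rw [← hs]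
      refine sum_congr rfl fun i _ => ?_
      rw [res_cast, ext'_cast, Complex.real_smul]

end PolygonSign

/-- The exterior angle at the vertex preceding side `i` of a convex polygon whose sides have the
directions `φ 0 < φ 1 < ... < φ (k - 1) < φ 0 + 2 π`. -/
noncomputable def extAngle {k : ℕ} (hk : 3 ≤ k) (φ : Fin k → ℝ) (i : Fin k) : ℝ :=
  if (i : ℕ) = 0 then φ ⟨0, by omega⟩ + 2 * π - φ ⟨k - 1, by omega⟩
  else φ i - φ ⟨i - 1, by omega⟩

open PolygonSign

lemma extAngle_eq {k : ℕ} (hk : 3 ≤ k) (φ : Fin k → ℝ) (i : Fin k) :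
    extAngle hk φ i = ext' k (by omega) φ (i : ℕ) - ext' k (by omega) φ ((i : ℕ) - 1) := by
  unfold extAngle
  rw [ext'_cast]
  split_ifs with h
  · have e : (((i : ℕ) : ℤ) - 1) = -1 := by omega
    have hi : i = ⟨0, by omega⟩ := Fin.ext h
    rw [e, ext'_neg_one, ← hi]
    ring
  · have e : (((i : ℕ) : ℤ) - 1) = (((⟨i - 1, by omega⟩ : Fin k) : ℕ) : ℤ) := by
      simp only; omega
    rw [e, ext'_cast]

/-- The exterior angles lie in `(0, π)`. -/
theorem extAngle_mem {k : ℕ} (hk : 3 ≤ k) {l φ : Fin k → ℝ} (hl : ∀ i, 0 < l i)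
    (hφ : StrictMono φ) (h2 : φ ⟨k - 1, by omega⟩ < φ ⟨0, by omega⟩ + 2 * π)
    (hs : ∑ i, (l i : ℂ) * Complex.exp (φ i * Complex.I) = 0) (i : Fin k) :
    0 < extAngle hk φ i ∧ extAngle hk φ i < π := by
  have h := isPoly hk hl hφ h2 hs
  rw [extAngle_eq]
  refine ⟨?_, h.ext_lt_pi _⟩
  have := h.mono (show ((i : ℕ) : ℤ) - 1 < (i : ℕ) by omega)
  linarith

/-- **Cauchy-Legendre sign lemma for convex polygons with equal sides.** -/
theorem polygon_sign {k : ℕ} (hk : 3 ≤ k) {l φ φ' : Fin k → ℝ} (hl : ∀ i, 0 < l i)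
    (hφ : StrictMono φ) (hφ' : StrictMono φ')
    (h2 : φ ⟨k - 1, by omega⟩ < φ ⟨0, by omega⟩ + 2 * π)
    (h2' : φ' ⟨k - 1, by omega⟩ < φ' ⟨0, by omega⟩ + 2 * π)
    (hs : ∑ i, (l i : ℂ) * Complex.exp (φ i * Complex.I) = 0)
    (hs' : ∑ i, (l i : ℂ) * Complex.exp (φ' i * Complex.I) = 0)
    {s : Fin k → SignType}
    (hsgn : ∀ i, s i = SignType.sign (cos (extAngle hk φ' i) - cos (extAngle hk φ i)))
    (halt : ¬ ∃ a b c d : Fin k, a < b ∧ b < c ∧ c < d ∧
      ((s a = 1 ∧ s b = -1 ∧ s c = 1 ∧ s d = -1) ∨ (s a = -1 ∧ s b = 1 ∧ s c = -1 ∧ s d = 1))) :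
    ∀ i, extAngle hk φ' i = extAngle hk φ i := by
  have h := isPoly hk hl hφ h2 hs
  have h' := isPoly hk hl hφ' h2' hs'
  have m := extAngle_mem hk hl hφ h2 hs
  have m' := extAngle_mem hk hl hφ' h2' hs'
  have s1 : ∀ i, extAngle hk φ' i < extAngle hk φ i → s i = 1 := fun i hi => by
    rw [hsgn, sign_eq_one_iff, sub_pos]
    exact cos_lt_cos_of_nonneg_of_le_pi (m' i).1.le (m i).2.le hi
  have s2 : ∀ i, extAngle hk φ i < extAngle hk φ' i → s i = -1 := fun i hi => by
    rw [hsgn, sign_eq_neg_one_iff, sub_neg]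
    exact cos_lt_cos_of_nonneg_of_le_pi (m i).1.le (m' i).2.le hi
  have key := main_periodic h h' (by
    intro p1 p2 p3 p4 q0 q1 q2 q3 q4 hcon
    obtain ⟨a, rfl⟩ : ∃ a : Fin k, ((a : ℕ) : ℤ) = p1 := ⟨⟨p1.toNat, by omega⟩, by simp only; omega⟩
    obtain ⟨b, rfl⟩ : ∃ a : Fin k, ((a : ℕ) : ℤ) = p2 := ⟨⟨p2.toNat, by omega⟩, by simp only; omega⟩
    obtain ⟨c, rfl⟩ : ∃ a : Fin k, ((a : ℕ) : ℤ) = p3 := ⟨⟨p3.toNat, by omega⟩, by simp only; omega⟩
    obtain ⟨d, rfl⟩ : ∃ a : Fin k, ((a : ℕ) : ℤ) = p4 := ⟨⟨p4.toNat, by omega⟩, by simp only; omega⟩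
    simp only [← extAngle_eq hk] at hcon
    refine halt ⟨a, b, c, d, ?_, ?_, ?_, ?_⟩
    · rw [Fin.lt_def]; omega
    · rw [Fin.lt_def]; omega
    · rw [Fin.lt_def]; omega
    · rcases hcon with ⟨t1, t2, t3, t4⟩ | ⟨t1, t2, t3, t4⟩
      · exact Or.inl ⟨s1 a t1, s2 b t2, s1 c t3, s2 d t4⟩
      · exact Or.inr ⟨s2 a t1, s1 b t2, s2 c t3, s1 d t4⟩)
  intro i
  rw [extAngle_eq, extAngle_eq]
  exact key _

end Pool.Agent.Work.MP_43c1cf_co
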