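import Pool.Agent.Work.MP_43c1cf_co.LorAlg

/-!
# Basic facts on scribed configurations: edges, null vectors, facet normals, isometries
-/

set_option autoImplicit false

namespace Pool.Agent.Work.MP_43c1cf_co

open Module

variable {ι X : Type*} [AddCommGroup X] [Module ℝ X] {B : X →ₗ[ℝ] X →ₗ[ℝ] ℝ} {o : X}
  {u : ι → X} {J T R F G E : Finset ι}

lemma Lor.add_self (h : Lor B o) (p q : X) :
    B (p + q) (p + q) = B p p + B q q + 2 * B p q := by
  simp only [map_add, LinearMap.add_apply]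
  rw [h.symm q p]; ring

lemma Scribed.empty (h : Scribed B o u J) : IsFace u J ∅ :=
  ⟨Finset.empty_subset _, -(B o), fun i hi => by
    have := h.fut i hi; simp; linarith, fun i hi => by
    have := h.fut i hi; simp; linarith⟩

lemma Scribed.cov_single (h : Scribed B o u J) {i : ι} (hi : i ∈ J) : Cov u J ∅ {i} := by
  refine ⟨h.empty, h.vert i hi, ?_, ?_⟩
  · rw [Finset.ssubset_iff_subset_ne]
    exact ⟨Finset.empty_subset _, (Finset.singleton_ne_empty i).symm⟩
  · intro R hR h1 h2
    rcases Finset.subset_singleton_iff.1 h2 with h3 | h3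
    · subst h3; exact absurd h1 (by simp)
    · exact h3

lemma Scribed.rk_single (h : Scribed B o u J) {i : ι} (hi : i ∈ J) : rk u {i} = 1 := by
  have := (h.cov_single hi).rk_eq
  rw [rk_empty] at this
  omega

lemma Scribed.rk_J [FiniteDimensional ℝ X] (h : Scribed B o u J) : rk u J = finrank ℝ X := by
  rw [rk, h.span]; exact finrank_top ℝ X

/-- A cover of a vertex is an edge. -/
lemma Scribed.cov_vertex (h : Scribed B o u J) {i : ι} (hR : Cov u J {i} R) :
    ∃ j, j ≠ i ∧ j ∈ R ∧ ∀ k, k ∈ R ↔ k = i ∨ k = j := by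
  classical
  have hi : i ∈ J := hR.left.1 (Finset.mem_singleton_self i)
  obtain ⟨R', hne, h1, h2, h3⟩ := diamond_exists (h.cov_single hi) hR
  obtain ⟨j, hj, hji⟩ := Finset.exists_of_ssubset hR.ss
  rw [Finset.mem_singleton] at hji
  refine ⟨j, hji, hj, fun k => ⟨fun hk => ?_, ?_⟩⟩
  · by_cases hki : k = i
    · exact Or.inl hki
    right
    have hiR : i ∈ R := hR.sub (Finset.mem_singleton_self i)
    have hs : ∀ l ∈ R, l ≠ i → ({l} : Finset ι) = R' := by
      intro l hl hli
      have := h3 {l} (h.vert l (hR.right.1 hl)) (by simp) (by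
        rw [Finset.ssubset_iff_of_subset (Finset.singleton_subset_iff.2 hl)]
        exact ⟨i, hiR, by simpa using fun e => hli e.symm⟩)
      rcases this with h4 | h4
      · exact absurd (Finset.singleton_injective h4) hli
      · exact h4
    exact Finset.singleton_injective ((hs k hk hki).trans (hs j hj hji).symm)
  · rintro (rfl | rfl)
    · exact hR.sub (Finset.mem_singleton_self _)
    · exact hj

lemma Scribed.cov_vertex_edge (h : Scribed B o u J) {i : ι} (hR : Cov u J {i} R) :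
    ∃ j, j ≠ i ∧ j ∈ J ∧ (∀ k, k ∈ R ↔ k = i ∨ k = j) ∧ B (u i) (u j) = -1 := by
  classical
  obtain ⟨j, hj, hjR, hR2⟩ := h.cov_vertex hR
  refine ⟨j, hj, hR.right.1 hjR, hR2, ?_⟩
  have hRe : R = {i, j} := by ext k; simp [hR2]
  exact h.edge R hR.right (by rw [hRe]; exact Finset.card_pair hj.symm) i
    (hR.sub (Finset.mem_singleton_self i)) j hjR hj.symm

/-- the null vector of an edge -/
lemma Scribed.null (h : Scribed B o u J) {i j : ι} (hi : i ∈ J) (hj : j ∈ J)
    (hij : B (u i) (u j) = -1) :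
    B (u i + u j) (u i + u j) = 0 ∧ B o (u i + u j) < 0 := by
  constructor
  · simp only [map_add, LinearMap.add_apply, h.unit i hi, h.unit j hj, hij,
      h.lor.symm (u j) (u i)]
    norm_num
  · rw [map_add]
    have := h.fut i hi; have := h.fut j hj
    linarith

/-- Two different edges at a vertex have null vectors with negative product. -/
lemma Scribed.null_neg (h : Scribed B o u J) {i j k : ι} (hi : i ∈ J) (hj : j ∈ J) (hk : k ∈ J)
    (hij : B (u i) (u j) = -1) (hik : B (u i) (u k) = -1) (hR : IsFace u J R) (hiR : i ∈ R)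
    (hjR : j ∈ R) (hkR : k ∉ R) : B (u i + u j) (u i + u k) < 0 := by
  obtain ⟨a1, a2⟩ := h.null hi hj hij
  obtain ⟨b1, b2⟩ := h.null hi hk hik
  refine h.lor.neg_of_not_prop a1.le b1.le a2 b2 ?_
  intro t ht
  obtain ⟨φ, hφ, hφR, hφpos, hφ0⟩ := hR.exists_pos
  have e := congrArg φ ht
  simp only [map_add, map_smul, hφR i hiR, hφR j hjR] at e
  have := hφpos k hk hkR
  simp at e
  linarith

/-- The null vector of an edge is negative on all other vertices. -/
lemma Scribed.edge_neg (h : Scribed B o u J) {i j : ι} (hE : Cov u J {i} E)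
    (hj : ∀ k, k ∈ E ↔ k = i ∨ k = j) (hji : j ≠ i) {a : ι} (ha : a ∈ J) (haE : a ∉ E) :
    B (u i + u j) (u a) < 0 := by
  classical
  have hiE : i ∈ E := (hj i).2 (Or.inl rfl)
  have hjE : j ∈ E := (hj j).2 (Or.inr rfl)
  have hiJ := hE.right.1 hiE
  have hjJ := hE.right.1 hjE
  have hcard : E.card = 2 := by
    have : E = {i, j} := by ext k; simp [hj]
    rw [this]; exact Finset.card_pair hji.symm
  have hij : B (u i) (u j) = -1 := h.edge E hE.right hcard i hiE j hjE hji.symm
  have hvan : ∀ k ∈ E, (-(B (u i + u j))) (u k) = 0 := by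
    intro k hk
    rcases (hj k).1 hk with rfl | rfl
    · simp [h.unit _ hiJ, h.lor.symm (u j) _, hij]
    · simp [h.unit _ hjJ, hij]
  have := local_global_pos hE.right (ψ := -(B (u i + u j))) hvan ?_ a ha haE
  · rw [LinearMap.neg_apply] at this; linarith
  intro G hG
  -- the other edge at i inside G
  obtain ⟨E', hne, hE', hE'G, -⟩ := diamond_exists hE hG
  obtain ⟨k, hki, hkJ, hk, hik⟩ := h.cov_vertex_edge hE'
  have hkE : k ∉ E := by
    intro hkE
    rcases (hj k).1 hkE with h1 | h1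
    · exact hki h1
    · subst h1
      apply hne
      ext l; rw [hk, hj]
  refine ⟨k, hE'G.sub ((hk k).2 (Or.inr rfl)), hkE, ?_⟩
  have e1 := h.null_neg hiJ hjJ hkJ hij hik hE.right hiE hjE hkE
  have e2 : B (u i + u j) (u i) = 0 := by
    have := hvan i hiE; rw [LinearMap.neg_apply] at this; linarith
  rw [map_add, e2, zero_add] at e1
  rw [LinearMap.neg_apply]; linarith

/-- Every face of rank at least three contains a future timelike vector in its span. -/
lemma Scribed.timelike (h : Scribed B o u J) (hT : IsFace u J T) (hrk : 3 ≤ rk u T) :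
    ∃ τ ∈ sp u T, B τ τ < 0 ∧ B o τ < 0 := by
  classical
  have hne : (∅ : Finset ι) ≠ T := by rintro rfl; rw [rk_empty] at hrk; omega
  obtain ⟨i, hi⟩ := Finset.nonempty_iff_ne_empty.2 hne.symm
  have hiJ := hT.1 hi
  have h1 : ({i} : Finset ι) ⊂ T := by
    rw [Finset.ssubset_iff_subset_ne]
    refine ⟨Finset.singleton_subset_iff.2 hi, ?_⟩
    rintro rfl
    rw [h.rk_single hiJ] at hrk; omega
  obtain ⟨E, hE, hET⟩ := exists_cov_le (h.vert i hiJ) hT h1
  have h2 : E ⊂ T := by
    rw [Finset.ssubset_iff_subset_ne]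
    refine ⟨hET, ?_⟩
    rintro rfl
    have := hE.rk_eq
    rw [h.rk_single hiJ] at this; omega
  obtain ⟨G, hG, hGT⟩ := exists_cov_le hE.right hT h2
  obtain ⟨E', hne', hE', hE'G, -⟩ := diamond_exists hE hG
  obtain ⟨j, hji, hjJ, hj, hij⟩ := h.cov_vertex_edge hE
  obtain ⟨k, hki, hkJ, hk, hik⟩ := h.cov_vertex_edge hE'
  have hiE : i ∈ E := (hj i).2 (Or.inl rfl)
  have hjE : j ∈ E := (hj j).2 (Or.inr rfl)
  have hkE' : k ∈ E' := (hk k).2 (Or.inr rfl)
  have hkE : k ∉ E := by
    intro hkE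
    rcases (hj k).1 hkE with h1 | h1
    · exact hki h1
    · subst h1
      apply hne'
      ext l; rw [hk, hj]
  have e1 := h.null_neg hiJ hjJ hkJ hij hik hE.right hiE hjE hkE
  obtain ⟨a1, a2⟩ := h.null hiJ hjJ hij
  obtain ⟨b1, b2⟩ := h.null hiJ hkJ hik
  refine ⟨(u i + u j) + (u i + u k), ?_, ?_, ?_⟩
  · refine Submodule.add_mem _ (Submodule.add_mem _ (mem_sp hi) (mem_sp (hET hjE)))
      (Submodule.add_mem _ (mem_sp hi) (mem_sp (hGT (hE'G.sub hkE'))))
  · rw [h.lor.add_self, a1, b1]; linarith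
  · rw [map_add]; linarith

/-- Facet normals. -/
lemma Scribed.normal [FiniteDimensional ℝ X] (h : Scribed B o u J) (hn : 4 ≤ finrank ℝ X)
    (hF : Cov u J F J) :
    ∃ m : X, B m m = 1 ∧ (∀ i ∈ F, B m (u i) = 0) ∧ (∀ i ∈ J, i ∉ F → B m (u i) < 0) := by
  have hrk : 3 ≤ rk u F := by
    have := hF.rk_eq; rw [h.rk_J] at this; omega
  obtain ⟨τ, hτ, hττ, -⟩ := h.timelike hF.left hrk
  obtain ⟨φ, hφ, hφF, hφpos, -⟩ := hF.left.exists_pos
  obtain ⟨m, hm⟩ := h.lor.repr (-φ)
  obtain ⟨a, ha, haF⟩ := Finset.exists_of_ssubset hF.ss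
  have hm0 : m ≠ 0 := by
    rintro rfl
    have := hm (u a)
    have := hφpos a ha haF
    simp at *
    linarith
  have hmτ : B τ m = 0 := by
    rw [h.lor.symm, ← hm]
    simpa using vanish_sp hφF hτ
  have hmm := h.lor.pos_of_orth hττ hmτ hm0
  set s := Real.sqrt (B m m) with hs
  have hs0 : 0 < s := Real.sqrt_pos.2 hmm
  have hs2 : s * s = B m m := Real.mul_self_sqrt hmm.le
  refine ⟨s⁻¹ • m, ?_, ?_, ?_⟩
  · simp only [map_smul, LinearMap.smul_apply, smul_eq_mul]
    rw [← hs2]; field_simp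
  · intro i hi
    simp only [map_smul, LinearMap.smul_apply, smul_eq_mul, ← hm, LinearMap.neg_apply, hφF i hi]
    simp
  · intro i hi hiF
    simp only [map_smul, LinearMap.smul_apply, smul_eq_mul, ← hm, LinearMap.neg_apply]
    have := hφpos i hi hiF
    have := mul_pos (inv_pos.2 hs0) this
    linarith

/-- span of a facet and its normal. -/
lemma span_facet_normal [FiniteDimensional ℝ X] (hJ : sp u J = ⊤) (hF : Cov u J F J) {m : X}
    (hmm : B m m = 1) (hm : ∀ i ∈ F, B m (u i) = 0) : sp u F ⊔ Submodule.span ℝ {m} = ⊤ := by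
  have hmF : m ∉ sp u F := by
    intro hmem
    have := vanish_sp (ψ := B m) hm hmem
    linarith
  have h1 : sp u F < sp u F ⊔ Submodule.span ℝ {m} := by
    refine lt_of_le_of_ne le_sup_left ?_
    intro e
    exact hmF (e ▸ Submodule.mem_sup_right (Submodule.mem_span_singleton_self m))
  have h2 := Submodule.finrank_lt_finrank_of_lt h1
  have h3 := hF.rk_eq
  rw [rk, rk, hJ, finrank_top] at h3
  exact Submodule.eq_top_of_finrank_eq (le_antisymm (Submodule.finrank_le _) (by omega))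

/-- The isometry attached to a facet. -/
lemma facet_isom [FiniteDimensional ℝ X] {X' : Type*} [AddCommGroup X'] [Module ℝ X']
    [FiniteDimensional ℝ X']
    {B' : X' →ₗ[ℝ] X' →ₗ[ℝ] ℝ} {o' : X'} {u' : ι → X'} (h : Scribed B o u J)
    (h' : Scribed B' o' u' J) (hF : Cov u J F J) (hF' : Cov u' J F J)
    (hG : ∀ i ∈ F, ∀ j ∈ F, B (u i) (u j) = B' (u' i) (u' j))
    {m : X} (hmm : B m m = 1) (hm : ∀ i ∈ F, B m (u i) = 0)
    {m' : X'} (hmm' : B' m' m' = 1) (hm' : ∀ i ∈ F, B' m' (u' i) = 0) :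
    ∃ M : X →ₗ[ℝ] X', (∀ i ∈ F, M (u i) = u' i) ∧ M m = m' ∧ ∀ z w, B' (M z) (M w) = B z w := by
  have s1 := span_facet_normal h.span hF hmm hm
  have s2 := span_facet_normal h'.span hF' hmm' hm'
  obtain ⟨A, hA, hA2⟩ := exists_isom (κ := Option F) (B := B) (B' := B')
    (fun k => Option.elim k m (fun i => u i)) (fun k => Option.elim k m' (fun i => u' i))
    (by
      rw [eq_top_iff, ← s1]
      refine sup_le (sp_le ?_) ?_
      · intro i hi
        exact Submodule.subset_span ⟨some ⟨i, hi⟩, rfl⟩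
      · rw [Submodule.span_singleton_le_iff_mem]
        exact Submodule.subset_span ⟨none, rfl⟩)
    (by
      rw [eq_top_iff, ← s2]
      refine sup_le (sp_le ?_) ?_
      · intro i hi
        exact Submodule.subset_span ⟨some ⟨i, hi⟩, rfl⟩
      · rw [Submodule.span_singleton_le_iff_mem]
        exact Submodule.subset_span ⟨none, rfl⟩)
    (fun z hz => h'.lor.nondeg hz) 1
    (by
      rintro (_ | i) (_ | j)
      · simp [hmm, hmm']
      · simp [hm j j.2, hm' j j.2]
      · simp [h.lor.symm _ m, h'.lor.symm _ m', hm i i.2, hm' i i.2]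
      · simp [hG i i.2 j j.2])
  refine ⟨A, fun i hi => hA (some ⟨i, hi⟩), hA none, fun z w => by rw [hA2, one_mul]⟩

/-- unit outer normals of facets -/
def IsNormal {ι X : Type*} [AddCommGroup X] [Module ℝ X] (B : X →ₗ[ℝ] X →ₗ[ℝ] ℝ) (u : ι → X)
    (J F : Finset ι) (m : X) : Prop :=
  B m m = 1 ∧ (∀ i ∈ F, B m (u i) = 0) ∧ ∀ i ∈ J, i ∉ F → B m (u i) < 0

end Pool.Agent.Work.MP_43c1cf_co
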