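import Pool.Agent.Work.MP_43c1cf_co.Scr

/-!
# Facets of scribed configurations are scribed
-/

set_option autoImplicit false

namespace Pool.Agent.Work.MP_43c1cf_co

open Module

section subconf

variable {ι X : Type*} [AddCommGroup X] [Module ℝ X] {B : X →ₗ[ℝ] X →ₗ[ℝ] ℝ} {o : X}
  {u : ι → X} {J T F : Finset ι}

open Classical in
/-- The vectors of `F` as elements of their span. -/
noncomputable def uY (u : ι → X) (F : Finset ι) (i : ι) : sp u F :=
  if h : i ∈ F then ⟨u i, mem_sp h⟩ else 0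

lemma uY_coe {i : ι} (h : i ∈ F) : ((uY u F i : sp u F) : X) = u i := by
  unfold uY; rw [dif_pos h]

lemma isFace_uY : IsFace (uY u F) F T ↔ IsFace u F T := by
  constructor
  · rintro ⟨h1, φ, h2, h3⟩
    obtain ⟨g, hg⟩ := LinearMap.exists_extend φ
    have hg' : ∀ i ∈ F, g (u i) = φ (uY u F i) := by
      intro i hi
      rw [← hg, LinearMap.comp_apply, Submodule.subtype_apply, uY_coe hi]
    exact ⟨h1, g, fun i hi => by rw [hg' i hi]; exact h2 i hi,
      fun i hi => by rw [hg' i hi]; exact h3 i hi⟩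
  · rintro ⟨h1, φ, h2, h3⟩
    have hg' : ∀ i ∈ F, (φ ∘ₗ (sp u F).subtype) (uY u F i) = φ (u i) := by
      intro i hi
      rw [LinearMap.comp_apply, Submodule.subtype_apply, uY_coe hi]
    exact ⟨h1, φ ∘ₗ (sp u F).subtype, fun i hi => by rw [hg' i hi]; exact h2 i hi,
      fun i hi => by rw [hg' i hi]; exact h3 i hi⟩

lemma sp_uY : sp (uY u F) F = ⊤ := by
  apply Submodule.map_injective_of_injective (sp u F).injective_subtype
  rw [Submodule.map_subtype_top]
  have h1 : Submodule.map (sp u F).subtype (sp (uY u F) F)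
      = Submodule.span ℝ ((sp u F).subtype '' (uY u F '' (F : Set ι))) := Submodule.map_span _ _
  rw [h1]
  have h2 : (sp u F).subtype '' (uY u F '' (F : Set ι)) = u '' (F : Set ι) := by
    rw [Set.image_image]
    refine Set.image_congr (fun i hi => ?_)
    exact uY_coe hi
  rw [h2]
  rfl

/-- A facet of a scribed configuration is scribed in its span. -/
lemma Scribed.facet [FiniteDimensional ℝ X] (h : Scribed B o u J) (hn : 4 ≤ finrank ℝ X)
    (hF : Cov u J F J) :
    ∃ oY : sp u F, Scribed (B.domRestrict₁₂ (sp u F) (sp u F)) oY (uY u F) F := by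
  obtain ⟨m, hmm, hmF, -⟩ := h.normal hn hF
  have hs := span_facet_normal h.span hF hmm hmF
  have ho : o ∈ sp u F ⊔ Submodule.span ℝ {m} := by rw [hs]; trivial
  rw [Submodule.mem_sup] at ho
  obtain ⟨y, hy, z, hz, hyz⟩ := ho
  obtain ⟨t, rfl⟩ := Submodule.mem_span_singleton.1 hz
  have hmy : B m y = 0 := vanish_sp hmF hy
  have ht : B o m = t := by
    rw [h.lor.symm, ← hyz, map_add, map_smul, hmm, hmy]; simp
  have hoy : o - B o m • m = y := by
    rw [ht, ← hyz]; simp
  obtain ⟨p1, p2, p3⟩ := h.lor.proj (m := m) hmm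
  rw [hoy] at p1 p2 p3
  refine ⟨⟨y, hy⟩, ?_, sp_uY, ?_, ?_, ?_, ?_⟩
  · refine ⟨fun a b => ?_, ?_, fun a ha ha0 => ?_⟩
    · rw [LinearMap.domRestrict₁₂_apply, LinearMap.domRestrict₁₂_apply]
      exact h.lor.symm _ _
    · rw [LinearMap.domRestrict₁₂_apply]; exact p1
    · rw [LinearMap.domRestrict₁₂_apply] at ha ⊢
      exact h.lor.pos_of_orth p1 ha (fun e => ha0 (Subtype.ext e))
  · intro i hi
    rw [LinearMap.domRestrict₁₂_apply, uY_coe hi]
    rw [p2 _ (hmF i hi)]
    exact h.fut i (hF.sub hi)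
  · intro i hi
    rw [LinearMap.domRestrict₁₂_apply, uY_coe hi]
    exact h.unit i (hF.sub hi)
  · intro i hi
    rw [isFace_uY]
    exact (h.vert i (hF.sub hi)).restrict hF.sub (Finset.singleton_subset_iff.2 hi)
  · intro T hT hcard i hi j hj hij
    rw [isFace_uY] at hT
    have hiF := hT.1 hi
    have hjF := hT.1 hj
    rw [LinearMap.domRestrict₁₂_apply, uY_coe hiF, uY_coe hjF]
    exact h.edge T (hF.left.trans hT) hcard i hi j hj hij

end subconf

theorem facet_gram {n : ℕ} (hn : 4 ≤ n) (hR : Rigid n) {ι X X' : Type}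
    [AddCommGroup X] [Module ℝ X] [AddCommGroup X'] [Module ℝ X']
    [FiniteDimensional ℝ X] [FiniteDimensional ℝ X']
    {B : X →ₗ[ℝ] X →ₗ[ℝ] ℝ} {B' : X' →ₗ[ℝ] X' →ₗ[ℝ] ℝ} {o : X} {o' : X'}
    {u : ι → X} {u' : ι → X'} {J F : Finset ι}
    (hX : finrank ℝ X = n + 1) (hX' : finrank ℝ X' = n + 1)
    (h : Scribed B o u J) (h' : Scribed B' o' u' J) (hf : ∀ T, IsFace u J T ↔ IsFace u' J T)
    (hF : Cov u J F J) : ∀ i ∈ F, ∀ j ∈ F, B (u i) (u j) = B' (u' i) (u' j) := by
  have hF' : Cov u' J F J := (cov_transport hf).1 hF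
  obtain ⟨oY, hY⟩ := h.facet (by omega) hF
  obtain ⟨oY', hY'⟩ := h'.facet (by omega) hF'
  have r1 : finrank ℝ (sp u F) = n := by
    have := hF.rk_eq
    rw [h.rk_J, hX] at this
    unfold rk at this
    omega
  have r2 : finrank ℝ (sp u' F) = n := by
    have := hF'.rk_eq
    rw [h'.rk_J, hX'] at this
    unfold rk at this
    omega
  have key := hR ι (sp u F) (sp u' F) (B.domRestrict₁₂ (sp u F) (sp u F))
    (B'.domRestrict₁₂ (sp u' F) (sp u' F)) oY oY' (uY u F) (uY u' F) F r1 r2 hY hY' (by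
      intro T
      rw [isFace_uY, isFace_uY, isFace_iff hF.left, isFace_iff hF'.left, hf T])
  intro i hi j hj
  have := key i hi j hj
  rw [LinearMap.domRestrict₁₂_apply, LinearMap.domRestrict₁₂_apply, uY_coe hi, uY_coe hj,
    uY_coe hi, uY_coe hj] at this
  exact this

end Pool.Agent.Work.MP_43c1cf_co
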